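import Pool.Agent.Work.MP_510745_lc.Prime

/-!
The halting set, the order of the c.e. degrees and minimal covers of the degree of a cut.
-/

namespace Pool.Agent.BSig

/-- `H` is a halting set of `M`: it is c.e. and `x ↦ {x : ⟨e, x⟩ ∈ H}` enumerates all the c.e.
sets when `e` runs through `M`. -/
def IsHalting {M : Type} (S : AStr M) (H : M → Prop) : Prop :=
  CE S H ∧ ∀ W : M → Prop, CE S W → ∃ e, ∀ x, W x ↔ H (prS S e x)

/-- `A <_T B`. -/
def LtP {M : Type} (S : AStr M) (A B : M → Prop) : Prop := RedP S A B ∧ ¬ RedP S B A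

/-- The degree of the c.e. set `A` lies in the special region determined by the cut `I` and the
halting set `H`. -/
def InRegion {M : Type} (S : AStr M) (I H A : M → Prop) : Prop :=
  CE S A ∧ RedP S I A ∧ RedP S A H

/-- The degree of the c.e. set `A` is a minimal cover of the degree of `I`. -/
def IsMinCoverP {M : Type} (S : AStr M) (I A : M → Prop) : Prop :=
  CE S A ∧ LtP S I A ∧ ∀ B : M → Prop, CE S B → ¬ (LtP S I B ∧ LtP S B A)

end Pool.Agent.BSig
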