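import Pool.Agent.Work.MP_510745_lc.D0

/-!
Basic facts on binary digits and on the pairing term.
-/

namespace Pool.Agent.BSig

theorem bt_iff (w z : ℕ) : Bt w z ↔ w.testBit z = true := by
  rw [Nat.testBit_eq_decide_div_mod_eq, decide_eq_true_iff]
  constructor
  · rintro ⟨q, -, r, hr, h⟩
    have h2 : w / 2 ^ z = q + q + 1 := by
      rw [h, mul_comm, Nat.mul_add_div (by positivity), Nat.div_eq_of_lt hr]
    omega
  · intro h
    refine ⟨w / 2 ^ z / 2, ?_, w % 2 ^ z, Nat.mod_lt _ (by positivity), ?_⟩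
    · have h1 := Nat.div_le_self w (2 ^ z)
      omega
    · have h1 : w / 2 ^ z / 2 + w / 2 ^ z / 2 + 1 = w / 2 ^ z := by omega
      rw [h1, mul_comm]
      exact (Nat.div_add_mod w (2 ^ z)).symm

theorem Bt.lt {w z : ℕ} (h : Bt w z) : z < w := by
  rw [bt_iff] at h
  have h1 := Nat.ge_two_pow_of_testBit h
  exact lt_of_lt_of_le Nat.lt_two_pow_self h1

theorem Bt.pow_le {w z : ℕ} (h : Bt w z) : 2 ^ z ≤ w := by
  rw [bt_iff] at h
  exact Nat.ge_two_pow_of_testBit h

theorem Bt.lt_of_lt {w z N : ℕ} (h : Bt w z) (hw : w < 2 ^ N) : z < N := by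
  have h1 := h.pow_le
  exact (Nat.pow_lt_pow_iff_right (by norm_num : 1 < 2)).1 (lt_of_le_of_lt h1 hw)

theorem bt_ext {w w' : ℕ} (h : ∀ z, Bt w z ↔ Bt w' z) : w = w' := by
  apply Nat.eq_of_testBit_eq
  intro i
  have := h i
  rw [bt_iff, bt_iff] at this
  exact Bool.eq_iff_iff.2 this

theorem mk_code (N : ℕ) (P : ℕ → Prop) : ∃ w, w < 2 ^ N ∧ ∀ z, Bt w z ↔ (z < N ∧ P z) := by
  classical
  induction N with
  | zero =>
    refine ⟨0, by norm_num, fun z => ?_⟩
    rw [bt_iff]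
    simp
  | succ N ih =>
    obtain ⟨w, hw, h⟩ := ih
    by_cases hP : P N
    · refine ⟨w ||| 2 ^ N, Nat.or_lt_two_pow (lt_trans hw (by
        exact Nat.pow_lt_pow_right (by norm_num) (by omega)))
        (Nat.pow_lt_pow_right (by norm_num) (by omega)), fun z => ?_⟩
      have hz := h z
      rw [bt_iff] at hz ⊢
      rw [Nat.testBit_or, Bool.or_eq_true, hz, Nat.testBit_two_pow, decide_eq_true_iff]
      constructor
      · rintro (⟨h1, h2⟩ | rfl)
        · exact ⟨by omega, h2⟩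
        · exact ⟨by omega, hP⟩
      · rintro ⟨h1, h2⟩
        by_cases hzN : z = N
        · exact Or.inr hzN.symm
        · exact Or.inl ⟨by omega, h2⟩
    · refine ⟨w, lt_trans hw (Nat.pow_lt_pow_right (by norm_num) (by omega)), fun z => ?_⟩
      rw [h z]
      constructor
      · rintro ⟨h1, h2⟩; exact ⟨by omega, h2⟩
      · rintro ⟨h1, h2⟩
        refine ⟨?_, h2⟩
        by_contra h3
        have : z = N := by omega
        exact hP (this ▸ h2)

theorem mk_code' (N : ℕ) (P : ℕ → Prop) (hP : ∀ z, P z → z < N) :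
    ∃ w, w < 2 ^ N ∧ ∀ z, Bt w z ↔ P z := by
  obtain ⟨w, hw, h⟩ := mk_code N P
  exact ⟨w, hw, fun z => (h z).trans ⟨fun h => h.2, fun h => ⟨hP z h, h⟩⟩⟩

theorem pr_inj {a b c d : ℕ} (h : pr a b = pr c d) : a = c ∧ b = d := by
  unfold pr at h
  have h1 : a + b = c + d := by
    rcases lt_trichotomy (a + b) (c + d) with h2 | h2 | h2
    · exfalso
      have : (a + b + 1) * (a + b + 1) ≤ (c + d) * (c + d) := Nat.mul_le_mul h2 h2
      nlinarith
    · exact h2
    · exfalso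
      have : (c + d + 1) * (c + d + 1) ≤ (a + b) * (a + b) := Nat.mul_le_mul h2 h2
      nlinarith
  rw [h1] at h
  omega

theorem pr_eq_iff {a b c d : ℕ} : pr a b = pr c d ↔ a = c ∧ b = d :=
  ⟨pr_inj, fun ⟨h1, h2⟩ => by rw [h1, h2]⟩

theorem le_pr_left (a b : ℕ) : a ≤ pr a b := by unfold pr; omega

theorem le_pr_right (a b : ℕ) : b ≤ pr a b := by
  unfold pr
  rcases Nat.eq_zero_or_pos b with h | h
  · omega
  · have : 1 * b ≤ (a + b) * (a + b) := Nat.mul_le_mul (by omega) (by omega)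
    omega

theorem lt_pr_of_pos {a : ℕ} (b : ℕ) (ha : 0 < a) : b < pr a b := by
  unfold pr
  have : 1 * b ≤ (a + b) * (a + b) := Nat.mul_le_mul (by omega) (by omega)
  omega

theorem pr_mono {a b c d : ℕ} (h1 : a ≤ c) (h2 : b ≤ d) : pr a b ≤ pr c d := by
  unfold pr
  have : (a + b) * (a + b) ≤ (c + d) * (c + d) := Nat.mul_le_mul (by omega) (by omega)
  omega

theorem sub_lt_pr {c s t : ℕ} (hc : 0 < c) : s < pr c (pr s t) ∧ t < pr c (pr s t) :=
  ⟨lt_of_le_of_lt (le_pr_left s t) (lt_pr_of_pos _ hc),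
    lt_of_le_of_lt (le_pr_right s t) (lt_pr_of_pos _ hc)⟩

end Pool.Agent.BSig
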