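import Pool.Agent.Work.MP_510745_lc.Univ2

/-!
Correctness of the bounded truth definition, continued.
-/

namespace Pool.Agent.BSig

theorem step_var (D m w i α x : ℕ) : Step D m w (pr 0 i) α x ↔ Bt α (pr i x) := by
  have h1 := le_pr_right 0 i
  unfold Step
  simp [pr_eq_iff, h1]

theorem step_zero (D m w α x : ℕ) : Step D m w (pr 1 0) α x ↔ x = 0 := by
  unfold Step
  simp [pr_eq_iff]

theorem step_one (D m w α x : ℕ) : Step D m w (pr 2 0) α x ↔ x = 1 := by
  unfold Step
  simp [pr_eq_iff]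

theorem step_add (D m w s t α x : ℕ) : Step D m w (pr 3 (pr s t)) α x ↔
    ∃ y, y < D ∧ ∃ z, z < D ∧ (Bt w (pr s (pr α y)) ∧ Bt w (pr t (pr α z)) ∧ x = y + z) := by
  have h := sub_lt_pr (c := 3) (s := s) (t := t) (by norm_num)
  unfold Step
  simp [pr_eq_iff, h.1.le, h.2.le]

theorem step_mul (D m w s t α x : ℕ) : Step D m w (pr 4 (pr s t)) α x ↔
    ∃ y, y < D ∧ ∃ z, z < D ∧ (Bt w (pr s (pr α y)) ∧ Bt w (pr t (pr α z)) ∧ x = y * z) := by
  have h := sub_lt_pr (c := 4) (s := s) (t := t) (by norm_num)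
  unfold Step
  simp [pr_eq_iff, h.1.le, h.2.le]

theorem step_pow (D m w s α x : ℕ) : Step D m w (pr 5 s) α x ↔
    ∃ y, y < D ∧ (Bt w (pr s (pr α y)) ∧ x = 2 ^ y) := by
  have h := lt_pr_of_pos (a := 5) s (by norm_num)
  unfold Step
  simp [pr_eq_iff, h.le]

theorem step_eq (D m w s t α x : ℕ) : Step D m w (pr 6 (pr s t)) α x ↔
    x = 0 ∧ ∃ y, y < D ∧ (Bt w (pr s (pr α y)) ∧ Bt w (pr t (pr α y))) := by
  have h := sub_lt_pr (c := 6) (s := s) (t := t) (by norm_num)
  unfold Step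
  simp [pr_eq_iff, h.1.le, h.2.le]

theorem step_lt (D m w s t α x : ℕ) : Step D m w (pr 7 (pr s t)) α x ↔
    x = 0 ∧ ∃ y, y < D ∧ ∃ z, z < D ∧ (Bt w (pr s (pr α y)) ∧ Bt w (pr t (pr α z)) ∧ y < z) := by
  have h := sub_lt_pr (c := 7) (s := s) (t := t) (by norm_num)
  unfold Step
  simp [pr_eq_iff, h.1.le, h.2.le]

theorem step_neg (D m w s α x : ℕ) : Step D m w (pr 8 s) α x ↔
    x = 0 ∧ ¬ Bt w (pr s (pr α 0)) := by
  have h := lt_pr_of_pos (a := 8) s (by norm_num)
  unfold Step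
  simp [pr_eq_iff, h.le]

theorem step_and (D m w s t α x : ℕ) : Step D m w (pr 9 (pr s t)) α x ↔
    x = 0 ∧ Bt w (pr s (pr α 0)) ∧ Bt w (pr t (pr α 0)) := by
  have h := sub_lt_pr (c := 9) (s := s) (t := t) (by norm_num)
  unfold Step
  simp [pr_eq_iff, h.1.le, h.2.le]

theorem step_all (D m w s t α x : ℕ) : Step D m w (pr 10 (pr s t)) α x ↔
    x = 0 ∧ ∀ z, z < D → Bt w (pr s (pr α z)) → ∀ y, y < z → ∀ β, β < aB m D →
      (Push D m y α β → Bt w (pr t (pr β 0))) := by
  have h := sub_lt_pr (c := 10) (s := s) (t := t) (by norm_num)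
  unfold Step
  simp [pr_eq_iff, h.1.le, h.2.le]

theorem tab_term {D m G w α : ℕ} {v : ℕ → ℕ} (hT : Tab D m G w) (hα : α < aB m D)
    (hC : Cod D m α v) : ∀ t : Tm, t.vlt m → codeT t < G → (szT t).val natS v < D →
    ∀ x, x < D → (Bt w (pr (codeT t) (pr α x)) ↔ x = t.val natS v)
  | .var i, hm, hG, _, x, hx => by
    rw [hT _ hG α hα x hx]
    simp only [codeT]
    rw [step_var]
    exact hC i hm x hx
  | .zero, hm, hG, _, x, hx => by
    rw [hT _ hG α hα x hx]
    simp only [codeT]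
    rw [step_zero]
    rfl
  | .one, hm, hG, _, x, hx => by
    rw [hT _ hG α hα x hx]
    simp only [codeT]
    rw [step_one]
    rfl
  | .add s t, hm, hG, hD, x, hx => by
    have hst := sub_lt_pr (c := 3) (s := codeT s) (t := codeT t) (by norm_num)
    have h1 : (szT s).val natS v < D := lt_of_le_of_lt (Nat.le_add_right _ _) hD
    have h2 : (szT t).val natS v < D := lt_of_le_of_lt (Nat.le_add_left _ _) hD
    have ihs := tab_term hT hα hC s hm.1 (lt_trans hst.1 hG) h1
    have iht := tab_term hT hα hC t hm.2 (lt_trans hst.2 hG) h2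
    rw [hT _ hG α hα x hx]
    simp only [codeT]
    rw [step_add]
    constructor
    · rintro ⟨y, hy, z, hz, h3, h4, rfl⟩
      rw [(ihs y hy).1 h3, (iht z hz).1 h4]
      rfl
    · intro h3
      exact ⟨_, lt_of_le_of_lt (le_szT v s) h1, _, lt_of_le_of_lt (le_szT v t) h2,
        (ihs _ (lt_of_le_of_lt (le_szT v s) h1)).2 rfl,
        (iht _ (lt_of_le_of_lt (le_szT v t) h2)).2 rfl, h3⟩
  | .mul s t, hm, hG, hD, x, hx => by
    have hst := sub_lt_pr (c := 4) (s := codeT s) (t := codeT t) (by norm_num)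
    have h0 : (szT s).val natS v + (szT t).val natS v < D :=
      lt_of_le_of_lt (Nat.le_add_right _ _) hD
    have h1 : (szT s).val natS v < D := by omega
    have h2 : (szT t).val natS v < D := by omega
    have ihs := tab_term hT hα hC s hm.1 (lt_trans hst.1 hG) h1
    have iht := tab_term hT hα hC t hm.2 (lt_trans hst.2 hG) h2
    rw [hT _ hG α hα x hx]
    simp only [codeT]
    rw [step_mul]
    constructor
    · rintro ⟨y, hy, z, hz, h3, h4, rfl⟩
      rw [(ihs y hy).1 h3, (iht z hz).1 h4]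
      rfl
    · intro h3
      exact ⟨_, lt_of_le_of_lt (le_szT v s) h1, _, lt_of_le_of_lt (le_szT v t) h2,
        (ihs _ (lt_of_le_of_lt (le_szT v s) h1)).2 rfl,
        (iht _ (lt_of_le_of_lt (le_szT v t) h2)).2 rfl, h3⟩
  | .pow s, hm, hG, hD, x, hx => by
    have hst := lt_pr_of_pos (a := 5) (codeT s) (by norm_num)
    have h0 : 2 ^ (szT s).val natS v < D := hD
    have h1 : (szT s).val natS v < D := lt_trans Nat.lt_two_pow_self h0
    have ihs := tab_term hT hα hC s hm (lt_trans hst hG) h1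
    rw [hT _ hG α hα x hx]
    simp only [codeT]
    rw [step_pow]
    constructor
    · rintro ⟨y, hy, h3, rfl⟩
      rw [(ihs y hy).1 h3]
      rfl
    · intro h3
      exact ⟨_, lt_of_le_of_lt (le_szT v s) h1,
        (ihs _ (lt_of_le_of_lt (le_szT v s) h1)).2 rfl, h3⟩

theorem tab_form {D m G w : ℕ} (hD0 : 0 < D) (hT : Tab D m G w) : ∀ (f : Fm) (α : ℕ) (v : ℕ → ℕ),
    α < aB m D → Cod D m α v → f.vlt m → codeF f < G → (szF f).val natS v < D →
    (Bt w (pr (codeF f) (pr α 0)) ↔ f.holds natS v)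
  | .eq s t, α, v, hα, hC, hm, hG, hD => by
    have hst := sub_lt_pr (c := 6) (s := codeT s) (t := codeT t) (by norm_num)
    have h1 : (szT s).val natS v < D := lt_of_le_of_lt (Nat.le_add_right _ _) hD
    have h2 : (szT t).val natS v < D := lt_of_le_of_lt (Nat.le_add_left _ _) hD
    have ihs := tab_term hT hα hC s hm.1 (lt_trans hst.1 hG) h1
    have iht := tab_term hT hα hC t hm.2 (lt_trans hst.2 hG) h2
    rw [hT _ hG α hα 0 hD0]
    simp only [codeF]
    rw [step_eq]
    constructor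
    · rintro ⟨-, y, hy, h3, h4⟩
      exact ((ihs y hy).1 h3).symm.trans ((iht y hy).1 h4)
    · intro h3
      have h3' : s.val natS v = t.val natS v := h3
      exact ⟨rfl, _, lt_of_le_of_lt (le_szT v s) h1,
        (ihs _ (lt_of_le_of_lt (le_szT v s) h1)).2 rfl,
        (iht _ (lt_of_le_of_lt (le_szT v s) h1)).2 h3'⟩
  | .lt s t, α, v, hα, hC, hm, hG, hD => by
    have hst := sub_lt_pr (c := 7) (s := codeT s) (t := codeT t) (by norm_num)
    have h1 : (szT s).val natS v < D := lt_of_le_of_lt (Nat.le_add_right _ _) hD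
    have h2 : (szT t).val natS v < D := lt_of_le_of_lt (Nat.le_add_left _ _) hD
    have ihs := tab_term hT hα hC s hm.1 (lt_trans hst.1 hG) h1
    have iht := tab_term hT hα hC t hm.2 (lt_trans hst.2 hG) h2
    rw [hT _ hG α hα 0 hD0]
    simp only [codeF]
    rw [step_lt]
    constructor
    · rintro ⟨-, y, hy, z, hz, h3, h4, h5⟩
      rw [(ihs y hy).1 h3, (iht z hz).1 h4] at h5
      exact h5
    · intro h3
      exact ⟨rfl, _, lt_of_le_of_lt (le_szT v s) h1, _, lt_of_le_of_lt (le_szT v t) h2,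
        (ihs _ (lt_of_le_of_lt (le_szT v s) h1)).2 rfl,
        (iht _ (lt_of_le_of_lt (le_szT v t) h2)).2 rfl, h3⟩
  | .neg f, α, v, hα, hC, hm, hG, hD => by
    have hst := lt_pr_of_pos (a := 8) (codeF f) (by norm_num)
    have ih := tab_form hD0 hT f α v hα hC hm (lt_trans hst hG) hD
    rw [hT _ hG α hα 0 hD0]
    simp only [codeF]
    rw [step_neg, ih]
    simp [Fm.holds]
  | .and f g, α, v, hα, hC, hm, hG, hD => by
    have hst := sub_lt_pr (c := 9) (s := codeF f) (t := codeF g) (by norm_num)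
    have h1 : (szF f).val natS v < D := lt_of_le_of_lt (Nat.le_add_right _ _) hD
    have h2 : (szF g).val natS v < D := lt_of_le_of_lt (Nat.le_add_left _ _) hD
    have ihf := tab_form hD0 hT f α v hα hC hm.1 (lt_trans hst.1 hG) h1
    have ihg := tab_form hD0 hT g α v hα hC hm.2 (lt_trans hst.2 hG) h2
    rw [hT _ hG α hα 0 hD0]
    simp only [codeF]
    rw [step_and, ihf, ihg]
    simp [Fm.holds]
  | .all t f, α, v, hα, hC, hm, hG, hD => by
    have hst := sub_lt_pr (c := 10) (s := codeT t) (t := codeF f) (by norm_num)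
    have h1 : (szT t).val natS v < D := lt_of_le_of_lt (Nat.le_add_right _ _) hD
    have h2 : ((szF f).subst (ins (szT t))).val natS v < D :=
      lt_of_le_of_lt (Nat.le_add_left _ _) hD
    rw [Tm.val_subst] at h2
    have iht := tab_term hT hα hC t hm.1 (lt_trans hst.1 hG) h1
    have hf : ∀ y, y < t.val natS v → ∀ β, β < aB m D → Push D m y α β →
        (Bt w (pr (codeF f) (pr β 0)) ↔ f.holds natS (psh y v)) := by
      intro y hy β hβ hP
      refine tab_form hD0 hT f β (psh y v) hβ (hC.push hP) hm.2 (lt_trans hst.2 hG) ?_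
      refine lt_of_le_of_lt (Tm.val_mono (fun i => ?_) _) h2
      cases i with
      | zero => exact le_trans hy.le (le_szT v t)
      | succ i => exact le_rfl
    rw [hT _ hG α hα 0 hD0]
    simp only [codeF]
    rw [step_all]
    constructor
    · rintro ⟨-, h3⟩ y hy
      obtain ⟨β, hβ, hP⟩ := ex_push D m y α
      have h4 := h3 _ (lt_of_le_of_lt (le_szT v t) h1)
        ((iht _ (lt_of_le_of_lt (le_szT v t) h1)).2 rfl) y hy β hβ hP
      exact (hf y hy β hβ hP).1 h4
    · intro h3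
      refine ⟨rfl, fun z hz h4 y hy β hβ hP => ?_⟩
      rw [(iht z hz).1 h4] at hy
      exact (hf y hy β hβ hP).2 (h3 y hy)

theorem ev_iff {D m α : ℕ} {v : ℕ → ℕ} (hD0 : 0 < D) (f : Fm) (hα : α < aB m D)
    (hC : Cod D m α v) (hm : f.vlt m) (hD : (szF f).val natS v < D) :
    Ev D m (codeF f) α ↔ f.holds natS v := by
  constructor
  · rintro ⟨w, -, hT, h⟩
    exact (tab_form hD0 hT f α v hα hC hm (Nat.lt_succ_self _) hD).1 h
  · intro h
    obtain ⟨w, hw, hT⟩ := ex_tab D m (codeF f + 1)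
    exact ⟨w, hw, hT, (tab_form hD0 hT f α v hα hC hm (Nat.lt_succ_self _) hD).2 h⟩

/-- The assignment `y, k, 0, p, q, c`. -/
def asg5 (y k p q : ℕ) (c : ℕ → ℕ) : ℕ → ℕ := psh y (psh k (psh 0 (psh p (psh q c))))

theorem test_iff {B D m α k p q : ℕ} {c : ℕ → ℕ} (f : Fm)
    (hC : Cod D m α c) (hm : f.vlt m)
    (hD : (szF f).val natS (asg5 B B B B c) < D) :
    Test B D (pr (codeF f) (pr m α)) k p q ↔
      (k < B ∧ p < B ∧ q < B ∧ ∃ y, y < B ∧ f.holds natS (asg5 y k p q c)) := by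
  have hD0 : 0 < D := lt_of_le_of_lt (Nat.zero_le _) hD
  have hsz : ∀ y k p q, y < B → k < B → p < B → q < B →
      (szF f).val natS (asg5 y k p q c) < D := by
    intro y k p q hy hk hp hq
    refine lt_of_le_of_lt (Tm.val_mono (fun i => ?_) _) hD
    match i with
    | 0 => exact hy.le
    | 1 => exact hk.le
    | 2 => exact Nat.zero_le _
    | 3 => exact hp.le
    | 4 => exact hq.le
    | (i + 5) => exact le_rfl
  unfold Test
  refine and_congr_right fun hk => and_congr_right fun hp => and_congr_right fun hq => ?_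
  constructor
  · rintro ⟨g, -, m', -, α', -, he, y, hy, α₁, h1, α₂, h2, α₃, h3, α₄, h4, α₅, h5, p1, p2, p3, p4,
      p5, hE⟩
    obtain ⟨rfl, h6⟩ := pr_inj he
    obtain ⟨rfl, rfl⟩ := pr_inj h6
    refine ⟨y, hy, ?_⟩
    have hc := ((((hC.push p1).push p2).push p3).push p4).push p5
    exact (ev_iff hD0 f h5 hc hm (hsz y k p q hy hk hp hq)).1 hE
  · rintro ⟨y, hy, hf⟩
    obtain ⟨α₁, h1, p1⟩ := ex_push D m q α
    obtain ⟨α₂, h2, p2⟩ := ex_push D m p α₁
    obtain ⟨α₃, h3, p3⟩ := ex_push D m 0 α₂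
    obtain ⟨α₄, h4, p4⟩ := ex_push D m k α₃
    obtain ⟨α₅, h5, p5⟩ := ex_push D m y α₄
    have hc := ((((hC.push p1).push p2).push p3).push p4).push p5
    refine ⟨codeF f, ?_, m, ?_, α, ?_, rfl, y, hy, α₁, h1, α₂, h2, α₃, h3, α₄, h4, α₅, h5, p1, p2,
      p3, p4, p5, (ev_iff hD0 f h5 hc hm (hsz y k p q hy hk hp hq)).2 hf⟩
    · exact Nat.lt_succ_of_le (le_pr_left _ _)
    · exact Nat.lt_succ_of_le (le_trans (le_pr_left _ _) (le_pr_right _ _))
    · exact Nat.lt_succ_of_le (le_trans (le_pr_right _ _) (le_pr_right _ _))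

/-- The code of the first `m` entries of an assignment. -/
theorem ex_cod (m : ℕ) (c : ℕ → ℕ) (C : ℕ) (hC : ∀ i, i < m → c i < C) :
    ∃ α, α < 2 ^ (pr m C) ∧ ∀ D, Cod D m α c := by
  obtain ⟨α, hα, h⟩ := mk_code' (pr m C) (fun z => ∃ i, i < m ∧ z = pr i (c i)) (by
    rintro z ⟨i, hi, rfl⟩
    have := hC i hi
    unfold pr
    have h2 : (i + c i) * (i + c i) ≤ (m + C) * (m + C) := Nat.mul_le_mul (by omega) (by omega)
    omega)
  refine ⟨α, hα, fun D i hi x _ => ?_⟩
  rw [h]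
  constructor
  · rintro ⟨j, _, h1⟩
    obtain ⟨rfl, rfl⟩ := pr_inj h1
    rfl
  · rintro rfl; exact ⟨i, hi, rfl⟩

/-- Iterated exponentiation. -/
def tow : ℕ → ℕ → ℕ
  | 0, y => y
  | (n + 1), y => 2 ^ tow n y

theorem tow_mono_right (n : ℕ) {y z : ℕ} (h : y ≤ z) : tow n y ≤ tow n z := by
  induction n with
  | zero => exact h
  | succ n ih => exact Nat.pow_le_pow_right (by norm_num) ih

theorem tow_le_succ (n y : ℕ) : tow n y ≤ tow (n + 1) y := Nat.lt_two_pow_self.le

theorem tow_mono_left {m n : ℕ} (h : m ≤ n) (y : ℕ) : tow m y ≤ tow n y := by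
  induction h with
  | refl => exact le_rfl
  | step _ ih => exact le_trans ih (tow_le_succ _ _)

theorem le_tow (n y : ℕ) : y ≤ tow n y := tow_mono_left (Nat.zero_le n) y

/-- Every term is bounded by an iterated exponential. -/
theorem tm_bound : ∀ t : Tm, ∃ j, ∀ (v : ℕ → ℕ) (y : ℕ), 2 ≤ y → (∀ m, t.vlt m →
    (∀ i, i < m → v i ≤ y) → t.val natS v ≤ tow j y)
  | .var i => ⟨0, fun v y _ m hm h => h i hm⟩
  | .zero => ⟨0, fun v y _ m hm h => Nat.zero_le _⟩
  | .one => ⟨0, fun v y hy m hm h => by change 1 ≤ y; omega⟩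
  | .add s t => by
    obtain ⟨j, hj⟩ := tm_bound s
    obtain ⟨l, hl⟩ := tm_bound t
    refine ⟨max j l + 1, fun v y hy m hm h => ?_⟩
    have h1 := le_trans (hj v y hy m hm.1 h) (tow_mono_left (le_max_left j l) y)
    have h2 := le_trans (hl v y hy m hm.2 h) (tow_mono_left (le_max_right j l) y)
    have h3 : 2 ≤ tow (max j l) y := le_trans hy (le_tow _ _)
    have h4 : ∀ a, 2 ≤ a → a + a ≤ 2 ^ a := by
      intro a ha
      induction a, ha using Nat.le_induction with
      | base => norm_num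
      | succ a ha ih => rw [pow_succ]; omega
    exact le_trans (Nat.add_le_add h1 h2) (h4 _ h3)
  | .mul s t => by
    obtain ⟨j, hj⟩ := tm_bound s
    obtain ⟨l, hl⟩ := tm_bound t
    refine ⟨max j l + 2, fun v y hy m hm h => ?_⟩
    have h1 := le_trans (hj v y hy m hm.1 h) (tow_mono_left (le_max_left j l) y)
    have h2 := le_trans (hl v y hy m hm.2 h) (tow_mono_left (le_max_right j l) y)
    have h3 : 2 ≤ tow (max j l) y := le_trans hy (le_tow _ _)
    have h5 : ∀ a, 2 ≤ a → a + a ≤ 2 ^ a := by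
      intro a ha
      induction a, ha using Nat.le_induction with
      | base => norm_num
      | succ a ha ih => rw [pow_succ]; omega
    have h4 : ∀ a, 2 ≤ a → a * a ≤ 2 ^ (2 ^ a) := by
      intro a ha
      have h6 : a ≤ 2 ^ a := Nat.lt_two_pow_self.le
      calc a * a ≤ 2 ^ a * 2 ^ a := Nat.mul_le_mul h6 h6
        _ = 2 ^ (a + a) := (pow_add _ _ _).symm
        _ ≤ 2 ^ (2 ^ a) := Nat.pow_le_pow_right (by norm_num) (h5 a ha)
    exact le_trans (Nat.mul_le_mul h1 h2) (h4 _ h3)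
  | .pow s => by
    obtain ⟨j, hj⟩ := tm_bound s
    exact ⟨j + 1, fun v y hy m hm h =>
      Nat.pow_le_pow_right (by norm_num) (hj v y hy m hm h)⟩

end Pool.Agent.BSig
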