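import Pool.Agent.Work.MP_510745_lc.Gen
import Pool.Agent.Work.MP_510745_lc.Univ3

/-!
Coding of a semantic state, the invariant, and counting lemmas.
-/

namespace Pool.Agent.BSig

theorem pr_lt_pr {a b c d : ℕ} (h1 : a < c) (h2 : b ≤ d) : pr a b < pr c d := by
  unfold pr
  have : (a + b) * (a + b) ≤ (c + d) * (c + d) := Nat.mul_le_mul (by omega) (by omega)
  omega

theorem code_state (N : ℕ) (O R Bd : ℕ → Prop) (L T P : ℕ → ℕ → Prop)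
    (U : ℕ → ℕ → ℕ → ℕ → Prop) (hO : ∀ z, O z → z ≤ N) (hR : ∀ z, R z → z ≤ N)
    (hB : ∀ z, Bd z → z ≤ N) (hL : ∀ z w, L z w → z ≤ N ∧ w ≤ N)
    (hT : ∀ z w, T z w → z ≤ N ∧ w ≤ N) (hP : ∀ z w, P z w → z ≤ N ∧ w ≤ N)
    (hU : ∀ b c i z, U b c i z → b ≤ N ∧ c ≤ N ∧ i ≤ N ∧ z ≤ N) :
    ∃ x, (∀ z, cO x z ↔ O z) ∧ (∀ z w, cL x z w ↔ L z w) ∧ (∀ z, cR x z ↔ R z) ∧
      (∀ b c i z, cU x b c i z ↔ U b c i z) ∧ (∀ z, cD x z ↔ Bd z) ∧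
      (∀ b y, cT x b y ↔ T b y) ∧ (∀ i y, cP x i y ↔ P i y) := by
  obtain ⟨x, -, hx⟩ := mk_code' (pr 8 (pr N (pr N (pr N N)))) (fun m =>
    (∃ z, m = pr 1 z ∧ O z) ∨ (∃ z w, m = pr 2 (pr z w) ∧ L z w) ∨ (∃ z, m = pr 3 z ∧ R z) ∨
    (∃ b c i z, m = pr 4 (pr b (pr c (pr i z))) ∧ U b c i z) ∨ (∃ z, m = pr 5 z ∧ Bd z) ∨
    (∃ b y, m = pr 6 (pr b y) ∧ T b y) ∨ (∃ i y, m = pr 7 (pr i y) ∧ P i y)) (by
    have e1 : N ≤ pr N (pr N (pr N N)) := le_pr_left _ _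
    have e2 : pr N N ≤ pr N (pr N (pr N N)) := pr_mono le_rfl
      (le_trans (le_pr_left N N) (le_pr_right _ _))
    rintro m (⟨z, rfl, h⟩ | ⟨z, w, rfl, h⟩ | ⟨z, rfl, h⟩ | ⟨b, c, i, z, rfl, h⟩ | ⟨z, rfl, h⟩ |
      ⟨z, w, rfl, h⟩ | ⟨z, w, rfl, h⟩)
    · exact pr_lt_pr (by norm_num) (le_trans (hO z h) e1)
    · exact pr_lt_pr (by norm_num) (le_trans (pr_mono (hL z w h).1 (hL z w h).2) e2)
    · exact pr_lt_pr (by norm_num) (le_trans (hR z h) e1)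
    · obtain ⟨h1, h2, h3, h4⟩ := hU b c i z h
      exact pr_lt_pr (by norm_num) (pr_mono h1 (pr_mono h2 (pr_mono h3 h4)))
    · exact pr_lt_pr (by norm_num) (le_trans (hB z h) e1)
    · exact pr_lt_pr (by norm_num) (le_trans (pr_mono (hT z w h).1 (hT z w h).2) e2)
    · exact pr_lt_pr (by norm_num) (le_trans (pr_mono (hP z w h).1 (hP z w h).2) e2))
  refine ⟨x, ?_, ?_, ?_, ?_, ?_, ?_, ?_⟩
  · intro z
    unfold cO
    rw [hx]
    simp [pr_eq_iff]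
  · intro z w
    unfold cL
    rw [hx]
    simp [pr_eq_iff]
  · intro z
    unfold cR
    rw [hx]
    simp [pr_eq_iff]
  · intro b c i z
    unfold cU
    rw [hx]
    simp [pr_eq_iff]
  · intro z
    unfold cD
    rw [hx]
    simp [pr_eq_iff]
  · intro b y
    unfold cT
    rw [hx]
    simp [pr_eq_iff]
  · intro i y
    unfold cP
    rw [hx]
    simp [pr_eq_iff]

/-- The invariant of the construction. -/
structure Inv (a n x v : ℕ) : Prop where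
  tp : Tp x v
  na : n ≤ a
  av : a < v
  bd0 : cD x (a + 1)
  bd : ∀ d, cD x d → a + 1 ≤ d
  card : ∃ S : Finset ℕ, S.card ≤ n + 1 ∧ ∀ d, cD x d → d ∈ S
  ck : ∀ z, z ≤ a → (cO x z ↔ n ≤ z)
  ov : ∀ z, cO x z → z < v
  lb : LbOK x
  lo : ∀ z w, cO x z → cL x z w → cO x w
  rs : ∀ z, cR x z → cO x z ∧ a < z
  t7 : T7 x
  t8 : T8 a x
  t9 : T9 x
  t10 : T10 x
  tt : ∀ b b', Rw x b b' → ∃ t, cT x b t
  tf : ∀ b t t₁, cT x b t → cT x b t₁ → t = t₁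
  tw : ∀ b b' t, Rw x b b' → cT x b t → ∃ y, b < y ∧ t = tow (3 * (a - n) + 3) y

theorem surj_of_card (S : Finset ℕ) (G : ℕ) (hG : 1 ≤ G) (h : G ≤ S.card) :
    ∃ ρ : ℕ → ℕ, (∀ i, ρ i < G) ∧ ∀ j, j < G → ∃ i ∈ S, ρ i = j := by
  classical
  obtain ⟨T, hT, hc⟩ := Finset.exists_subset_card_eq h
  let e := T.equivFinOfCardEq hc
  refine ⟨fun i => if h : i ∈ T then (e ⟨i, h⟩ : ℕ) else 0, ?_, ?_⟩
  · intro i
    by_cases h : i ∈ T
    · simp only [h, dif_pos]; exact (e ⟨i, h⟩).2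
    · simp only [h, dif_neg, not_false_eq_true]; omega
  · intro j hj
    refine ⟨(e.symm ⟨j, hj⟩ : T), hT (e.symm ⟨j, hj⟩).2, ?_⟩
    simp

theorem tow_add (m n y : ℕ) : tow (m + n) y = tow m (tow n y) := by
  induction m with
  | zero => simp [tow]
  | succ m ih => rw [Nat.succ_add]; simp only [tow]; rw [ih]

theorem tow3 (t : ℕ) : tow 3 t = 2 ^ 2 ^ 2 ^ t := rfl

/-- The size inequality. -/
theorem size_ineq (a b n s t y : ℕ) (hy : b < y) (hab : a + 1 ≤ b) (hn : n < a) (hs : s ≤ n + 2)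
    (ht : t = tow (3 * (a - n)) y) :
    1 ≤ t ∧ (t * (b + 1)) ^ 2 ^ (b * s * 2 ^ b * 2 ^ b) + b ≤ 2 ^ 2 ^ 2 ^ t := by
  have hpow : ∀ m : ℕ, m < 2 ^ m := fun m => Nat.lt_two_pow_self
  have h1 : tow 3 y ≤ t := by rw [ht]; exact tow_mono_left (by omega) y
  have hyb : b + 2 ≤ 2 ^ y := by
    have := hpow y; omega
  have h2 : 4 * b ≤ 2 ^ 2 ^ y := by
    calc 4 * b ≤ 4 * 2 ^ b := Nat.mul_le_mul_left _ (hpow b).le
      _ = 2 ^ (b + 2) := by ring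
      _ ≤ 2 ^ 2 ^ y := Nat.pow_le_pow_right (by norm_num) hyb
  have h3 : 2 ^ (4 * b) ≤ t :=
    le_trans (Nat.pow_le_pow_right (by norm_num) h2) h1
  have h4 : b * s * 2 ^ b * 2 ^ b ≤ 2 ^ (4 * b) := by
    have h5 : s ≤ b := by omega
    have h6 : b ≤ 2 ^ b := (hpow b).le
    calc b * s * 2 ^ b * 2 ^ b ≤ 2 ^ b * 2 ^ b * 2 ^ b * 2 ^ b := by
          gcongr
          exact le_trans h5 h6
      _ = 2 ^ (4 * b) := by rw [← pow_add, ← pow_add, ← pow_add]; ring_nf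
  have h5 : b * s * 2 ^ b * 2 ^ b ≤ t := le_trans h4 h3
  have hb2 : 2 ≤ b := by omega
  have h6 : 2 ^ 8 ≤ t := le_trans (Nat.pow_le_pow_right (by norm_num) (by omega)) h3
  have h7 : b ≤ t := le_trans (le_trans (by omega) (hpow (4 * b)).le) h3
  refine ⟨by omega, ?_⟩
  have h8 : t * (b + 1) ≤ 2 ^ (2 * t) := by
    calc t * (b + 1) ≤ 2 ^ t * 2 ^ t := Nat.mul_le_mul (hpow t).le (by
            have := hpow t; omega)
      _ = 2 ^ (2 * t) := by rw [← pow_add]; ring_nf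
  have h9 : (t * (b + 1)) ^ 2 ^ (b * s * 2 ^ b * 2 ^ b) ≤ 2 ^ (2 * t * 2 ^ t) := by
    calc (t * (b + 1)) ^ 2 ^ (b * s * 2 ^ b * 2 ^ b) ≤ (2 ^ (2 * t)) ^ 2 ^ (b * s * 2 ^ b * 2 ^ b) :=
          Nat.pow_le_pow_left h8 _
      _ ≤ (2 ^ (2 * t)) ^ 2 ^ t := Nat.pow_le_pow_right (by positivity)
          (Nat.pow_le_pow_right (by norm_num) h5)
      _ = 2 ^ (2 * t * 2 ^ t) := by rw [← pow_mul]
  have h10 : b ≤ 2 ^ (2 * t * 2 ^ t) := by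
    refine le_trans h7 (le_trans (hpow t).le (Nat.pow_le_pow_right (by norm_num) ?_))
    have : 1 ≤ 2 ^ t := Nat.one_le_two_pow
    nlinarith
  have h11 : 2 * t * 2 ^ t + 1 ≤ 2 ^ 2 ^ t := by
    have e1 : ∀ m : ℕ, 8 ≤ m → 2 * m + 3 ≤ 2 ^ m := by
      intro m hm
      induction m, hm using Nat.le_induction with
      | base => norm_num
      | succ m hm ih => rw [pow_succ]; omega
    have e2 := e1 t (by omega)
    have e3 : 2 * t * 2 ^ t ≤ 2 ^ (2 * t + 1) := by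
      calc 2 * t * 2 ^ t = t * 2 ^ (t + 1) := by ring
        _ ≤ 2 ^ t * 2 ^ (t + 1) := Nat.mul_le_mul_right _ (hpow t).le
        _ = 2 ^ (2 * t + 1) := by rw [← pow_add]; ring_nf
    have e4 : 2 ^ (2 * t + 1) + 1 ≤ 2 ^ (2 * t + 2) := by
      have : 1 ≤ 2 ^ (2 * t + 1) := Nat.one_le_two_pow
      rw [pow_succ 2 (2 * t + 1)]; omega
    have e5 : 2 ^ (2 * t + 2) ≤ 2 ^ 2 ^ t := Nat.pow_le_pow_right (by norm_num) (by omega)
    omega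
  calc (t * (b + 1)) ^ 2 ^ (b * s * 2 ^ b * 2 ^ b) + b ≤
        2 ^ (2 * t * 2 ^ t) + 2 ^ (2 * t * 2 ^ t) := Nat.add_le_add h9 h10
    _ = 2 ^ (2 * t * 2 ^ t + 1) := by rw [pow_succ]; ring
    _ ≤ 2 ^ 2 ^ 2 ^ t := Nat.pow_le_pow_right (by norm_num) h11

/-- The best claims. -/
theorem ex_kill (n x D : ℕ) : ∃ zk : ℕ → ℕ → ℕ, ∀ b e z p q, z < x → p < x → q < x →
    Cm n x D e b z p q → ∃ z₁ p₁ q₁, z₁ = zk b e ∧ z₁ < x ∧ p₁ < x ∧ q₁ < x ∧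
      Cm n x D e b z₁ p₁ q₁ ∧
      ∀ m, m < x + 1 → ((∀ j, j < m → ¬ Bt q j) → ∀ j, j < m → ¬ Bt q₁ j) := by
  classical
  let μ : ℕ → ℕ := fun q => Nat.findGreatest (fun m => ∀ j, j < m → ¬ Bt q j) x
  have hμ : ∀ q m, m < x + 1 → (∀ j, j < m → ¬ Bt q j) → m ≤ μ q := fun q m hm h =>
    Nat.le_findGreatest (by omega) h
  have hμ' : ∀ q j, j < μ q → ¬ Bt q j := fun q j hj =>
    Nat.findGreatest_spec (P := fun m => ∀ j, j < m → ¬ Bt q j) (Nat.zero_le x)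
      (by intro j hj; omega) j hj
  have key : ∀ b e, ∃ z₁, ∀ z p q, z < x → p < x → q < x →
      Cm n x D e b z p q → ∃ p₁ q₁, z₁ < x ∧ p₁ < x ∧ q₁ < x ∧
        Cm n x D e b z₁ p₁ q₁ ∧ μ q ≤ μ q₁ := by
    intro b e
    let A : Finset (ℕ × ℕ × ℕ) := ((Finset.range x) ×ˢ (Finset.range x) ×ˢ (Finset.range x)).filter
      (fun r => Cm n x D e b r.1 r.2.1 r.2.2)
    by_cases hA : A.Nonempty
    · obtain ⟨r, hr, hmax⟩ := A.exists_max_image (fun r => μ r.2.2) hA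
      refine ⟨r.1, fun z p q hz hp hq hC => ⟨r.2.1, r.2.2, ?_⟩⟩
      have h1 := Finset.mem_filter.1 hr
      simp only [Finset.mem_product, Finset.mem_range] at h1
      refine ⟨h1.1.1, h1.1.2.1, h1.1.2.2, h1.2, ?_⟩
      have h2 : (z, p, q) ∈ A := by
        refine Finset.mem_filter.2 ⟨?_, hC⟩
        simp only [Finset.mem_product, Finset.mem_range]
        exact ⟨hz, hp, hq⟩
      exact hmax _ h2
    · refine ⟨0, fun z p q hz hp hq hC => ?_⟩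
      exfalso
      apply hA
      refine ⟨(z, p, q), Finset.mem_filter.2 ⟨?_, hC⟩⟩
      simp only [Finset.mem_product, Finset.mem_range]
      exact ⟨hz, hp, hq⟩
  choose zk hzk using key
  refine ⟨zk, fun b e z p q hz hp hq hC => ?_⟩
  obtain ⟨p₁, q₁, h1, h2, h3, h4, h5⟩ := hzk b e z p q hz hp hq hC
  refine ⟨zk b e, p₁, q₁, rfl, h1, h2, h3, h4, fun m hm hq j hj => ?_⟩
  exact hμ' q₁ j (lt_of_lt_of_le hj (le_trans (hμ q m hm hq) h5))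

end Pool.Agent.BSig
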