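import Mathlib

/-!
The finite combinatorial lemma: a family of units can be refined so that for every triple of a
list either the covering or the independence alternative holds.
-/

namespace Pool.Agent.BSig

/-- Elements of `P` with label contained in `X`. -/
def Rs (l : ℕ → ℕ → Prop) (P X : ℕ → Prop) : ℕ → Prop := fun z => P z ∧ ∀ w, l z w → X w

/-- A triple: a relation between sets of atoms and two lower states. -/
structure Trip where
  C : (ℕ → Prop) → (ℕ → Prop) → Prop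
  X : ℕ → Prop
  X' : ℕ → Prop
  mono : ∀ S' S T' T, (∀ z, T' z → S' z) → (∀ z, S z → T z) → C S' S → C T' T
  strict : ∃ w, X w ∧ ¬ X' w

/-- All atoms. -/
def Va (G : ℕ) (U : ℕ → ℕ → Prop) (F : ℕ → Prop) : ℕ → Prop := fun z => F z ∨ ∃ i, i < G ∧ U i z

/-- The dichotomy for one triple. -/
def Good (t : Trip) (G : ℕ) (U : ℕ → ℕ → Prop) (F : ℕ → Prop) (l : ℕ → ℕ → Prop) : Prop :=
  t.C (Rs l (Va G U F) t.X') (Rs l F t.X) ∨
    ∀ i, i < G → ¬ t.C (Rs l (fun z => F z ∨ U i z) t.X') (Rs l (fun z => Va G U F z ∧ ¬ U i z) t.X)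

/-- Units are disjoint from each other and from the reserved set. -/
def Dj (G : ℕ) (U : ℕ → ℕ → Prop) (F : ℕ → Prop) : Prop :=
  (∀ i, i < G → ∀ z, U i z → ¬ F z) ∧ ∀ i, i < G → ∀ j, j < G → ∀ z, U i z → U j z → i = j

/-- Refinement. -/
structure Rf (A : ℕ → Prop) (G : ℕ) (U : ℕ → ℕ → Prop) (F : ℕ → Prop) (l : ℕ → ℕ → Prop)
    (G' : ℕ) (U' : ℕ → ℕ → Prop) (F' : ℕ → Prop) (l' : ℕ → ℕ → Prop) : Prop where
  sub : ∀ i', i' < G' → ∃ i, i < G ∧ ∀ z, U i z → U' i' z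
  mem : ∀ i', i' < G' → ∀ z, U' i' z → ∃ i, i < G ∧ U i z
  FF : ∀ z, F z → F' z
  cov : ∀ z, Va G' U' F' z ↔ Va G U F z
  dj : Dj G' U' F'
  lab : ∀ z w, l z w → l' z w
  lab' : ∀ z w, l' z w → l z w ∨ (Va G U F z ∧ A w)
  labF : ∀ z, F z → ∀ w, l' z w → l z w
  labU : ∀ i', i' < G' → ∀ z, U' i' z → ∀ w, l' z w → l z w

theorem Rf.refl {A : ℕ → Prop} {G : ℕ} {U : ℕ → ℕ → Prop} {F : ℕ → Prop} {l : ℕ → ℕ → Prop}
    (h : Dj G U F) : Rf A G U F l G U F l where
  sub := fun i hi => ⟨i, hi, fun _ h => h⟩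
  mem := fun i hi _ hz => ⟨i, hi, hz⟩
  FF := fun _ h => h
  cov := fun _ => Iff.rfl
  dj := h
  lab := fun _ _ h => h
  lab' := fun _ _ h => Or.inl h
  labF := fun _ _ _ h => h
  labU := fun _ _ _ _ _ h => h

theorem Rf.trans {A : ℕ → Prop} {G G1 G2 : ℕ} {U U1 U2 : ℕ → ℕ → Prop} {F F1 F2 : ℕ → Prop}
    {l l1 l2 : ℕ → ℕ → Prop} (h : Rf A G U F l G1 U1 F1 l1) (h' : Rf A G1 U1 F1 l1 G2 U2 F2 l2) :
    Rf A G U F l G2 U2 F2 l2 where
  sub := fun i hi => by
    obtain ⟨j, hj, h1⟩ := h'.sub i hi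
    obtain ⟨k, hk, h2⟩ := h.sub j hj
    exact ⟨k, hk, fun z hz => h1 z (h2 z hz)⟩
  mem := fun i hi z hz => by
    obtain ⟨j, hj, h1⟩ := h'.mem i hi z hz
    exact h.mem j hj z h1
  FF := fun z hz => h'.FF z (h.FF z hz)
  cov := fun z => (h'.cov z).trans (h.cov z)
  dj := h'.dj
  lab := fun z w hz => h'.lab z w (h.lab z w hz)
  lab' := fun z w hz => by
    rcases h'.lab' z w hz with h1 | h1
    · exact h.lab' z w h1
    · exact Or.inr ⟨(h.cov z).1 h1.1, h1.2⟩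
  labF := fun z hz w hw => h.labF z hz w (h'.labF z (h.FF z hz) w hw)
  labU := fun i hi z hz w hw => by
    obtain ⟨j, hj, h1⟩ := h'.mem i hi z hz
    exact h.labU j hj z h1 w (h'.labU i hi z hz w hw)

theorem Good.persist {A : ℕ → Prop} {G G' : ℕ} {U U' : ℕ → ℕ → Prop} {F F' : ℕ → Prop}
    {l l' : ℕ → ℕ → Prop} (t : Trip) (hg : Good t G U F l) (h : Rf A G U F l G' U' F' l') :
    Good t G' U' F' l' := by
  rcases hg with h1 | h1
  · left
    refine t.mono _ _ _ _ ?_ ?_ h1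
    · rintro z ⟨h2, h3⟩
      exact ⟨(h.cov z).1 h2, fun w hw => h3 w (h.lab z w hw)⟩
    · rintro z ⟨h2, h3⟩
      exact ⟨h.FF z h2, fun w hw => h3 w (h.labF z h2 w hw)⟩
  · right
    intro i' hi' hC
    obtain ⟨i, hi, hs⟩ := h.sub i' hi'
    refine h1 i hi (t.mono _ _ _ _ ?_ ?_ hC)
    · rintro z ⟨h2 | h2, h3⟩
      · exact ⟨Or.inl (h.FF z h2), fun w hw => h3 w (h.labF z h2 w hw)⟩
      · exact ⟨Or.inr (hs z h2), fun w hw => h3 w (h.labU i' hi' z (hs z h2) w hw)⟩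
    · rintro z ⟨⟨h2, h2'⟩, h3⟩
      exact ⟨⟨(h.cov z).1 h2, fun h4 => h2' (hs z h4)⟩, fun w hw => h3 w (h.lab z w hw)⟩

theorem step_good (t : Trip) (g G : ℕ) (hg : 1 ≤ g) (hG : g * g ≤ G) (U : ℕ → ℕ → Prop)
    (F : ℕ → Prop) (l : ℕ → ℕ → Prop) (hd : Dj G U F) :
    ∃ U' F' l', Rf t.X G U F l g U' F' l' ∧ Good t g U' F' l' := by
  classical
  by_cases hA : ∃ W : Finset ℕ, (∀ i ∈ W, i < G) ∧ W.card = g ∧
      t.C (Rs l (fun z => F z ∨ ∃ i ∈ W, U i z) t.X')
        (Rs l (fun z => F z ∨ ∃ i, i < G ∧ i ∉ W ∧ U i z) t.X)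
  · obtain ⟨W, hWG, hWc, hC⟩ := hA
    have e := W.orderIsoOfFin hWc
    let E : ℕ → ℕ := fun i => if h : i < g then ((e ⟨i, h⟩ : W) : ℕ) else 0
    have hE1 : ∀ i, i < g → E i ∈ W := by
      intro i hi
      simp only [E, hi, dif_pos]
      exact (e ⟨i, hi⟩).2
    have hE2 : ∀ j ∈ W, ∃ i, i < g ∧ E i = j := by
      intro j hj
      refine ⟨(e.symm ⟨j, hj⟩ : Fin g), (e.symm ⟨j, hj⟩).2, ?_⟩
      simp [E]
    have hE3 : ∀ i, i < g → ∀ j, j < g → E i = E j → i = j := by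
      intro i hi j hj h
      simp only [E, hi, hj, dif_pos] at h
      have h1 := e.injective (Subtype.ext h)
      exact congrArg Fin.val h1
    refine ⟨fun i z => U (E i) z, fun z => F z ∨ ∃ i, i < G ∧ i ∉ W ∧ U i z,
      fun z w => l z w ∨ ((∃ i, i < G ∧ i ∉ W ∧ U i z) ∧ t.X w), ?_, ?_⟩
    · constructor
      · intro i hi
        exact ⟨E i, hWG _ (hE1 i hi), fun _ h => h⟩
      · intro i hi z hz
        exact ⟨E i, hWG _ (hE1 i hi), hz⟩
      · intro z hz; exact Or.inl hz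
      · intro z
        constructor
        · rintro ((h | ⟨i, hi, _, h⟩) | ⟨i, hi, h⟩)
          · exact Or.inl h
          · exact Or.inr ⟨i, hi, h⟩
          · exact Or.inr ⟨E i, hWG _ (hE1 i hi), h⟩
        · rintro (h | ⟨i, hi, h⟩)
          · exact Or.inl (Or.inl h)
          · by_cases hiW : i ∈ W
            · obtain ⟨j, hj, rfl⟩ := hE2 i hiW
              exact Or.inr ⟨j, hj, h⟩
            · exact Or.inl (Or.inr ⟨i, hi, hiW, h⟩)
      · refine ⟨?_, ?_⟩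
        · rintro i hi z hz (h | ⟨j, hj, hjW, h⟩)
          · exact hd.1 _ (hWG _ (hE1 i hi)) z hz h
          · have := hd.2 _ (hWG _ (hE1 i hi)) j hj z hz h
            exact hjW (this ▸ hE1 i hi)
        · intro i hi j hj z h1 h2
          exact hE3 i hi j hj (hd.2 _ (hWG _ (hE1 i hi)) _ (hWG _ (hE1 j hj)) z h1 h2)
      · intro z w h; exact Or.inl h
      · rintro z w (h | ⟨⟨i, hi, _, h⟩, hX⟩)
        · exact Or.inl h
        · exact Or.inr ⟨Or.inr ⟨i, hi, h⟩, hX⟩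
      · rintro z hz w (h | ⟨⟨i, hi, _, h⟩, _⟩)
        · exact h
        · exact absurd hz (hd.1 i hi z h)
      · rintro i hi z hz w (h | ⟨⟨j, hj, hjW, h⟩, _⟩)
        · exact h
        · have := hd.2 _ (hWG _ (hE1 i hi)) j hj z hz h
          exact absurd (this ▸ hE1 i hi) hjW
    · left
      refine t.mono _ _ _ _ ?_ ?_ hC
      · rintro z ⟨h1, h2⟩
        refine ⟨?_, fun w hw => h2 w (Or.inl hw)⟩
        rcases h1 with (h1 | h1) | ⟨i, hi, h1⟩
        · exact Or.inl h1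
        · obtain ⟨w, hw, hw'⟩ := t.strict
          exact absurd (h2 w (Or.inr ⟨h1, hw⟩)) hw'
        · exact Or.inr ⟨E i, hE1 i hi, h1⟩
      · rintro z ⟨h1, h2⟩
        refine ⟨h1, ?_⟩
        rintro w (hw | ⟨_, hw⟩)
        · exact h2 w hw
        · exact hw
  · have hA' : ∀ W : Finset ℕ, (∀ i ∈ W, i < G) → W.card = g →
        ¬ t.C (Rs l (fun z => F z ∨ ∃ i ∈ W, U i z) t.X')
          (Rs l (fun z => F z ∨ ∃ i, i < G ∧ i ∉ W ∧ U i z) t.X) :=
      fun W h1 h2 h3 => hA ⟨W, h1, h2, h3⟩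
    let φ : ℕ → ℕ := fun j => min (j / g) (g - 1)
    have hφ : ∀ j, φ j < g := fun j => lt_of_le_of_lt (min_le_right _ _) (by omega)
    let W : ℕ → Finset ℕ := fun i => (Finset.range g).image (fun j => i * g + j)
    have hWφ : ∀ i, i < g → ∀ j ∈ W i, φ j = i ∧ j < G := by
      intro i hi j hj
      obtain ⟨k, hk, rfl⟩ := Finset.mem_image.1 hj
      have hk' := Finset.mem_range.1 hk
      have h1 : (i * g + k) / g = i := by
        rw [add_comm, Nat.add_mul_div_right _ _ (by omega), Nat.div_eq_of_lt hk', zero_add]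
      refine ⟨?_, ?_⟩
      · simp only [φ, h1]
        exact min_eq_left (by omega)
      · have : (i + 1) * g ≤ g * g := Nat.mul_le_mul_right _ hi
        have h2 : (i + 1) * g = i * g + g := by ring
        omega
    have hWc : ∀ i, (W i).card = g := by
      intro i
      rw [Finset.card_image_of_injective _ (fun a b h => by simpa using h), Finset.card_range]
    refine ⟨fun i z => ∃ j, j < G ∧ φ j = i ∧ U j z, F, l, ?_, ?_⟩
    · constructor
      · intro i hi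
        have h0 : i * g ∈ W i := Finset.mem_image.2 ⟨0, Finset.mem_range.2 (by omega), by simp⟩
        obtain ⟨h1, h2⟩ := hWφ i hi _ h0
        exact ⟨i * g, h2, fun z hz => ⟨i * g, h2, h1, hz⟩⟩
      · rintro i hi z ⟨j, hj, _, hz⟩
        exact ⟨j, hj, hz⟩
      · intro z hz; exact hz
      · intro z
        constructor
        · rintro (h | ⟨i, hi, j, hj, _, h⟩)
          · exact Or.inl h
          · exact Or.inr ⟨j, hj, h⟩
        · rintro (h | ⟨j, hj, h⟩)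
          · exact Or.inl h
          · exact Or.inr ⟨φ j, hφ j, j, hj, rfl, h⟩
      · refine ⟨?_, ?_⟩
        · rintro i hi z ⟨j, hj, _, hz⟩
          exact hd.1 j hj z hz
        · rintro i hi k hk z ⟨j, hj, rfl, h1⟩ ⟨j', hj', rfl, h2⟩
          rw [hd.2 j hj j' hj' z h1 h2]
      · intro z w h; exact h
      · intro z w h; exact Or.inl h
      · intro z _ w h; exact h
      · intro i _ z _ w h; exact h
    · right
      intro i hi hC
      refine hA' (W i) (fun j hj => (hWφ i hi j hj).2) (hWc i) (t.mono _ _ _ _ ?_ ?_ hC)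
      · rintro z ⟨h1, h2⟩
        refine ⟨?_, h2⟩
        rcases h1 with h1 | ⟨j, hj, h1⟩
        · exact Or.inl h1
        · exact Or.inr ⟨j, (hWφ i hi j hj).2, (hWφ i hi j hj).1, h1⟩
      · rintro z ⟨⟨h1, h1'⟩, h2⟩
        refine ⟨?_, h2⟩
        rcases h1 with h1 | ⟨k, hk, j, hj, hjk, h1⟩
        · exact Or.inl h1
        · refine Or.inr ⟨j, hj, fun hjW => h1' ⟨j, hj, (hWφ i hi j hjW).1, h1⟩, h1⟩

theorem list_good (A : ℕ → Prop) (g : ℕ) (hg : 1 ≤ g) : ∀ (T : List Trip)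
    (_ : ∀ t ∈ T, ∀ w, t.X w → A w) (G : ℕ) (_ : g ^ 2 ^ T.length ≤ G)
    (U : ℕ → ℕ → Prop) (F : ℕ → Prop) (l : ℕ → ℕ → Prop) (_ : Dj G U F),
    ∃ G' U' F' l', g ≤ G' ∧ Rf A G U F l G' U' F' l' ∧ ∀ t ∈ T, Good t G' U' F' l' := by
  intro T
  induction T with
  | nil =>
    intro _ G hG U F l hd
    refine ⟨G, U, F, l, by simpa using hG, Rf.refl hd, by simp⟩
  | cons t T ih =>
    intro hT G hG U F l hd
    have h1 : (g ^ 2 ^ T.length) * (g ^ 2 ^ T.length) ≤ G := by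
      refine le_trans (le_of_eq ?_) hG
      rw [← pow_add, List.length_cons, pow_succ]
      ring_nf
    obtain ⟨U1, F1, l1, hR, hgood⟩ := step_good t (g ^ 2 ^ T.length) G
      (Nat.one_le_pow _ _ (by omega)) h1 U F l hd
    have hR' : Rf A G U F l (g ^ 2 ^ T.length) U1 F1 l1 :=
      { hR with
        lab' := fun z w h => (hR.lab' z w h).imp id
          (fun h => ⟨h.1, hT t (by simp) w h.2⟩) }
    obtain ⟨G', U', F', l', h2, h3, h4⟩ := ih (fun s hs => hT s (by simp [hs])) _ le_rfl U1 F1 l1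
      hR.dj
    refine ⟨G', U', F', l', h2, hR'.trans h3, fun s hs => ?_⟩
    rcases List.mem_cons.1 hs with rfl | hs
    · exact hgood.persist s h3
    · exact h4 s hs

end Pool.Agent.BSig
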