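import Pool.Agent.Work.MP_510745_lc.Defs

/-!
Closure properties of bounded formulas over the naturals, as type classes, so that
instance search proves definability.
-/

namespace Pool.Agent.BSig

/-- `g` is the value of a term. -/
class DT (g : (ℕ → ℕ) → ℕ) : Prop where
  ex : ∃ t : Tm, ∀ v, t.val natS v = g v

/-- `R` is defined by a bounded formula. -/
class D0 (R : (ℕ → ℕ) → Prop) : Prop where
  ex : ∃ f : Fm, ∀ v, f.holds natS v ↔ R v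

instance dt_var (i : ℕ) : DT (fun v => v i) := ⟨⟨.var i, fun _ => rfl⟩⟩

instance dt_zero : DT (fun _ => 0) := ⟨⟨.zero, fun _ => rfl⟩⟩

instance dt_one : DT (fun _ => 1) := ⟨⟨.one, fun _ => rfl⟩⟩

instance dt_num (n : ℕ) : DT (fun _ => n) := by
  induction n with
  | zero => exact dt_zero
  | succ n ih =>
    obtain ⟨t, ht⟩ := ih.ex
    exact ⟨⟨.add t .one, fun v => by simp [Tm.val, natS, ← ht v]⟩⟩

instance dt_add {f g : (ℕ → ℕ) → ℕ} [hf : DT f] [hg : DT g] : DT (fun v => f v + g v) := by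
  obtain ⟨s, hs⟩ := hf.ex
  obtain ⟨t, ht⟩ := hg.ex
  exact ⟨⟨.add s t, fun v => by simp [Tm.val, natS, ← ht v, ← hs v]⟩⟩

instance dt_mul {f g : (ℕ → ℕ) → ℕ} [hf : DT f] [hg : DT g] : DT (fun v => f v * g v) := by
  obtain ⟨s, hs⟩ := hf.ex
  obtain ⟨t, ht⟩ := hg.ex
  exact ⟨⟨.mul s t, fun v => by simp [Tm.val, natS, ← ht v, ← hs v]⟩⟩

instance dt_pow {f : (ℕ → ℕ) → ℕ} [hf : DT f] : DT (fun v => 2 ^ f v) := by
  obtain ⟨s, hs⟩ := hf.ex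
  exact ⟨⟨.pow s, fun v => by simp [Tm.val, natS, ← hs v]⟩⟩

instance d0_eq {f g : (ℕ → ℕ) → ℕ} [hf : DT f] [hg : DT g] : D0 (fun v => f v = g v) := by
  obtain ⟨s, hs⟩ := hf.ex
  obtain ⟨t, ht⟩ := hg.ex
  exact ⟨⟨.eq s t, fun v => by simp [Fm.holds, hs, ht]⟩⟩

instance d0_lt {f g : (ℕ → ℕ) → ℕ} [hf : DT f] [hg : DT g] : D0 (fun v => f v < g v) := by
  obtain ⟨s, hs⟩ := hf.ex
  obtain ⟨t, ht⟩ := hg.ex
  exact ⟨⟨.lt s t, fun v => by simp [Fm.holds, natS, ← hs, ← ht]⟩⟩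

instance d0_not {P : (ℕ → ℕ) → Prop} [hP : D0 P] : D0 (fun v => ¬ P v) := by
  obtain ⟨s, hs⟩ := hP.ex
  exact ⟨⟨.neg s, fun v => by simp [Fm.holds, hs]⟩⟩

instance d0_and {P Q : (ℕ → ℕ) → Prop} [hP : D0 P] [hQ : D0 Q] : D0 (fun v => P v ∧ Q v) := by
  obtain ⟨s, hs⟩ := hP.ex
  obtain ⟨t, ht⟩ := hQ.ex
  exact ⟨⟨.and s t, fun v => by simp [Fm.holds, hs, ht]⟩⟩

theorem D0.congr {P Q : (ℕ → ℕ) → Prop} (hP : D0 P) (h : ∀ v, P v ↔ Q v) : D0 Q := by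
  obtain ⟨s, hs⟩ := hP.ex
  exact ⟨⟨s, fun v => (hs v).trans (h v)⟩⟩

instance d0_or {P Q : (ℕ → ℕ) → Prop} [hP : D0 P] [hQ : D0 Q] : D0 (fun v => P v ∨ Q v) :=
  D0.congr (P := fun v => ¬ (¬ P v ∧ ¬ Q v)) inferInstance (fun v => by tauto)

instance d0_imp {P Q : (ℕ → ℕ) → Prop} [hP : D0 P] [hQ : D0 Q] : D0 (fun v => (P v → Q v)) :=
  D0.congr (P := fun v => ¬ (P v ∧ ¬ Q v)) inferInstance (fun v => by tauto)

instance d0_iff {P Q : (ℕ → ℕ) → Prop} [hP : D0 P] [hQ : D0 Q] : D0 (fun v => (P v ↔ Q v)) :=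
  D0.congr (P := fun v => (P v → Q v) ∧ (Q v → P v)) inferInstance (fun v => by tauto)

instance d0_all {g : (ℕ → ℕ) → ℕ} {R : ℕ → (ℕ → ℕ) → Prop} [hg : DT g]
    [hR : D0 (fun v => R (v 0) (fun i => v (i + 1)))] :
    D0 (fun v => ∀ x, x < g v → R x v) := by
  obtain ⟨t, ht⟩ := hg.ex
  obtain ⟨f, hf⟩ := hR.ex
  refine ⟨⟨.all t f, fun v => ?_⟩⟩
  simp only [Fm.holds, natS]
  refine forall_congr' fun x => ?_
  have h1 : t.val natS v = g v := ht v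
  have h2 := hf (psh x v)
  simp only [natS] at h1
  rw [h1]
  refine imp_congr_right fun _ => ?_
  simpa [natS, psh] using h2

instance d0_ex {g : (ℕ → ℕ) → ℕ} {R : ℕ → (ℕ → ℕ) → Prop} [hg : DT g]
    [hR : D0 (fun v => R (v 0) (fun i => v (i + 1)))] :
    D0 (fun v => ∃ x, x < g v ∧ R x v) :=
  D0.congr (P := fun v => ¬ ∀ x, x < g v → ¬ R x v) inferInstance (fun v => by
    simp only [not_forall, not_not, exists_prop])

/-- `z` is a binary digit of `w`. -/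
def Bt (w z : ℕ) : Prop := ∃ q, q < w + 1 ∧ ∃ r, r < 2 ^ z ∧ w = (q + q + 1) * 2 ^ z + r

/-- Substitution in terms. -/
def Tm.subst (g : ℕ → Tm) : Tm → Tm
  | .var i => g i
  | .zero => .zero
  | .one => .one
  | .add s t => .add (s.subst g) (t.subst g)
  | .mul s t => .mul (s.subst g) (t.subst g)
  | .pow s => .pow (s.subst g)

theorem Tm.val_subst {M : Type} (S : AStr M) (g : ℕ → Tm) (t : Tm) (v : ℕ → M) :
    (t.subst g).val S v = t.val S (fun i => (g i).val S v) := by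
  induction t with
  | var i => rfl
  | zero => rfl
  | one => rfl
  | add s t hs ht => simp [Tm.subst, Tm.val, hs, ht]
  | mul s t hs ht => simp [Tm.subst, Tm.val, hs, ht]
  | pow s hs => simp [Tm.subst, Tm.val, hs]

/-- Lift a substitution under a binder. -/
def upS (g : ℕ → Tm) : ℕ → Tm
  | 0 => .var 0
  | (i + 1) => (g i).subst (fun j => .var (j + 1))

/-- Substitution in formulas. -/
def Fm.subst : (ℕ → Tm) → Fm → Fm
  | g, .eq s t => .eq (s.subst g) (t.subst g)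
  | g, .lt s t => .lt (s.subst g) (t.subst g)
  | g, .neg f => .neg (f.subst g)
  | g, .and f h => .and (f.subst g) (h.subst g)
  | g, .all t f => .all (t.subst g) (f.subst (upS g))

theorem Fm.holds_subst {M : Type} (S : AStr M) (f : Fm) : ∀ (g : ℕ → Tm) (v : ℕ → M),
    (f.subst g).holds S v ↔ f.holds S (fun i => (g i).val S v) := by
  induction f with
  | eq s t => intro g v; simp [Fm.subst, Fm.holds, Tm.val_subst]
  | lt s t => intro g v; simp [Fm.subst, Fm.holds, Tm.val_subst]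
  | neg f ih => intro g v; simp [Fm.subst, Fm.holds, ih]
  | and f h ihf ihh => intro g v; simp [Fm.subst, Fm.holds, ihf, ihh]
  | all t f ih =>
    intro g v
    simp only [Fm.subst, Fm.holds, Tm.val_subst]
    refine forall_congr' fun x => imp_congr_right fun _ => ?_
    rw [ih]
    have : (fun i => (upS g i).val S (psh x v)) = psh x (fun i => (g i).val S v) := by
      funext i
      cases i with
      | zero => rfl
      | succ i => simp only [upS, Tm.val_subst, psh, Tm.val]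
    rw [this]

theorem D0.sub {R : (ℕ → ℕ) → Prop} (hR : D0 R) {g : ℕ → (ℕ → ℕ) → ℕ} (hg : ∀ i, DT (g i)) :
    D0 (fun v => R (fun i => g i v)) := by
  choose t ht using fun i => (hg i).ex
  obtain ⟨f, hf⟩ := hR.ex
  refine ⟨⟨f.subst t, fun v => ?_⟩⟩
  rw [Fm.holds_subst]
  simp only [ht]
  exact hf _

/-- A list of term functions as an assignment. -/
def asg : List ((ℕ → ℕ) → ℕ) → ℕ → (ℕ → ℕ) → ℕ
  | [], _ => fun _ => 0
  | (g :: _), 0 => g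
  | (_ :: l), (i + 1) => asg l i

theorem asg_dt : ∀ (l : List ((ℕ → ℕ) → ℕ)), (∀ g ∈ l, DT g) → ∀ i, DT (asg l i)
  | [], _, _ => dt_zero
  | (g :: _), h, 0 => h g (by simp)
  | (_ :: l), h, (i + 1) => asg_dt l (fun g hg => h g (by simp [hg])) i

section subs
variable {g0 g1 g2 g3 g4 g5 g6 g7 g8 g9 g10 g11 : (ℕ → ℕ) → ℕ} [h0 : DT g0] [h1 : DT g1] [h2 : DT g2]
  [h3 : DT g3] [h4 : DT g4] [h5 : DT g5] [h6 : DT g6] [h7 : DT g7] [h8 : DT g8] [h9 : DT g9]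
  [h10 : DT g10] [h11 : DT g11]

include h0 in
theorem D0.s1 {P : ℕ → Prop} (h : D0 (fun v => P (v 0))) : D0 (fun v => P (g0 v)) :=
  D0.sub h (g := asg [g0]) (asg_dt _ (by simp [*]))

include h0 h1 in
theorem D0.s2 {P : ℕ → ℕ → Prop} (h : D0 (fun v => P (v 0) (v 1))) :
    D0 (fun v => P (g0 v) (g1 v)) :=
  D0.sub h (g := asg [g0, g1]) (asg_dt _ (by simp [*]))

include h0 h1 h2 in
theorem D0.s3 {P : ℕ → ℕ → ℕ → Prop} (h : D0 (fun v => P (v 0) (v 1) (v 2))) :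
    D0 (fun v => P (g0 v) (g1 v) (g2 v)) :=
  D0.sub h (g := asg [g0, g1, g2]) (asg_dt _ (by simp [*]))

include h0 h1 h2 h3 in
theorem D0.s4 {P : ℕ → ℕ → ℕ → ℕ → Prop} (h : D0 (fun v => P (v 0) (v 1) (v 2) (v 3))) :
    D0 (fun v => P (g0 v) (g1 v) (g2 v) (g3 v)) :=
  D0.sub h (g := asg [g0, g1, g2, g3]) (asg_dt _ (by simp [*]))

include h0 h1 h2 h3 h4 in
theorem D0.s5 {P : ℕ → ℕ → ℕ → ℕ → ℕ → Prop}
    (h : D0 (fun v => P (v 0) (v 1) (v 2) (v 3) (v 4))) :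
    D0 (fun v => P (g0 v) (g1 v) (g2 v) (g3 v) (g4 v)) :=
  D0.sub h (g := asg [g0, g1, g2, g3, g4]) (asg_dt _ (by simp [*]))

include h0 h1 h2 h3 h4 h5 in
theorem D0.s6 {P : ℕ → ℕ → ℕ → ℕ → ℕ → ℕ → Prop}
    (h : D0 (fun v => P (v 0) (v 1) (v 2) (v 3) (v 4) (v 5))) :
    D0 (fun v => P (g0 v) (g1 v) (g2 v) (g3 v) (g4 v) (g5 v)) :=
  D0.sub h (g := asg [g0, g1, g2, g3, g4, g5]) (asg_dt _ (by simp [*]))

include h0 h1 h2 h3 h4 h5 h6 in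
theorem D0.s7 {P : ℕ → ℕ → ℕ → ℕ → ℕ → ℕ → ℕ → Prop}
    (h : D0 (fun v => P (v 0) (v 1) (v 2) (v 3) (v 4) (v 5) (v 6))) :
    D0 (fun v => P (g0 v) (g1 v) (g2 v) (g3 v) (g4 v) (g5 v) (g6 v)) :=
  D0.sub h (g := asg [g0, g1, g2, g3, g4, g5, g6]) (asg_dt _ (by simp [*]))

include h0 h1 h2 h3 h4 h5 h6 h7 in
theorem D0.s8 {P : ℕ → ℕ → ℕ → ℕ → ℕ → ℕ → ℕ → ℕ → Prop}
    (h : D0 (fun v => P (v 0) (v 1) (v 2) (v 3) (v 4) (v 5) (v 6) (v 7))) :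
    D0 (fun v => P (g0 v) (g1 v) (g2 v) (g3 v) (g4 v) (g5 v) (g6 v) (g7 v)) :=
  D0.sub h (g := asg [g0, g1, g2, g3, g4, g5, g6, g7]) (asg_dt _ (by simp [*]))

include h0 h1 h2 h3 h4 h5 h6 h7 h8 in
theorem D0.s9 {P : ℕ → ℕ → ℕ → ℕ → ℕ → ℕ → ℕ → ℕ → ℕ → Prop}
    (h : D0 (fun v => P (v 0) (v 1) (v 2) (v 3) (v 4) (v 5) (v 6) (v 7) (v 8))) :
    D0 (fun v => P (g0 v) (g1 v) (g2 v) (g3 v) (g4 v) (g5 v) (g6 v) (g7 v) (g8 v)) :=
  D0.sub h (g := asg [g0, g1, g2, g3, g4, g5, g6, g7, g8]) (asg_dt _ (by simp [*]))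

include h0 h1 h2 h3 h4 h5 h6 h7 h8 h9 in
theorem D0.s10 {P : ℕ → ℕ → ℕ → ℕ → ℕ → ℕ → ℕ → ℕ → ℕ → ℕ → Prop}
    (h : D0 (fun v => P (v 0) (v 1) (v 2) (v 3) (v 4) (v 5) (v 6) (v 7) (v 8) (v 9))) :
    D0 (fun v => P (g0 v) (g1 v) (g2 v) (g3 v) (g4 v) (g5 v) (g6 v) (g7 v) (g8 v) (g9 v)) :=
  D0.sub h (g := asg [g0, g1, g2, g3, g4, g5, g6, g7, g8, g9]) (asg_dt _ (by simp [*]))

include h0 h1 h2 h3 h4 h5 h6 h7 h8 h9 h10 in
theorem D0.s11 {P : ℕ → ℕ → ℕ → ℕ → ℕ → ℕ → ℕ → ℕ → ℕ → ℕ → ℕ → Prop}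
    (h : D0 (fun v => P (v 0) (v 1) (v 2) (v 3) (v 4) (v 5) (v 6) (v 7) (v 8) (v 9) (v 10))) :
    D0 (fun v => P (g0 v) (g1 v) (g2 v) (g3 v) (g4 v) (g5 v) (g6 v) (g7 v) (g8 v) (g9 v)
      (g10 v)) :=
  D0.sub h (g := asg [g0, g1, g2, g3, g4, g5, g6, g7, g8, g9, g10]) (asg_dt _ (by simp [*]))

include h0 h1 h2 h3 h4 h5 h6 h7 h8 h9 h10 h11 in
theorem D0.s12 {P : ℕ → ℕ → ℕ → ℕ → ℕ → ℕ → ℕ → ℕ → ℕ → ℕ → ℕ → ℕ → Prop}
    (h : D0 (fun v => P (v 0) (v 1) (v 2) (v 3) (v 4) (v 5) (v 6) (v 7) (v 8) (v 9) (v 10)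
      (v 11))) :
    D0 (fun v => P (g0 v) (g1 v) (g2 v) (g3 v) (g4 v) (g5 v) (g6 v) (g7 v) (g8 v) (g9 v)
      (g10 v) (g11 v)) :=
  D0.sub h (g := asg [g0, g1, g2, g3, g4, g5, g6, g7, g8, g9, g10, g11]) (asg_dt _ (by simp [*]))

instance d0_bt : D0 (fun v => Bt (g0 v) (g1 v)) := by
  apply D0.s2
  unfold Bt
  infer_instance

end subs

/-- A pairing term. -/
def pr (x y : ℕ) : ℕ := (x + y) * (x + y) + x

instance dt_pr {f g : (ℕ → ℕ) → ℕ} [hf : DT f] [hg : DT g] : DT (fun v => pr (f v) (g v)) := by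
  unfold pr
  infer_instance

end Pool.Agent.BSig
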