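import Mathlib

/-!
Basic definitions for MP_510745_lc: structures for the language of arithmetic with
exponentiation, Delta_0 formulas, c.e. sets, M-finite sets and Turing reducibility
in a model of PA^- + exp + BSigma_1.
-/

namespace Pool.Agent.BSig

/-- A structure for the language `0, 1, +, *, 2^x, <`. -/
structure AStr (M : Type) where
  zero : M
  one : M
  add : M → M → M
  mul : M → M → M
  pow : M → M
  lt : M → M → Prop

/-- Terms, with variables numbered by naturals. -/
inductive Tm : Type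
  | var (i : ℕ) : Tm
  | zero : Tm
  | one : Tm
  | add (s t : Tm) : Tm
  | mul (s t : Tm) : Tm
  | pow (s : Tm) : Tm

/-- Bounded (`Delta_0`) formulas; `all t f` is `(∀ x < t) f`, where `x` is variable `0` of `f`
and variable `i + 1` of `f` is variable `i` outside. -/
inductive Fm : Type
  | eq (s t : Tm) : Fm
  | lt (s t : Tm) : Fm
  | neg (f : Fm) : Fm
  | and (f g : Fm) : Fm
  | all (t : Tm) (f : Fm) : Fm

/-- Push a value in front of an assignment. -/
def psh {M : Type} (x : M) (v : ℕ → M) : ℕ → M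
  | 0 => x
  | (i + 1) => v i

/-- Value of a term. -/
def Tm.val {M : Type} (S : AStr M) : Tm → (ℕ → M) → M
  | .var i, v => v i
  | .zero, _ => S.zero
  | .one, _ => S.one
  | .add s t, v => S.add (s.val S v) (t.val S v)
  | .mul s t, v => S.mul (s.val S v) (t.val S v)
  | .pow s, v => S.pow (s.val S v)

/-- Truth of a bounded formula. -/
def Fm.holds {M : Type} (S : AStr M) : Fm → (ℕ → M) → Prop
  | .eq s t, v => s.val S v = t.val S v
  | .lt s t, v => S.lt (s.val S v) (t.val S v)
  | .neg f, v => ¬ f.holds S v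
  | .and f g, v => f.holds S v ∧ g.holds S v
  | .all t f, v => ∀ x, S.lt x (t.val S v) → f.holds S (psh x v)

/-- The axioms of `PA^-` (discretely ordered semirings with subtraction)
together with the recursion equations of `2^x`. -/
structure IsPAMinusExp {M : Type} (S : AStr M) : Prop where
  add_assoc : ∀ x y z, S.add (S.add x y) z = S.add x (S.add y z)
  add_comm : ∀ x y, S.add x y = S.add y x
  add_zero : ∀ x, S.add x S.zero = x
  mul_assoc : ∀ x y z, S.mul (S.mul x y) z = S.mul x (S.mul y z)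
  mul_comm : ∀ x y, S.mul x y = S.mul y x
  mul_one : ∀ x, S.mul x S.one = x
  mul_zero : ∀ x, S.mul x S.zero = S.zero
  distrib : ∀ x y z, S.mul x (S.add y z) = S.add (S.mul x y) (S.mul x z)
  lt_irrefl : ∀ x, ¬ S.lt x x
  lt_trans : ∀ x y z, S.lt x y → S.lt y z → S.lt x z
  lt_total : ∀ x y, S.lt x y ∨ x = y ∨ S.lt y x
  add_lt : ∀ x y z, S.lt x y → S.lt (S.add x z) (S.add y z)
  mul_lt : ∀ x y z, S.lt S.zero z → S.lt x y → S.lt (S.mul x z) (S.mul y z)
  sub : ∀ x y, S.lt x y → ∃ z, S.add x z = y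
  zero_lt_one : S.lt S.zero S.one
  discrete : ∀ x, S.lt S.zero x → ¬ S.lt x S.one
  zero_le : ∀ x, ¬ S.lt x S.zero
  pow_zero : S.pow S.zero = S.one
  pow_succ : ∀ x, S.pow (S.add x S.one) = S.add (S.pow x) (S.pow x)

/-- Induction for bounded formulas (with parameters `c`). -/
def IDelta0 {M : Type} (S : AStr M) : Prop :=
  ∀ (f : Fm) (c : ℕ → M), f.holds S (psh S.zero c) →
    (∀ x, f.holds S (psh x c) → f.holds S (psh (S.add x S.one) c)) → ∀ x, f.holds S (psh x c)

/-- Induction for `Sigma_1` formulas `∃ y, f(y, x, c)`. -/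
def ISigma1 {M : Type} (S : AStr M) : Prop :=
  ∀ (f : Fm) (c : ℕ → M), (∃ y, f.holds S (psh y (psh S.zero c))) →
    (∀ x, (∃ y, f.holds S (psh y (psh x c))) → ∃ y, f.holds S (psh y (psh (S.add x S.one) c))) →
    ∀ x, ∃ y, f.holds S (psh y (psh x c))

/-- Collection for `Sigma_1` formulas `∃ z, f(z, y, x, c)`. -/
def BSigma1 {M : Type} (S : AStr M) : Prop :=
  ∀ (f : Fm) (c : ℕ → M) (a : M),
    (∀ x, S.lt x a → ∃ y z, f.holds S (psh z (psh y (psh x c)))) →
    ∃ t, ∀ x, S.lt x a → ∃ y, S.lt y t ∧ ∃ z, f.holds S (psh z (psh y (psh x c)))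

/-- C.e. sets: `Sigma_1` definable with parameters. -/
def CE {M : Type} (S : AStr M) (A : M → Prop) : Prop :=
  ∃ (f : Fm) (c : ℕ → M), ∀ x, A x ↔ ∃ y, f.holds S (psh y (psh x c))

/-- C.e. sets of quadruples. -/
def CE4 {M : Type} (S : AStr M) (F : M → M → M → M → Prop) : Prop :=
  ∃ (f : Fm) (c : ℕ → M), ∀ k i p n,
    F k i p n ↔ ∃ y, f.holds S (psh y (psh k (psh i (psh p (psh n c)))))

/-- `x` is an element of the `M`-finite set coded by `a`: the binary digit of `a` with weight
`2^x` is `1`. -/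
def Elt {M : Type} (S : AStr M) (x a : M) : Prop :=
  ∃ q r, S.lt r (S.pow x) ∧ a = S.add (S.mul (S.add (S.add q q) S.one) (S.pow x)) r

/-- The finite set coded by `k` is contained in `A`. -/
def Pos {M : Type} (S : AStr M) (k : M) (A : M → Prop) : Prop := ∀ x, Elt S x k → A x

/-- The finite set coded by `k` is disjoint from `A`. -/
def Neg {M : Type} (S : AStr M) (k : M) (A : M → Prop) : Prop := ∀ x, Elt S x k → ¬ A x

/-- Turing reducibility `A ≤_T B` in `M`. -/
def Red {M : Type} (S : AStr M) (A B : M → Prop) : Prop :=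
  ∃ F : M → M → M → M → Prop, CE4 S F ∧ ∀ k,
    (Pos S k A ↔ ∃ p n, F k S.one p n ∧ Pos S p B ∧ Neg S n B) ∧
    (Neg S k A ↔ ∃ p n, F k S.zero p n ∧ Pos S p B ∧ Neg S n B)

/-- A cut: a nonempty proper subset closed downwards and under successor. -/
def IsCut {M : Type} (S : AStr M) (I : M → Prop) : Prop :=
  (∃ x, I x) ∧ (∃ x, ¬ I x) ∧ (∀ x y, S.lt x y → I y → I x) ∧ ∀ x, I x → I (S.add x S.one)

/-- `deg A` is a minimal cover of `deg I` among the c.e. degrees. -/
def IsMinCover {M : Type} (S : AStr M) (I A : M → Prop) : Prop :=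
  CE S A ∧ Red S I A ∧ ¬ Red S A I ∧
    ∀ B : M → Prop, CE S B → ¬ (Red S I B ∧ ¬ Red S B I ∧ Red S B A ∧ ¬ Red S A B)

/-- The standard structure on the naturals. -/
def natS : AStr ℕ where
  zero := 0
  one := 1
  add := fun x y => x + y
  mul := fun x y => x * y
  pow := fun x => 2 ^ x
  lt := fun x y => x < y

end Pool.Agent.BSig
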