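import Pool.Agent.Work.MP_510745_lc.Code

/-!
Existence of the next state: preparation of the rows.
-/

namespace Pool.Agent.BSig

/-- The new alive set (on the old elements). -/
inductive Al (a n x : ℕ) (K : ℕ → Prop) : ℕ → Prop
  | mk (z : ℕ) : cO x z → (z ≤ a → n < z) → ¬ K z → (∀ w, cL x z w → Al a n x K w) → Al a n x K z

theorem Al.iff {a n x z : ℕ} {K : ℕ → Prop} :
    Al a n x K z ↔ (cO x z ∧ (z ≤ a → n < z) ∧ ¬ K z ∧ ∀ w, cL x z w → Al a n x K w) :=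
  ⟨fun h => by cases h with | mk _ h1 h2 h3 h4 => exact ⟨h1, h2, h3, h4⟩,
    fun ⟨h1, h2, h3, h4⟩ => Al.mk z h1 h2 h3 h4⟩

/-- The killed units. -/
def Kz (x : ℕ) (zk : ℕ → ℕ → ℕ) (z : ℕ) : Prop :=
  ∃ b e c i, e < b ∧ cU x b c i (zk b e) ∧ cU x b c i z

/-- The environment of a stage. -/
def mkEnv (a n x v v' D : ℕ) (zk : ℕ → ℕ → ℕ) : Env where
  O := fun z => (z < v ∧ Al a n x (Kz x zk) z) ∨ (v ≤ z ∧ z < v')
  dead := fun z => ¬ ((z < v ∧ Al a n x (Kz x zk) z) ∨ (v ≤ z ∧ z < v')) ∧ z < v'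
  TS := fun e => Test x D e
  Bd := fun d => cD x d ∨ d = v'
  Lo := cL x
  Ro := cR x
  Uo := cU x

theorem t7_row {x b b' c i z : ℕ} (h7 : T7 x) (hr : Rw x b b') (hz : cU x b c i z) :
    b ≤ z ∧ z < b' ∧ cO x z ∧ ¬ cR x z := by
  obtain ⟨h1, h2, h3, h4⟩ := cU_lt hz
  obtain ⟨c', _, h5, h6, h7, h8, h9, _⟩ := h7 b h1 c h2 i h3 z h4 hz
  rw [rw_iff] at hr h5
  have h10 := hr.2.2.2 c' h5.2.1
  have h11 := h5.2.2.2 b' hr.2.1
  exact ⟨by omega, by omega, h8, h9⟩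

theorem t7_ex {x b c i z : ℕ} (h7 : T7 x) (hz : cU x b c i z) :
    ∃ b', Rw x b b' ∧ b ≤ z ∧ z < b' ∧ cO x z ∧ ¬ cR x z ∧
      (c = 0 ∨ ∃ N, c = N + 1 ∧ N < b ∧ cL x z N) ∧ ∃ t, cT x b t ∧ i < t := by
  obtain ⟨h1, h2, h3, h4⟩ := cU_lt hz
  obtain ⟨b', _, h5, h6, h7, h8, h9, h10, t, _, h11⟩ := h7 b h1 c h2 i h3 z h4 hz
  refine ⟨b', h5, by omega, h7, h8, h9, ?_, t, h11⟩
  exact h10.imp id fun ⟨N, _, h⟩ => ⟨N, h⟩

theorem t9_eq {x b c i c₁ i₁ z : ℕ} (h9 : T9 x) (h : cU x b c i z) (h' : cU x b c₁ i₁ z) :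
    c = c₁ ∧ i = i₁ := by
  obtain ⟨h1, h2, h3, h4⟩ := cU_lt h
  obtain ⟨h5, h6, h7, h8⟩ := cU_lt h'
  exact h9 b h1 c h2 i h3 c₁ h6 i₁ h7 z h4 h h'

section prep
variable {a n x v : ℕ} (hI : Inv a n x v) (hn : n < a) (zk : ℕ → ℕ → ℕ) (v' D : ℕ)

include hI hn in
theorem old_row (hvv : v < v') (b b' t : ℕ) (hr : Rw x b b') (hT : cT x b (2 ^ 2 ^ 2 ^ t))
    (y : ℕ) (hy : b < y) (ht : t = tow (3 * (a - n)) y) (Lh : ℕ → ℕ → Prop) (Rh : ℕ → Prop) :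
    ∃ (L : ℕ → ℕ → Prop) (R : ℕ → Prop) (U : ℕ → ℕ → ℕ → Prop),
      (∀ z w, ¬ (b ≤ z ∧ z < b') → (L z w ↔ Lh z w)) ∧
      (∀ z, ¬ (b ≤ z ∧ z < b') → (R z ↔ Rh z)) ∧
      RowOK (mkEnv a n x v v' D zk) True b b' t L R U := by
  classical
  obtain ⟨S, hSc, hS⟩ := hI.card
  have hr' := rw_iff.1 hr
  have hab : a + 1 ≤ b := hI.bd b hr'.1
  have hb'v : b' ≤ v := (tp_iff.1 hI.tp).2 b' hr'.2.1
  obtain ⟨h1t, hsize⟩ := size_ineq a b n (n + 2) t y hy hab hn le_rfl ht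
  set tb := 2 ^ 2 ^ 2 ^ t with htb
  -- surviving units
  let κ : ℕ → ℕ → ℕ := fun c e => if h : ∃ i, cU x b c i (zk b e) then h.choose else 0
  have hκ : ∀ c e i, cU x b c i (zk b e) → i = κ c e := by
    intro c e i hi
    have h : ∃ i, cU x b c i (zk b e) := ⟨i, hi⟩
    simp only [κ, h, dif_pos]
    exact (t9_eq hI.t9 hi h.choose_spec).2
  have hρ : ∀ c, ∃ ρ : ℕ → ℕ, (∀ i, ρ i < tb - b) ∧
      ∀ j, j < tb - b → ∃ i, i < tb ∧ (∀ e, e < b → ¬ cU x b c i (zk b e)) ∧ ρ i = j := by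
    intro c
    let Kc : Finset ℕ := (Finset.range b).image (κ c)
    have hKc : Kc.card ≤ b := le_trans Finset.card_image_le (by simp)
    have h1 : tb - b ≤ ((Finset.range tb) \ Kc).card := by
      have := Finset.le_card_sdiff Kc (Finset.range tb)
      rw [Finset.card_range] at this
      omega
    have h2 : 1 ≤ tb - b := by
      have : 1 ≤ (t * (b + 1)) ^ 2 ^ (b * (n + 2) * 2 ^ b * 2 ^ b) :=
        Nat.one_le_pow _ _ (Nat.mul_pos (by omega) (by omega))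
      omega
    obtain ⟨ρ, h3, h4⟩ := surj_of_card _ (tb - b) h2 h1
    refine ⟨ρ, h3, fun j hj => ?_⟩
    obtain ⟨i, hi, h5⟩ := h4 j hj
    rw [Finset.mem_sdiff, Finset.mem_range] at hi
    refine ⟨i, hi.1, fun e he hU => hi.2 ?_, h5⟩
    rw [hκ c e i hU]
    exact Finset.mem_image.2 ⟨e, Finset.mem_range.2 he, rfl⟩
  choose ρ hρ1 hρ2 using hρ
  have hOlow : ∀ z, z < v → ((mkEnv a n x v v' D zk).O z ↔ Al a n x (Kz x zk) z) := by
    intro z hz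
    simp only [mkEnv]
    constructor
    · rintro (h | h)
      · exact h.2
      · omega
    · intro h; exact Or.inl ⟨hz, h⟩
  have hlow : ∀ z w, cL x z w → w < v := by
    intro z w hw
    obtain ⟨c, c', h1, h2, h3, h4⟩ := hI.lb z w hw
    have := (tp_iff.1 hI.tp).2 c (rw_iff.1 h1).1
    omega
  have hKsurv : ∀ c i z, cU x b c i z → (∀ e, e < b → ¬ cU x b c i (zk b e)) → ¬ Kz x zk z := by
    rintro c i z hz hs ⟨b1, e, c1, i1, he, h1, h2⟩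
    obtain ⟨b1', h3, h4, h5, _⟩ := t7_ex hI.t7 h2
    obtain ⟨h6, h7, _⟩ := t7_row hI.t7 hr hz
    obtain ⟨rfl, -⟩ := row_unique hr h3 h6 h7 h4 h5
    obtain ⟨rfl, rfl⟩ := t9_eq hI.t9 hz h2
    exact hs e he h1
  have hAlive : ∀ c i z, cU x b c i z → (∀ e, e < b → ¬ cU x b c i (zk b e)) →
      (∀ w, cL x z w → (mkEnv a n x v v' D zk).O w) → (mkEnv a n x v v' D zk).O z := by
    intro c i z hz hs hw
    obtain ⟨h6, h7, h8, _⟩ := t7_row hI.t7 hr hz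
    rw [hOlow z (by omega), Al.iff]
    exact ⟨h8, fun h => by omega, hKsurv c i z hz hs, fun w hw' =>
      (hOlow w (hlow z w hw')).1 (hw w hw')⟩
  refine row_step (mkEnv a n x v v' D zk) True b b' t (tb - b) Lh Rh
    (fun j z => ∃ c i, cU x b c i z ∧ (mkEnv a n x v v' D zk).O z ∧ ρ c i = j)
    (fun z => b ≤ z ∧ z < b' ∧ cR x z ∧ (mkEnv a n x v v' D zk).O z) (insert v' S) ?_ h1t ?_ ?_ ?_
    ?_ ?_ ?_ ?_
  · rintro f (hf | rfl)
    · exact Finset.mem_insert_of_mem (hS f hf)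
    · exact Finset.mem_insert_self _ _
  · have hc : (insert v' S).card ≤ n + 2 := le_trans (Finset.card_insert_le _ _) (by omega)
    have h2 : (t * (b + 1)) ^ 2 ^ (b * (insert v' S).card * 2 ^ b * 2 ^ b) ≤
        (t * (b + 1)) ^ 2 ^ (b * (n + 2) * 2 ^ b * 2 ^ b) := by
      refine Nat.pow_le_pow_right (Nat.mul_pos (by omega) (by omega))
        (Nat.pow_le_pow_right (by norm_num) ?_)
      gcongr
    omega
  · intro z
    constructor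
    · rintro (⟨h1, h2, h3, h4⟩ | ⟨j, hj, c, i, h1, h2, h3⟩)
      · exact ⟨h1, h2, h4⟩
      · obtain ⟨h4, h5, _⟩ := t7_row hI.t7 hr h1
        exact ⟨h4, h5, h2⟩
    · rintro ⟨h1, h2, h3⟩
      have h4 := (Al.iff.1 ((hOlow z (by omega)).1 h3)).1
      rcases hI.t8 z (cO_lt h4) h4 (by omega) with h5 | ⟨b1, _, c, _, i, _, h5⟩
      · exact Or.inl ⟨h1, h2, h5, h3⟩
      · obtain ⟨b1', h6, h7, h8, _⟩ := t7_ex hI.t7 h5
        obtain ⟨rfl, -⟩ := row_unique hr h6 h1 h2 h7 h8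
        exact Or.inr ⟨ρ c i, hρ1 c i, c, i, h5, h3, rfl⟩
  · refine ⟨?_, ?_⟩
    · rintro j hj z ⟨c, i, h1, _⟩ ⟨_, _, h2, _⟩
      exact (t7_row hI.t7 hr h1).2.2.2 h2
    · rintro i hi j hj z ⟨c, i1, h1, _, rfl⟩ ⟨c2, i2, h2, _, rfl⟩
      obtain ⟨rfl, rfl⟩ := t9_eq hI.t9 h1 h2
      rfl
  · intro z w h1 h2 h3
    refine ⟨hI.lb.row hr h1 h2 h3, fun h4 => ?_⟩
    have h5 := (Al.iff.1 ((hOlow z (by omega)).1 h4)).2.2.2 w h3
    exact (hOlow w (hlow z w h3)).2 h5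
  · intro z h1 h2 h3 h4
    refine ⟨h1, h2, h3, ?_⟩
    rw [hOlow z (by omega), Al.iff]
    refine ⟨(hI.rs z h3).1, fun h => by omega, ?_, fun w hw => (hOlow w (hlow z w hw)).1 (h4 w hw)⟩
    rintro ⟨b1, e, c1, i1, he, h5, h6⟩
    obtain ⟨_, _, _, _, _, h7, _⟩ := t7_ex hI.t7 h6
    exact h7 h3
  · intro j hj
    obtain ⟨i, hi, hs, h1⟩ := hρ2 0 j hj
    have hb := cD_lt hr'.1
    have hb' := cD_lt hr'.2.1
    obtain ⟨z, _, h2, h3⟩ := hI.t10 b hb b' hb' hr tb (cT_lt hT).2 hT 0 (by omega) (Or.inl rfl) i hi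
    have h4 : ∀ w, ¬ cL x z w := by
      intro w hw
      have := h3 w (cL_lt hw).2 hw
      omega
    exact ⟨z, ⟨0, i, h2, hAlive 0 i z h2 hs (fun w hw => absurd hw (h4 w)), h1⟩, h4⟩
  · intro _ j hj c hc
    obtain ⟨i, hi, hs, h1⟩ := hρ2 c j hj
    have hb := cD_lt hr'.1
    have hb' := cD_lt hr'.2.1
    have hcb : c < b + 1 := by
      rcases hc with rfl | ⟨N, rfl, h, _⟩ <;> omega
    have hCls : Cls x b c := by
      rcases hc with rfl | ⟨N, rfl, h, h'⟩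
      · exact Or.inl rfl
      · exact Or.inr ⟨N, by omega, rfl, h, (Al.iff.1 ((hOlow N (by omega)).1 h')).1⟩
    obtain ⟨z, _, h2, h3⟩ := hI.t10 b hb b' hb' hr tb (cT_lt hT).2 hT c hcb hCls i hi
    exact ⟨i, ⟨z, h2⟩, fun z' hz' hw => ⟨c, i, hz', hAlive c i z' hz' hs hw, h1⟩⟩

include hI hn in
theorem new_row (t : ℕ) (ht : t = tow (3 * (a - n)) x) (hv' : v' = v + 2 ^ 2 ^ 2 ^ t + x + 1)
    (Lh : ℕ → ℕ → Prop) (Rh : ℕ → Prop) :
    ∃ (L : ℕ → ℕ → Prop) (R : ℕ → Prop) (U : ℕ → ℕ → ℕ → Prop),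
      (∀ z w, ¬ (v ≤ z ∧ z < v') → (L z w ↔ Lh z w)) ∧
      (∀ z, ¬ (v ≤ z ∧ z < v') → (R z ↔ Rh z)) ∧
      RowOK (mkEnv a n x v v' D zk) False v v' t L R U := by
  classical
  obtain ⟨S, hSc, hS⟩ := hI.card
  have hvx : v < x := cD_lt hI.tp.1
  obtain ⟨h1t, hsize⟩ := size_ineq a v n (n + 2) t x hvx hI.av hn le_rfl ht
  have hlow : ∀ z w, cL x z w → z < v := by
    intro z w hw
    obtain ⟨c, c', h1, h2, h3, h4⟩ := hI.lb z w hw
    have := (tp_iff.1 hI.tp).2 c' (rw_iff.1 h1).2.1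
    omega
  refine row_step (mkEnv a n x v v' D zk) False v v' t (v' - v) Lh Rh
    (fun j z => z = v + j) (fun _ => False) (insert v' S) ?_ h1t ?_ ?_ ?_ ?_ ?_ ?_ ?_
  · rintro f (hf | rfl)
    · exact Finset.mem_insert_of_mem (hS f hf)
    · exact Finset.mem_insert_self _ _
  · have hc : (insert v' S).card ≤ n + 2 := le_trans (Finset.card_insert_le _ _) (by omega)
    have h2 : (t * (v + 1)) ^ 2 ^ (v * (insert v' S).card * 2 ^ v * 2 ^ v) ≤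
        (t * (v + 1)) ^ 2 ^ (v * (n + 2) * 2 ^ v * 2 ^ v) := by
      refine Nat.pow_le_pow_right (Nat.mul_pos (by omega) (by omega))
        (Nat.pow_le_pow_right (by norm_num) ?_)
      gcongr
    omega
  · intro z
    constructor
    · rintro (h | ⟨j, hj, rfl⟩)
      · exact h.elim
      · exact ⟨by omega, by omega, Or.inr ⟨by omega, by omega⟩⟩
    · rintro ⟨h1, h2, -⟩
      exact Or.inr ⟨z - v, by omega, by omega⟩
  · refine ⟨fun _ _ _ _ h => h, ?_⟩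
    rintro i hi j hj z h1 h2
    omega
  · intro z w h1 h2 h3
    have := hlow z w h3
    omega
  · intro z h1 h2 h3 h4
    have := hI.ov z (hI.rs z h3).1
    omega
  · intro j hj
    refine ⟨v + j, rfl, fun w hw => ?_⟩
    have := hlow _ w hw
    omega
  · intro h
    exact h.elim

end prep

end Pool.Agent.BSig
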