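import Pool.Agent.Work.MP_510745_lc.Exist

/-!
Existence of the next state.
-/

namespace Pool.Agent.BSig

/-- Rows for a predicate of boundaries. -/
def RowB (Bd : ℕ → Prop) (b b' : ℕ) : Prop := Bd b ∧ Bd b' ∧ b < b' ∧ ∀ d, Bd d → (d ≤ b ∨ b' ≤ d)

theorem rowB_unique {Bd : ℕ → Prop} {b b' c c' z : ℕ} (h : RowB Bd b b') (h' : RowB Bd c c')
    (h1 : b ≤ z) (h2 : z < b') (h3 : c ≤ z) (h4 : z < c') : b = c ∧ b' = c' := by
  have a1 := h.2.2.2 c h'.1
  have a2 := h.2.2.2 c' h'.2.1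
  have a3 := h'.2.2.2 b h.1
  have a4 := h'.2.2.2 b' h.2.1
  omega

theorem rowB_right {Bd : ℕ → Prop} {b b' c' : ℕ} (h : RowB Bd b b') (h' : RowB Bd b c') :
    b' = c' := (rowB_unique h h' le_rfl h.2.2.1 le_rfl h'.2.2.1).2

theorem rowB_succ {Bd : ℕ → Prop} {d v' : ℕ} (hd : Bd d) (hv : Bd v') (hdv : d < v') :
    ∃ b', RowB Bd d b' := by
  classical
  have h : ∃ c, Bd c ∧ d < c := ⟨v', hv, hdv⟩
  refine ⟨Nat.find h, hd, (Nat.find_spec h).1, (Nat.find_spec h).2, fun e he => ?_⟩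
  by_contra hc
  push Not at hc
  exact Nat.find_min h hc.2 ⟨he, hc.1⟩

theorem rowB_of {Bd : ℕ → Prop} {b0 v' z : ℕ} (hb : Bd b0) (hv : Bd v') (h1 : b0 ≤ z)
    (h2 : z < v') : ∃ b b', RowB Bd b b' ∧ b ≤ z ∧ z < b' := by
  classical
  have h3 : Bd (Nat.findGreatest Bd z) := Nat.findGreatest_spec h1 hb
  have h4 : Nat.findGreatest Bd z ≤ z := Nat.findGreatest_le z
  obtain ⟨b', hr⟩ := rowB_succ h3 hv (by omega)
  refine ⟨_, b', hr, h4, ?_⟩
  by_contra hc
  have := Nat.le_findGreatest (by omega : b' ≤ z) hr.2.1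
  have := hr.2.2.1
  omega

theorem all_rows (E : Env) (v v' a : ℕ) (τ : ℕ → ℕ) (hv : E.Bd v') (ha : E.Bd (a + 1))
    (hmax : ∀ d, E.Bd d → d ≤ v')
    (hstep : ∀ b b', RowB E.Bd b b' → ∀ (Lh : ℕ → ℕ → Prop) (Rh : ℕ → Prop),
      ∃ (L : ℕ → ℕ → Prop) (R : ℕ → Prop) (U : ℕ → ℕ → ℕ → Prop),
      (∀ z w, ¬ (b ≤ z ∧ z < b') → (L z w ↔ Lh z w)) ∧
      (∀ z, ¬ (b ≤ z ∧ z < b') → (R z ↔ Rh z)) ∧ RowOK E (b < v) b b' (τ b) L R U) :
    ∃ (L : ℕ → ℕ → Prop) (R : ℕ → Prop) (U : ℕ → ℕ → ℕ → ℕ → Prop),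
      (∀ z w, v' ≤ z → ¬ L z w) ∧ (∀ z, v' ≤ z → ¬ R z) ∧
      ∀ b b', RowB E.Bd b b' → a + 1 ≤ b → RowOK E (b < v) b b' (τ b) L R (U b) := by
  classical
  have key : ∀ m d, v' - d = m → E.Bd d →
      ∃ (L : ℕ → ℕ → Prop) (R : ℕ → Prop) (U : ℕ → ℕ → ℕ → ℕ → Prop),
      (∀ z w, v' ≤ z → ¬ L z w) ∧ (∀ z, v' ≤ z → ¬ R z) ∧
      ∀ b b', RowB E.Bd b b' → d ≤ b → RowOK E (b < v) b b' (τ b) L R (U b) := by
    intro m
    induction m using Nat.strong_induction_on with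
    | _ m ih =>
      intro d hm hd
      have hdv := hmax d hd
      rcases Nat.eq_or_lt_of_le hdv with rfl | hlt
      · refine ⟨fun _ _ => False, fun _ => False, fun _ _ _ _ => False, fun _ _ _ h => h,
          fun _ _ h => h, fun b b' hr hb => ?_⟩
        have := hr.2.2.1
        have := hmax b' hr.2.1
        omega
      · obtain ⟨d', hr⟩ := rowB_succ hd hv hlt
        have hd'v := hmax d' hr.2.1
        have hdd := hr.2.2.1
        obtain ⟨L, R, U, hL, hR, hrows⟩ := ih (v' - d') (by omega) d' rfl hr.2.1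
        obtain ⟨L2, R2, U2, hL2, hR2, hOK⟩ := hstep d d' hr L R
        refine ⟨L2, R2, fun b => if b = d then U2 else U b, ?_, ?_, ?_⟩
        · intro z w hz
          rw [hL2 z w (by omega)]
          exact hL z w hz
        · intro z hz
          rw [hR2 z (by omega)]
          exact hR z hz
        · intro b b' hb hdb
          by_cases hbd : b = d
          · subst hbd
            have := rowB_right hb hr
            subst this
            simp only [if_true]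
            exact hOK
          · have h1 : d' ≤ b := by
              have := hr.2.2.2 b hb.1
              omega
            have h2 : RowOK E (b < v) b b' (τ b) L2 R2 (U b) := by
              refine RowOK.congr hb.2.2.1.le (fun z w hz => ?_) (fun z hz => ?_)
                (hrows b b' hb h1)
              · exact (hL2 z w (by omega)).symm
              · exact (hR2 z (by omega)).symm
            simp only [hbd, if_false]
            exact h2
  exact key _ _ rfl ha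

theorem exists_next {a n x v : ℕ} (hI : Inv a n x v) (hn : n < a) : ∃ x', TT a n x x' := by
  classical
  obtain ⟨zk, hzk⟩ := ex_kill n x (tow a x)
  set tn := tow (3 * (a - n)) x with htn
  set v' := v + 2 ^ 2 ^ 2 ^ tn + x + 1 with hv'
  set D := tow a x with hD
  have hM : 0 < 2 ^ 2 ^ 2 ^ tn := by positivity
  have hvx : v < x := cD_lt hI.tp.1
  have hvmax := (tp_iff.1 hI.tp).2
  have hvv : v < v' := by omega
  let E := mkEnv a n x v v' D zk
  have hEBd : ∀ d, E.Bd d ↔ (cD x d ∨ d = v') := fun d => Iff.rfl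
  have hEO : ∀ z, E.O z ↔ ((z < v ∧ Al a n x (Kz x zk) z) ∨ (v ≤ z ∧ z < v')) := fun z => Iff.rfl
  -- rows
  have hrow1 : ∀ b b', Rw x b b' → RowB E.Bd b b' := by
    intro b b' hr
    rw [rw_iff] at hr
    refine ⟨Or.inl hr.1, Or.inl hr.2.1, hr.2.2.1, ?_⟩
    rintro d (hd | rfl)
    · exact hr.2.2.2 d hd
    · have := hvmax b' hr.2.1
      omega
  have hrow2 : ∀ b b', RowB E.Bd b b' → b < v → Rw x b b' := by
    rintro b b' ⟨h1, h2, h3, h4⟩ hb
    have hb1 : cD x b := by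
      rcases h1 with h1 | h1
      · exact h1
      · omega
    have hb2 : cD x b' := by
      rcases h2 with h2 | h2
      · exact h2
      · have := h4 v (Or.inl hI.tp.1)
        omega
    exact rw_iff.2 ⟨hb1, hb2, h3, fun d hd => h4 d (Or.inl hd)⟩
  have hrow3 : ∀ b b', RowB E.Bd b b' → ¬ b < v → b = v ∧ b' = v' := by
    rintro b b' ⟨h1, h2, h3, h4⟩ hb
    have e1 : b ≤ v ∨ b = v' := by
      rcases h1 with h1 | h1
      · exact Or.inl (hvmax b h1)
      · exact Or.inr h1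
    have e2 : b' ≤ v ∨ b' = v' := by
      rcases h2 with h2 | h2
      · exact Or.inl (hvmax b' h2)
      · exact Or.inr h2
    omega
  have hrowv : RowB E.Bd v v' := by
    refine ⟨Or.inl hI.tp.1, Or.inr rfl, hvv, ?_⟩
    rintro d (hd | rfl)
    · exact Or.inl (hvmax d hd)
    · exact Or.inr le_rfl
  have hrowold : ∀ b b', Rw x b b' → b < v := by
    intro b b' hr
    rw [rw_iff] at hr
    have := hvmax b' hr.2.1
    omega
  -- sizes
  have hτ : ∃ τ : ℕ → ℕ, (∀ b b', Rw x b b' → cT x b (2 ^ 2 ^ 2 ^ (τ b)) ∧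
      ∃ y, b < y ∧ τ b = tow (3 * (a - n)) y) ∧ τ v = tn := by
    refine ⟨fun b => if h : b < v ∧ ∃ t', cT x b (2 ^ 2 ^ 2 ^ t') ∧
      ∃ y, b < y ∧ t' = tow (3 * (a - n)) y then h.2.choose else tn, ?_, ?_⟩
    · intro b b' hr
      obtain ⟨t, ht⟩ := hI.tt b b' hr
      obtain ⟨y, hy, hty⟩ := hI.tw b b' t hr ht
      have h : b < v ∧ ∃ t', cT x b (2 ^ 2 ^ 2 ^ t') ∧ ∃ y, b < y ∧ t' = tow (3 * (a - n)) y := by
        refine ⟨hrowold b b' hr, tow (3 * (a - n)) y, ?_, y, hy, rfl⟩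
        have : tow (3 * (a - n) + 3) y = 2 ^ 2 ^ 2 ^ tow (3 * (a - n)) y := rfl
        rw [← this, ← hty]; exact ht
      simp only [dif_pos h]
      exact h.2.choose_spec
    · simp
  obtain ⟨τ, hτ1, hτ2⟩ := hτ
  obtain ⟨L, R, U, hLv, hRv, hrows⟩ := all_rows E v v' a τ (Or.inr rfl) (Or.inl hI.bd0) (by
    rintro d (hd | rfl)
    · have := hvmax d hd
      omega
    · exact le_rfl) (by
    intro b b' hr Lh Rh
    by_cases hb : b < v
    · have hr' := hrow2 b b' hr hb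
      obtain ⟨h1, y, hy, h2⟩ := hτ1 b b' hr'
      obtain ⟨L, R, U, e1, e2, e3⟩ := old_row hI hn zk v' D hvv b b' (τ b) hr' h1 y hy h2 Lh Rh
      refine ⟨L, R, U, e1, e2, ?_⟩
      have : (b < v) = True := propext ⟨fun _ => trivial, fun _ => hb⟩
      rw [this]; exact e3
    · obtain ⟨rfl, rfl⟩ := hrow3 b b' hr hb
      obtain ⟨L, R, U, e1, e2, e3⟩ := new_row hI hn zk v' D tn htn hv' Lh Rh
      refine ⟨L, R, U, e1, e2, ?_⟩
      have : (b < b) = False := propext ⟨fun h => lt_irrefl _ h, fun h => h.elim⟩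
      rw [hτ2, this]; exact e3)
  have hrowa : ∀ b b', RowB E.Bd b b' → a + 1 ≤ b := by
    intro b b' hr
    by_cases hb : b < v
    · exact hI.bd b (rw_iff.1 (hrow2 b b' hr hb)).1
    · have := (hrow3 b b' hr hb).1
      have := hI.av
      omega
  have hRow : ∀ b b', RowB E.Bd b b' → RowOK E (b < v) b b' (τ b) L R (U b) :=
    fun b b' hr => hrows b b' hr (hrowa b b' hr)
  have hrowof : ∀ z, a < z → z < v' → ∃ b b', RowB E.Bd b b' ∧ b ≤ z ∧ z < b' :=
    fun z h1 h2 => rowB_of (b0 := a + 1) (Or.inl hI.bd0) (Or.inr rfl) h1 h2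
  have hrowv' : ∀ b b', RowB E.Bd b b' → b' ≤ v' := by
    rintro b b' ⟨_, h | rfl, _⟩
    · have := hvmax b' h; omega
    · exact le_rfl
  have hOv' : ∀ z, E.O z → z < v' := by
    rintro z (⟨h, _⟩ | ⟨_, h⟩)
    · omega
    · exact h
  have hτx : ∀ b b', RowB E.Bd b b' → τ b ≤ v' := by
    intro b b' hr
    by_cases hb : b < v
    · have h1 := (hτ1 b b' (hrow2 b b' hr hb)).1
      have h2 := (cT_lt h1).2
      have h3 : τ b < 2 ^ τ b := Nat.lt_two_pow_self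
      have h4 : 2 ^ τ b < 2 ^ 2 ^ τ b := Nat.lt_two_pow_self
      have h5 : 2 ^ 2 ^ τ b < 2 ^ 2 ^ 2 ^ τ b := Nat.lt_two_pow_self
      omega
    · obtain ⟨rfl, rfl⟩ := hrow3 b b' hr hb
      have h3 : tn < 2 ^ tn := Nat.lt_two_pow_self
      have h4 : 2 ^ tn < 2 ^ 2 ^ tn := Nat.lt_two_pow_self
      have h5 : 2 ^ 2 ^ tn < 2 ^ 2 ^ 2 ^ tn := Nat.lt_two_pow_self
      omega
  -- the code
  obtain ⟨x', cO', cL', cR', cU', cD', cT', cP'⟩ := code_state (v' + tow (3 * a + 4) x + 3 * a + 4)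
    E.O (fun z => a < z ∧ z < v' ∧ R z) E.Bd (fun z w => a < z ∧ z < v' ∧ L z w)
    (fun b y => (∃ b', RowB E.Bd b b') ∧ y = τ b) (fun i y => i ≤ 3 * a + 4 ∧ y = tow i x)
    (fun b c i z => (∃ b', RowB E.Bd b b') ∧ U b c i z)
    (fun z hz => by have := hOv' z hz; omega)
    (fun z hz => by omega)
    (by
      rintro z (hz | rfl)
      · have := hvmax z hz; omega
      · omega)
    (by
      rintro z w ⟨h1, h2, h3⟩
      obtain ⟨b, b', hr, h4, h5⟩ := hrowof z h1 h2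
      have := ((hRow b b' hr).l1 z w h4 h5 h3).1
      omega)
    (by
      rintro b y ⟨⟨b', hr⟩, rfl⟩
      have := hτx b b' hr
      have := hrowv' b b' hr
      have := hr.2.2.1
      omega)
    (by
      rintro i y ⟨h1, rfl⟩
      have := tow_mono_left h1 x
      omega)
    (by
      rintro b c i z ⟨⟨b', hr⟩, h⟩
      obtain ⟨h1, h2, h3, h4, h5, h6⟩ := (hRow b b' hr).u1 c i z h
      have := hτx b b' hr
      have := hrowv' b b' hr
      have := hr.2.2.1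
      refine ⟨by omega, ?_, by omega, by omega⟩
      rcases h5 with rfl | ⟨N, rfl, h5, _⟩ <;> omega)
  have hRwN : ∀ b b', Rw x' b b' ↔ RowB E.Bd b b' := by
    intro b b'
    rw [rw_iff]
    unfold RowB
    simp only [cD']
  have hcOeq : cO x' = E.O := funext fun z => propext (cO' z)
  have hLeq : ∀ b b', RowB E.Bd b b' → ∀ z w, b ≤ z → (L z w ↔ cL x' z w) := by
    intro b b' hr z w hz
    rw [cL']
    have := hrowa b b' hr
    constructor
    · intro h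
      refine ⟨by omega, ?_, h⟩
      by_contra hc
      exact hLv z w (by omega) h
    · intro h; exact h.2.2
  have hReq : ∀ b b', RowB E.Bd b b' → ∀ z, b ≤ z → (R z ↔ cR x' z) := by
    intro b b' hr z hz
    rw [cR']
    have := hrowa b b' hr
    constructor
    · intro h
      refine ⟨by omega, ?_, h⟩
      by_contra hc
      exact hRv z (by omega) h
    · intro h; exact h.2.2
  have hUeq : ∀ b b', RowB E.Bd b b' → cU x' b = U b := by
    intro b b' hr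
    funext c i z
    exact propext ((cU' b c i z).trans ⟨fun h => h.2, fun h => ⟨⟨b', hr⟩, h⟩⟩)
  have hOK : ∀ b b', RowB E.Bd b b' →
      RowOK E (b < v) b b' (τ b) (cL x') (cR x') (cU x' b) := by
    intro b b' hr
    rw [hUeq b b' hr]
    exact (hRow b b' hr).congr hr.2.2.1.le (hLeq b b' hr) (hReq b b' hr)
  have hDd : Dd x' = E.dead := by
    funext z
    refine propext (dd_iff.trans ?_)
    rw [hcOeq]
    change (¬ E.O z ∧ ∃ d, cD x' d ∧ z < d) ↔ (¬ E.O z ∧ z < v')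
    refine and_congr_right fun _ => ?_
    constructor
    · rintro ⟨d, hd, hz⟩
      rcases (cD' d).1 hd with h | rfl
      · have := hvmax d h; omega
      · exact hz
    · intro hz; exact ⟨v', (cD' v').2 (Or.inr rfl), hz⟩
  have hLb : LbOK x' := by
    intro z w h
    obtain ⟨h1, h2, h3⟩ := (cL' z w).1 h
    obtain ⟨b, b', hr, h4, h5⟩ := hrowof z h1 h2
    exact ⟨b, b', (hRwN b b').2 hr, h4, h5, ((hRow b b' hr).l1 z w h4 h5 h3).1⟩
  have hv'x' : v' < x' := cD_lt ((cD' v').2 (Or.inr rfl))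
  have hTpx' : Tp x' v' := by
    rw [tp_iff]
    refine ⟨(cD' v').2 (Or.inr rfl), fun d hd => ?_⟩
    rcases (cD' d).1 hd with h | rfl
    · have := hvmax d h; omega
    · exact le_rfl
  have hPD : cP x' a D := (cP' a D).2 ⟨by omega, rfl⟩
  have hOlow : ∀ z, z < v → (cO x' z ↔ Al a n x (Kz x zk) z) := by
    intro z hz
    rw [cO', hEO]
    constructor
    · rintro (h | h)
      · exact h.2
      · omega
    · intro h; exact Or.inl ⟨hz, h⟩
  refine ⟨x', hn, v, by omega, v', by omega, D, by have := (cP_lt hPD).2; omega, hI.tp, hPD,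
    ?_, ?_, ?_, ?_, ?_, ?_, ?_, ?_, ?_, ?_, ?_, ?_, ?_, ?_⟩
  · -- T1
    refine ⟨(cP' 0 x).2 ⟨by omega, rfl⟩, fun i hi y _ h => ?_, fun i _ y _ y' _ h h' => ?_⟩
    · rw [cP'] at h ⊢
      refine ⟨by omega, ?_⟩
      rw [h.2]; rfl
    · rw [cP'] at h h'
      rw [h.2, h'.2]
  · -- T2
    exact ⟨by omega, hTpx', fun d _ => (cD' d).trans (hEBd d)⟩
  · -- T3
    intro z hz
    have hav := hI.av
    rw [hOlow z (by omega), Al.iff, hI.ck z (by omega)]
    constructor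
    · rintro ⟨_, h, _⟩; exact h (by omega)
    · intro h
      refine ⟨by omega, fun _ => h, ?_, ?_⟩
      · rintro ⟨b1, e, c1, i1, he, h5, h6⟩
        obtain ⟨b1', h7, h8, h9, _⟩ := t7_ex hI.t7 h6
        have := hI.bd b1 (rw_iff.1 h7).1
        omega
      · intro w hw
        obtain ⟨b1, b1', h7, h8, h9, _⟩ := hI.lb z w hw
        have := hI.bd b1 (rw_iff.1 h7).1
        omega
  · -- T4
    intro z _ h
    have h1 := (cO' z).1 h
    refine ⟨hOv' z h1, fun hz => ?_⟩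
    exact (Al.iff.1 ((hOlow z hz).1 h)).1
  · -- T5
    refine ⟨?_, ?_, ?_⟩
    · intro z _ w _ h
      obtain ⟨b, b', hr, h1, h2, h3⟩ := hLb z w h
      have hr' := rw_iff.1 hr
      exact ⟨b, cD_lt hr'.1, b', cD_lt hr'.2.1, hr, by omega, h2, h3⟩
    · intro z _ w _ h1 h2
      obtain ⟨b, b', hr, h3, h4, _⟩ := hLb z w h2
      have hr' := (hRwN b b').1 hr
      exact (cO' w).2 (((hOK b b' hr').l1 z w h3 h4 h2).2 ((cO' z).1 h1))
    · intro z hz w _ h1 h2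
      obtain ⟨b, b', hr, h3, h4, _⟩ := hI.lb z w h2
      exact (hOK b b' (hrow1 b b' hr)).l2 z w h3 h4 h2
  · -- T6
    refine ⟨?_, ?_⟩
    · intro z _ h
      obtain ⟨h1, h2, h3⟩ := (cR' z).1 h
      obtain ⟨b, b', hr, h4, h5⟩ := hrowof z h1 h2
      exact ⟨(cO' z).2 ((hRow b b' hr).r1 z h4 h5 h3), h1⟩
    · intro z hz h1 h2
      obtain ⟨h3, h4⟩ := hI.rs z h1
      obtain ⟨b, b', hr, h5, h6⟩ := hrowof z h4 (by omega)
      obtain ⟨h7, h8⟩ := (hOK b b' hr).r2 z h5 h6 h1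
        (fun w hw => (cO' w).1 (h2 w (cL_lt hw).2 hw))
      exact ⟨h7, fun w _ hw => h8 w hw⟩
  · -- T7
    intro b _ c _ i _ z _ h
    obtain ⟨⟨b', hr⟩, h0⟩ := (cU' b c i z).1 h
    obtain ⟨h1, h2, h3, h4, h5, h6⟩ := (hOK b b' hr).u1 c i z h
    have hrx := (hRwN b b').2 hr
    have hT : cT x' b (τ b) := (cT' b (τ b)).2 ⟨⟨b', hr⟩, rfl⟩
    refine ⟨b', cD_lt (rw_iff.1 hrx).2.1, hrx, by omega, h2, (cO' z).2 h3, h4, ?_, τ b,
      (cT_lt hT).2, hT, h6⟩
    exact h5.imp id fun ⟨N, h7, h8, h9⟩ => ⟨N, by omega, h7, h8, h9⟩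
  · -- T8
    intro z _ h1 h2
    have h3 := hOv' z ((cO' z).1 h1)
    obtain ⟨b, b', hr, h4, h5⟩ := hrowof z h2 h3
    rcases (hOK b b' hr).c1 z h4 h5 ((cO' z).1 h1) with h6 | ⟨c, i, h6⟩
    · exact Or.inl h6
    · obtain ⟨e1, e2, e3, _⟩ := cU_lt h6
      exact Or.inr ⟨b, e1, c, e2, i, e3, h6⟩
  · -- T9
    intro b _ c _ i _ c₁ _ i₁ _ z _ h h'
    obtain ⟨⟨b', hr⟩, h0⟩ := (cU' b c i z).1 h
    exact (hOK b b' hr).d1 c i c₁ i₁ z h h'
  · -- T10
    intro b _ b' _ hr t _ ht c _ hc i hi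
    have hr' := (hRwN b b').1 hr
    have h1 := ((cT' b t).1 ht).2
    subst h1
    have hc' : ClsS E.O b c := by
      rcases hc with h | ⟨N, _, h1, h2, h3⟩
      · exact Or.inl h
      · exact Or.inr ⟨N, h1, h2, (cO' N).1 h3⟩
    obtain ⟨z, h2, h3⟩ := (hOK b b' hr').t1 c hc' i hi
    exact ⟨z, (cU_lt h2).2.2.2, h2, fun w _ hw => h3 w hw⟩
  · -- T11
    rintro b _ b' _ hr c' _ i' _ ⟨z0, _, hz0⟩ c _ hc
    have hr' := hrow1 b b' hr
    have hc' : ClsS E.O b c := by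
      rcases hc with h | ⟨N, _, h1, h2, h3⟩
      · exact Or.inl h
      · exact Or.inr ⟨N, h1, h2, (cO' N).1 h3⟩
    obtain ⟨i, ⟨z1, hz1⟩, h2⟩ := (hOK b b' hr').s1 (hrowold b b' hr) c' i' ⟨z0, hz0⟩ c hc'
    refine ⟨i, (cU_lt hz1).2.2.1, ⟨z1, (cU_lt hz1).2.2.2, hz1⟩, fun z _ hz hw => ?_⟩
    obtain ⟨h3, h4⟩ := h2 z hz (fun w hw' => (cO' w).1 (hw w (cL_lt hw').2 hw'))
    exact ⟨h3, fun w _ hw' => h4 w hw'⟩
  · -- T12
    intro b _ b' _ hr e he z hz p hp q hq hC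
    obtain ⟨z₁, p₁, q₁, h1, h2, h3, h4, h5, h6⟩ := hzk b e z p q hz hp hq hC
    refine ⟨z₁, h2, p₁, h3, q₁, h4, h5, ?_, h6⟩
    obtain ⟨c, _, i, _, h7⟩ := h5.1
    obtain ⟨_, h8, h9, _⟩ := t7_ex hI.t7 h7
    obtain ⟨h10, h11, _⟩ := t7_row hI.t7 hr h7
    have h12 := hvmax b' (rw_iff.1 hr).2.1
    rw [hOlow z₁ (by omega), Al.iff]
    rintro ⟨_, _, h13, _⟩
    exact h13 ⟨b, e, c, i, he, h1 ▸ h7, h7⟩
  · -- T14
    refine ⟨?_, ?_, ?_, ?_⟩
    · intro b _ b' _ hr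
      have hT : cT x' b (τ b) := (cT' b (τ b)).2 ⟨⟨b', (hRwN b b').1 hr⟩, rfl⟩
      exact ⟨τ b, (cT_lt hT).2, hT⟩
    · intro b _ t _ t₁ _ h h'
      rw [cT'] at h h'
      rw [h.2, h'.2]
    · intro b hb t _ h
      obtain ⟨⟨b', hr⟩, rfl⟩ := (cT' b t).1 h
      exact (hτ1 b b' (hrow2 b b' hr hb)).1
    · intro t _ h
      obtain ⟨_, rfl⟩ := (cT' v t).1 h
      refine ⟨3 * (a - n), by omega, by omega, ?_⟩
      rw [cP', hτ2]
      exact ⟨by omega, rfl⟩
  · -- Dich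
    intro b _ b' _ hr e he f _ hf X hX X' hX' h1 h2 h3
    have hr' := (hRwN b b').1 hr
    rw [cov_iff hLb hr, ind_iff hLb hr, hDd, hcOeq]
    exact (hOK b b' hr').g1 e he f ((cD' f).1 hf) X hX X' hX'
      (fun z hz => (cO' z).1 (h1 z (hz.lt_of_lt hX) hz)) (fun z hz => h2 z (hz.lt_of_lt hX') hz) h3

end Pool.Agent.BSig
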