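import Pool.Agent.Work.MP_510745_lc.Seq

/-!
Clean forms of the properties of the sequence of states with horizon `k`.
-/

namespace Pool.Agent.BSig

open Classical in
/-- The last boundary at stage `n`. -/
noncomputable def V (k n : ℕ) : ℕ := if h : ∃ v, Inv k n (xs k n) v then h.choose else 0

theorem V_inv {k n : ℕ} (hn : n ≤ k) : Inv k n (xs k n) (V k n) := by
  have h := xs_inv k n hn
  simp only [V, dif_pos h]
  exact h.choose_spec

theorem tp_unique {x v v' : ℕ} (h : Tp x v) (h' : Tp x v') : v = v' := by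
  rw [tp_iff] at h h'
  exact le_antisymm (h'.2 v h.1) (h.2 v' h'.1)

/-- The clean form of a transition. -/
structure Nx (k n : ℕ) : Prop where
  xV : xs k n < V k (n + 1)
  VV : V k n < V k (n + 1)
  bd : ∀ d, cD (xs k (n + 1)) d ↔ (cD (xs k n) d ∨ d = V k (n + 1))
  O : ∀ z, z < V k n → cO (xs k (n + 1)) z → cO (xs k n) z
  Lg : ∀ z w, z < V k n → cO (xs k (n + 1)) z → cL (xs k n) z w → cL (xs k (n + 1)) z w
  Rs : ∀ z, cR (xs k n) z → (∀ w, cL (xs k n) z w → cO (xs k (n + 1)) w) →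
    cR (xs k (n + 1)) z ∧ ∀ w, cL (xs k (n + 1)) z w → cL (xs k n) z w
  L6 : ∀ b b', Rw (xs k n) b b' → ∀ c' i', (∃ z, cU (xs k (n + 1)) b c' i' z) →
    ∀ c, ClsS (cO (xs k (n + 1))) b c → ∃ i, (∃ z, cU (xs k n) b c i z) ∧
      ∀ z, cU (xs k n) b c i z → (∀ w, cL (xs k n) z w → cO (xs k (n + 1)) w) →
        cU (xs k (n + 1)) b c' i' z ∧
          ∀ w, cL (xs k (n + 1)) z w → cL (xs k n) z w ∨ w + 1 = c'
  kill : T12 n (xs k n) (xs k (n + 1)) (tow k (xs k n))
  dich : Dich (xs k (n + 1)) (xs k n) (tow k (xs k n))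

theorem nx {k n : ℕ} (hn : n < k) : Nx k n := by
  have hI := V_inv (k := k) (n := n) (by omega)
  have hI' := V_inv (k := k) (n := n + 1) (by omega)
  obtain ⟨_, v0, _, v', _, D, _, hTp, hPD, h1, h2, h3, h4, h5, h6, h7, h8, h9, h10, h11, h12,
    h14, hDi⟩ := xs_TT k n hn
  obtain rfl := tp_unique hTp hI.tp
  obtain ⟨h2a, h2b, h2c⟩ := h2
  obtain rfl := tp_unique h2b hI'.tp
  have hPD' := tt_tower (xs_TT k n hn) k (by omega)
  have hD : D = tow k (xs k n) := h1.2.2 k (cP_lt hPD).1 D (cP_lt hPD).2 _ (cP_lt hPD').2 hPD hPD'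
  subst hD
  have hvx : V k n < xs k n := cD_lt hI.tp.1
  constructor
  · exact h2a
  · omega
  · intro d
    by_cases hd : d < xs k (n + 1)
    · exact h2c d hd
    · constructor
      · intro h; exact absurd (cD_lt h) hd
      · have hlt : V k (n + 1) < xs k (n + 1) := cD_lt hI'.tp.1
        rintro (h | rfl)
        · have := (tp_iff.1 hI.tp).2 d h; omega
        · omega
  · intro z hz h
    exact (h4 z (cO_lt h) h).2 hz
  · intro z w hz h h'
    exact h5.2.2 z hz w (cL_lt h').2 h h'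
  · intro z h h'
    obtain ⟨e1, e2⟩ := h6.2 z (hI.ov z (hI.rs z h).1) h (fun w _ hw => h' w hw)
    exact ⟨e1, fun w hw => e2 w (cL_lt hw).2 hw⟩
  · rintro b b' hr c' i' ⟨z0, hz0⟩ c hc
    have hr' := rw_iff.1 hr
    obtain ⟨e1, e2, e3, e4⟩ := cU_lt hz0
    have hcb : c < b + 1 := by
      rcases hc with rfl | ⟨N, rfl, h, _⟩ <;> omega
    have hc' : Cls (xs k (n + 1)) b c := by
      rcases hc with rfl | ⟨N, rfl, h, h'⟩
      · exact Or.inl rfl
      · exact Or.inr ⟨N, by omega, rfl, h, h'⟩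
    obtain ⟨i, _, ⟨z1, _, hz1⟩, h⟩ := h11 b (cD_lt hr'.1) b' (cD_lt hr'.2.1) hr c' e2 i' e3
      ⟨z0, e4, hz0⟩ c hcb hc'
    refine ⟨i, ⟨z1, hz1⟩, fun z hz hw => ?_⟩
    obtain ⟨f1, f2⟩ := h z (cU_lt hz).2.2.2 hz (fun w _ hw' => hw w hw')
    exact ⟨f1, fun w hw' => f2 w (cL_lt hw').2 hw'⟩
  · exact h12
  · exact hDi

theorem V_mono {k m n : ℕ} (hmn : m ≤ n) (hn : n ≤ k) : V k m ≤ V k n := by
  induction hmn with
  | refl => exact le_rfl
  | step h ih => exact le_trans (ih (by omega)) (nx (by omega)).VV.le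

theorem V_lt {k m n : ℕ} (hmn : m < n) (hn : n ≤ k) : V k m < V k n :=
  lt_of_lt_of_le (nx (by omega)).VV (V_mono hmn hn)

theorem V_zero (k : ℕ) : V k 0 = k + 1 := by
  have h1 := V_inv (k := k) (n := 0) (by omega)
  have h2 : Inv k 0 (xs k 0) (k + 1) := (ex_init k).choose_spec
  exact tp_unique h1.tp h2.tp

theorem bd_iff {k n : ℕ} (hn : n ≤ k) (d : ℕ) : cD (xs k n) d ↔ ∃ h, h ≤ n ∧ d = V k h := by
  induction n with
  | zero =>
    have h1 := V_inv (k := k) (n := 0) (by omega)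
    constructor
    · intro h
      have e1 := (tp_iff.1 h1.tp).2 d h
      have e2 := h1.bd d h
      rw [V_zero] at e1
      exact ⟨0, le_rfl, by rw [V_zero]; omega⟩
    · rintro ⟨h, h2, rfl⟩
      have : h = 0 := by omega
      subst this
      exact h1.tp.1
  | succ n ih =>
    rw [(nx (by omega)).bd, ih (by omega)]
    constructor
    · rintro (⟨h, h1, rfl⟩ | rfl)
      · exact ⟨h, by omega, rfl⟩
      · exact ⟨n + 1, le_rfl, rfl⟩
    · rintro ⟨h, h1, rfl⟩
      by_cases h2 : h ≤ n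
      · exact Or.inl ⟨h, h2, rfl⟩
      · have : h = n + 1 := by omega
        exact Or.inr (by rw [this])

theorem row_V {k n h : ℕ} (hn : n ≤ k) (hh : h < n) : Rw (xs k n) (V k h) (V k (h + 1)) := by
  rw [rw_iff]
  refine ⟨(bd_iff hn _).2 ⟨h, by omega, rfl⟩, (bd_iff hn _).2 ⟨h + 1, by omega, rfl⟩,
    (nx (by omega)).VV, ?_⟩
  intro d hd
  obtain ⟨j, hj, rfl⟩ := (bd_iff hn d).1 hd
  by_cases h1 : j ≤ h
  · exact Or.inl (V_mono h1 (by omega))
  · exact Or.inr (V_mono (by omega) (by omega))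

theorem O_mono {k m n z : ℕ} (hmn : m ≤ n) (hn : n ≤ k) (hz : z < V k m)
    (h : cO (xs k n) z) : cO (xs k m) z := by
  induction hmn with
  | refl => exact h
  | step h1 ih =>
    refine ih (by omega) ((nx (by omega)).O z ?_ h)
    exact lt_of_lt_of_le hz (V_mono h1 (by omega))

theorem ov {k n z : ℕ} (hn : n ≤ k) (h : cO (xs k n) z) : z < V k n := (V_inv hn).ov z h

theorem dd_eq {k n z : ℕ} (hn : n ≤ k) : Dd (xs k n) z ↔ (¬ cO (xs k n) z ∧ z < V k n) := by
  rw [dd_iff]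
  refine and_congr_right fun _ => ?_
  constructor
  · rintro ⟨d, hd, hz⟩
    exact lt_of_lt_of_le hz ((tp_iff.1 (V_inv hn).tp).2 d hd)
  · intro h
    exact ⟨V k n, (V_inv hn).tp.1, h⟩

theorem dd_mono {k m n z : ℕ} (hmn : m ≤ n) (hn : n ≤ k) (h : Dd (xs k m) z) :
    Dd (xs k n) z := by
  rw [dd_eq (by omega)] at h
  rw [dd_eq hn]
  exact ⟨fun h1 => h.1 (O_mono hmn hn h.2 h1), lt_of_lt_of_le h.2 (V_mono hmn hn)⟩

theorem ndd {k n z : ℕ} (hn : n ≤ k) (hz : z < V k n) : ¬ Dd (xs k n) z ↔ cO (xs k n) z := by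
  rw [dd_eq hn]
  tauto

theorem low {k n z w : ℕ} (hn : n ≤ k) (h : cL (xs k n) z w) : w < z ∧ z < V k n := by
  have hI := V_inv hn
  obtain ⟨b, b', h1, h2, h3, h4⟩ := hI.lb z w h
  have := (tp_iff.1 hI.tp).2 b' (rw_iff.1 h1).2.1
  omega

/-- Reserved elements stay as long as their labels do. -/
theorem R_mono {k m n z : ℕ} (hmn : m ≤ n) (hn : n ≤ k) (h : cR (xs k m) z)
    (hw : ∀ w, cL (xs k m) z w → cO (xs k n) w) :
    cR (xs k n) z ∧ ∀ w, cL (xs k n) z w → cL (xs k m) z w := by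
  induction hmn with
  | refl => exact ⟨h, fun _ h => h⟩
  | step h1 ih =>
    rename_i n'
    have h1' : m ≤ n' := h1
    have hlow : ∀ w, cL (xs k m) z w → w < V k n' := fun w hw' => by
      have := low (by omega : m ≤ k) hw'
      have := V_mono h1 (by omega : n' ≤ k)
      omega
    obtain ⟨e1, e2⟩ := ih (by omega) (fun w hw' =>
      (nx (by omega)).O w (hlow w hw') (hw w hw'))
    obtain ⟨e3, e4⟩ := (nx (by omega)).Rs z e1 (fun w hw' => hw w (e2 w hw'))
    exact ⟨e3, fun w hw' => e2 w (e4 w hw')⟩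

/-- Labels of alive elements stay alive. -/
theorem L_alive {k m n z w : ℕ} (hmn : m ≤ n) (hn : n ≤ k) (hz : z < V k m)
    (h : cO (xs k n) z) (hl : cL (xs k m) z w) : cL (xs k n) z w ∧ cO (xs k n) w := by
  have key : cL (xs k n) z w := by
    induction hmn with
    | refl => exact hl
    | step h1 ih =>
      rename_i n'
      have hz' : z < V k n' := lt_of_lt_of_le hz (V_mono h1 (by omega))
      exact (nx (by omega)).Lg z w hz' h (ih (by omega) ((nx (by omega)).O z hz' h))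
  exact ⟨key, (V_inv hn).lo z w h key⟩

/-- Clocks. -/
theorem clock {k n z : ℕ} (hn : n ≤ k) (hz : z ≤ k) : cO (xs k n) z ↔ n ≤ z :=
  (V_inv hn).ck z hz

theorem cls_lt {k n b c i z : ℕ} (hn : n ≤ k) (hU : cU (xs k n) b c i z) :
    cO (xs k n) z ∧ ¬ cR (xs k n) z ∧ (c = 0 ∨ ∃ N, c = N + 1 ∧ N < b ∧ cL (xs k n) z N) ∧
      z < V k n := by
  have hI := V_inv hn
  obtain ⟨b', h1, h2, h3, h4, h5, h6, _⟩ := t7_ex hI.t7 hU
  have := (tp_iff.1 hI.tp).2 b' (rw_iff.1 h1).2.1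
  exact ⟨h4, h5, h6, by omega⟩

/-- There is a unit of every class, with an element of smallest possible label. -/
theorem ex_unit {k n h c : ℕ} (hn : n ≤ k) (hh : h < n) (hc : ClsS (cO (xs k n)) (V k h) c) :
    ∃ i z, cU (xs k n) (V k h) c i z := by
  have hI := V_inv hn
  have hr := row_V hn hh
  have hr' := rw_iff.1 hr
  obtain ⟨t, ht⟩ := hI.tt _ _ hr
  obtain ⟨y, hy, hty⟩ := hI.tw _ _ _ hr ht
  have h1 : 0 < t := by
    have := le_tow (3 * (k - n) + 3) y
    omega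
  have hcb : c < V k h + 1 := by
    rcases hc with rfl | ⟨N, rfl, h, _⟩ <;> omega
  have hc' : Cls (xs k n) (V k h) c := by
    rcases hc with rfl | ⟨N, rfl, h, h'⟩
    · exact Or.inl rfl
    · exact Or.inr ⟨N, by omega, rfl, h, h'⟩
  obtain ⟨z, _, h2, _⟩ := hI.t10 _ (cD_lt hr'.1) _ (cD_lt hr'.2.1) hr t (cT_lt ht).2 ht c hcb hc' 0 h1
  exact ⟨0, z, h2⟩

/-- Every class-none unit contains an element with empty label. -/
theorem triv_elt {k n h i : ℕ} (hn : n ≤ k) (hh : h < n) (hu : ∃ z, cU (xs k n) (V k h) 0 i z) :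
    ∃ z, cU (xs k n) (V k h) 0 i z ∧ ∀ w, ¬ cL (xs k n) z w := by
  have hI := V_inv hn
  have hr := row_V hn hh
  have hr' := rw_iff.1 hr
  obtain ⟨z0, hz0⟩ := hu
  obtain ⟨b', _, _, _, _, _, _, t, ht, hit⟩ := t7_ex hI.t7 hz0
  obtain ⟨z, _, h2, h3⟩ := hI.t10 _ (cD_lt hr'.1) _ (cD_lt hr'.2.1) hr t (cT_lt ht).2 ht 0
    (by omega) (Or.inl rfl) i hit
  refine ⟨z, h2, fun w hw => ?_⟩
  have := h3 w (cL_lt hw).2 hw
  omega

/-- The chain of units: a unit of class `c` whose elements only die with their labels. -/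
theorem unit_chain {k n h c : ℕ} (hh : h < n) (hnk : n ≤ k) :
    ∀ j, n < j → j ≤ k → ClsS (cO (xs k j)) (V k h) c →
      ∀ i', (∃ z, cU (xs k j) (V k h) 0 i' z) →
      ∃ i, (∃ z, cU (xs k n) (V k h) c i z) ∧
        (∀ j', n ≤ j' → j' ≤ j → ∀ z, cU (xs k n) (V k h) c i z →
          (∀ w, cL (xs k n) z w → cO (xs k j') w) → cO (xs k j') z) ∧
        ∀ z, cU (xs k n) (V k h) c i z → (∀ w, cL (xs k n) z w → cO (xs k j) w) →
          cU (xs k j) (V k h) 0 i' z ∧ ∀ w, cL (xs k j) z w → cL (xs k n) z w := by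
  intro j hj
  induction j, hj using Nat.le_induction with
  | base =>
    intro hjk hc i' hi'
    obtain ⟨i, h1, h2⟩ := (nx (by omega)).L6 _ _ (row_V hnk hh) 0 i' hi' c hc
    refine ⟨i, h1, ?_, ?_⟩
    · intro j' h3 h4 z hz hw
      by_cases h5 : j' = n
      · subst h5
        exact (cls_lt hnk hz).1
      · have : j' = n + 1 := by omega
        subst this
        exact (cls_lt hjk (h2 z hz hw).1).1
    · intro z hz hw
      obtain ⟨h3, h4⟩ := h2 z hz hw
      refine ⟨h3, fun w hw' => ?_⟩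
      rcases h4 w hw' with h5 | h5
      · exact h5
      · omega
  | succ j hj ih =>
    intro hjk hc i' hi'
    have hj' : n < j := hj
    have hVj : V k h ≤ V k j := V_mono (by omega) (by omega)
    have hc' : ClsS (cO (xs k j)) (V k h) c := by
      refine hc.imp id fun ⟨N, e1, e2, e3⟩ => ⟨N, e1, e2, ?_⟩
      exact (nx (by omega)).O N (by omega) e3
    obtain ⟨i'', h1, h2⟩ := (nx (by omega)).L6 _ _ (row_V (by omega : j ≤ k) (by omega : h < j)) 0
      i' hi' 0 (Or.inl rfl)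
    obtain ⟨i, h3, h4, h5⟩ := ih (by omega) hc' i'' h1
    have key : ∀ z, cU (xs k n) (V k h) c i z → (∀ w, cL (xs k n) z w → cO (xs k (j + 1)) w) →
          cU (xs k (j + 1)) (V k h) 0 i' z ∧ ∀ w, cL (xs k (j + 1)) z w → cL (xs k n) z w := by
      intro z hz hw
      have hw2 : ∀ w, cL (xs k n) z w → cO (xs k j) w := by
        intro w hw'
        refine (nx (by omega)).O w ?_ (hw w hw')
        have := low hnk hw'
        have := V_mono hj'.le (by omega : j ≤ k)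
        omega
      obtain ⟨e1, e2⟩ := h5 z hz hw2
      obtain ⟨e3, e4⟩ := h2 z e1 (fun w hw' => hw w (e2 w hw'))
      refine ⟨e3, fun w hw' => ?_⟩
      rcases e4 w hw' with e5 | e5
      · exact e2 w e5
      · omega
    refine ⟨i, h3, ?_, key⟩
    intro j' h6 h7 z hz hw
    by_cases h8 : j' ≤ j
    · exact h4 j' h6 h8 z hz hw
    · have : j' = j + 1 := by omega
      subst this
      exact (cls_lt hjk (key z hz hw).1).1

/-- A never reserved element of a row. -/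
theorem free_elt {k h : ℕ} : ∀ j, h < j → j ≤ k → ∀ i', (∃ z, cU (xs k j) (V k h) 0 i' z) →
    ∃ z, cU (xs k j) (V k h) 0 i' z ∧ (∀ w, ¬ cL (xs k j) z w) ∧
      ∀ j', h < j' → j' ≤ j → ∃ i, cU (xs k j') (V k h) 0 i z := by
  intro j hj
  induction j, hj using Nat.le_induction with
  | base =>
    intro hjk i' hi'
    obtain ⟨z, h1, h2⟩ := triv_elt hjk (Nat.lt_succ_self h) hi'
    refine ⟨z, h1, h2, fun j' h3 h4 => ?_⟩
    have : j' = h + 1 := by omega
    subst this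
    exact ⟨i', h1⟩
  | succ j hj ih =>
    intro hjk i' hi'
    have hj' : h < j := hj
    obtain ⟨i'', h1, h2⟩ := (nx (by omega)).L6 _ _ (row_V (by omega : j ≤ k) (by omega : h < j)) 0
      i' hi' 0 (Or.inl rfl)
    obtain ⟨z, h3, h4, h5⟩ := ih (by omega) i'' h1
    obtain ⟨h6, h7⟩ := h2 z h3 (fun w hw => absurd hw (h4 w))
    refine ⟨z, h6, ?_, ?_⟩
    · intro w hw
      rcases h7 w hw with h8 | h8
      · exact h4 w h8
      · omega
    · intro j' h8 h9
      by_cases h10 : j' ≤ j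
      · exact h5 j' h8 h10
      · have : j' = j + 1 := by omega
        subst this
        exact ⟨i', h6⟩

end Pool.Agent.BSig
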