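import Pool.Agent.Work.MP_510745_lc.Comb
import Pool.Agent.Work.MP_510745_lc.Bits

/-!
One row of one stage of the construction, in semantic form.
-/

namespace Pool.Agent.BSig

/-- The set generated from `Y` by elements of `R` above `b'`. -/
inductive GH (L : ℕ → ℕ → Prop) (R : ℕ → Prop) (b' : ℕ) (Y : ℕ → Prop) : ℕ → Prop
  | base (z : ℕ) : Y z → GH L R b' Y z
  | high (z : ℕ) : b' ≤ z → R z → (∀ w, L z w → GH L R b' Y w) → GH L R b' Y z

theorem GH.iff {L : ℕ → ℕ → Prop} {R : ℕ → Prop} {b' : ℕ} {Y : ℕ → Prop} {z : ℕ} :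
    GH L R b' Y z ↔ (Y z ∨ (b' ≤ z ∧ R z ∧ ∀ w, L z w → GH L R b' Y w)) := by
  constructor
  · rintro (h | ⟨_, h1, h2, h3⟩)
    · exact Or.inl (by assumption)
    · exact Or.inr ⟨h1, h2, h3⟩
  · rintro (h | ⟨h1, h2, h3⟩)
    · exact GH.base z h
    · exact GH.high z h1 h2 h3

theorem GH.mono {L : ℕ → ℕ → Prop} {R : ℕ → Prop} {b' : ℕ} {Y Y' : ℕ → Prop}
    (h : ∀ z, Y z → Y' z) {z : ℕ} (hz : GH L R b' Y z) : GH L R b' Y' z := by
  induction hz with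
  | base z hz => exact GH.base z (h z hz)
  | high z h1 h2 _ ih => exact GH.high z h1 h2 ih

theorem GH.congr_aux {L L2 : ℕ → ℕ → Prop} {R R2 : ℕ → Prop} {b' : ℕ} {Y : ℕ → Prop}
    (hL : ∀ z w, b' ≤ z → (L z w ↔ L2 z w)) (hR : ∀ z, b' ≤ z → (R z ↔ R2 z)) {z : ℕ}
    (hz : GH L R b' Y z) : GH L2 R2 b' Y z := by
  induction hz with
  | base z hz => exact GH.base z hz
  | high z h1 h2 _ ih => exact GH.high z h1 ((hR z h1).1 h2) (fun w hw => ih w ((hL z w h1).2 hw))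

theorem GH.congr {L L2 : ℕ → ℕ → Prop} {R R2 : ℕ → Prop} {b' : ℕ}
    (hL : ∀ z w, b' ≤ z → (L z w ↔ L2 z w)) (hR : ∀ z, b' ≤ z → (R z ↔ R2 z)) :
    GH L R b' = GH L2 R2 b' := by
  funext Y z
  exact propext ⟨GH.congr_aux hL hR,
    GH.congr_aux (fun z w h => (hL z w h).symm) (fun z h => (hR z h).symm)⟩

/-- Some claim covers `k`, with negative part in `W`. -/
def ClS (TS : ℕ → ℕ → ℕ → Prop) (dead W : ℕ → Prop) (k : ℕ) : Prop :=
  ∃ k' p q, (∀ z, Bt k z → Bt k' z) ∧ (∀ z, Bt p z → dead z) ∧ (∀ z, Bt q z → W z) ∧ TS k' p q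

theorem ClS.mono {TS : ℕ → ℕ → ℕ → Prop} {dead W W' : ℕ → Prop} {k : ℕ}
    (h : ∀ z, W z → W' z) (hk : ClS TS dead W k) : ClS TS dead W' k := by
  obtain ⟨k', p, q, h1, h2, h3, h4⟩ := hk
  exact ⟨k', p, q, h1, h2, fun z hz => h z (h3 z hz), h4⟩

/-- The generated set of a lower state and a set of row elements. -/
def GS (L : ℕ → ℕ → Prop) (R : ℕ → Prop) (b b' : ℕ) (X S : ℕ → Prop) : ℕ → Prop :=
  GH L R b' (fun z => (z < b ∧ X z) ∨ S z)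

/-- The comparison relation. -/
def CS (TS : ℕ → ℕ → ℕ → Prop) (dead : ℕ → Prop) (L : ℕ → ℕ → Prop) (R : ℕ → Prop) (b b' f : ℕ)
    (X' X S' S : ℕ → Prop) : Prop :=
  ∀ k, k < 2 ^ f → ClS TS dead (GS L R b b' X' S') k → ClS TS dead (GS L R b b' X S) k

theorem CS.mono {TS : ℕ → ℕ → ℕ → Prop} {dead : ℕ → Prop} {L : ℕ → ℕ → Prop} {R : ℕ → Prop}
    {b b' f : ℕ} {X' X : ℕ → Prop} (S' S T' T : ℕ → Prop)
    (h1 : ∀ z, T' z → S' z) (h2 : ∀ z, S z → T z) (h : CS TS dead L R b b' f X' X S' S) :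
    CS TS dead L R b b' f X' X T' T := by
  intro k hk h3
  refine (h k hk (h3.mono fun z hz => ?_)).mono fun z hz => ?_
  · exact GH.mono (fun z hz => hz.imp id (h1 z)) hz
  · exact GH.mono (fun z hz => hz.imp id (h2 z)) hz

/-- Elements of the row with property `P` and label in `X`. -/
def rowS (L : ℕ → ℕ → Prop) (b b' : ℕ) (P X : ℕ → Prop) : ℕ → Prop :=
  fun z => (b ≤ z ∧ z < b' ∧ P z) ∧ ∀ w, L z w → X w

/-- Classes. -/
def ClsS (O : ℕ → Prop) (b c : ℕ) : Prop := c = 0 ∨ ∃ N, c = N + 1 ∧ N < b ∧ O N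

/-- The fixed data of a stage. -/
structure Env where
  O : ℕ → Prop
  dead : ℕ → Prop
  TS : ℕ → ℕ → ℕ → ℕ → Prop
  Bd : ℕ → Prop
  Lo : ℕ → ℕ → Prop
  Ro : ℕ → Prop
  Uo : ℕ → ℕ → ℕ → ℕ → Prop

/-- The conditions on one row. -/
structure RowOK (E : Env) (old : Prop) (b b' t : ℕ) (L : ℕ → ℕ → Prop) (R : ℕ → Prop)
    (U : ℕ → ℕ → ℕ → Prop) : Prop where
  u1 : ∀ c i z, U c i z → b ≤ z ∧ z < b' ∧ E.O z ∧ ¬ R z ∧
    (c = 0 ∨ ∃ N, c = N + 1 ∧ N < b ∧ L z N) ∧ i < t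
  r1 : ∀ z, b ≤ z → z < b' → R z → E.O z
  l1 : ∀ z w, b ≤ z → z < b' → L z w → w < b ∧ (E.O z → E.O w)
  l2 : ∀ z w, b ≤ z → z < b' → E.Lo z w → L z w
  r2 : ∀ z, b ≤ z → z < b' → E.Ro z → (∀ w, E.Lo z w → E.O w) → R z ∧ ∀ w, L z w → E.Lo z w
  c1 : ∀ z, b ≤ z → z < b' → E.O z → R z ∨ ∃ c i, U c i z
  d1 : ∀ c i c₁ i₁ z, U c i z → U c₁ i₁ z → c = c₁ ∧ i = i₁
  t1 : ∀ c, ClsS E.O b c → ∀ i, i < t → ∃ z, U c i z ∧ ∀ w, L z w → w + 1 = c
  s1 : old → ∀ c' i', (∃ z, U c' i' z) → ∀ c, ClsS E.O b c → ∃ i, (∃ z, E.Uo b c i z) ∧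
    ∀ z, E.Uo b c i z → (∀ w, E.Lo z w → E.O w) → U c' i' z ∧ ∀ w, L z w → E.Lo z w ∨ w + 1 = c'
  g1 : ∀ e, e < b → ∀ f, E.Bd f → ∀ X, X < 2 ^ b → ∀ X', X' < 2 ^ b → (∀ z, Bt X z → E.O z) →
    (∀ z, Bt X' z → Bt X z) → X' ≠ X →
    CS (E.TS e) E.dead L R b b' f (Bt X') (Bt X) (rowS L b b' E.O (Bt X'))
      (rowS L b b' R (Bt X)) ∨
    ∀ c i, (c = 0 ∨ ∃ N, c = N + 1 ∧ Bt X' N) → (∃ z, U c i z) →
      ¬ CS (E.TS e) E.dead L R b b' f (Bt X') (Bt X)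
        (rowS L b b' (fun z => R z ∨ U c i z) (Bt X'))
        (rowS L b b' (fun z => E.O z ∧ ¬ U c i z) (Bt X))

theorem rowS_congr {L L2 : ℕ → ℕ → Prop} {b b' : ℕ} {P P2 X : ℕ → Prop}
    (hL : ∀ z w, b ≤ z → (L z w ↔ L2 z w)) (hP : ∀ z, b ≤ z → (P z ↔ P2 z)) :
    rowS L b b' P X = rowS L2 b b' P2 X := by
  funext z
  refine propext ?_
  unfold rowS
  constructor
  · rintro ⟨⟨h1, h2, h3⟩, h4⟩
    exact ⟨⟨h1, h2, (hP z h1).1 h3⟩, fun w hw => h4 w ((hL z w h1).2 hw)⟩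
  · rintro ⟨⟨h1, h2, h3⟩, h4⟩
    exact ⟨⟨h1, h2, (hP z h1).2 h3⟩, fun w hw => h4 w ((hL z w h1).1 hw)⟩

theorem RowOK.congr {E : Env} {old : Prop} {b b' t : ℕ} {L L2 : ℕ → ℕ → Prop} {R R2 : ℕ → Prop}
    {U : ℕ → ℕ → ℕ → Prop} (hbb : b ≤ b')
    (hL : ∀ z w, b ≤ z → (L z w ↔ L2 z w)) (hR : ∀ z, b ≤ z → (R z ↔ R2 z))
    (h : RowOK E old b b' t L R U) : RowOK E old b b' t L2 R2 U where
  u1 := fun c i z hz => by
    obtain ⟨h1, h2, h3, h4, h5, h6⟩ := h.u1 c i z hz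
    refine ⟨h1, h2, h3, fun h => h4 ((hR z h1).2 h), ?_, h6⟩
    rcases h5 with h5 | ⟨N, h5, h7, h8⟩
    · exact Or.inl h5
    · exact Or.inr ⟨N, h5, h7, (hL z N h1).1 h8⟩
  r1 := fun z h1 h2 h3 => h.r1 z h1 h2 ((hR z h1).2 h3)
  l1 := fun z w h1 h2 h3 => h.l1 z w h1 h2 ((hL z w h1).2 h3)
  l2 := fun z w h1 h2 h3 => (hL z w h1).1 (h.l2 z w h1 h2 h3)
  r2 := fun z h1 h2 h3 h4 => by
    obtain ⟨h5, h6⟩ := h.r2 z h1 h2 h3 h4
    exact ⟨(hR z h1).1 h5, fun w hw => h6 w ((hL z w h1).2 hw)⟩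
  c1 := fun z h1 h2 h3 => (h.c1 z h1 h2 h3).imp (hR z h1).1 id
  d1 := h.d1
  t1 := fun c hc i hi => by
    obtain ⟨z, h1, h2⟩ := h.t1 c hc i hi
    exact ⟨z, h1, fun w hw => h2 w ((hL z w (h.u1 _ _ _ h1).1).2 hw)⟩
  s1 := fun ho c' i' he c hc => by
    obtain ⟨i, h1, h2⟩ := h.s1 ho c' i' he c hc
    refine ⟨i, h1, fun z hz hw => ?_⟩
    obtain ⟨h3, h4⟩ := h2 z hz hw
    exact ⟨h3, fun w hw => h4 w ((hL z w (h.u1 _ _ _ h3).1).2 hw)⟩
  g1 := fun e he f hf X hX X' hX' h1 h2 h3 => by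
    have hG : GH L R b' = GH L2 R2 b' :=
      GH.congr (fun z w hz => hL z w (le_trans hbb hz)) (fun z hz => hR z (le_trans hbb hz))
    have hC : ∀ X' X S' S, CS (E.TS e) E.dead L R b b' f X' X S' S ↔
        CS (E.TS e) E.dead L2 R2 b b' f X' X S' S := by
      intro X' X S' S
      unfold CS GS
      rw [hG]
    have h4 := h.g1 e he f hf X hX X' hX' h1 h2 h3
    rw [hC, rowS_congr (P2 := E.O) hL (fun _ _ => Iff.rfl), rowS_congr (P2 := R2) hL hR] at h4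
    refine h4.imp id fun h5 c i hc hz => ?_
    have h6 := h5 c i hc hz
    rw [hC, rowS_congr (P2 := fun z => R2 z ∨ U c i z) hL
      (fun z hz => or_congr (hR z hz) Iff.rfl),
      rowS_congr (P2 := fun z => E.O z ∧ ¬ U c i z) hL (fun _ _ => Iff.rfl)] at h6
    exact h6

/-- The triple of an opponent and two states. -/
def mkTrip (E : Env) (Lh : ℕ → ℕ → Prop) (Rh : ℕ → Prop) (b b' e f X X' : ℕ)
    (h1 : ∀ z, Bt X' z → Bt X z) (h2 : X' ≠ X) : Trip where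
  C := CS (E.TS e) E.dead Lh Rh b b' f (Bt X') (Bt X)
  X := Bt X
  X' := Bt X'
  mono := fun S' S T' T hs ht h => CS.mono S' S T' T hs ht h
  strict := by
    by_contra h
    push Not at h
    exact h2 (bt_ext fun z => ⟨h1 z, h z⟩)

theorem row_step (E : Env) (old : Prop) (b b' t G : ℕ) (Lh : ℕ → ℕ → Prop)
    (Rh : ℕ → Prop) (Up : ℕ → ℕ → Prop) (F : ℕ → Prop) (Bf : Finset ℕ)
    (hBf : ∀ f, E.Bd f → f ∈ Bf) (ht : 1 ≤ t)
    (hG : (t * (b + 1)) ^ 2 ^ (b * Bf.card * 2 ^ b * 2 ^ b) ≤ G)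
    (hva : ∀ z, Va G Up F z ↔ (b ≤ z ∧ z < b' ∧ E.O z)) (hdj : Dj G Up F)
    (hLo : ∀ z w, b ≤ z → z < b' → E.Lo z w → w < b ∧ (E.O z → E.O w))
    (hFo : ∀ z, b ≤ z → z < b' → E.Ro z → (∀ w, E.Lo z w → E.O w) → F z)
    (htr : ∀ j, j < G → ∃ z, Up j z ∧ ∀ w, ¬ E.Lo z w)
    (hold : old → ∀ j, j < G → ∀ c, ClsS E.O b c → ∃ i, (∃ z, E.Uo b c i z) ∧
      ∀ z, E.Uo b c i z → (∀ w, E.Lo z w → E.O w) → Up j z) :
    ∃ (L : ℕ → ℕ → Prop) (R : ℕ → Prop) (U : ℕ → ℕ → ℕ → Prop),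
      (∀ z w, ¬ (b ≤ z ∧ z < b') → (L z w ↔ Lh z w)) ∧
      (∀ z, ¬ (b ≤ z ∧ z < b') → (R z ↔ Rh z)) ∧ RowOK E old b b' t L R U := by
  classical
  -- the list of triples
  let S0 : Finset (ℕ × ℕ × ℕ × ℕ) :=
    (Finset.range b) ×ˢ Bf ×ˢ (Finset.range (2 ^ b)) ×ˢ (Finset.range (2 ^ b))
  let S1 := S0.filter (fun p => (∀ z, Bt p.2.2.1 z → E.O z) ∧
    (∀ z, Bt p.2.2.2 z → Bt p.2.2.1 z) ∧ p.2.2.2 ≠ p.2.2.1)
  have hS1 : ∀ p ∈ S1, (∀ z, Bt p.2.2.1 z → E.O z) ∧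
      (∀ z, Bt p.2.2.2 z → Bt p.2.2.1 z) ∧ p.2.2.2 ≠ p.2.2.1 := fun p hp =>
    (Finset.mem_filter.1 hp).2
  let T : List Trip := S1.attach.toList.map (fun p =>
    mkTrip E Lh Rh b b' p.1.1 p.1.2.1 p.1.2.2.1 p.1.2.2.2 (hS1 p.1 p.2).2.1 (hS1 p.1 p.2).2.2)
  have hlen : T.length ≤ b * Bf.card * 2 ^ b * 2 ^ b := by
    have h1 : T.length = S1.card := by simp [T]
    rw [h1]
    refine le_trans (Finset.card_filter_le _ _) ?_
    simp only [S0, Finset.card_product, Finset.card_range]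
    exact le_of_eq (by ring)
  have hA : ∀ t ∈ T, ∀ w, t.X w → (w < b ∧ E.O w) := by
    intro t ht w hw
    obtain ⟨p, -, rfl⟩ := List.mem_map.1 ht
    have h1 := Finset.mem_filter.1 p.2
    have h2 := h1.1
    simp only [S0, Finset.mem_product, Finset.mem_range] at h2
    exact ⟨Bt.lt_of_lt hw h2.2.2.1, h1.2.1 w hw⟩
  have hG' : (t * (b + 1)) ^ 2 ^ T.length ≤ G := by
    refine le_trans (Nat.pow_le_pow_right ?_ (Nat.pow_le_pow_right (by norm_num) hlen)) hG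
    exact Nat.mul_pos (by omega) (by omega)
  obtain ⟨G1, U1, F1, l1, hg1, hR, hgood⟩ := list_good (fun w => w < b ∧ E.O w) (t * (b + 1))
    (Nat.mul_pos (by omega) (by omega)) T hA G hG' Up F E.Lo hdj
  have hva1 : ∀ z, Va G1 U1 F1 z ↔ (b ≤ z ∧ z < b' ∧ E.O z) := fun z => (hR.cov z).trans (hva z)
  have hU1row : ∀ j, j < G1 → ∀ z, U1 j z → (b ≤ z ∧ z < b' ∧ E.O z) := fun j hj z hz =>
    (hva1 z).1 (Or.inr ⟨j, hj, hz⟩)
  have hF1row : ∀ z, F1 z → (b ≤ z ∧ z < b' ∧ E.O z) := fun z hz => (hva1 z).1 (Or.inl hz)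
  -- the assignment of classes
  let ok : ℕ → Prop := fun j => j < (b + 1) * t ∧ ClsS E.O b (j / t)
  let sc : ℕ → ℕ := fun j => if ok j then j / t else 0
  let si : ℕ → ℕ := fun j => if ok j then j % t else 0
  have hsc : ∀ j, ClsS E.O b (sc j) := by
    intro j
    by_cases h : ok j
    · simp only [sc, h, if_true]; exact h.2
    · simp only [sc, h, if_false]; exact Or.inl rfl
  have hsi : ∀ j, si j < t := by
    intro j
    by_cases h : ok j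
    · simp only [si, h, if_true]; exact Nat.mod_lt _ (by omega)
    · simp only [si, h, if_false]; omega
  have hsur : ∀ c, ClsS E.O b c → ∀ i, i < t → ∃ j, j < G1 ∧ sc j = c ∧ si j = i := by
    intro c hc i hi
    have hcb : c < b + 1 := by
      rcases hc with rfl | ⟨N, rfl, h, _⟩ <;> omega
    have h1 : (c * t + i) / t = c := by
      rw [add_comm, Nat.add_mul_div_right _ _ (by omega), Nat.div_eq_of_lt hi, zero_add]
    have h2 : (c * t + i) % t = i := by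
      rw [add_comm, Nat.add_mul_mod_self_right, Nat.mod_eq_of_lt hi]
    have h3 : c * t + i < (b + 1) * t := by
      have : (c + 1) * t ≤ (b + 1) * t := Nat.mul_le_mul_right _ hcb
      have h4 : (c + 1) * t = c * t + t := by ring
      omega
    have h4 : ok (c * t + i) := ⟨h3, by rw [h1]; exact hc⟩
    refine ⟨c * t + i, ?_, ?_, ?_⟩
    · have : (b + 1) * t = t * (b + 1) := mul_comm _ _
      omega
    · simp only [sc, h4, if_true, h1]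
    · simp only [si, h4, if_true, h2]
  let U : ℕ → ℕ → ℕ → Prop := fun c i z => ∃ j, j < G1 ∧ sc j = c ∧ si j = i ∧ U1 j z
  let Lr : ℕ → ℕ → Prop := fun z w => l1 z w ∨ ∃ j, j < G1 ∧ U1 j z ∧ sc j = w + 1
  let L : ℕ → ℕ → Prop := fun z w => if b ≤ z ∧ z < b' then Lr z w else Lh z w
  let R : ℕ → Prop := fun z => if b ≤ z ∧ z < b' then F1 z else Rh z
  have hLrow : ∀ z w, b ≤ z → z < b' → (L z w ↔ Lr z w) := by
    intro z w h1 h2
    simp only [L, h1, h2, and_self, if_true]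
  have hRrow : ∀ z, b ≤ z → z < b' → (R z ↔ F1 z) := by
    intro z h1 h2
    simp only [R, h1, h2, and_self, if_true]
  have hUdj : ∀ c i c₁ i₁ z, U c i z → U c₁ i₁ z → c = c₁ ∧ i = i₁ := by
    rintro c i c₁ i₁ z ⟨j, hj, rfl, rfl, h1⟩ ⟨j', hj', rfl, rfl, h2⟩
    rw [hR.dj.2 j hj j' hj' z h1 h2]
    exact ⟨rfl, rfl⟩
  have hLU : ∀ c i z, U c i z → ∀ w, Lr z w → E.Lo z w ∨ w + 1 = c := by
    rintro c i z ⟨j, hj, rfl, rfl, h1⟩ w (h2 | ⟨j', hj', h2, h3⟩)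
    · exact Or.inl (hR.labU j hj z h1 w h2)
    · rw [hR.dj.2 j hj j' hj' z h1 h2]
      exact Or.inr h3.symm
  have hLF : ∀ z, F1 z → ∀ w, Lr z w → l1 z w := by
    rintro z hz w (h2 | ⟨j', hj', h2, h3⟩)
    · exact h2
    · exact absurd hz (hR.dj.1 j' hj' z h2)
  have hLrlow : ∀ z w, b ≤ z → z < b' → Lr z w → w < b ∧ (E.O z → E.O w) := by
    rintro z w h1 h2 (h3 | ⟨j, hj, h3, h4⟩)
    · rcases hR.lab' z w h3 with h4 | h4
      · exact hLo z w h1 h2 h4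
      · exact ⟨h4.2.1, fun _ => h4.2.2⟩
    · rcases hsc j with h5 | ⟨N, h5, h6, h7⟩
      · omega
      · have : w = N := by omega
        subst this
        exact ⟨h6, fun _ => h7⟩
  refine ⟨L, R, U, ?_, ?_, ?_⟩
  · intro z w h
    simp only [L, h, if_false]
  · intro z h
    simp only [R, h, if_false]
  · constructor
    · rintro c i z ⟨j, hj, rfl, rfl, h1⟩
      obtain ⟨h2, h3, h4⟩ := hU1row j hj z h1
      refine ⟨h2, h3, h4, fun h => hR.dj.1 j hj z h1 ((hRrow z h2 h3).1 h), ?_, hsi j⟩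
      rcases hsc j with h5 | ⟨N, h5, h6, h7⟩
      · exact Or.inl h5
      · exact Or.inr ⟨N, h5, h6, (hLrow z N h2 h3).2 (Or.inr ⟨j, hj, h1, h5⟩)⟩
    · intro z h1 h2 h3
      exact (hF1row z ((hRrow z h1 h2).1 h3)).2.2
    · intro z w h1 h2 h3
      exact hLrlow z w h1 h2 ((hLrow z w h1 h2).1 h3)
    · intro z w h1 h2 h3
      exact (hLrow z w h1 h2).2 (Or.inl (hR.lab z w h3))
    · intro z h1 h2 h3 h4
      have hF := hFo z h1 h2 h3 h4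
      have hF1 := hR.FF z hF
      exact ⟨(hRrow z h1 h2).2 hF1, fun w hw =>
        hR.labF z hF w (hLF z hF1 w ((hLrow z w h1 h2).1 hw))⟩
    · intro z h1 h2 h3
      rcases (hva1 z).2 ⟨h1, h2, h3⟩ with h4 | ⟨j, hj, h4⟩
      · exact Or.inl ((hRrow z h1 h2).2 h4)
      · exact Or.inr ⟨sc j, si j, j, hj, rfl, rfl, h4⟩
    · exact hUdj
    · intro c hc i hi
      obtain ⟨j, hj, rfl, rfl⟩ := hsur c hc i hi
      obtain ⟨j0, hj0, hsub⟩ := hR.sub j hj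
      obtain ⟨z, hz, hz'⟩ := htr j0 hj0
      have hz1 := hsub z hz
      obtain ⟨h1, h2, -⟩ := hU1row j hj z hz1
      refine ⟨z, ⟨j, hj, rfl, rfl, hz1⟩, fun w hw => ?_⟩
      rcases hLU _ _ z ⟨j, hj, rfl, rfl, hz1⟩ w ((hLrow z w h1 h2).1 hw) with h3 | h3
      · exact absurd h3 (hz' w)
      · exact h3
    · rintro ho c' i' ⟨z0, j, hj, rfl, rfl, hz0⟩ c hc
      obtain ⟨j0, hj0, hsub⟩ := hR.sub j hj
      obtain ⟨i, h1, h2⟩ := hold ho j0 hj0 c hc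
      refine ⟨i, h1, fun z hz hw => ?_⟩
      have hz1 := hsub z (h2 z hz hw)
      have hzU : U (sc j) (si j) z := ⟨j, hj, rfl, rfl, hz1⟩
      obtain ⟨h3, h4, -⟩ := hU1row j hj z hz1
      exact ⟨hzU, fun w hw => hLU _ _ z hzU w ((hLrow z w h3 h4).1 hw)⟩
    · intro e he f hf X hX X' hX' h1 h2 h3
      have hmem : (e, f, X, X') ∈ S1 := by
        refine Finset.mem_filter.2 ⟨?_, h1, h2, h3⟩
        simp only [S0, Finset.mem_product, Finset.mem_range]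
        exact ⟨he, hBf f hf, hX, hX'⟩
      have hmemT : mkTrip E Lh Rh b b' e f X X' h2 h3 ∈ T := by
        refine List.mem_map.2 ⟨⟨(e, f, X, X'), hmem⟩, ?_, rfl⟩
        simp
      have hG : GH L R b' = GH Lh Rh b' := by
        refine GH.congr (fun z w hz => ?_) (fun z hz => ?_)
        · have : ¬ (b ≤ z ∧ z < b') := by omega
          simp only [L, this, if_false]
        · have : ¬ (b ≤ z ∧ z < b') := by omega
          simp only [R, this, if_false]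
      have hC : ∀ X' X S' S, CS (E.TS e) E.dead L R b b' f X' X S' S ↔
          CS (E.TS e) E.dead Lh Rh b b' f X' X S' S := by
        intro X' X S' S
        unfold CS GS
        rw [hG]
      rcases hgood _ hmemT with h4 | h4
      · left
        rw [hC]
        refine CS.mono _ _ _ _ ?_ ?_ h4
        · rintro z ⟨⟨h5, h6, h7⟩, h8⟩
          exact ⟨(hva1 z).2 ⟨h5, h6, h7⟩, fun w hw => h8 w ((hLrow z w h5 h6).2 (Or.inl hw))⟩
        · rintro z ⟨h5, h6⟩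
          obtain ⟨h7, h8, -⟩ := hF1row z h5
          exact ⟨⟨h7, h8, (hRrow z h7 h8).2 h5⟩,
            fun w hw => h6 w (hLF z h5 w ((hLrow z w h7 h8).1 hw))⟩
      · right
        rintro c i hc ⟨z0, j, hj, rfl, rfl, hz0⟩ h5
        rw [hC] at h5
        refine h4 j hj (CS.mono _ _ _ _ ?_ ?_ h5)
        · rintro z ⟨h6 | h6, h7⟩
          · obtain ⟨h8, h9, -⟩ := hF1row z h6
            exact ⟨⟨h8, h9, Or.inl ((hRrow z h8 h9).2 h6)⟩,
              fun w hw => h7 w (hLF z h6 w ((hLrow z w h8 h9).1 hw))⟩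
          · obtain ⟨h8, h9, -⟩ := hU1row j hj z h6
            have hzU : U (sc j) (si j) z := ⟨j, hj, rfl, rfl, h6⟩
            refine ⟨⟨h8, h9, Or.inr hzU⟩, fun w hw => ?_⟩
            rcases (hLrow z w h8 h9).1 hw with h10 | ⟨j', hj', h11, h12⟩
            · exact h7 w h10
            · rw [hR.dj.2 j' hj' j hj z h11 h6] at h12
              rcases hc with h13 | ⟨N, h13, h14⟩
              · omega
              · have : w = N := by omega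
                rw [this]; exact h14
        · rintro z ⟨⟨h6, h7, h8, h9⟩, h10⟩
          exact ⟨⟨(hva1 z).2 ⟨h6, h7, h8⟩, fun h11 => h9 ⟨j, hj, rfl, rfl, h11⟩⟩,
            fun w hw => h10 w ((hLrow z w h6 h7).2 (Or.inl hw))⟩

end Pool.Agent.BSig
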