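import Pool.Agent.Work.MP_510745_lc.TDef
import Pool.Agent.Work.MP_510745_lc.Row

/-!
The coded comparison relations agree with the semantic ones.
-/

namespace Pool.Agent.BSig

theorem cO_lt {x z : ℕ} (h : cO x z) : z < x := lt_of_le_of_lt (le_pr_right _ _) (Bt.lt h)
theorem cR_lt {x z : ℕ} (h : cR x z) : z < x := lt_of_le_of_lt (le_pr_right _ _) (Bt.lt h)
theorem cD_lt {x z : ℕ} (h : cD x z) : z < x := lt_of_le_of_lt (le_pr_right _ _) (Bt.lt h)
theorem cL_lt {x z w : ℕ} (h : cL x z w) : z < x ∧ w < x :=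
  ⟨lt_of_le_of_lt (le_trans (le_pr_left _ _) (le_pr_right _ _)) (Bt.lt h),
    lt_of_le_of_lt (le_trans (le_pr_right _ _) (le_pr_right _ _)) (Bt.lt h)⟩
theorem cT_lt {x z w : ℕ} (h : cT x z w) : z < x ∧ w < x :=
  ⟨lt_of_le_of_lt (le_trans (le_pr_left _ _) (le_pr_right _ _)) (Bt.lt h),
    lt_of_le_of_lt (le_trans (le_pr_right _ _) (le_pr_right _ _)) (Bt.lt h)⟩
theorem cP_lt {x z w : ℕ} (h : cP x z w) : z < x ∧ w < x :=
  ⟨lt_of_le_of_lt (le_trans (le_pr_left _ _) (le_pr_right _ _)) (Bt.lt h),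
    lt_of_le_of_lt (le_trans (le_pr_right _ _) (le_pr_right _ _)) (Bt.lt h)⟩
theorem cU_lt {x b c i z : ℕ} (h : cU x b c i z) : b < x ∧ c < x ∧ i < x ∧ z < x := by
  have h0 := Bt.lt h
  have h1 := le_pr_right 4 (pr b (pr c (pr i z)))
  have h2 := le_pr_left b (pr c (pr i z))
  have h3 := le_pr_right b (pr c (pr i z))
  have h4 := le_pr_left c (pr i z)
  have h5 := le_pr_right c (pr i z)
  have h6 := le_pr_left i z
  have h7 := le_pr_right i z
  omega

theorem rw_iff {x b b' : ℕ} : Rw x b b' ↔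
    (cD x b ∧ cD x b' ∧ b < b' ∧ ∀ d, cD x d → (d ≤ b ∨ b' ≤ d)) := by
  unfold Rw
  refine and_congr_right fun _ => and_congr_right fun _ => and_congr_right fun _ => ?_
  constructor
  · intro h d hd
    have := h d (cD_lt hd) hd
    omega
  · intro h d _ hd
    have := h d hd
    omega

theorem tp_iff {x v : ℕ} : Tp x v ↔ (cD x v ∧ ∀ d, cD x d → d ≤ v) := by
  unfold Tp
  refine and_congr_right fun _ => ?_
  constructor
  · intro h d hd
    have := h d (cD_lt hd) hd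
    omega
  · intro h d _ hd
    have := h d hd
    omega

theorem dd_iff {x z : ℕ} : Dd x z ↔ (¬ cO x z ∧ ∃ d, cD x d ∧ z < d) := by
  unfold Dd
  refine and_congr_right fun _ => ?_
  constructor
  · rintro ⟨d, _, h⟩; exact ⟨d, h⟩
  · rintro ⟨d, h⟩; exact ⟨d, cD_lt h.1, h⟩

theorem row_unique {x b b' c c' z : ℕ} (h : Rw x b b') (h' : Rw x c c') (h1 : b ≤ z) (h2 : z < b')
    (h3 : c ≤ z) (h4 : z < c') : b = c ∧ b' = c' := by
  rw [rw_iff] at h h'
  have a1 := h.2.2.2 c h'.1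
  have a2 := h.2.2.2 c' h'.2.1
  have a3 := h'.2.2.2 b h.1
  have a4 := h'.2.2.2 b' h.2.1
  omega

/-- The label condition. -/
def LbOK (x : ℕ) : Prop := ∀ z w, cL x z w → ∃ b b', Rw x b b' ∧ b ≤ z ∧ z < b' ∧ w < b

theorem LbOK.lt {x z w : ℕ} (h : LbOK x) (hz : cL x z w) : w < z := by
  obtain ⟨b, b', _, h1, _, h2⟩ := h z w hz
  omega

theorem LbOK.row {x z w b b' : ℕ} (h : LbOK x) (hr : Rw x b b') (h1 : b ≤ z) (h2 : z < b')
    (hz : cL x z w) : w < b := by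
  obtain ⟨c, c', h3, h4, h5, h6⟩ := h z w hz
  rw [(row_unique hr h3 h1 h2 h4 h5).1]
  exact h6

/-- The generated set of a mode. -/
def GM (x j b b' c i : ℕ) (X : ℕ → Prop) : ℕ → Prop :=
  GS (cL x) (cR x) b b' X (rowS (cL x) b b' (Adm x j b c i) X)

theorem GM_low {x j b b' c i w : ℕ} {X : ℕ → Prop} (hbb : b < b') (hw : w < b) :
    GM x j b b' c i X w ↔ X w := by
  unfold GM GS
  rw [GH.iff]
  constructor
  · rintro ((⟨_, h⟩ | ⟨⟨h, _⟩, _⟩) | ⟨h, _⟩)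
    · exact h
    · omega
    · omega
  · intro h; exact Or.inl (Or.inl ⟨hw, h⟩)

theorem GM_iff {x j b b' c i z : ℕ} {X : ℕ → Prop} (hL : LbOK x) (hr : Rw x b b') :
    GM x j b b' c i X z ↔ ((z < b ∧ X z) ∨ (b ≤ z ∧ z < b' ∧ Adm x j b c i z ∧
      ∀ w, cL x z w → GM x j b b' c i X w) ∨
      (b' ≤ z ∧ cR x z ∧ ∀ w, cL x z w → GM x j b b' c i X w)) := by
  have hbb : b < b' := hr.2.2.1
  conv_lhs => unfold GM GS
  rw [GH.iff]
  constructor
  · rintro ((h | ⟨⟨h1, h2, h3⟩, h4⟩) | ⟨h1, h2, h3⟩)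
    · exact Or.inl h
    · exact Or.inr (Or.inl ⟨h1, h2, h3, fun w hw =>
        (GM_low hbb (hL.row hr h1 h2 hw)).2 (h4 w hw)⟩)
    · exact Or.inr (Or.inr ⟨h1, h2, h3⟩)
  · rintro (h | ⟨h1, h2, h3, h4⟩ | ⟨h1, h2, h3⟩)
    · exact Or.inl (Or.inl h)
    · exact Or.inl (Or.inr ⟨⟨h1, h2, h3⟩, fun w hw =>
        (GM_low hbb (hL.row hr h1 h2 hw)).1 (h4 w hw)⟩)
    · exact Or.inr ⟨h1, h2, h3⟩

theorem GM_lt {x j b b' c i z : ℕ} {X : ℕ → Prop} (hr : Rw x b b')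
    (hz : GM x j b b' c i X z) : z < x := by
  have h1 := hr.2.2.1
  have h2 := cD_lt hr.2.1
  unfold GM GS at hz
  rw [GH.iff] at hz
  rcases hz with (⟨h, _⟩ | ⟨⟨_, h, _⟩, _⟩) | ⟨_, h, _⟩
  · omega
  · omega
  · exact cR_lt h

theorem gn_iff {x j b b' c i X W : ℕ} (hL : LbOK x) (hr : Rw x b b') (hW : W < 2 ^ x) :
    Gn x j b b' c i X W ↔ ∀ z, Bt W z ↔ GM x j b b' c i (Bt X) z := by
  constructor
  · intro h z
    induction z using Nat.strong_induction_on with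
    | _ z ih =>
      by_cases hz : z < x
      · rw [h z hz, GM_iff hL hr]
        have hs : Lsub x z W ↔ ∀ w, cL x z w → GM x j b b' c i (Bt X) w := by
          unfold Lsub
          constructor
          · intro h1 w hw
            exact (ih w (hL.lt hw)).1 (h1 w (cL_lt hw).2 hw)
          · intro h1 w _ hw
            exact (ih w (hL.lt hw)).2 (h1 w hw)
        rw [hs]
        simp only [Nat.lt_succ_iff]
      · constructor
        · intro h1; exact absurd (h1.lt_of_lt hW) hz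
        · intro h1; exact absurd (GM_lt hr h1) hz
  · intro h z hz
    rw [h z, GM_iff hL hr]
    have hs : Lsub x z W ↔ ∀ w, cL x z w → GM x j b b' c i (Bt X) w := by
      unfold Lsub
      constructor
      · intro h1 w hw
        exact (h w).1 (h1 w (cL_lt hw).2 hw)
      · intro h1 w _ hw
        exact (h w).2 (h1 w hw)
    rw [hs]
    simp only [Nat.lt_succ_iff]

theorem cl_iff {x B D e k W : ℕ} : Cl x B D e k W ↔ ClS (Test B D e) (Dd x) (Bt W) k := by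
  unfold Cl ClS
  constructor
  · rintro ⟨k', _, p, _, q, _, h1, h2, h3, h4⟩
    exact ⟨k', p, q, fun z hz => h1 z hz.lt hz, fun z hz => h2 z hz.lt hz,
      fun z hz => h3 z hz.lt hz, h4⟩
  · rintro ⟨k', p, q, h1, h2, h3, h4⟩
    exact ⟨k', h4.1, p, h4.2.1, q, h4.2.2.1, fun z _ hz => h1 z hz, fun z _ hz => h2 z hz,
      fun z _ hz => h3 z hz, h4⟩

theorem cg_iff {x B D e j b b' c i X k : ℕ} (hL : LbOK x) (hr : Rw x b b') :
    CG x B D e j b b' c i X k ↔ ClS (Test B D e) (Dd x) (GM x j b b' c i (Bt X)) k := by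
  unfold CG
  constructor
  · rintro ⟨W, hW, h1, h2⟩
    rw [gn_iff hL hr hW] at h1
    rw [cl_iff] at h2
    exact h2.mono fun z hz => (h1 z).1 hz
  · intro h
    obtain ⟨W, hW, h1⟩ := mk_code' x (GM x j b b' c i (Bt X)) (fun z hz => GM_lt hr hz)
    refine ⟨W, hW, (gn_iff hL hr hW).2 h1, cl_iff.2 (h.mono fun z hz => (h1 z).2 hz)⟩

theorem adm0 {x b c i : ℕ} : Adm x 0 b c i = cO x := by
  funext z; simp [Adm]
theorem adm1 {x b c i : ℕ} : Adm x 1 b c i = cR x := by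
  funext z; simp [Adm]
theorem adm2 {x b c i : ℕ} : Adm x 2 b c i = fun z => cR x z ∨ cU x b c i z := by
  funext z; simp [Adm]
theorem adm3 {x b c i : ℕ} : Adm x 3 b c i = fun z => cO x z ∧ ¬ cU x b c i z := by
  funext z; simp [Adm]

theorem cov_iff {x B D e f b b' X X' : ℕ} (hL : LbOK x) (hr : Rw x b b') :
    Cov x B D e f b b' X X' ↔
      CS (Test B D e) (Dd x) (cL x) (cR x) b b' f (Bt X') (Bt X)
        (rowS (cL x) b b' (cO x) (Bt X')) (rowS (cL x) b b' (cR x) (Bt X)) := by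
  unfold Cov CS
  simp only [cg_iff hL hr, GM, adm0, adm1]

theorem ind_iff {x B D e f b b' X X' : ℕ} (hL : LbOK x) (hr : Rw x b b') :
    Ind x B D e f b b' X X' ↔
      ∀ c i, (c = 0 ∨ ∃ N, c = N + 1 ∧ Bt X' N) → (∃ z, cU x b c i z) →
        ¬ CS (Test B D e) (Dd x) (cL x) (cR x) b b' f (Bt X') (Bt X)
          (rowS (cL x) b b' (fun z => cR x z ∨ cU x b c i z) (Bt X'))
          (rowS (cL x) b b' (fun z => cO x z ∧ ¬ cU x b c i z) (Bt X)) := by
  unfold Ind CS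
  simp only [cg_iff hL hr, GM, adm2, adm3]
  constructor
  · rintro h c i hc ⟨z, hz⟩ hC
    obtain ⟨h1, h2, h3, h4⟩ := cU_lt hz
    obtain ⟨k, hk, h5, h6⟩ := h c h2 i h3
      (hc.imp id fun ⟨N, h7, h8⟩ => ⟨N, by omega, h7, h8⟩) ⟨z, h4, hz⟩
    exact h6 (hC k hk h5)
  · rintro h c hc i hi hcl ⟨z, _, hz⟩
    have h1 := h c i (hcl.imp id fun ⟨N, _, h7, h8⟩ => ⟨N, h7, h8⟩) ⟨z, hz⟩
    push Not at h1
    obtain ⟨k, hk, h2, h3⟩ := h1
    exact ⟨k, hk, h2, h3⟩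

end Pool.Agent.BSig
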