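import Pool.Agent.Work.MP_510745_lc.Model

/-!
Prime coding of finite sets: the literal definition of the problem file, and the bridge to
binary codes in the model.
-/

namespace Pool.Agent.BSig

open Filter

/-! ### Definitions in an arbitrary structure -/

/-- `a` divides `b`. -/
def Dv {M : Type} (S : AStr M) (a b : M) : Prop := ∃ c, b = S.mul a c

/-- `p` is a prime. -/
def IsPr {M : Type} (S : AStr M) (p : M) : Prop :=
  S.lt S.one p ∧ ∀ a b, p = S.mul a b → a = S.one ∨ b = S.one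

/-- `q` is the next prime after the prime `r`. -/
def NextP {M : Type} (S : AStr M) (r q : M) : Prop :=
  IsPr S r ∧ IsPr S q ∧ S.lt r q ∧ ∀ t, S.lt r t → S.lt t q → ¬ IsPr S t

/-- The code `(x + y)^2 + x` of a pair. -/
def prS {M : Type} (S : AStr M) (x y : M) : M := S.add (S.mul (S.add x y) (S.add x y)) x

/-- `w` codes (by binary digits) a finite set of pairs `(i, q)` that is closed under the
recursion defining the enumeration of the primes: `(0, 2)`, and `(j + 1, q)` comes from `(j, r)`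
where `q` is the next prime after `r`. -/
def PTab {M : Type} (S : AStr M) (w : M) : Prop :=
  ∀ i q, Elt S (prS S i q) w → (i = S.zero ∧ q = S.add S.one S.one) ∨
    ∃ j r, i = S.add j S.one ∧ Elt S (prS S j r) w ∧ NextP S r q

/-- `p` is the prime with number `x` (the prime number `0` is `2`). -/
def NthP {M : Type} (S : AStr M) (x p : M) : Prop := ∃ w, PTab S w ∧ Elt S (prS S x p) w

/-- `x` belongs to the `M`-finite set with prime code `a`: the `x`-th prime divides `a`. -/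
def EltP {M : Type} (S : AStr M) (x a : M) : Prop := ∃ p, NthP S x p ∧ Dv S p a

/-- Codes of `M`-finite sets: all elements except `0` (which all primes divide). -/
def CodeP {M : Type} (S : AStr M) (a : M) : Prop := a ≠ S.zero

/-- The finite set with prime code `k` is contained in `A`. -/
def PosP {M : Type} (S : AStr M) (k : M) (A : M → Prop) : Prop := ∀ x, EltP S x k → A x

/-- The finite set with prime code `k` is disjoint from `A`. -/
def NegP {M : Type} (S : AStr M) (k : M) (A : M → Prop) : Prop := ∀ x, EltP S x k → ¬ A x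

/-- Turing reducibility `A ≤_T B` in `M`, with prime codes, as in the problem file. -/
def RedP {M : Type} (S : AStr M) (A B : M → Prop) : Prop :=
  ∃ F : M → M → M → M → Prop, CE4 S F ∧
    (∀ k i p n, F k i p n → CodeP S k ∧ (i = S.zero ∨ i = S.one) ∧ CodeP S p ∧ CodeP S n) ∧
    ∀ k, CodeP S k →
    (PosP S k A ↔ ∃ p n, F k S.one p n ∧ PosP S p B ∧ NegP S n B) ∧
    (NegP S k A ↔ ∃ p n, F k S.zero p n ∧ PosP S p B ∧ NegP S n B)

/-! ### The naturals -/

/-- Bounded form of the table condition over the naturals. -/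
def PTabN (w : ℕ) : Prop :=
  ∀ i q, Bt w (pr i q) → (i = 0 ∧ q = 2) ∨
    ∃ j r, i = j + 1 ∧ Bt w (pr j r) ∧ (Nat.Prime r ∧ Nat.Prime q ∧ r < q ∧
      ∀ t, r < t → t < q → ¬ Nat.Prime t)

theorem ptab_sound {w : ℕ} (h : PTabN w) : ∀ i q, Bt w (pr i q) → q = Nat.nth Nat.Prime i := by
  intro i
  induction i with
  | zero =>
    intro q hq
    rcases h 0 q hq with ⟨_, h1⟩ | ⟨j, r, h1, _⟩
    · rw [h1, Nat.nth_prime_zero_eq_two]
    · omega
  | succ i ih =>
    intro q hq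
    rcases h (i + 1) q hq with ⟨h1, _⟩ | ⟨j, r, h1, h2, h3, h4, h5, h6⟩
    · omega
    · have hj : i = j := by omega
      subst hj
      have hr := ih r h2
      have hc : Nat.count Nat.Prime r = i := by
        rw [hr]; exact Nat.count_nth_of_infinite Nat.infinite_setOfPred_prime i
      have hq' : Nat.count Nat.Prime q = i + 1 := by
        have e1 : Nat.count Nat.Prime (r + 1) = i + 1 := by
          rw [Nat.count_succ, if_pos h3, hc]
        have e2 : ∀ t, r + 1 ≤ t → t ≤ q → Nat.count Nat.Prime t = i + 1 := by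
          intro t ht
          induction t, ht using Nat.le_induction with
          | base => intro _; exact e1
          | succ t ht iht =>
            intro htq
            rw [Nat.count_succ, iht (by omega), if_neg (h6 t (by omega) (by omega))]
        exact e2 q h5 le_rfl
      rw [← hq', Nat.nth_count h4]

theorem nth_lt_succ (i : ℕ) : Nat.nth Nat.Prime i < Nat.nth Nat.Prime (i + 1) :=
  Nat.nth_strictMono Nat.infinite_setOfPred_prime (Nat.lt_succ_self i)

theorem nth_between (i t : ℕ) (h1 : Nat.nth Nat.Prime i < t)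
    (h2 : t < Nat.nth Nat.Prime (i + 1)) : ¬ Nat.Prime t := by
  intro ht
  have e1 : Nat.nth Nat.Prime (Nat.count Nat.Prime t) = t := Nat.nth_count ht
  rw [← e1] at h1 h2
  have h3 := (Nat.nth_lt_nth Nat.infinite_setOfPred_prime).1 h1
  have h4 := (Nat.nth_lt_nth Nat.infinite_setOfPred_prime).1 h2
  omega

/-- Standard tables. -/
theorem ex_ptab (x : ℕ) : ∃ w, w < 2 ^ (pr x (Nat.nth Nat.Prime x) + 1) ∧ PTabN w ∧
    ∀ i, i ≤ x → Bt w (pr i (Nat.nth Nat.Prime i)) := by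
  obtain ⟨w, hw, h⟩ := mk_code' (pr x (Nat.nth Nat.Prime x) + 1)
    (fun z => ∃ i, i ≤ x ∧ z = pr i (Nat.nth Nat.Prime i)) (by
    rintro z ⟨i, hi, rfl⟩
    have h1 : pr i (Nat.nth Nat.Prime i) ≤ pr x (Nat.nth Nat.Prime x) :=
      pr_mono hi (Nat.nth_monotone Nat.infinite_setOfPred_prime hi)
    omega)
  refine ⟨w, hw, ?_, fun i hi => (h _).2 ⟨i, hi, rfl⟩⟩
  intro i q hq
  obtain ⟨i', hi', h1⟩ := (h _).1 hq
  obtain ⟨rfl, rfl⟩ := pr_inj h1
  cases i with
  | zero => exact Or.inl ⟨rfl, Nat.nth_prime_zero_eq_two⟩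
  | succ i =>
    refine Or.inr ⟨i, _, rfl, (h _).2 ⟨i, by omega, rfl⟩, Nat.prime_nth_prime _,
      Nat.prime_nth_prime _, nth_lt_succ i, fun t => nth_between i t⟩

theorem nth_bound (x : ℕ) : Nat.nth Nat.Prime x ≤ 2 ^ (x + 1) := by
  induction x with
  | zero => rw [Nat.nth_prime_zero_eq_two]; norm_num
  | succ x ih =>
    have h0 : Nat.nth Nat.Prime x ≠ 0 := (Nat.prime_nth_prime x).ne_zero
    obtain ⟨p, hp, h1, h2⟩ := Nat.exists_prime_lt_and_le_two_mul _ h0
    have h3 : Nat.nth Nat.Prime (x + 1) ≤ p := by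
      by_contra hc
      exact nth_between x p h1 (by omega) hp
    calc Nat.nth Nat.Prime (x + 1) ≤ p := h3
      _ ≤ 2 * Nat.nth Nat.Prime x := h2
      _ ≤ 2 * 2 ^ (x + 1) := Nat.mul_le_mul_left _ ih
      _ = 2 ^ (x + 1 + 1) := by rw [pow_succ]; ring

theorem lt_nth (x : ℕ) : x < Nat.nth Nat.Prime x := by
  have := Nat.add_two_le_nth_prime x
  omega

/-- The prime code `K` and the binary code `k` have the same elements. -/
def Same (K k : ℕ) : Prop := ∀ x, Nat.nth Nat.Prime x ∣ K ↔ Bt k x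

/-- Binary code of a prime code. -/
theorem ex_bin (K : ℕ) (hK : K ≠ 0) : ∃ k, k < 2 ^ K ∧ Same K k := by
  obtain ⟨k, hk, h⟩ := mk_code' K (fun x => Nat.nth Nat.Prime x ∣ K) (by
    intro x hx
    have := Nat.le_of_dvd (Nat.pos_of_ne_zero hK) hx
    have := lt_nth x
    omega)
  exact ⟨k, hk, fun x => (h x).symm⟩

/-- Prime code of a binary code. -/
theorem ex_prime (k : ℕ) : ∃ K, K ≠ 0 ∧ K ≤ 2 ^ ((k + 1) * (k + 1)) ∧ Same K k := by
  classical
  let s : Finset ℕ := (Finset.range k).filter (fun x => Bt k x)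
  refine ⟨∏ x ∈ s, Nat.nth Nat.Prime x, ?_, ?_, ?_⟩
  · exact Finset.prod_ne_zero_iff.2 fun x _ => (Nat.prime_nth_prime x).ne_zero
  · have h1 : ∏ x ∈ s, Nat.nth Nat.Prime x ≤ ∏ x ∈ s, 2 ^ (k + 1) := by
      refine Finset.prod_le_prod' fun x hx => ?_
      have hx' : x < k := Finset.mem_range.1 (Finset.mem_filter.1 hx).1
      exact le_trans (nth_bound x) (Nat.pow_le_pow_right (by norm_num) (by omega))
    refine le_trans h1 ?_
    rw [Finset.prod_const, ← pow_mul]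
    refine Nat.pow_le_pow_right (by norm_num) ?_
    refine Nat.mul_le_mul_left _ ?_
    have h2 : s.card ≤ (Finset.range k).card := Finset.card_filter_le _ _
    rw [Finset.card_range] at h2
    omega
  · intro x
    constructor
    · intro h
      obtain ⟨y, hy, h1⟩ := ((Nat.prime_nth_prime x).prime.dvd_finsetProd_iff _).1 h
      have h2 := (Nat.prime_dvd_prime_iff_eq (Nat.prime_nth_prime x) (Nat.prime_nth_prime y)).1 h1
      have h3 : x = y := Nat.nth_injective Nat.infinite_setOfPred_prime h2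
      subst h3
      exact (Finset.mem_filter.1 hy).2
    · intro h
      exact Finset.dvd_prod_of_mem _ (Finset.mem_filter.2 ⟨Finset.mem_range.2 h.lt, h⟩)

/-! ### Transfer to the model -/

section model
variable {s : ℕ → ℕ → ℕ}

theorem rep_prS (hs : Gr s) (x y : MM s) :
    ∀ᶠ k in Uf, rep (prS (SS hs) x y) k = pr (rep x k) (rep y k) := by
  unfold prS pr
  filter_upwards [rep_add hs x y, rep_mul hs ((SS hs).add x y) ((SS hs).add x y),
    rep_add hs ((SS hs).mul ((SS hs).add x y) ((SS hs).add x y)) x] with k h1 h2 h3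
  rw [h3, h2, h1]

theorem dv_iff (hs : Gr s) (a b : MM s) : Dv (SS hs) a b ↔ ∀ᶠ k in Uf, rep a k ∣ rep b k := by
  constructor
  · rintro ⟨c, rfl⟩
    filter_upwards [rep_mul hs a c] with k h1
    rw [h1]
    exact Dvd.intro _ rfl
  · intro h
    have h1 : ∀ᶠ k in Uf, ∃ c, c ≤ rep b k ∧ rep b k = rep a k * c := by
      filter_upwards [h] with k hk
      obtain ⟨c, hc⟩ := hk
      rcases Nat.eq_zero_or_pos (rep a k) with h0 | h0
      · exact ⟨0, Nat.zero_le _, by rw [hc, h0]; simp⟩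
      · exact ⟨c, by rw [hc]; exact Nat.le_mul_of_pos_left _ h0, hc⟩
    obtain ⟨c, hc⟩ := choose_fn (rep_bd b) h1
    refine ⟨c, ext_rep ?_⟩
    filter_upwards [hc, rep_mul hs a c] with k h2 h3
    rw [h3]; exact h2.2

theorem isPr_iff (hs : Gr s) (p : MM s) : IsPr (SS hs) p ↔ ∀ᶠ k in Uf, Nat.Prime (rep p k) := by
  constructor
  · rintro ⟨h1, h2⟩
    by_contra hc
    rw [← ev_not] at hc
    have h1' : ∀ᶠ k in Uf, rep (SS hs).one k < rep p k := h1
    have h3 : ∀ᶠ k in Uf, ∃ a, a ≤ rep p k ∧ (a ≠ 1 ∧ ∃ b, b ≤ rep p k ∧ b ≠ 1 ∧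
        rep p k = a * b) := by
      filter_upwards [hc, h1', rep_one hs] with k hk h4 h5
      rw [h5] at h4
      obtain ⟨a, b, ha, hb, hab⟩ := (Nat.not_prime_iff_exists_mul_eq h4).1 hk
      refine ⟨a, ha.le, ?_, b, hb.le, ?_, hab.symm⟩
      · rintro rfl; omega
      · rintro rfl; omega
    obtain ⟨a, ha⟩ := choose_fn (rep_bd p) h3
    have h4 : ∀ᶠ k in Uf, ∃ b, b ≤ rep p k ∧ (b ≠ 1 ∧ rep p k = rep a k * b) := by
      filter_upwards [ha] with k hk
      obtain ⟨_, _, b, h5, h6, h7⟩ := hk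
      exact ⟨b, h5, h6, h7⟩
    obtain ⟨b, hb⟩ := choose_fn (rep_bd p) h4
    have h5 : p = (SS hs).mul a b := by
      apply ext_rep
      filter_upwards [hb, rep_mul hs a b] with k h6 h7
      rw [h7]; exact h6.2.2
    rcases h2 a b h5 with h6 | h6
    · obtain ⟨k, ⟨hk, h7⟩, h8⟩ := ev_exists ((ha.and (rep_inj.1 h6)).and (rep_one hs))
      rw [h8] at h7
      exact hk.2.1 h7
    · obtain ⟨k, ⟨hk, h7⟩, h8⟩ := ev_exists ((hb.and (rep_inj.1 h6)).and (rep_one hs))
      rw [h8] at h7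
      exact hk.2.1 h7
  · intro h
    refine ⟨?_, fun a b hab => ?_⟩
    · change ∀ᶠ k in Uf, _
      filter_upwards [h, rep_one hs] with k h1 h2
      rw [h2]; exact h1.one_lt
    · have h1 : ∀ᶠ k in Uf, rep a k = 1 ∨ rep b k = 1 := by
        filter_upwards [h, rep_inj.1 hab, rep_mul hs a b] with k h2 h3 h4
        rw [h3, h4] at h2
        exact (Nat.prime_mul_iff.1 h2).imp And.right And.right |>.symm
      rw [ev_or] at h1
      refine h1.imp (fun h2 => ext_rep ?_) (fun h2 => ext_rep ?_)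
      · filter_upwards [h2, rep_one hs] with k h3 h4
        rw [h3, h4]
      · filter_upwards [h2, rep_one hs] with k h3 h4
        rw [h3, h4]

/-- The next prime, over the naturals. -/
def NextN (r q : ℕ) : Prop :=
  Nat.Prime r ∧ Nat.Prime q ∧ r < q ∧ ∀ t, r < t → t < q → ¬ Nat.Prime t

theorem nextP_iff (hs : Gr s) (r q : MM s) :
    NextP (SS hs) r q ↔ ∀ᶠ k in Uf, NextN (rep r k) (rep q k) := by
  constructor
  · rintro ⟨h1, h2, h3, h4⟩
    rw [isPr_iff] at h1 h2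
    have h3' : ∀ᶠ k in Uf, rep r k < rep q k := h3
    have h5 : ∀ᶠ k in Uf, ∀ t, rep r k < t → t < rep q k → ¬ Nat.Prime t := by
      by_contra hc
      rw [← ev_not] at hc
      have h6 : ∀ᶠ k in Uf, ∃ t, t ≤ rep q k ∧ (rep r k < t ∧ t < rep q k ∧ Nat.Prime t) := by
        filter_upwards [hc] with k hk
        push Not at hk
        obtain ⟨t, h7, h8, h9⟩ := hk
        exact ⟨t, h8.le, h7, h8, h9⟩
      obtain ⟨t, ht⟩ := choose_fn (rep_bd q) h6
      exact h4 t (ht.mono fun _ h => h.2.1) (ht.mono fun _ h => h.2.2.1)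
        ((isPr_iff hs t).2 (ht.mono fun _ h => h.2.2.2))
    filter_upwards [h1, h2, h3', h5] with k e1 e2 e3 e4
    exact ⟨e1, e2, e3, e4⟩
  · intro h
    refine ⟨(isPr_iff hs r).2 (h.mono fun _ h => h.1), (isPr_iff hs q).2 (h.mono fun _ h => h.2.1),
      h.mono fun _ h => h.2.2.1, fun t h1 h2 h3 => ?_⟩
    rw [isPr_iff] at h3
    have h1' : ∀ᶠ k in Uf, rep r k < rep t k := h1
    have h2' : ∀ᶠ k in Uf, rep t k < rep q k := h2
    obtain ⟨k, ⟨e1, e2⟩, e3, e4⟩ := ev_exists ((h1'.and h2').and (h3.and h))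
    exact e4.2.2.2 _ e1 e2 e3

theorem ptabN_iff (w : ℕ) : PTabN w ↔ ∀ i q, Bt w (pr i q) → (i = 0 ∧ q = 2) ∨
    ∃ j r, i = j + 1 ∧ Bt w (pr j r) ∧ NextN r q := Iff.rfl

theorem ptab_iff (hs : Gr s) (w : MM s) : PTab (SS hs) w ↔ ∀ᶠ k in Uf, PTabN (rep w k) := by
  constructor
  · intro h
    by_contra hc
    rw [← ev_not] at hc
    have h1 : ∀ᶠ k in Uf, ∃ i, i ≤ rep w k ∧ ∃ q, q ≤ rep w k ∧ (Bt (rep w k) (pr i q) ∧
        ¬ ((i = 0 ∧ q = 2) ∨ ∃ j r, i = j + 1 ∧ Bt (rep w k) (pr j r) ∧ NextN r q)) := by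
      filter_upwards [hc] with k hk
      rw [ptabN_iff] at hk
      simp only [not_forall] at hk
      obtain ⟨i, q, h2, h3⟩ := hk
      exact ⟨i, le_trans (le_pr_left i q) h2.lt.le, q, le_trans (le_pr_right i q) h2.lt.le, h2, h3⟩
    obtain ⟨i, hi⟩ := choose_fn (rep_bd w) h1
    obtain ⟨q, hq⟩ := choose_fn (rep_bd w) (hi.mono fun _ h => h.2)
    have h2 : Elt (SS hs) (prS (SS hs) i q) w := by
      rw [elt_iff]
      filter_upwards [hq, rep_prS hs i q] with k h3 h4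
      rw [h4]; exact h3.2.1
    rcases h i q h2 with ⟨h3, h4⟩ | ⟨j, r, h3, h4, h5⟩
    · obtain ⟨k, ⟨⟨e1, e2⟩, e3⟩, ⟨e4, e5⟩, e6⟩ := ev_exists
        (((hq.and (rep_zero hs)).and (rep_inj.1 h3)).and
        (((rep_inj.1 h4).and (rep_one hs)).and (rep_add hs (SS hs).one (SS hs).one)))
      exact e1.2.2 (Or.inl ⟨by rw [e3, e2], by rw [e4, e6, e5]⟩)
    · rw [elt_iff] at h4
      rw [nextP_iff] at h5
      obtain ⟨k, ⟨⟨e1, e2⟩, e3⟩, ⟨e4, e5⟩, e6⟩ := ev_exists
        (((hq.and h4).and (rep_inj.1 h3)).and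
        ((h5.and (rep_one hs)).and ((rep_add hs j (SS hs).one).and (rep_prS hs j r))))
      exact e1.2.2 (Or.inr ⟨rep j k, rep r k, by rw [e3, e6.1, e5], by rw [← e6.2]; exact e2, e4⟩)
  · intro h i q hiq
    rw [elt_iff] at hiq
    have h1 : ∀ᶠ k in Uf, (rep i k = 0 ∧ rep q k = 2) ∨
        ∃ j, j ≤ rep w k ∧ ∃ r, r ≤ rep w k ∧ rep i k = j + 1 ∧ Bt (rep w k) (pr j r) ∧
          NextN r (rep q k) := by
      filter_upwards [h, hiq, rep_prS hs i q] with k h2 h3 h4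
      rw [h4] at h3
      rcases h2 _ _ h3 with h5 | ⟨j, r, h5, h6, h7⟩
      · exact Or.inl h5
      · exact Or.inr ⟨j, le_trans (le_pr_left j r) h6.lt.le, r,
          le_trans (le_pr_right j r) h6.lt.le, h5, h6, h7⟩
    rw [ev_or] at h1
    rcases h1 with h1 | h1
    · left
      constructor
      · apply ext_rep
        filter_upwards [h1, rep_zero hs] with k h2 h3
        rw [h2.1, h3]
      · apply ext_rep
        filter_upwards [h1, rep_one hs, rep_add hs (SS hs).one (SS hs).one] with k h2 h3 h4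
        rw [h2.2, h4, h3]
    · right
      obtain ⟨j, hj⟩ := choose_fn (rep_bd w) h1
      obtain ⟨r, hr⟩ := choose_fn (rep_bd w) (hj.mono fun _ h => h.2)
      refine ⟨j, r, ?_, ?_, ?_⟩
      · apply ext_rep
        filter_upwards [hr, rep_one hs, rep_add hs j (SS hs).one] with k h2 h3 h4
        rw [h2.2.1, h4, h3]
      · rw [elt_iff]
        filter_upwards [hr, rep_prS hs j r] with k h2 h3
        rw [h3]; exact h2.2.2.1
      · rw [nextP_iff]
        exact hr.mono fun _ h => h.2.2.2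

theorem nthP_iff (hs : Gr s) (x p : MM s) :
    NthP (SS hs) x p ↔ ∀ᶠ k in Uf, rep p k = Nat.nth Nat.Prime (rep x k) := by
  constructor
  · rintro ⟨w, h1, h2⟩
    rw [ptab_iff] at h1
    rw [elt_iff] at h2
    filter_upwards [h1, h2, rep_prS hs x p] with k e1 e2 e3
    rw [e3] at e2
    exact ptab_sound e1 _ _ e2
  · intro h
    have hB : Bd s (fun k => 2 ^ (rep (prS (SS hs) x p) k + 1)) :=
      (((rep_bd (prS (SS hs) x p)).add hs (rep_bd (SS hs).one)).pow hs).mono (by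
          filter_upwards [rep_one hs] with k h1
          rw [h1])
    have h1 : ∀ᶠ k in Uf, ∃ w, w ≤ 2 ^ (rep (prS (SS hs) x p) k + 1) ∧
        (PTabN w ∧ Bt w (pr (rep x k) (rep p k))) := by
      filter_upwards [h, rep_prS hs x p] with k h1 h2
      obtain ⟨w, hw, h3, h4⟩ := ex_ptab (rep x k)
      rw [h2, h1]
      exact ⟨w, hw.le, h3, h4 _ le_rfl⟩
    obtain ⟨w, hw⟩ := choose_fn hB h1
    refine ⟨w, (ptab_iff hs w).2 (hw.mono fun _ h => h.2.1), ?_⟩
    rw [elt_iff]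
    filter_upwards [hw, rep_prS hs x p] with k h2 h3
    rw [h3]; exact h2.2.2

theorem bd_nth (hs : Gr s) (x : MM s) : Bd s (fun k => Nat.nth Nat.Prime (rep x k)) := by
  refine (((rep_bd x).add hs (rep_bd (SS hs).one)).pow hs).mono ?_
  filter_upwards [rep_one hs] with k h1
  rw [h1]
  exact nth_bound _

theorem eltP_iff (hs : Gr s) (x a : MM s) :
    EltP (SS hs) x a ↔ ∀ᶠ k in Uf, Nat.nth Nat.Prime (rep x k) ∣ rep a k := by
  constructor
  · rintro ⟨p, h1, h2⟩
    rw [nthP_iff] at h1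
    rw [dv_iff] at h2
    filter_upwards [h1, h2] with k e1 e2
    rw [← e1]; exact e2
  · intro h
    refine ⟨mk _ (bd_nth hs x), ?_, ?_⟩
    · rw [nthP_iff]
      exact rep_mk _ _
    · rw [dv_iff]
      filter_upwards [h, rep_mk _ (bd_nth hs x)] with k e1 e2
      rw [e2]; exact e1

/-- The prime code `K` and the binary code `k` have the same elements. -/
def SameM (K k : MM s) : Prop := ∀ᶠ j in Uf, rep K j ≠ 0 ∧ Same (rep K j) (rep k j)

theorem SameM.elt (hs : Gr s) {K k : MM s} (h : SameM K k) (x : MM s) :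
    EltP (SS hs) x K ↔ Elt (SS hs) x k := by
  rw [eltP_iff, elt_iff]
  constructor
  · intro h1
    filter_upwards [h, h1] with j e1 e2
    exact (e1.2 _).1 e2
  · intro h1
    filter_upwards [h, h1] with j e1 e2
    exact (e1.2 _).2 e2

theorem codeP_iff (hs : Gr s) (K : MM s) : CodeP (SS hs) K ↔ ∀ᶠ j in Uf, rep K j ≠ 0 := by
  unfold CodeP
  rw [Ne, rep_inj, ← ev_not]
  constructor
  · intro h
    filter_upwards [h, rep_zero hs] with j e1 e2
    rwa [e2] at e1
  · intro h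
    filter_upwards [h, rep_zero hs] with j e1 e2
    rwa [e2]

theorem ex_binM (hs : Gr s) {K : MM s} (hK : CodeP (SS hs) K) : ∃ k, SameM K k := by
  rw [codeP_iff] at hK
  have h1 : ∀ᶠ j in Uf, ∃ k, k ≤ 2 ^ rep K j ∧ (rep K j ≠ 0 ∧ Same (rep K j) k) := by
    filter_upwards [hK] with j hj
    obtain ⟨k, h2, h3⟩ := ex_bin (rep K j) hj
    exact ⟨k, h2.le, hj, h3⟩
  obtain ⟨k, hk⟩ := choose_fn ((rep_bd K).pow hs) h1
  exact ⟨k, hk.mono fun _ h => h.2⟩

theorem ex_primeM (hs : Gr s) (k : MM s) : ∃ K, CodeP (SS hs) K ∧ SameM K k := by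
  have hB : Bd s (fun j => 2 ^ ((rep k j + 1) * (rep k j + 1))) := by
    have h1 := (rep_bd k).add hs (rep_bd (SS hs).one)
    refine ((h1.mul hs h1).pow hs).mono ?_
    filter_upwards [rep_one hs] with j h2
    rw [h2]
  have h1 : ∀ᶠ j in Uf, ∃ K, K ≤ 2 ^ ((rep k j + 1) * (rep k j + 1)) ∧
      (K ≠ 0 ∧ Same K (rep k j)) := by
    refine Eventually.of_forall fun j => ?_
    obtain ⟨K, h2, h3, h4⟩ := ex_prime (rep k j)
    exact ⟨K, h3, h2, h4⟩
  obtain ⟨K, hK⟩ := choose_fn hB h1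
  exact ⟨K, (codeP_iff hs K).2 (hK.mono fun _ h => h.2.1), hK.mono fun _ h => h.2⟩

theorem SameM.pos (hs : Gr s) {K k : MM s} (h : SameM K k) (A : MM s → Prop) :
    PosP (SS hs) K A ↔ Pos (SS hs) k A :=
  forall_congr' fun x => imp_congr_left (h.elt hs x)

theorem SameM.neg (hs : Gr s) {K k : MM s} (h : SameM K k) (A : MM s → Prop) :
    NegP (SS hs) K A ↔ Neg (SS hs) k A :=
  forall_congr' fun x => imp_congr_left (h.elt hs x)

theorem SameM.code (hs : Gr s) {K k : MM s} (h : SameM K k) : CodeP (SS hs) K :=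
  (codeP_iff hs K).2 (h.mono fun _ h => h.1)

/-! ### The relation `Same` is `Sigma_1` -/

/-- Primality by a bounded formula. -/
def PrN (p : ℕ) : Prop := 1 < p ∧ ∀ a, a < p → ∀ b, b < p → ¬ a * b = p

theorem prN_iff (p : ℕ) : PrN p ↔ Nat.Prime p := by
  unfold PrN
  constructor
  · rintro ⟨h1, h2⟩
    by_contra hc
    obtain ⟨a, b, ha, hb, hab⟩ := (Nat.not_prime_iff_exists_mul_eq h1).1 hc
    exact h2 a ha b hb hab
  · intro h
    refine ⟨h.one_lt, fun a ha b hb hab => ?_⟩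
    exact (Nat.not_prime_iff_exists_mul_eq h.two_le).2 ⟨a, b, ha, hb, hab⟩ h

/-- The next prime, by a bounded formula. -/
def NextD (r q : ℕ) : Prop := PrN r ∧ PrN q ∧ r < q ∧ ∀ t, t < q → (r < t → ¬ PrN t)

theorem nextD_iff (r q : ℕ) : NextD r q ↔ NextN r q := by
  unfold NextD NextN
  simp only [prN_iff]
  refine and_congr_right fun _ => and_congr_right fun _ => and_congr_right fun _ => ?_
  exact ⟨fun h t h1 h2 => h t h2 h1, fun h t h1 h2 => h t h2 h1⟩

/-- The table condition, by a bounded formula. -/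
def PTabD (w : ℕ) : Prop :=
  ∀ i, i < w → ∀ q, q < w → (Bt w (pr i q) → ((i = 0 ∧ q = 2) ∨
    ∃ j, j < w ∧ ∃ r, r < w ∧ (i = j + 1 ∧ Bt w (pr j r) ∧ NextD r q)))

theorem ptabD_iff (w : ℕ) : PTabD w ↔ PTabN w := by
  rw [ptabN_iff]
  unfold PTabD
  simp only [nextD_iff]
  constructor
  · intro h i q hiq
    have h1 := hiq.lt
    rcases h i (lt_of_le_of_lt (le_pr_left i q) h1) q (lt_of_le_of_lt (le_pr_right i q) h1) hiq
      with h2 | ⟨j, _, r, _, h2⟩
    · exact Or.inl h2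
    · exact Or.inr ⟨j, r, h2⟩
  · intro h i _ q _ hiq
    rcases h i q hiq with h2 | ⟨j, r, h2, h3, h4⟩
    · exact Or.inl h2
    · exact Or.inr ⟨j, lt_of_le_of_lt (le_pr_left j r) h3.lt, r,
        lt_of_le_of_lt (le_pr_right j r) h3.lt, h2, h3, h4⟩

/-- `Same` with the witness `w`. -/
def SameD (w K k : ℕ) : Prop :=
  ¬ K = 0 ∧ PTabD w ∧ (∀ x, x < K + k → ∃ q, q < w ∧ Bt w (pr x q)) ∧
    ∀ x, x < K + k → ∀ q, q < w → (Bt w (pr x q) → ((∃ c, c < K + 1 ∧ K = q * c) ↔ Bt k x))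

theorem sameD_sound {w K k : ℕ} (h : SameD w K k) : K ≠ 0 ∧ Same K k := by
  obtain ⟨h1, h2, h3, h4⟩ := h
  rw [ptabD_iff] at h2
  refine ⟨h1, fun x => ?_⟩
  by_cases hx : x < K + k
  · obtain ⟨q, hq, h5⟩ := h3 x hx
    have h6 := ptab_sound h2 x q h5
    rw [← h4 x hx q hq h5, h6]
    constructor
    · rintro ⟨c, hc⟩
      refine ⟨c, ?_, hc⟩
      have h7 : 0 < Nat.nth Nat.Prime x := (Nat.prime_nth_prime x).pos
      have : c ≤ Nat.nth Nat.Prime x * c := Nat.le_mul_of_pos_left _ h7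
      omega
    · rintro ⟨c, _, hc⟩
      exact ⟨c, hc⟩
  · constructor
    · intro h5
      have h6 := Nat.le_of_dvd (Nat.pos_of_ne_zero h1) h5
      have := lt_nth x
      omega
    · intro h5
      have := h5.lt
      omega

/-- A bound for the witness. -/
def sB (K k : ℕ) : ℕ := 2 ^ (pr (K + k) (2 ^ (K + k + 1)) + 1)

theorem sameD_complete {K k : ℕ} (hK : K ≠ 0) (h : Same K k) : ∃ w, w ≤ sB K k ∧ SameD w K k := by
  obtain ⟨w, h1, h2, h3⟩ := ex_ptab (K + k)
  have h4 : pr (K + k) (Nat.nth Nat.Prime (K + k)) ≤ pr (K + k) (2 ^ (K + k + 1)) :=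
    pr_mono le_rfl (nth_bound _)
  refine ⟨w, ?_, hK, (ptabD_iff w).2 h2, fun x hx => ?_, fun x hx q hq h5 => ?_⟩
  · unfold sB
    exact le_trans h1.le (Nat.pow_le_pow_right (by norm_num) (by omega))
  · have h5 := h3 x hx.le
    exact ⟨_, lt_of_le_of_lt (le_pr_right _ _) h5.lt, h5⟩
  · have h6 := ptab_sound h2 x q h5
    rw [← h x, h6]
    constructor
    · rintro ⟨c, _, hc⟩
      exact ⟨c, hc⟩
    · rintro ⟨c, hc⟩
      refine ⟨c, ?_, hc⟩
      have h7 : 0 < Nat.nth Nat.Prime x := (Nat.prime_nth_prime x).pos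
      have : c ≤ Nat.nth Nat.Prime x * c := Nat.le_mul_of_pos_left _ h7
      omega

set_option synthInstance.maxSize 100000

section inst
variable {g0 g1 g2 : (ℕ → ℕ) → ℕ} [h0 : DT g0] [h1 : DT g1] [h2 : DT g2]

instance d0_PrN : D0 (fun v => PrN (g0 v)) := by apply D0.s1; unfold PrN; infer_instance
instance d0_NextD : D0 (fun v => NextD (g0 v) (g1 v)) := by
  apply D0.s2; unfold NextD; infer_instance
instance d0_PTabD : D0 (fun v => PTabD (g0 v)) := by apply D0.s1; unfold PTabD; infer_instance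
instance d0_SameD : D0 (fun v => SameD (g0 v) (g1 v) (g2 v)) := by
  apply D0.s3; unfold SameD; infer_instance

end inst

theorem sameM_iff (hs : Gr s) (K k : MM s) :
    SameM K k ↔ ∃ w : MM s, ∀ᶠ j in Uf, SameD (rep w j) (rep K j) (rep k j) := by
  constructor
  · intro h
    have hB : Bd s (fun j => sB (rep K j) (rep k j)) := by
      have e1 := (rep_bd K).add hs (rep_bd k)
      have e2 := rep_bd (SS hs).one
      have e3 := (e1.add hs e2).pow hs
      have e4 := e1.add hs e3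
      have e5 := (((e4.mul hs e4).add hs e1).add hs e2).pow hs
      refine e5.mono ?_
      filter_upwards [rep_one hs] with j hj
      rw [hj]
      exact le_rfl
    obtain ⟨w, hw⟩ := choose_fn hB (h.mono fun j hj => sameD_complete hj.1 hj.2)
    exact ⟨w, hw.mono fun _ h => h.2⟩
  · rintro ⟨w, hw⟩
    exact hw.mono fun _ h => sameD_sound h

/-- A criterion for c.e. sets of quadruples. -/
theorem ce4_ofP (hs : Gr s) {R : (ℕ → ℕ) → Prop} (hR : D0 R) (c : ℕ → MM s)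
    {F : MM s → MM s → MM s → MM s → Prop}
    (h : ∀ k i p n, F k i p n ↔ ∃ y : MM s, ∀ᶠ j in Uf,
      R (psh (rep y j) (psh (rep k j) (psh (rep i j) (psh (rep p j) (psh (rep n j)
        (fun l => rep (c l) j))))))) : CE4 (SS hs) F := by
  obtain ⟨f, hf⟩ := hR.ex
  refine ⟨f, c, fun k i p n => ?_⟩
  rw [h]
  refine exists_congr fun y => ?_
  rw [los5]
  simp only [hf]

/-- A bound for finitely many elements. -/
theorem ex_bound (hs : Gr s) (l : List (MM s)) : ∃ Y : MM s, ∀ᶠ j in Uf, ∀ x ∈ l, rep x j < rep Y j := by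
  induction l with
  | nil => exact ⟨(SS hs).zero, Eventually.of_forall fun _ x hx => by simp at hx⟩
  | cons a l ih =>
    obtain ⟨Y, hY⟩ := ih
    refine ⟨(SS hs).add Y ((SS hs).add a (SS hs).one), ?_⟩
    filter_upwards [hY, rep_one hs, rep_add hs a (SS hs).one,
      rep_add hs Y ((SS hs).add a (SS hs).one)] with j h1 h2 h3 h4 x hx
    rw [h4, h3, h2]
    rcases List.mem_cons.1 hx with rfl | hx
    · omega
    · have := h1 x hx; omega

theorem choose_lt {P : ℕ → ℕ → Prop} (Y : MM s)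
    (h : ∀ᶠ j in Uf, ∃ x, x < rep Y j ∧ P x j) : ∃ x : MM s, ∀ᶠ j in Uf, P (rep x j) j := by
  obtain ⟨x, hx⟩ := choose_fn (rep_bd Y) (h.mono fun j ⟨x, h1, h2⟩ => ⟨x, h1.le, h2⟩)
  exact ⟨x, hx.mono fun _ h => h.2⟩


instance d0_holds5 (f : Fm) {g0 g1 g2 g3 g4 : (ℕ → ℕ) → ℕ} {G : ℕ → (ℕ → ℕ) → ℕ} [h0 : DT g0]
    [h1 : DT g1] [h2 : DT g2] [h3 : DT g3] [h4 : DT g4] [hG : ∀ l, DT (G l)] :
    D0 (fun v => f.holds natS (psh (g0 v) (psh (g1 v) (psh (g2 v) (psh (g3 v) (psh (g4 v)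
      (fun l => G l v))))))) := by
  have hf : D0 (fun v => f.holds natS v) := ⟨⟨f, fun _ => Iff.rfl⟩⟩
  have h := D0.sub hf (g := fun l => match l with
    | 0 => g0
    | 1 => g1
    | 2 => g2
    | 3 => g3
    | 4 => g4
    | (l + 5) => G l) (fun l => match l with
    | 0 => h0
    | 1 => h1
    | 2 => h2
    | 3 => h3
    | 4 => h4
    | (l + 5) => hG l)
  refine h.congr fun v => ?_
  have e : (fun i => (match i with
    | 0 => g0
    | 1 => g1
    | 2 => g2
    | 3 => g3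
    | 4 => g4
    | (l + 5) => G l) v) = psh (g0 v) (psh (g1 v) (psh (g2 v) (psh (g3 v) (psh (g4 v)
      (fun l => G l v))))) := by
    funext i
    match i with
    | 0 => rfl
    | 1 => rfl
    | 2 => rfl
    | 3 => rfl
    | 4 => rfl
    | (l + 5) => rfl
  rw [e]

/-- The matrix of the translation from binary to prime codes. -/
def Tr1 (f : Fm) (v : ℕ → ℕ) : Prop :=
  (v 2 = 0 ∨ v 2 = 1) ∧ ∃ k, k < v 0 ∧ ∃ p, p < v 0 ∧ ∃ n, n < v 0 ∧ ∃ w, w < v 0 ∧
    ∃ w', w' < v 0 ∧ ∃ w'', w'' < v 0 ∧ ∃ y, y < v 0 ∧ (SameD w (v 1) k ∧ SameD w' (v 3) p ∧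
      SameD w'' (v 4) n ∧ f.holds natS (psh y (psh k (psh (v 2) (psh p (psh n
        (fun l => v (l + 5))))))))

/-- The matrix of the translation from prime to binary codes. -/
def Tr2 (f : Fm) (v : ℕ → ℕ) : Prop :=
  ∃ k, k < v 0 ∧ ∃ p, p < v 0 ∧ ∃ n, n < v 0 ∧ ∃ w, w < v 0 ∧
    ∃ w', w' < v 0 ∧ ∃ w'', w'' < v 0 ∧ ∃ y, y < v 0 ∧ (SameD w k (v 1) ∧ SameD w' p (v 3) ∧
      SameD w'' n (v 4) ∧ f.holds natS (psh y (psh k (psh (v 2) (psh p (psh n
        (fun l => v (l + 5))))))))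

set_option synthInstance.maxSize 100000

instance d0_Tr1 (f : Fm) : D0 (fun v => Tr1 f v) := by
  unfold Tr1; infer_instance

instance d0_Tr2 (f : Fm) : D0 (fun v => Tr2 f v) := by
  unfold Tr2; infer_instance

/-- Translation from binary to prime codes. -/
theorem ce4_tr1 (hs : Gr s) {F : MM s → MM s → MM s → MM s → Prop} (hF : CE4 (SS hs) F) :
    CE4 (SS hs) (fun K i P N => (i = (SS hs).zero ∨ i = (SS hs).one) ∧
      ∃ k p n, SameM K k ∧ SameM P p ∧ SameM N n ∧ F k i p n) := by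
  obtain ⟨f, c, hf⟩ := hF
  refine ce4_ofP hs (d0_Tr1 f) c fun K i P N => ?_
  constructor
  · rintro ⟨hi, k, p, n, h1, h2, h3, h4⟩
    obtain ⟨y, hy⟩ := (hf k i p n).1 h4
    rw [los5] at hy
    obtain ⟨w, hw⟩ := (sameM_iff hs K k).1 h1
    obtain ⟨w', hw'⟩ := (sameM_iff hs P p).1 h2
    obtain ⟨w'', hw''⟩ := (sameM_iff hs N n).1 h3
    obtain ⟨Y, hY⟩ := ex_bound hs [k, p, n, w, w', w'', y]
    have hi' : ∀ᶠ j in Uf, rep i j = 0 ∨ rep i j = 1 := by
      rw [ev_or]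
      refine hi.imp (fun h => ?_) (fun h => ?_)
      · filter_upwards [rep_inj.1 h, rep_zero hs] with j e1 e2
        rw [e1, e2]
      · filter_upwards [rep_inj.1 h, rep_one hs] with j e1 e2
        rw [e1, e2]
    refine ⟨Y, ?_⟩
    filter_upwards [hy, hw, hw', hw'', hY, hi'] with j e1 e2 e3 e4 e5 e6
    refine ⟨e6, rep k j, e5 k (by simp), rep p j, e5 p (by simp), rep n j, e5 n (by simp), rep w j,
      e5 w (by simp), rep w' j, e5 w' (by simp), rep w'' j, e5 w'' (by simp), rep y j,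
      e5 y (by simp), e2, e3, e4, e1⟩
  · rintro ⟨Y, hY⟩
    have hi : ∀ᶠ j in Uf, rep i j = 0 ∨ rep i j = 1 := hY.mono fun j h => h.1
    obtain ⟨k, hk⟩ := choose_lt Y (hY.mono fun j h => h.2)
    obtain ⟨p, hp⟩ := choose_lt Y hk
    obtain ⟨n, hn⟩ := choose_lt Y hp
    obtain ⟨w, hw⟩ := choose_lt Y hn
    obtain ⟨w', hw'⟩ := choose_lt Y hw
    obtain ⟨w'', hw''⟩ := choose_lt Y hw'
    obtain ⟨y, hy⟩ := choose_lt Y hw''
    refine ⟨?_, k, p, n, (sameM_iff hs K k).2 ⟨w, hy.mono fun j h => h.1⟩,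
      (sameM_iff hs P p).2 ⟨w', hy.mono fun j h => h.2.1⟩,
      (sameM_iff hs N n).2 ⟨w'', hy.mono fun j h => h.2.2.1⟩, (hf k i p n).2 ⟨y, ?_⟩⟩
    · rw [ev_or] at hi
      refine hi.imp (fun h => ext_rep ?_) (fun h => ext_rep ?_)
      · filter_upwards [h, rep_zero hs] with j e1 e2
        rw [e1, e2]
      · filter_upwards [h, rep_one hs] with j e1 e2
        rw [e1, e2]
    · rw [los5]
      exact hy.mono fun j h => h.2.2.2

/-- Translation from prime to binary codes. -/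
theorem ce4_tr2 (hs : Gr s) {F : MM s → MM s → MM s → MM s → Prop} (hF : CE4 (SS hs) F) :
    CE4 (SS hs) (fun k i p n => ∃ K P N, SameM K k ∧ SameM P p ∧ SameM N n ∧ F K i P N) := by
  obtain ⟨f, c, hf⟩ := hF
  refine ce4_ofP hs (d0_Tr2 f) c fun K i P N => ?_
  constructor
  · rintro ⟨k, p, n, h1, h2, h3, h4⟩
    obtain ⟨y, hy⟩ := (hf k i p n).1 h4
    rw [los5] at hy
    obtain ⟨w, hw⟩ := (sameM_iff hs k K).1 h1
    obtain ⟨w', hw'⟩ := (sameM_iff hs p P).1 h2
    obtain ⟨w'', hw''⟩ := (sameM_iff hs n N).1 h3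
    obtain ⟨Y, hY⟩ := ex_bound hs [k, p, n, w, w', w'', y]
    refine ⟨Y, ?_⟩
    filter_upwards [hy, hw, hw', hw'', hY] with j e1 e2 e3 e4 e5
    refine ⟨rep k j, e5 k (by simp), rep p j, e5 p (by simp), rep n j, e5 n (by simp), rep w j,
      e5 w (by simp), rep w' j, e5 w' (by simp), rep w'' j, e5 w'' (by simp), rep y j,
      e5 y (by simp), e2, e3, e4, e1⟩
  · rintro ⟨Y, hY⟩
    obtain ⟨k, hk⟩ := choose_lt Y hY
    obtain ⟨p, hp⟩ := choose_lt Y hk
    obtain ⟨n, hn⟩ := choose_lt Y hp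
    obtain ⟨w, hw⟩ := choose_lt Y hn
    obtain ⟨w', hw'⟩ := choose_lt Y hw
    obtain ⟨w'', hw''⟩ := choose_lt Y hw'
    obtain ⟨y, hy⟩ := choose_lt Y hw''
    refine ⟨k, p, n, (sameM_iff hs k K).2 ⟨w, hy.mono fun j h => h.1⟩,
      (sameM_iff hs p P).2 ⟨w', hy.mono fun j h => h.2.1⟩,
      (sameM_iff hs n N).2 ⟨w'', hy.mono fun j h => h.2.2.1⟩, (hf k i p n).2 ⟨y, ?_⟩⟩
    rw [los5]
    exact hy.mono fun j h => h.2.2.2

/-- The reducibility with prime codes and the one with binary codes coincide. -/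
theorem redP_iff (hs : Gr s) (A B : MM s → Prop) : RedP (SS hs) A B ↔ Red (SS hs) A B := by
  constructor
  · rintro ⟨F, hF, h0, h⟩
    refine ⟨_, ce4_tr2 hs hF, fun k => ?_⟩
    obtain ⟨K, hK, hKk⟩ := ex_primeM hs k
    obtain ⟨h1, h2⟩ := h K hK
    rw [hKk.pos hs] at h1
    rw [hKk.neg hs] at h2
    constructor
    · constructor
      · intro hA
        obtain ⟨P, N, h3, h4, h5⟩ := h1.1 hA
        obtain ⟨_, _, hP, hN⟩ := h0 _ _ _ _ h3
        obtain ⟨p, hp⟩ := ex_binM hs hP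
        obtain ⟨n, hn⟩ := ex_binM hs hN
        exact ⟨p, n, ⟨K, P, N, hKk, hp, hn, h3⟩, (hp.pos hs B).1 h4, (hn.neg hs B).1 h5⟩
      · rintro ⟨p, n, ⟨K', P, N, hK', hP, hN, h3⟩, h4, h5⟩
        rw [← hK'.pos hs]
        exact (h K' (hK'.code hs)).1.2 ⟨P, N, h3, (hP.pos hs B).2 h4, (hN.neg hs B).2 h5⟩
    · constructor
      · intro hA
        obtain ⟨P, N, h3, h4, h5⟩ := h2.1 hA
        obtain ⟨_, _, hP, hN⟩ := h0 _ _ _ _ h3
        obtain ⟨p, hp⟩ := ex_binM hs hP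
        obtain ⟨n, hn⟩ := ex_binM hs hN
        exact ⟨p, n, ⟨K, P, N, hKk, hp, hn, h3⟩, (hp.pos hs B).1 h4, (hn.neg hs B).1 h5⟩
      · rintro ⟨p, n, ⟨K', P, N, hK', hP, hN, h3⟩, h4, h5⟩
        rw [← hK'.neg hs]
        exact (h K' (hK'.code hs)).2.2 ⟨P, N, h3, (hP.pos hs B).2 h4, (hN.neg hs B).2 h5⟩
  · rintro ⟨F, hF, h⟩
    refine ⟨_, ce4_tr1 hs hF, ?_, fun K hK => ?_⟩
    · rintro K i P N ⟨hi, k, p, n, h1, h2, h3, _⟩
      exact ⟨h1.code hs, hi, h2.code hs, h3.code hs⟩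
    · obtain ⟨k, hKk⟩ := ex_binM hs hK
      obtain ⟨h1, h2⟩ := h k
      rw [hKk.pos hs, hKk.neg hs]
      constructor
      · constructor
        · intro hA
          obtain ⟨p, n, h3, h4, h5⟩ := h1.1 hA
          obtain ⟨P, _, hP⟩ := ex_primeM hs p
          obtain ⟨N, _, hN⟩ := ex_primeM hs n
          exact ⟨P, N, ⟨Or.inr rfl, k, p, n, hKk, hP, hN, h3⟩, (hP.pos hs B).2 h4,
            (hN.neg hs B).2 h5⟩
        · rintro ⟨P, N, ⟨_, k', p, n, hk', hP, hN, h3⟩, h4, h5⟩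
          rw [← hKk.pos hs, hk'.pos hs]
          exact (h k').1.2 ⟨p, n, h3, (hP.pos hs B).1 h4, (hN.neg hs B).1 h5⟩
      · constructor
        · intro hA
          obtain ⟨p, n, h3, h4, h5⟩ := h2.1 hA
          obtain ⟨P, _, hP⟩ := ex_primeM hs p
          obtain ⟨N, _, hN⟩ := ex_primeM hs n
          exact ⟨P, N, ⟨Or.inl rfl, k, p, n, hKk, hP, hN, h3⟩, (hP.pos hs B).2 h4,
            (hN.neg hs B).2 h5⟩
        · rintro ⟨P, N, ⟨_, k', p, n, hk', hP, hN, h3⟩, h4, h5⟩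
          rw [← hKk.neg hs, hk'.neg hs]
          exact (h k').2.2 ⟨p, n, h3, (hP.pos hs B).1 h4, (hN.neg hs B).1 h5⟩

/-- Every finite set with a binary code has a prime code, and conversely. -/
theorem code_bridge (hs : Gr s) : (∀ k : MM s, ∃ K, CodeP (SS hs) K ∧ ∀ x,
    (EltP (SS hs) x K ↔ Elt (SS hs) x k)) ∧ ∀ K : MM s, CodeP (SS hs) K → ∃ k, ∀ x,
    (EltP (SS hs) x K ↔ Elt (SS hs) x k) := by
  refine ⟨fun k => ?_, fun K hK => ?_⟩
  · obtain ⟨K, hK, h⟩ := ex_primeM hs k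
    exact ⟨K, hK, fun x => h.elt hs x⟩
  · obtain ⟨k, h⟩ := ex_binM hs hK
    exact ⟨k, fun x => h.elt hs x⟩

end model

end Pool.Agent.BSig
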