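import Pool.Agent.Work.MP_510745_lc.Ultra
import Pool.Agent.Work.MP_510745_lc.Bits

/-!
The model satisfies `PA^-`, the exponentiation axioms, `IDelta_0` and `BSigma_1`.
-/

namespace Pool.Agent.BSig

open Filter

variable {s : ℕ → ℕ → ℕ}

theorem rep_zero (hs : Gr s) : ∀ᶠ k in Uf, rep (SS hs).zero k = 0 := rep_mk _ _
theorem rep_one (hs : Gr s) : ∀ᶠ k in Uf, rep (SS hs).one k = 1 := rep_mk _ _
theorem rep_add (hs : Gr s) (x y : MM s) : ∀ᶠ k in Uf, rep ((SS hs).add x y) k = rep x k + rep y k :=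
  rep_mk _ _
theorem rep_mul (hs : Gr s) (x y : MM s) : ∀ᶠ k in Uf, rep ((SS hs).mul x y) k = rep x k * rep y k :=
  rep_mk _ _
theorem rep_pow (hs : Gr s) (x : MM s) : ∀ᶠ k in Uf, rep ((SS hs).pow x) k = 2 ^ rep x k :=
  rep_mk _ _

theorem isPA (hs : Gr s) : IsPAMinusExp (SS hs) where
  add_assoc := fun x y z => by
    apply ext_rep
    filter_upwards [rep_add hs x y, rep_add hs ((SS hs).add x y) z, rep_add hs y z,
      rep_add hs x ((SS hs).add y z)] with k h1 h2 h3 h4
    rw [h2, h1, h4, h3, add_assoc]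
  add_comm := fun x y => by
    apply ext_rep
    filter_upwards [rep_add hs x y, rep_add hs y x] with k h1 h2
    rw [h1, h2, add_comm]
  add_zero := fun x => by
    apply ext_rep
    filter_upwards [rep_add hs x (SS hs).zero, rep_zero hs] with k h1 h2
    rw [h1, h2, add_zero]
  mul_assoc := fun x y z => by
    apply ext_rep
    filter_upwards [rep_mul hs x y, rep_mul hs ((SS hs).mul x y) z, rep_mul hs y z,
      rep_mul hs x ((SS hs).mul y z)] with k h1 h2 h3 h4
    rw [h2, h1, h4, h3, mul_assoc]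
  mul_comm := fun x y => by
    apply ext_rep
    filter_upwards [rep_mul hs x y, rep_mul hs y x] with k h1 h2
    rw [h1, h2, mul_comm]
  mul_one := fun x => by
    apply ext_rep
    filter_upwards [rep_mul hs x (SS hs).one, rep_one hs] with k h1 h2
    rw [h1, h2, mul_one]
  mul_zero := fun x => by
    apply ext_rep
    filter_upwards [rep_mul hs x (SS hs).zero, rep_zero hs] with k h1 h2
    rw [h1, h2, mul_zero]
  distrib := fun x y z => by
    apply ext_rep
    filter_upwards [rep_add hs y z, rep_mul hs x ((SS hs).add y z), rep_mul hs x y,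
      rep_mul hs x z, rep_add hs ((SS hs).mul x y) ((SS hs).mul x z)] with k h1 h2 h3 h4 h5
    rw [h2, h1, h5, h3, h4, mul_add]
  lt_irrefl := fun x h => by
    obtain ⟨k, hk⟩ := ev_exists h
    exact lt_irrefl _ hk
  lt_trans := fun x y z h1 h2 => by
    filter_upwards [h1, h2] with k h1 h2
    exact lt_trans h1 h2
  lt_total := fun x y => by
    have h : ∀ᶠ k in Uf, rep x k < rep y k ∨ rep x k = rep y k ∨ rep y k < rep x k :=
      Eventually.of_forall fun k => lt_trichotomy _ _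
    rw [ev_or, ev_or] at h
    rcases h with h | h | h
    · exact Or.inl h
    · exact Or.inr (Or.inl (ext_rep h))
    · exact Or.inr (Or.inr h)
  add_lt := fun x y z h => by
    change ∀ᶠ k in Uf, _
    filter_upwards [h, rep_add hs x z, rep_add hs y z] with k h1 h2 h3
    rw [h2, h3]; omega
  mul_lt := fun x y z hz h => by
    change ∀ᶠ k in Uf, _
    filter_upwards [h, rep_mul hs x z, rep_mul hs y z, hz, rep_zero hs] with k h1 h2 h3 h4 h5
    rw [h2, h3]
    rw [h5] at h4
    exact Nat.mul_lt_mul_of_pos_right h1 h4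
  sub := fun x y h => by
    have hB : Bd s (fun k => rep y k - rep x k) :=
      (rep_bd y).mono (Eventually.of_forall fun k => Nat.sub_le _ _)
    refine ⟨mk _ hB, ?_⟩
    apply ext_rep
    filter_upwards [h, rep_mk _ hB, rep_add hs x (mk _ hB)] with k h1 h2 h3
    rw [h3, h2]; omega
  zero_lt_one := by
    change ∀ᶠ k in Uf, _
    filter_upwards [rep_zero hs, rep_one hs] with k h1 h2
    rw [h1, h2]; omega
  discrete := fun x h h' => by
    obtain ⟨k, hk⟩ := ev_exists ((h.and h').and ((rep_zero hs).and (rep_one hs)))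
    obtain ⟨⟨h1, h2⟩, h3, h4⟩ := hk
    omega
  zero_le := fun x h => by
    obtain ⟨k, hk, hk'⟩ := ev_exists (h.and (rep_zero hs))
    omega
  pow_zero := by
    apply ext_rep
    filter_upwards [rep_zero hs, rep_one hs, rep_pow hs (SS hs).zero] with k h1 h2 h3
    rw [h3, h1, h2, pow_zero]
  pow_succ := fun x => by
    apply ext_rep
    filter_upwards [rep_one hs, rep_pow hs x, rep_add hs x (SS hs).one,
      rep_pow hs ((SS hs).add x (SS hs).one), rep_add hs ((SS hs).pow x) ((SS hs).pow x)]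
      with k h1 h2 h3 h4 h5
    rw [h4, h3, h1, h5, h2, pow_succ]; omega

/-- Los with one variable pushed. -/
theorem los1 (hs : Gr s) (f : Fm) (x : MM s) (v : ℕ → MM s) :
    f.holds (SS hs) (psh x v) ↔
      ∀ᶠ k in Uf, f.holds natS (psh (rep x k) (fun i => rep (v i) k)) := by
  rw [los]
  simp only [psh_rep]

theorem los2 (hs : Gr s) (f : Fm) (x y : MM s) (v : ℕ → MM s) :
    f.holds (SS hs) (psh x (psh y v)) ↔
      ∀ᶠ k in Uf, f.holds natS (psh (rep x k) (psh (rep y k) (fun i => rep (v i) k))) := by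
  rw [los]
  simp only [psh_rep]

theorem los3 (hs : Gr s) (f : Fm) (x y z : MM s) (v : ℕ → MM s) :
    f.holds (SS hs) (psh x (psh y (psh z v))) ↔
      ∀ᶠ k in Uf, f.holds natS (psh (rep x k) (psh (rep y k) (psh (rep z k)
        (fun i => rep (v i) k)))) := by
  rw [los]
  simp only [psh_rep]

theorem los5 (hs : Gr s) (f : Fm) (x1 x2 x3 x4 x5 : MM s) (v : ℕ → MM s) :
    f.holds (SS hs) (psh x1 (psh x2 (psh x3 (psh x4 (psh x5 v))))) ↔
      ∀ᶠ k in Uf, f.holds natS (psh (rep x1 k) (psh (rep x2 k) (psh (rep x3 k)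
        (psh (rep x4 k) (psh (rep x5 k) (fun i => rep (v i) k)))))) := by
  rw [los]
  simp only [psh_rep]

/-- Choice of a bounded witness function. -/
theorem choose_fn {P : ℕ → ℕ → Prop} {b : ℕ → ℕ} (hb : Bd s b)
    (h : ∀ᶠ k in Uf, ∃ x, x ≤ b k ∧ P x k) : ∃ x : MM s, ∀ᶠ k in Uf, rep x k ≤ b k ∧ P (rep x k) k := by
  classical
  let F : ℕ → ℕ := fun k => if h : ∃ x, x ≤ b k ∧ P x k then h.choose else 0
  have hF : ∀ᶠ k in Uf, F k ≤ b k ∧ P (F k) k := by
    filter_upwards [h] with k hk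
    simp only [F, hk, dif_pos]
    exact hk.choose_spec
  have hB : Bd s F := hb.mono (hF.mono fun _ h => h.1)
  refine ⟨mk F hB, ?_⟩
  filter_upwards [hF, rep_mk F hB] with k h1 h2
  rw [h2]; exact h1

theorem iDelta0 (hs : Gr s) : IDelta0 (SS hs) := by
  intro f c h0 hstep x
  by_contra hx
  rw [los1, ← ev_not] at hx
  have h0' : ∀ᶠ k in Uf, f.holds natS (psh 0 (fun i => rep (c i) k)) := by
    rw [los1] at h0
    filter_upwards [h0, rep_zero hs] with k h1 h2
    rwa [h2] at h1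
  have h1 : ∀ᶠ k in Uf, ∃ y, y ≤ rep x k ∧ (f.holds natS (psh y (fun i => rep (c i) k)) ∧
      ¬ f.holds natS (psh (y + 1) (fun i => rep (c i) k))) := by
    filter_upwards [hx, h0'] with k hk h0
    by_contra hc
    push Not at hc
    have h2 : ∀ y, y ≤ rep x k → f.holds natS (psh y (fun i => rep (c i) k)) := by
      intro y
      induction y with
      | zero => intro _; exact h0
      | succ y ih => intro hy; exact hc y (by omega) (ih (by omega))
    exact hk (h2 _ le_rfl)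
  obtain ⟨y, hy⟩ := choose_fn (rep_bd x) h1
  have h3 := hstep y (by
    rw [los1]
    exact hy.mono fun _ h => h.2.1)
  rw [los1] at h3
  obtain ⟨k, ⟨h4, h5⟩, h6, h7⟩ :=
    ev_exists ((h3.and hy).and ((rep_add hs y (SS hs).one).and (rep_one hs)))
  rw [h6, h7] at h4
  exact h5.2.2 h4

theorem bSigma1 (hs : Gr s) : BSigma1 (SS hs) := by
  intro f c a h
  by_contra hc
  push Not at hc
  have h1 : ∀ n, ∀ᶠ k in Uf, ∃ x, x ≤ rep a k ∧ (x < rep a k ∧ ∀ y, y < s n k → ∀ z, z < s n k →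
      ¬ f.holds natS (psh z (psh y (psh x (fun i => rep (c i) k))))) := by
    intro n
    have hB : Bd s (s n) := ⟨n, Eventually.of_forall fun _ => le_rfl⟩
    obtain ⟨x, hxa, hx⟩ := hc (mk (s n) hB)
    by_contra h2
    rw [← ev_not] at h2
    have h3 : ∀ᶠ k in Uf, ∃ y, y ≤ s n k ∧ (y < s n k ∧ ∃ z, z < s n k ∧
        f.holds natS (psh z (psh y (psh (rep x k) (fun i => rep (c i) k))))) := by
      filter_upwards [h2, hxa] with k hk hxk
      push Not at hk
      obtain ⟨y, hy, z, hz, h4⟩ := hk (rep x k) hxk.le hxk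
      exact ⟨y, hy.le, hy, z, hz, h4⟩
    obtain ⟨y, hy⟩ := choose_fn hB h3
    have h5 : ∀ᶠ k in Uf, ∃ z, z ≤ s n k ∧
        f.holds natS (psh z (psh (rep y k) (psh (rep x k) (fun i => rep (c i) k)))) := by
      filter_upwards [hy] with k hk
      obtain ⟨-, -, z, hz, h6⟩ := hk
      exact ⟨z, hz.le, h6⟩
    obtain ⟨z, hz⟩ := choose_fn hB h5
    refine hx y ?_ z ?_
    · change ∀ᶠ k in Uf, _
      filter_upwards [hy, rep_mk (s n) hB] with k hk h6
      rw [h6]; exact hk.2.1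
    · rw [los3]
      exact hz.mono fun _ h => h.2
  obtain ⟨ν, hν1, hν2, hν3⟩ := overspill (fun n k => ∃ x, x ≤ rep a k ∧ (x < rep a k ∧
    ∀ y, y < s n k → ∀ z, z < s n k →
      ¬ f.holds natS (psh z (psh y (psh x (fun i => rep (c i) k)))))) h1
  obtain ⟨x, hx⟩ := choose_fn (rep_bd a) (hν3.mono fun k hk => hk (ν k) le_rfl)
  obtain ⟨y, z, hyz⟩ := h x (hx.mono fun _ h => h.2.1)
  rw [los3] at hyz
  obtain ⟨n, hn⟩ := (rep_bd y)
  obtain ⟨m, hm⟩ := (rep_bd z)
  have h7 := hs.exp n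
  have h8 := hs.exp m
  obtain ⟨k, hk⟩ := ev_exists ((((hyz.and hx).and (hn.and hm)).and (h7.and h8)).and
    ((hν1 (n + 1)).and (hν1 (m + 1))))
  obtain ⟨⟨⟨⟨a1, a2⟩, a3, a4⟩, a5, a6⟩, a7, a8⟩ := hk
  have b1 : s n k < 2 ^ s n k := Nat.lt_two_pow_self
  have b2 : s m k < 2 ^ s m k := Nat.lt_two_pow_self
  have b3 := hs.le a7 k
  have b4 := hs.le a8 k
  exact a2.2.2 (rep y k) (by omega) (rep z k) (by omega) a1

/-- Elements of coded sets. -/
theorem elt_iff (hs : Gr s) (x a : MM s) : Elt (SS hs) x a ↔ ∀ᶠ k in Uf, Bt (rep a k) (rep x k) := by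
  constructor
  · rintro ⟨q, r, hr, ha⟩
    have hr' : ∀ᶠ k in Uf, rep r k < rep ((SS hs).pow x) k := hr
    have h1 := rep_inj.1 ha
    filter_upwards [hr', h1, rep_pow hs x, rep_add hs q q, rep_one hs,
      rep_add hs ((SS hs).add q q) (SS hs).one,
      rep_mul hs ((SS hs).add ((SS hs).add q q) (SS hs).one) ((SS hs).pow x),
      rep_add hs ((SS hs).mul ((SS hs).add ((SS hs).add q q) (SS hs).one) ((SS hs).pow x)) r]
      with k h1 h2 h3 h4 h5 h6 h7 h8
    rw [h8, h7, h6, h5, h4, h3] at h2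
    rw [h3] at h1
    refine ⟨rep q k, ?_, rep r k, h1, h2⟩
    rw [h2]
    have : 1 ≤ 2 ^ rep x k := Nat.one_le_two_pow
    nlinarith
  · intro h
    have h1 : ∀ᶠ k in Uf, ∃ q, q ≤ rep a k ∧ ∃ r, r < 2 ^ rep x k ∧
        rep a k = (q + q + 1) * 2 ^ rep x k + r := by
      filter_upwards [h] with k hk
      obtain ⟨q, hq, r, hr, h2⟩ := hk
      exact ⟨q, by omega, r, hr, h2⟩
    obtain ⟨q, hq⟩ := choose_fn (rep_bd a) h1
    have h2 : ∀ᶠ k in Uf, ∃ r, r ≤ rep a k ∧ (r < 2 ^ rep x k ∧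
        rep a k = (rep q k + rep q k + 1) * 2 ^ rep x k + r) := by
      filter_upwards [hq] with k hk
      obtain ⟨-, r, hr, h3⟩ := hk
      exact ⟨r, by omega, hr, h3⟩
    obtain ⟨r, hr⟩ := choose_fn (rep_bd a) h2
    refine ⟨q, r, ?_, ?_⟩
    · change ∀ᶠ k in Uf, _
      filter_upwards [hr, rep_pow hs x] with k h3 h4
      rw [h4]; exact h3.2.1
    · apply ext_rep
      filter_upwards [hr, rep_pow hs x, rep_add hs q q, rep_one hs,
        rep_add hs ((SS hs).add q q) (SS hs).one,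
        rep_mul hs ((SS hs).add ((SS hs).add q q) (SS hs).one) ((SS hs).pow x),
        rep_add hs ((SS hs).mul ((SS hs).add ((SS hs).add q q) (SS hs).one) ((SS hs).pow x)) r]
        with k h2 h3 h4 h5 h6 h7 h8
      rw [h8, h7, h6, h5, h4, h3]
      exact h2.2.2

end Pool.Agent.BSig
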