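import Pool.Agent.Work.MP_510745_lc.Univ
import Pool.Agent.Work.MP_510745_lc.Bits

/-!
Correctness of the bounded truth definition.
-/

namespace Pool.Agent.BSig

/-- Codes of terms. -/
def codeT : Tm → ℕ
  | .var i => pr 0 i
  | .zero => pr 1 0
  | .one => pr 2 0
  | .add s t => pr 3 (pr (codeT s) (codeT t))
  | .mul s t => pr 4 (pr (codeT s) (codeT t))
  | .pow s => pr 5 (codeT s)

/-- Codes of formulas. -/
def codeF : Fm → ℕ
  | .eq s t => pr 6 (pr (codeT s) (codeT t))
  | .lt s t => pr 7 (pr (codeT s) (codeT t))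
  | .neg f => pr 8 (codeF f)
  | .and f g => pr 9 (pr (codeF f) (codeF g))
  | .all t f => pr 10 (pr (codeT t) (codeF f))

/-- A term bounding the values of all subterms. -/
def szT : Tm → Tm
  | .var i => .var i
  | .zero => .zero
  | .one => .one
  | .add s t => .add (szT s) (szT t)
  | .mul s t => .add (.add (szT s) (szT t)) (.mul (szT s) (szT t))
  | .pow s => .pow (szT s)

/-- The substitution `x₀ := t`, shift the others down. -/
def ins (t : Tm) : ℕ → Tm
  | 0 => t
  | (i + 1) => .var i

/-- A term bounding the values of all terms that occur in the evaluation. -/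
def szF : Fm → Tm
  | .eq s t => .add (szT s) (szT t)
  | .lt s t => .add (szT s) (szT t)
  | .neg f => szF f
  | .and f g => .add (szF f) (szF g)
  | .all t f => .add (szT t) ((szF f).subst (ins (szT t)))

/-- All variables have index below `m`. -/
def Tm.vlt (m : ℕ) : Tm → Prop
  | .var i => i < m
  | .zero => True
  | .one => True
  | .add s t => s.vlt m ∧ t.vlt m
  | .mul s t => s.vlt m ∧ t.vlt m
  | .pow s => s.vlt m

/-- All variables have index below `m`. -/
def Fm.vlt (m : ℕ) : Fm → Prop
  | .eq s t => s.vlt m ∧ t.vlt m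
  | .lt s t => s.vlt m ∧ t.vlt m
  | .neg f => f.vlt m
  | .and f g => f.vlt m ∧ g.vlt m
  | .all t f => t.vlt m ∧ f.vlt m

theorem Tm.vlt_mono {m m' : ℕ} (h : m ≤ m') : ∀ t : Tm, t.vlt m → t.vlt m'
  | .var _, hi => lt_of_lt_of_le hi h
  | .zero, _ => trivial
  | .one, _ => trivial
  | .add s t, hi => ⟨Tm.vlt_mono h s hi.1, Tm.vlt_mono h t hi.2⟩
  | .mul s t, hi => ⟨Tm.vlt_mono h s hi.1, Tm.vlt_mono h t hi.2⟩
  | .pow s, hi => Tm.vlt_mono h s hi

theorem Fm.vlt_mono {m m' : ℕ} (h : m ≤ m') : ∀ f : Fm, f.vlt m → f.vlt m'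
  | .eq s t, hi => ⟨Tm.vlt_mono h s hi.1, Tm.vlt_mono h t hi.2⟩
  | .lt s t, hi => ⟨Tm.vlt_mono h s hi.1, Tm.vlt_mono h t hi.2⟩
  | .neg f, hi => Fm.vlt_mono h f hi
  | .and f g, hi => ⟨Fm.vlt_mono h f hi.1, Fm.vlt_mono h g hi.2⟩
  | .all t f, hi => ⟨Tm.vlt_mono h t hi.1, Fm.vlt_mono h f hi.2⟩

theorem Tm.ex_vlt : ∀ t : Tm, ∃ m, t.vlt m
  | .var i => ⟨i + 1, Nat.lt_succ_self i⟩
  | .zero => ⟨0, trivial⟩
  | .one => ⟨0, trivial⟩
  | .add s t => by
    obtain ⟨m, hm⟩ := Tm.ex_vlt s
    obtain ⟨n, hn⟩ := Tm.ex_vlt t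
    exact ⟨max m n, Tm.vlt_mono (le_max_left _ _) s hm, Tm.vlt_mono (le_max_right _ _) t hn⟩
  | .mul s t => by
    obtain ⟨m, hm⟩ := Tm.ex_vlt s
    obtain ⟨n, hn⟩ := Tm.ex_vlt t
    exact ⟨max m n, Tm.vlt_mono (le_max_left _ _) s hm, Tm.vlt_mono (le_max_right _ _) t hn⟩
  | .pow s => Tm.ex_vlt s

theorem Fm.ex_vlt : ∀ f : Fm, ∃ m, f.vlt m
  | .eq s t => by
    obtain ⟨m, hm⟩ := Tm.ex_vlt s
    obtain ⟨n, hn⟩ := Tm.ex_vlt t
    exact ⟨max m n, Tm.vlt_mono (le_max_left _ _) s hm, Tm.vlt_mono (le_max_right _ _) t hn⟩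
  | .lt s t => by
    obtain ⟨m, hm⟩ := Tm.ex_vlt s
    obtain ⟨n, hn⟩ := Tm.ex_vlt t
    exact ⟨max m n, Tm.vlt_mono (le_max_left _ _) s hm, Tm.vlt_mono (le_max_right _ _) t hn⟩
  | .neg f => Fm.ex_vlt f
  | .and f g => by
    obtain ⟨m, hm⟩ := Fm.ex_vlt f
    obtain ⟨n, hn⟩ := Fm.ex_vlt g
    exact ⟨max m n, Fm.vlt_mono (le_max_left _ _) f hm, Fm.vlt_mono (le_max_right _ _) g hn⟩
  | .all t f => by
    obtain ⟨m, hm⟩ := Tm.ex_vlt t
    obtain ⟨n, hn⟩ := Fm.ex_vlt f
    exact ⟨max m n, Tm.vlt_mono (le_max_left _ _) t hm, Fm.vlt_mono (le_max_right _ _) f hn⟩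

theorem Tm.val_mono {v w : ℕ → ℕ} (h : ∀ i, v i ≤ w i) : ∀ t : Tm,
    t.val natS v ≤ t.val natS w
  | .var i => h i
  | .zero => le_rfl
  | .one => le_rfl
  | .add s t => Nat.add_le_add (Tm.val_mono h s) (Tm.val_mono h t)
  | .mul s t => Nat.mul_le_mul (Tm.val_mono h s) (Tm.val_mono h t)
  | .pow s => Nat.pow_le_pow_right (by norm_num) (Tm.val_mono h s)

theorem le_szT (v : ℕ → ℕ) : ∀ t : Tm, t.val natS v ≤ (szT t).val natS v
  | .var i => le_rfl
  | .zero => le_rfl
  | .one => le_rfl
  | .add s t => Nat.add_le_add (le_szT v s) (le_szT v t)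
  | .mul s t => le_trans (Nat.mul_le_mul (le_szT v s) (le_szT v t)) (Nat.le_add_left _ _)
  | .pow s => Nat.pow_le_pow_right (by norm_num) (le_szT v s)

/-- `α` codes the first `m` entries of `v`, in the domain `D`. -/
def Cod (D m α : ℕ) (v : ℕ → ℕ) : Prop :=
  ∀ i, i < m → ∀ x, x < D → (Bt α (pr i x) ↔ x = v i)

theorem Cod.push {D m α y β : ℕ} {v : ℕ → ℕ} (h : Cod D m α v) (hp : Push D m y α β) :
    Cod D m β (psh y v) := by
  intro i hi x hx
  cases i with
  | zero => exact (hp x hx).1
  | succ i => rw [(hp x hx).2 i (by omega)]; exact h i (by omega) x hx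

theorem ex_push (D m y α : ℕ) : ∃ β, β < aB m D ∧ Push D m y α β := by
  obtain ⟨β, hβ, h⟩ := mk_code' ((m + D) * (m + D) + m + 1)
    (fun z => (∃ x, x < D ∧ z = pr 0 x ∧ x = y) ∨
      ∃ x i, x < D ∧ i < m ∧ z = pr (i + 1) x ∧ Bt α (pr i x)) (by
    rintro z (⟨x, hx, rfl, -⟩ | ⟨x, i, hx, hi, rfl, -⟩)
    · have h1 : pr 0 x ≤ (m + D) * (m + D) + m := by
        unfold pr
        have : (0 + x) * (0 + x) ≤ (m + D) * (m + D) := Nat.mul_le_mul (by omega) (by omega)
        omega
      omega
    · have h1 : pr (i + 1) x ≤ (m + D) * (m + D) + m := by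
        unfold pr
        have : (i + 1 + x) * (i + 1 + x) ≤ (m + D) * (m + D) :=
          Nat.mul_le_mul (by omega) (by omega)
        omega
      omega)
  refine ⟨β, hβ, fun x hx => ⟨?_, fun i hi => ?_⟩⟩
  · rw [h]
    constructor
    · rintro (⟨x', hx', h1, h2⟩ | ⟨x', i, _, _, h1, _⟩)
      · rw [(pr_inj h1).2]; exact h2
      · have := (pr_inj h1).1; omega
    · intro h1; exact Or.inl ⟨x, hx, rfl, h1⟩
  · rw [h]
    constructor
    · rintro (⟨x', hx', h1, h2⟩ | ⟨x', i', _, _, h1, h2⟩)
      · have := (pr_inj h1).1; omega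
      · obtain ⟨h3, rfl⟩ := pr_inj h1
        have : i = i' := by omega
        rw [this]; exact h2
    · intro h1; exact Or.inr ⟨x, i, hx, hi, rfl, h1⟩

theorem step_congr {D m w w' g α x : ℕ} (h : ∀ s, s < g → ∀ u, Bt w' (pr s u) ↔ Bt w (pr s u)) :
    Step D m w' g α x ↔ Step D m w g α x := by
  unfold Step
  refine or_congr Iff.rfl (or_congr Iff.rfl (or_congr Iff.rfl (or_congr ?_ (or_congr ?_
    (or_congr ?_ (or_congr ?_ (or_congr ?_ (or_congr ?_ (or_congr ?_ ?_)))))))))
  · refine exists_congr fun s => and_congr_right fun hs => exists_congr fun t =>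
      and_congr_right fun ht => and_congr_right fun hg => exists_congr fun y =>
      and_congr_right fun _ => exists_congr fun z => and_congr_right fun _ => ?_
    have := sub_lt_pr (c := 3) (s := s) (t := t) (by norm_num)
    rw [← hg] at this
    rw [h s this.1, h t this.2]
  · refine exists_congr fun s => and_congr_right fun hs => exists_congr fun t =>
      and_congr_right fun ht => and_congr_right fun hg => exists_congr fun y =>
      and_congr_right fun _ => exists_congr fun z => and_congr_right fun _ => ?_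
    have := sub_lt_pr (c := 4) (s := s) (t := t) (by norm_num)
    rw [← hg] at this
    rw [h s this.1, h t this.2]
  · refine exists_congr fun s => and_congr_right fun hs => and_congr_right fun hg =>
      exists_congr fun y => and_congr_right fun _ => ?_
    have := lt_pr_of_pos (a := 5) s (by norm_num)
    rw [← hg] at this
    rw [h s this]
  · refine exists_congr fun s => and_congr_right fun hs => exists_congr fun t =>
      and_congr_right fun ht => and_congr_right fun hg => and_congr_right fun _ =>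
      exists_congr fun y => and_congr_right fun _ => ?_
    have := sub_lt_pr (c := 6) (s := s) (t := t) (by norm_num)
    rw [← hg] at this
    rw [h s this.1, h t this.2]
  · refine exists_congr fun s => and_congr_right fun hs => exists_congr fun t =>
      and_congr_right fun ht => and_congr_right fun hg => and_congr_right fun _ =>
      exists_congr fun y =>
      and_congr_right fun _ => exists_congr fun z => and_congr_right fun _ => ?_
    have := sub_lt_pr (c := 7) (s := s) (t := t) (by norm_num)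
    rw [← hg] at this
    rw [h s this.1, h t this.2]
  · refine exists_congr fun s => and_congr_right fun hs => and_congr_right fun hg => ?_
    have := lt_pr_of_pos (a := 8) s (by norm_num)
    rw [← hg] at this
    rw [h s this]
  · refine exists_congr fun s => and_congr_right fun hs => exists_congr fun t =>
      and_congr_right fun ht => and_congr_right fun hg => ?_
    have := sub_lt_pr (c := 9) (s := s) (t := t) (by norm_num)
    rw [← hg] at this
    rw [h s this.1, h t this.2]
  · refine exists_congr fun s => and_congr_right fun hs => exists_congr fun t =>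
      and_congr_right fun ht => and_congr_right fun hg => and_congr_right fun _ => ?_
    have := sub_lt_pr (c := 10) (s := s) (t := t) (by norm_num)
    rw [← hg] at this
    refine forall_congr' fun z => imp_congr_right fun _ => ?_
    rw [h s this.1]
    refine imp_congr_right fun _ => forall_congr' fun y => imp_congr_right fun _ =>
      forall_congr' fun β => imp_congr_right fun _ => imp_congr_right fun _ => ?_
    rw [h t this.2]

theorem ex_tab (D m G : ℕ) : ∃ w, w < wB D m G ∧ Tab D m G w := by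
  have key : ∀ G, ∃ w, (∀ z, Bt w z → ∃ g α x, g < G ∧ α < aB m D ∧ x < D ∧ z = pr g (pr α x)) ∧
      Tab D m G w := by
    intro G
    induction G with
    | zero =>
      refine ⟨0, fun z hz => absurd hz.lt (by omega), fun g hg => absurd hg (by omega)⟩
    | succ G ih =>
      obtain ⟨w, hw, hT⟩ := ih
      obtain ⟨w', hw', h⟩ := mk_code' (w + pr G (pr (aB m D) D) + 1)
        (fun z => Bt w z ∨ ∃ α x, α < aB m D ∧ x < D ∧ z = pr G (pr α x) ∧ Step D m w G α x) (by
        rintro z (hz | ⟨α, x, hα, hx, rfl, -⟩)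
        · have := hz.lt; omega
        · have := pr_mono (le_refl G) (pr_mono hα.le hx.le); omega)
      have hlow : ∀ s, s < G → ∀ u, Bt w' (pr s u) ↔ Bt w (pr s u) := by
        intro s hs u
        rw [h]
        constructor
        · rintro (h1 | ⟨α, x, _, _, h2, _⟩)
          · exact h1
          · have := (pr_inj h2).1; omega
        · exact Or.inl
      refine ⟨w', ?_, ?_⟩
      · intro z hz
        rcases (h z).1 hz with h1 | ⟨α, x, hα, hx, h2, _⟩
        · obtain ⟨g, α, x, hg, hα, hx, hz⟩ := hw z h1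
          exact ⟨g, α, x, by omega, hα, hx, hz⟩
        · exact ⟨G, α, x, by omega, hα, hx, h2⟩
      · intro g hg α hα x hx
        rw [step_congr (w := w) (fun s hs => hlow s (by omega))]
        by_cases hgG : g < G
        · rw [hlow g hgG, hT g hgG α hα x hx]
        · have : g = G := by omega
          subst this
          rw [h]
          constructor
          · rintro (h1 | ⟨α', x', _, _, h2, h3⟩)
            · obtain ⟨g', α', x', hg', _, _, h2⟩ := hw _ h1
              have := (pr_inj h2).1; omega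
            · obtain ⟨h4, h5⟩ := pr_inj (pr_inj h2).2
              rw [h4, h5]; exact h3
          · intro h1; exact Or.inr ⟨α, x, hα, hx, rfl, h1⟩
  obtain ⟨w, hw, hT⟩ := key G
  obtain ⟨w', hw', h⟩ := mk_code' (pr G (pr (aB m D) D) + 1) (fun z => Bt w z) (by
    intro z hz
    obtain ⟨g, α, x, hg, hα, hx, rfl⟩ := hw z hz
    have := pr_mono hg.le (pr_mono hα.le hx.le); omega)
  have : w' = w := bt_ext h
  exact ⟨w, this ▸ hw', hT⟩

end Pool.Agent.BSig
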