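import Pool.Agent.Work.MP_510745_lc.Defs

/-!
An initial segment of the ultrapower of the naturals, cut off by a sequence `s n`.
-/

namespace Pool.Agent.BSig

open Filter

/-- The ultrafilter. -/
noncomputable abbrev Uf : Filter ℕ := (hyperfilter ℕ : Filter ℕ)

theorem ev_ge (n : ℕ) : ∀ᶠ k in Uf, n ≤ k :=
  Nat.hyperfilter_le_atTop (eventually_ge_atTop n)

theorem ev_or {P Q : ℕ → Prop} : (∀ᶠ k in Uf, P k ∨ Q k) ↔ (∀ᶠ k in Uf, P k) ∨ ∀ᶠ k in Uf, Q k :=
  Ultrafilter.eventually_or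

theorem ev_not {P : ℕ → Prop} : (∀ᶠ k in Uf, ¬ P k) ↔ ¬ ∀ᶠ k in Uf, P k :=
  Ultrafilter.eventually_not

theorem ev_and {P Q : ℕ → Prop} :
    (∀ᶠ k in Uf, P k ∧ Q k) ↔ (∀ᶠ k in Uf, P k) ∧ ∀ᶠ k in Uf, Q k :=
  eventually_and

theorem ev_exists {P : ℕ → Prop} (h : ∀ᶠ k in Uf, P k) : ∃ k, P k := h.exists

theorem overspill (P : ℕ → ℕ → Prop) (h : ∀ n, ∀ᶠ k in Uf, P n k) :
    ∃ ν : ℕ → ℕ, (∀ n, ∀ᶠ k in Uf, n ≤ ν k) ∧ (∀ k, ν k ≤ k) ∧
      ∀ᶠ k in Uf, ∀ m, m ≤ ν k → P m k := by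
  classical
  refine ⟨fun k => Nat.findGreatest (fun n => ∀ m, m ≤ n → P m k) k, ?_, ?_, ?_⟩
  · intro n
    have h1 : ∀ᶠ k in Uf, ∀ m, m ≤ n → P m k := by
      have : ∀ᶠ k in Uf, ∀ m ∈ Finset.range (n + 1), P m k :=
        (Finset.eventually_all _).2 fun m _ => h m
      filter_upwards [this] with k hk m hm
      exact hk m (Finset.mem_range.2 (by omega))
    filter_upwards [h1, ev_ge n] with k hk hkn
    exact Nat.le_findGreatest hkn hk
  · intro k; exact Nat.findGreatest_le k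
  · filter_upwards [h 0] with k hk
    exact Nat.findGreatest_spec (P := fun n => ∀ m, m ≤ n → P m k) (Nat.zero_le k)
      (fun m hm => by rwa [Nat.le_zero.1 hm])

theorem diag (ν : ℕ → ℕ → ℕ) (h : ∀ i n, ∀ᶠ k in Uf, n ≤ ν i k) :
    ∃ μ : ℕ → ℕ, (∀ n, ∀ᶠ k in Uf, n ≤ μ k) ∧ (∀ k, μ k ≤ k) ∧ ∀ i, ∀ᶠ k in Uf, μ k ≤ ν i k := by
  obtain ⟨μ, h1, h2, h3⟩ := overspill (fun n k => ∀ i, i ≤ n → n ≤ ν i k) (fun n => by
    have : ∀ᶠ k in Uf, ∀ i ∈ Finset.range (n + 1), n ≤ ν i k :=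
      (Finset.eventually_all _).2 fun i _ => h i n
    filter_upwards [this] with k hk i hi
    exact hk i (Finset.mem_range.2 (by omega)))
  refine ⟨μ, h1, h2, fun i => ?_⟩
  filter_upwards [h1 i, h3] with k hk hk3
  exact hk3 (μ k) le_rfl i hk

/-- Growth conditions on the sequence. -/
structure Gr (s : ℕ → ℕ → ℕ) : Prop where
  mono : ∀ n k, s n k ≤ s (n + 1) k
  exp : ∀ n, ∀ᶠ k in Uf, 2 ^ s n k ≤ s (n + 1) k

theorem Gr.le {s : ℕ → ℕ → ℕ} (h : Gr s) {m n : ℕ} (hmn : m ≤ n) (k : ℕ) : s m k ≤ s n k := by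
  induction hmn with
  | refl => exact le_rfl
  | step _ ih => exact le_trans ih (h.mono _ _)

/-- Bounded functions. -/
def Bd (s : ℕ → ℕ → ℕ) (f : ℕ → ℕ) : Prop := ∃ n, ∀ᶠ k in Uf, f k ≤ s n k

/-- Equality modulo the ultrafilter. -/
def Ms (s : ℕ → ℕ → ℕ) : Setoid {f : ℕ → ℕ // Bd s f} where
  r f g := ∀ᶠ k in Uf, f.1 k = g.1 k
  iseqv := ⟨fun _ => Eventually.of_forall fun _ => rfl, fun h => h.mono fun _ h => h.symm,
    fun h h' => (h.and h').mono fun _ h => h.1.trans h.2⟩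

/-- The model. -/
def MM (s : ℕ → ℕ → ℕ) : Type := Quotient (Ms s)

variable {s : ℕ → ℕ → ℕ}

/-- A representative. -/
noncomputable def rep (x : MM s) : ℕ → ℕ := (Quotient.out x).1

theorem rep_bd (x : MM s) : Bd s (rep x) := (Quotient.out x).2

/-- The class of a bounded function. -/
def mk (f : ℕ → ℕ) (h : Bd s f) : MM s := Quotient.mk (Ms s) ⟨f, h⟩

theorem rep_mk (f : ℕ → ℕ) (h : Bd s f) : ∀ᶠ k in Uf, rep (mk f h) k = f k :=
  Quotient.exact (s := Ms s) (Quotient.out_eq (mk f h))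

theorem mk_rep (x : MM s) : mk (rep x) (rep_bd x) = x := Quotient.out_eq x

theorem ext_rep {x y : MM s} (h : ∀ᶠ k in Uf, rep x k = rep y k) : x = y := by
  rw [← mk_rep x, ← mk_rep y]
  exact Quotient.sound (s := Ms s) h

theorem mk_eq {x : MM s} {f : ℕ → ℕ} (h : Bd s f) (h' : ∀ᶠ k in Uf, rep x k = f k) :
    mk f h = x := by
  apply ext_rep
  filter_upwards [rep_mk f h, h'] with k h1 h2
  rw [h1, h2]

theorem rep_inj {x y : MM s} : x = y ↔ ∀ᶠ k in Uf, rep x k = rep y k :=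
  ⟨fun h => h ▸ Eventually.of_forall fun _ => rfl, ext_rep⟩

theorem Bd.mono {f g : ℕ → ℕ} (hg : Bd s g) (h : ∀ᶠ k in Uf, f k ≤ g k) : Bd s f := by
  obtain ⟨n, hn⟩ := hg
  exact ⟨n, (h.and hn).mono fun _ h => le_trans h.1 h.2⟩

theorem Bd.max (hs : Gr s) {f g : ℕ → ℕ} (hf : Bd s f) (hg : Bd s g) :
    Bd s (fun k => Nat.max (f k) (g k)) := by
  obtain ⟨n, hn⟩ := hf
  obtain ⟨m, hm⟩ := hg
  refine ⟨Nat.max n m, ?_⟩
  filter_upwards [hn, hm] with k h1 h2
  exact Nat.max_le.2 ⟨le_trans h1 (hs.le (Nat.le_max_left _ _) k),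
    le_trans h2 (hs.le (Nat.le_max_right _ _) k)⟩

theorem Bd.pow (hs : Gr s) {f : ℕ → ℕ} (hf : Bd s f) : Bd s (fun k => 2 ^ f k) := by
  obtain ⟨n, hn⟩ := hf
  refine ⟨n + 1, ?_⟩
  filter_upwards [hn, hs.exp n] with k h1 h2
  exact le_trans (Nat.pow_le_pow_right (by norm_num) h1) h2

theorem Bd.add (hs : Gr s) {f g : ℕ → ℕ} (hf : Bd s f) (hg : Bd s g) :
    Bd s (fun k => f k + g k) := by
  refine ((hf.max hs hg).pow hs).pow hs |>.mono (Eventually.of_forall fun k => ?_)
  have h1 : f k ≤ Nat.max (f k) (g k) := Nat.le_max_left _ _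
  have h2 : g k ≤ Nat.max (f k) (g k) := Nat.le_max_right _ _
  have h3 : ∀ a : ℕ, a + a ≤ 2 ^ 2 ^ a := by
    intro a
    have h4 : a + 1 ≤ 2 ^ a := Nat.lt_two_pow_self
    have h5 : 2 ^ a + 1 ≤ 2 ^ 2 ^ a := Nat.lt_two_pow_self
    have h6 : 2 ^ (a + 1) ≤ 2 ^ 2 ^ a := Nat.pow_le_pow_right (by norm_num) h4
    rw [pow_succ] at h6
    omega
  have := h3 (Nat.max (f k) (g k))
  change f k + g k ≤ 2 ^ 2 ^ Nat.max (f k) (g k)
  omega

theorem Bd.mul (hs : Gr s) {f g : ℕ → ℕ} (hf : Bd s f) (hg : Bd s g) :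
    Bd s (fun k => f k * g k) := by
  refine ((hf.add hs hg).pow hs).mono (Eventually.of_forall fun k => ?_)
  change f k * g k ≤ 2 ^ (f k + g k)
  rw [pow_add]
  exact Nat.mul_le_mul Nat.lt_two_pow_self.le Nat.lt_two_pow_self.le

theorem Bd.const (hs : Gr s) (c : ℕ) : Bd s (fun _ => c) := by
  induction c with
  | zero => exact ⟨0, Eventually.of_forall fun k => Nat.zero_le _⟩
  | succ c ih =>
    exact (ih.pow hs).mono (Eventually.of_forall fun k => Nat.lt_two_pow_self)

/-- The structure of arithmetic on the model. -/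
noncomputable def SS (hs : Gr s) : AStr (MM s) where
  zero := mk (fun _ => 0) (Bd.const hs 0)
  one := mk (fun _ => 1) (Bd.const hs 1)
  add x y := mk (fun k => rep x k + rep y k) ((rep_bd x).add hs (rep_bd y))
  mul x y := mk (fun k => rep x k * rep y k) ((rep_bd x).mul hs (rep_bd y))
  pow x := mk (fun k => 2 ^ rep x k) ((rep_bd x).pow hs)
  lt x y := ∀ᶠ k in Uf, rep x k < rep y k

theorem rep_val (hs : Gr s) (t : Tm) (v : ℕ → MM s) :
    ∀ᶠ k in Uf, rep (t.val (SS hs) v) k = t.val natS (fun i => rep (v i) k) := by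
  induction t with
  | var i => exact Eventually.of_forall fun _ => rfl
  | zero => exact rep_mk _ _
  | one => exact rep_mk _ _
  | add a b ha hb =>
    filter_upwards [ha, hb, rep_mk (s := s) (fun k => rep (a.val (SS hs) v) k +
      rep (b.val (SS hs) v) k) ((rep_bd _).add hs (rep_bd _))] with k h1 h2 h3
    simp only [Tm.val, natS, SS] at h1 h2 h3 ⊢
    rw [h3, h1, h2]
  | mul a b ha hb =>
    filter_upwards [ha, hb, rep_mk (s := s) (fun k => rep (a.val (SS hs) v) k *
      rep (b.val (SS hs) v) k) ((rep_bd _).mul hs (rep_bd _))] with k h1 h2 h3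
    simp only [Tm.val, natS, SS] at h1 h2 h3 ⊢
    rw [h3, h1, h2]
  | pow a ha =>
    filter_upwards [ha, rep_mk (s := s) (fun k => 2 ^ rep (a.val (SS hs) v) k)
      ((rep_bd _).pow hs)] with k h1 h3
    simp only [Tm.val, natS, SS] at h1 h3 ⊢
    rw [h3, h1]

theorem psh_rep (x : MM s) (v : ℕ → MM s) (k : ℕ) :
    (fun i => rep (psh x v i) k) = psh (rep x k) (fun i => rep (v i) k) := by
  funext i
  cases i <;> rfl

/-- The theorem of Los for bounded formulas, in the initial segment. -/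
theorem los (hs : Gr s) (f : Fm) : ∀ v : ℕ → MM s,
    f.holds (SS hs) v ↔ ∀ᶠ k in Uf, f.holds natS (fun i => rep (v i) k) := by
  induction f with
  | eq a b =>
    intro v
    simp only [Fm.holds]
    rw [rep_inj]
    constructor
    · intro h
      filter_upwards [h, rep_val hs a v, rep_val hs b v] with k h1 h2 h3
      rw [← h2, ← h3, h1]
    · intro h
      filter_upwards [h, rep_val hs a v, rep_val hs b v] with k h1 h2 h3
      rw [h2, h3, h1]
  | lt a b =>
    intro v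
    simp only [Fm.holds]
    constructor
    · intro h
      filter_upwards [h, rep_val hs a v, rep_val hs b v] with k h1 h2 h3
      simp only [natS] at h2 h3 ⊢
      rw [← h2, ← h3]; exact h1
    · intro h
      change ∀ᶠ k in Uf, rep _ k < rep _ k
      filter_upwards [h, rep_val hs a v, rep_val hs b v] with k h1 h2 h3
      simp only [natS] at h1 h2 h3
      rw [h2, h3]; exact h1
  | neg f ih =>
    intro v
    simp only [Fm.holds]
    rw [ih, ev_not]
  | and f g ihf ihg =>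
    intro v
    simp only [Fm.holds]
    rw [ihf, ihg, ev_and]
  | all t f ih =>
    intro v
    simp only [Fm.holds]
    constructor
    · intro h
      by_contra hc
      rw [← ev_not] at hc
      have h1 : ∀ᶠ k in Uf, ∃ x, x < t.val natS (fun i => rep (v i) k) ∧
          ¬ f.holds natS (psh x (fun i => rep (v i) k)) := by
        filter_upwards [hc] with k hk
        simp only [natS, not_forall] at hk
        obtain ⟨x, hx, h2⟩ := hk
        exact ⟨x, hx, h2⟩
      classical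
      let F : ℕ → ℕ := fun k => if h : ∃ x, x < t.val natS (fun i => rep (v i) k) ∧
          ¬ f.holds natS (psh x (fun i => rep (v i) k)) then h.choose else 0
      have hF : ∀ᶠ k in Uf, F k < t.val natS (fun i => rep (v i) k) ∧
          ¬ f.holds natS (psh (F k) (fun i => rep (v i) k)) := by
        filter_upwards [h1] with k hk
        simp only [F, hk, dif_pos]
        exact hk.choose_spec
      have hB : Bd s F := by
        refine (rep_bd (t.val (SS hs) v)).mono ?_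
        filter_upwards [hF, rep_val hs t v] with k h2 h3
        rw [h3]; exact h2.1.le
      have h4 := h (mk F hB) (by
        change ∀ᶠ k in Uf, rep _ k < rep _ k
        filter_upwards [hF, rep_val hs t v, rep_mk F hB] with k h2 h3 h4
        rw [h3, h4]; exact h2.1)
      rw [ih] at h4
      have h5 : ∀ᶠ k in Uf, False := by
        filter_upwards [h4, hF, rep_mk F hB] with k h2 h3 h5
        rw [psh_rep, h5] at h2
        exact h3.2 h2
      exact (ev_exists h5).elim fun _ h => h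
    · intro h x hx
      rw [ih]
      filter_upwards [h, hx, rep_val hs t v] with k h1 h2 h3
      rw [psh_rep]
      apply h1
      simp only [natS] at h3 ⊢
      rw [← h3]; exact h2

end Pool.Agent.BSig
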