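import Pool.Agent.Work.MP_510745_lc.Snap
import Pool.Agent.Work.MP_510745_lc.Ultra

/-!
The chain of rows at a fixed snapshot: either some row is in the independence case, or all
coverings go down to a fixed row.  Validity and completeness of the certificates.
-/

namespace Pool.Agent.BSig

open Filter

/-- The set coded by `K` is covered through the rows `< h` by all standard states. -/
def CA (n h : ℕ) (e K : ℕ → ℕ) : Prop :=
  ∀ m, n + 1 ≤ m → ∀ᶠ k in Uf, Cn k n (e k) (Gh k n h m) (K k)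

/-- Row `h` is in the independence case, with base state `m`. -/
def PCase (n r h m : ℕ) (e : ℕ → ℕ) : Prop :=
  n + 1 ≤ m ∧ ∀ m', m < m' → ∀ᶠ k in Uf, IndP k n (e k) r h m m'

theorem CA.up {n h : ℕ} {e K : ℕ → ℕ} (hh : h ≤ n) (hK : CA n h e K) : CA n (h + 1) e K := by
  intro m hm
  filter_upwards [hK m hm, ev_ge m] with k h1 h2
  exact h1.mono fun z hz => Gh_step hh hm h2 hz

theorem CA.le {n h h' : ℕ} {e K : ℕ → ℕ} (hhh : h ≤ h') (hh : h' ≤ n + 1) (hK : CA n h e K) :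
    CA n h' e K := by
  intro m hm
  filter_upwards [hK m hm, ev_ge m] with k h1 h2
  exact h1.mono fun z hz => Gh_mono_h hhh hh hm h2 hz

theorem CA.down {n h : ℕ} {e K K' : ℕ → ℕ} (hK : CA n h e K)
    (hKK : ∀ᶠ k in Uf, ∀ z, Bt (K' k) z → Bt (K k) z) : CA n h e K' := by
  intro m hm
  filter_upwards [hK m hm, hKK] with k h1 h2
  exact h1.down h2

theorem p_or_r {n r h : ℕ} {e : ℕ → ℕ} (hh : h ≤ n) (hr : r ≤ n + 1)
    (he : ∀ᶠ k in Uf, e k < V k h) :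
    (∃ m, PCase n r h m e) ∨
      ∀ K : ℕ → ℕ, (∀ᶠ k in Uf, K k < 2 ^ V k r) → CA n (h + 1) e K → CA n h e K := by
  by_cases hP : ∃ m, PCase n r h m e
  · exact Or.inl hP
  · right
    intro K hK hC m hm
    have h1 : ∃ m', m < m' ∧ ¬ ∀ᶠ k in Uf, IndP k n (e k) r h m m' := by
      by_contra hc
      push Not at hc
      exact hP ⟨m, hm, hc⟩
    obtain ⟨m', hmm, h2⟩ := h1
    have h3 : ∀ᶠ k in Uf, CovP k n (e k) r h m m' ∨ IndP k n (e k) r h m m' := by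
      filter_upwards [he, ev_ge m'] with k he hk
      exact dich (by omega) hh he hr hm hmm hk
    rw [ev_or] at h3
    have h4 := h3.resolve_right h2
    filter_upwards [h4, hK, hC m' (by omega)] with k h4 hK hC
    exact h4 (K k) hK hC

/-- Either some row `≥ h1` is in the independence case and all coverings go down to the row above
it, or all coverings go down to row `h1`. -/
theorem row_top {n r : ℕ} {e : ℕ → ℕ} (hr : r ≤ n + 1) : ∀ d h1, h1 + d = n + 1 →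
    (∀ᶠ k in Uf, e k < V k h1) →
    (∃ h m, h1 ≤ h ∧ h ≤ n ∧ PCase n r h m e ∧
      ∀ K : ℕ → ℕ, (∀ᶠ k in Uf, K k < 2 ^ V k r) → CA n (n + 1) e K → CA n (h + 1) e K) ∨
      ∀ K : ℕ → ℕ, (∀ᶠ k in Uf, K k < 2 ^ V k r) → CA n (n + 1) e K → CA n h1 e K := by
  intro d
  induction d with
  | zero =>
    intro h1 hd he
    have : h1 = n + 1 := by omega
    subst this
    exact Or.inr fun K _ h => h
  | succ d ih =>
    intro h1 hd he
    have he' : ∀ᶠ k in Uf, e k < V k (h1 + 1) := by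
      filter_upwards [he, ev_ge (h1 + 1)] with k h2 h3
      exact lt_of_lt_of_le h2 (V_mono (by omega) h3)
    rcases ih (h1 + 1) (by omega) he' with ⟨h, m, h2, h3, h4, h5⟩ | h2
    · exact Or.inl ⟨h, m, by omega, h3, h4, h5⟩
    · rcases p_or_r (by omega : h1 ≤ n) hr he with ⟨m, hm⟩ | h3
      · exact Or.inl ⟨h1, m, le_rfl, by omega, hm, h2⟩
      · exact Or.inr fun K hK hC => h3 K hK (h2 K hK hC)

/-- Certificates are valid. -/
theorem cert_valid {n h m : ℕ} {e K D : ℕ → ℕ} (hh : h ≤ n) (hm : n + 1 ≤ m)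
    (hC : CA n (h + 1) e K)
    (hD : ∀ᶠ k in Uf, ∀ N, Bt (D k) N → ∃ i, ¬ Cn k n (e k) (G3 k n h m (N + 1) i) (K k))
    (m' : ℕ) : ∀ᶠ k in Uf, ∀ N, Bt (D k) N → ¬ Dd (xs k m') N := by
  have hmax : n + 1 ≤ max m m' := le_trans hm (le_max_left _ _)
  filter_upwards [hC (max m m') hmax, hD, ev_ge (max m m')] with k h1 hD hk N hN hdd
  obtain ⟨i, hi⟩ := hD N hN
  have h2 : Dd (xs k (max m m')) N := dd_mono (le_max_right _ _) hk hdd
  rw [dd_eq hk] at h2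
  exact hi (h1.mono fun z hz => G3_of_dead hh hm (le_max_left _ _) hk h2.1 hz)

/-- One certificate at horizon `k`. -/
theorem cert_one {k n r h m ν N e : ℕ} (hh : h ≤ n) (hnm : n + 1 ≤ m) (hmν : m < ν) (hν : ν ≤ k)
    (hI : IndP k n e r h m ν) (hN : N < V k h) (hNd : ¬ Dd (xs k ν) N) :
    ∃ K i, K < 2 ^ V k r ∧ i < xs k (n + 1) ∧ (∃ z, cU (xs k (n + 1)) (V k h) (N + 1) i z) ∧
      Cn k n e (Gh k n (n + 1) ν) K ∧ ¬ Cn k n e (G3 k n h m (N + 1) i) K := by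
  have hO : cO (xs k ν) N := (ndd hν (lt_of_lt_of_le hN (V_mono (by omega) hν))).1 hNd
  have hc : ClsS (cO (xs k ν)) (V k h) (N + 1) := Or.inr ⟨N, rfl, hN, hO⟩
  obtain ⟨i', z', hi'⟩ := ex_unit hν (by omega : h < ν) (Or.inl rfl : ClsS (cO (xs k ν)) (V k h) 0)
  obtain ⟨i, h1, h2, -⟩ := unit_chain (n := n + 1) (h := h) (by omega) (by omega) ν (by omega) hν
    hc i' ⟨z', hi'⟩
  obtain ⟨K, h3, h4, h5⟩ := hI (N + 1) i (Or.inr ⟨N, rfl, hN, hO⟩) h1
  obtain ⟨z, hz⟩ := h1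
  refine ⟨K, i, h3, (cU_lt hz).2.2.1, ⟨z, hz⟩, h4.mono fun z hz => ?_, h5⟩
  rw [Gh_top (by omega) hν]
  exact ⟨G2_lt hh (by omega) hz, G2_alive (by omega) hν (fun z hz hw => h2 ν (by omega) le_rfl z hz hw) hz⟩

/-- Certificates are complete. -/
theorem cert_complete {n r h m : ℕ} {e D : ℕ → ℕ} (hh : h ≤ n) (hP : PCase n r h m e)
    (hD : ∀ᶠ k in Uf, ∀ N, Bt (D k) N → N < V k h)
    (hA : ∀ m', ∀ᶠ k in Uf, ∀ N, Bt (D k) N → ¬ Dd (xs k m') N) :
    ∃ q : ℕ → ℕ, (∀ᶠ k in Uf, q k < 2 ^ V k r) ∧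
      (∀ᶠ k in Uf, ∀ N, Bt (D k) N → ∃ i, i < xs k (n + 1) ∧
        (∃ z, cU (xs k (n + 1)) (V k h) (N + 1) i z) ∧
        ¬ Cn k n (e k) (G3 k n h m (N + 1) i) (q k)) ∧
      ∀ x : ℕ → ℕ, (∀ᶠ k in Uf, Bt (q k) (x k)) →
        ∃ K : ℕ → ℕ, (∀ᶠ k in Uf, K k < 2 ^ V k r) ∧ (∀ᶠ k in Uf, Bt (K k) (x k)) ∧
          CA n (n + 1) e K := by
  classical
  obtain ⟨hnm, hP⟩ := hP
  obtain ⟨ν, hν1, hν2, hν3⟩ := overspill (fun m' k => (m < m' → IndP k n (e k) r h m m') ∧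
    ∀ N, Bt (D k) N → ¬ Dd (xs k m') N) (fun m' => by
      rw [ev_and]
      refine ⟨?_, hA m'⟩
      by_cases hm : m < m'
      · exact (hP m' hm).mono fun _ h _ => h
      · exact Eventually.of_forall fun _ h => absurd h hm)
  have key : ∀ᶠ k in Uf, ∀ N, Bt (D k) N → ∃ K i, K < 2 ^ V k r ∧ i < xs k (n + 1) ∧
      (∃ z, cU (xs k (n + 1)) (V k h) (N + 1) i z) ∧
      Cn k n (e k) (Gh k n (n + 1) (ν k)) K ∧ ¬ Cn k n (e k) (G3 k n h m (N + 1) i) K := by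
    filter_upwards [hν1 (m + 1), hν3, hD] with k h1 h2 h3 N hN
    obtain ⟨h4, h5⟩ := h2 (ν k) le_rfl
    exact cert_one hh hnm h1 (hν2 k) (h4 h1) (h3 N hN) (h5 N hN)
  let κ : ℕ → ℕ → ℕ := fun k N => if h : ∃ K i, K < 2 ^ V k r ∧ i < xs k (n + 1) ∧
      (∃ z, cU (xs k (n + 1)) (V k h) (N + 1) i z) ∧
      Cn k n (e k) (Gh k n (n + 1) (ν k)) K ∧ ¬ Cn k n (e k) (G3 k n h m (N + 1) i) K
    then h.choose else 0
  have hκ : ∀ᶠ k in Uf, ∀ N, Bt (D k) N → ∃ i, κ k N < 2 ^ V k r ∧ i < xs k (n + 1) ∧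
      (∃ z, cU (xs k (n + 1)) (V k h) (N + 1) i z) ∧
      Cn k n (e k) (Gh k n (n + 1) (ν k)) (κ k N) ∧
      ¬ Cn k n (e k) (G3 k n h m (N + 1) i) (κ k N) := by
    filter_upwards [key] with k hk N hN
    have h1 := hk N hN
    simp only [κ, h1, dif_pos]
    exact h1.choose_spec
  have hκ0 : ∀ k N, κ k N < 2 ^ V k r := by
    intro k N
    simp only [κ]
    split_ifs with h1
    · exact h1.choose_spec.choose_spec.1
    · exact Nat.two_pow_pos _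
  have hq : ∀ k, ∃ q, q < 2 ^ V k r ∧ ∀ z, Bt q z ↔ ∃ N, Bt (D k) N ∧ Bt (κ k N) z := fun k =>
    mk_code' (V k r) (fun z => ∃ N, Bt (D k) N ∧ Bt (κ k N) z) (by
      rintro z ⟨N, _, hz⟩
      exact Bt.lt_of_lt hz (hκ0 k N))
  choose q hq1 hq2 using hq
  refine ⟨q, Eventually.of_forall hq1, ?_, ?_⟩
  · filter_upwards [hκ] with k hk N hN
    obtain ⟨i, _, h2, h3, _, h5⟩ := hk N hN
    exact ⟨i, h2, h3, fun h6 => h5 (h6.down fun z hz => (hq2 k z).2 ⟨N, hN, hz⟩)⟩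
  · intro x hx
    have h1 : ∀ᶠ k in Uf, ∃ N, Bt (D k) N ∧ Bt (κ k N) (x k) := hx.mono fun k hk => (hq2 k _).1 hk
    let Nf : ℕ → ℕ := fun k => if h : ∃ N, Bt (D k) N ∧ Bt (κ k N) (x k) then h.choose else 0
    have hN : ∀ᶠ k in Uf, Bt (D k) (Nf k) ∧ Bt (κ k (Nf k)) (x k) := by
      filter_upwards [h1] with k hk
      simp only [Nf, hk, dif_pos]
      exact hk.choose_spec
    refine ⟨fun k => κ k (Nf k), Eventually.of_forall fun k => hκ0 k _, hN.mono fun _ h => h.2, ?_⟩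
    intro m' hm'
    filter_upwards [hN, hκ, hν1 m'] with k h2 h3 h4
    obtain ⟨i, _, _, _, h5, _⟩ := h3 (Nf k) h2.1
    exact h5.mono fun z hz => Gh_anti hm' h4 (hν2 k) hz

/-- Coverings by all standard states are coverings by a nonstandard state. -/
theorem CA_iff {n h : ℕ} {e K : ℕ → ℕ} (hh : h ≤ n + 1) : CA n h e K ↔
    ∃ ν : ℕ → ℕ, (∀ m, ∀ᶠ k in Uf, m ≤ ν k) ∧ (∀ k, ν k ≤ k) ∧
      ∀ᶠ k in Uf, Cn k n (e k) (Gh k n h (ν k)) (K k) := by
  constructor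
  · intro hC
    obtain ⟨ν, h1, h2, h3⟩ := overspill (fun m k => n + 1 ≤ m → Cn k n (e k) (Gh k n h m) (K k))
      (fun m => by
        by_cases hm : n + 1 ≤ m
        · exact (hC m hm).mono fun _ h _ => h
        · exact Eventually.of_forall fun _ h => absurd h hm)
    refine ⟨ν, h1, h2, ?_⟩
    filter_upwards [h3, h1 (n + 1)] with k h4 h5
    exact h4 (ν k) le_rfl h5
  · rintro ⟨ν, h1, h2, h3⟩ m hm
    filter_upwards [h3, h1 m] with k h4 h5
    exact h4.mono fun z hz => Gh_anti (by omega) h5 (h2 k) hz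

/-- The same with a nonstandard state bounded eventually. -/
theorem CA_of {n h : ℕ} {e K ν : ℕ → ℕ} (hh : h ≤ n + 1) (h1 : ∀ m, ∀ᶠ k in Uf, m ≤ ν k)
    (h2 : ∀ᶠ k in Uf, ν k ≤ k) (h3 : ∀ᶠ k in Uf, Cn k n (e k) (Gh k n h (ν k)) (K k)) :
    CA n h e K := by
  intro m hm
  filter_upwards [h3, h1 m, h2] with k h4 h5 h6
  exact h4.mono fun z hz => Gh_anti (by omega) h5 h6 hz

end Pool.Agent.BSig
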