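import Pool.Agent.Work.MP_510745_lc.Snap
import Pool.Agent.Work.MP_510745_lc.Model

/-!
The sets `A` and `I`, indices of c.e. sets of quadruples, and step (i) of the verification:
one standard stage describes `B` below a standard row boundary.
-/

namespace Pool.Agent.BSig

open Filter

/-- The cut-off sequence of the model. -/
noncomputable def sq (n k : ℕ) : ℕ := xs k n

theorem gr : Gr sq where
  mono := fun n k => xs_mono k n
  exp := fun n => by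
    filter_upwards [ev_ge (n + 1)] with k hk
    have h := xs_tow k n 1 (by omega) (by omega)
    exact h.le

/-- The set constructed. -/
def AA (x : MM sq) : Prop := ∃ n, ∀ᶠ k in Uf, Dd (xs k n) (rep x k)

/-- The standard cut. -/
def II (x : MM sq) : Prop := ∃ n, ∀ᶠ k in Uf, rep x k = n

/-- Infinite internal numbers. -/
def Inf (ν : ℕ → ℕ) : Prop := ∀ n, ∀ᶠ k in Uf, n ≤ ν k

theorem bd_xs (n : ℕ) : Bd sq (fun k => xs k n) := ⟨n, Eventually.of_forall fun _ => le_rfl⟩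

theorem V_lt_xs {k n : ℕ} (hn : n ≤ k) : V k n < xs k n := cD_lt (V_inv hn).tp.1

theorem bd_V (n : ℕ) : Bd sq (fun k => V k n) :=
  ⟨n, by filter_upwards [ev_ge n] with k hk; exact (V_lt_xs hk).le⟩

theorem xs_lt_V {k n : ℕ} (hn : n < k) : xs k n < V k (n + 1) := (nx hn).xV

/-- Bounded functions are eventually strictly below every late state. -/
theorem bd_stage {f : ℕ → ℕ} (hf : Bd sq f) : ∃ n, ∀ m, n ≤ m → ∀ᶠ k in Uf, f k < xs k m := by
  obtain ⟨n, hn⟩ := hf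
  refine ⟨n + 1, fun m hm => ?_⟩
  filter_upwards [hn, ev_ge (n + 1)] with k h1 h2
  have h3 := xs_lt k n (by omega)
  have h4 : xs k (n + 1) ≤ xs k m := xs_le hm
  change f k ≤ xs k n at h1
  omega

theorem ev_const {P : Prop} : (∀ᶠ _k in Uf, P) ↔ P := by simp

theorem ev_all_lt {P : ℕ → ℕ → Prop} (j : ℕ) (h : ∀ i, i < j → ∀ᶠ k in Uf, P i k) :
    ∀ᶠ k in Uf, ∀ i, i < j → P i k := by
  have : ∀ᶠ k in Uf, ∀ i ∈ Finset.range j, P i k :=
    (Finset.eventually_all _).2 fun i hi => h i (Finset.mem_range.1 hi)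
  filter_upwards [this] with k hk i hi
  exact hk i (Finset.mem_range.2 hi)

/-- Finitely many bounded functions have a common bound. -/
theorem bd_sup (c : ℕ → MM sq) (m : ℕ) :
    ∃ n, ∀ᶠ k in Uf, ∀ i, i < m → rep (c i) k ≤ xs k n := by
  induction m with
  | zero => exact ⟨0, Eventually.of_forall fun k i hi => absurd hi (Nat.not_lt_zero i)⟩
  | succ m ih =>
    obtain ⟨n, hn⟩ := ih
    obtain ⟨n', hn'⟩ := rep_bd (c m)
    refine ⟨max n n', ?_⟩
    filter_upwards [hn, hn'] with k h1 h2 i hi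
    rcases Nat.lt_succ_iff_lt_or_eq.1 hi with h3 | h3
    · exact le_trans (h1 i h3) (xs_le (le_max_left _ _))
    · subst h3
      exact le_trans h2 (xs_le (le_max_right _ _))

/-- Every c.e. set of quadruples has an index. -/
theorem ex_index (f : Fm) (c : ℕ → MM sq) : ∃ (e : MM sq) (n₁ : ℕ), ∀ n, n₁ ≤ n →
    ∀ᶠ k in Uf, ∀ K p q, TS k n (rep e k) K p q ↔
      (K < xs k n ∧ p < xs k n ∧ q < xs k n ∧
        ∃ y, y < xs k n ∧ f.holds natS (asg5 y K p q (fun i => rep (c i) k))) := by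
  classical
  obtain ⟨m1, hm1⟩ := Fm.ex_vlt f
  obtain ⟨m2, hm2⟩ := Tm.ex_vlt (szF f)
  obtain ⟨j, hj⟩ := tm_bound (szF f)
  set m := max m1 m2 with hm
  have hfm : f.vlt m := Fm.vlt_mono (le_max_left _ _) f hm1
  have htm : (szF f).vlt m := Tm.vlt_mono (le_max_right _ _) _ hm2
  obtain ⟨n0, hn0⟩ := bd_sup c m
  -- the code of the parameters
  have hex : ∀ k, ∃ α, α < 2 ^ (pr m (xs k n0 + 1)) ∧
      ((∀ i, i < m → rep (c i) k ≤ xs k n0) → ∀ D, Cod D m α (fun i => rep (c i) k)) := by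
    intro k
    by_cases h : ∀ i, i < m → rep (c i) k ≤ xs k n0
    · obtain ⟨α, h1, h2⟩ := ex_cod m (fun i => rep (c i) k) (xs k n0 + 1)
        (fun i hi => Nat.lt_succ_of_le (h i hi))
      exact ⟨α, h1, fun _ => h2⟩
    · exact ⟨0, by positivity, fun h' => absurd h' h⟩
  choose α hα hα' using hex
  have hbα : Bd sq α := by
    have h1 : Bd sq (fun k => 2 ^ (pr m (xs k n0 + 1))) := by
      have h2 : Bd sq (fun k => xs k n0 + 1) := (bd_xs n0).add gr (Bd.const gr 1)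
      have h3 : Bd sq (fun k => m + (xs k n0 + 1)) := (Bd.const gr m).add gr h2
      exact (((h3.mul gr h3).add gr (Bd.const gr m))).pow gr
    exact h1.mono (Eventually.of_forall fun k => (hα k).le)
  have hbe : Bd sq (fun k => pr (codeF f) (pr m (α k))) := by
    have h3 : Bd sq (fun k => m + α k) := (Bd.const gr m).add gr hbα
    have h4 : Bd sq (fun k => pr m (α k)) := (h3.mul gr h3).add gr (Bd.const gr m)
    have h5 : Bd sq (fun k => codeF f + pr m (α k)) := (Bd.const gr (codeF f)).add gr h4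
    exact (h5.mul gr h5).add gr (Bd.const gr (codeF f))
  refine ⟨mk _ hbe, n0, fun n hn => ?_⟩
  filter_upwards [hn0, rep_mk _ hbe, ev_ge (n + 1), ev_ge (j + 1)] with k h1 h2 h3 h4 K p q
  rw [h2]
  have hx : xs k n0 ≤ xs k n := xs_le hn
  have h2x : 2 ≤ xs k n := by
    have := V_lt_xs (k := k) (n := 0) (by omega)
    rw [V_zero] at this
    have h5 : xs k 0 ≤ xs k n := xs_le (Nat.zero_le n)
    omega
  have hD : (szF f).val natS (asg5 (xs k n) (xs k n) (xs k n) (xs k n)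
      (fun i => rep (c i) k)) < tow k (xs k n) := by
    refine lt_of_le_of_lt (hj _ (xs k n) h2x m htm fun i hi => ?_) ?_
    · match i, hi with
      | 0, _ => exact le_rfl
      | 1, _ => exact le_rfl
      | 2, _ => exact Nat.zero_le _
      | 3, _ => exact le_rfl
      | 4, _ => exact le_rfl
      | (i + 5), hi => exact le_trans (h1 i (by omega)) hx
    · exact lt_of_lt_of_le (Nat.lt_two_pow_self : tow j (xs k n) < 2 ^ tow j (xs k n))
        (show 2 ^ tow j (xs k n) ≤ tow k (xs k n) from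
          tow_mono_left (m := j + 1) (n := k) (by omega) (xs k n))
  exact test_iff f (hα' k h1 _) hfm hD

/-- `R` is a monotone approximation of `B` by standard stages. -/
def Apx (B : MM sq → Prop) (R : ℕ → ℕ → ℕ → Prop) : Prop :=
  (∀ x, B x ↔ ∃ n, ∀ᶠ k in Uf, R n k (rep x k)) ∧
    ∀ m n k z, m ≤ n → n ≤ k → R m k z → R n k z

theorem apx_AA : Apx AA (fun n k z => Dd (xs k n) z) :=
  ⟨fun _ => Iff.rfl, fun _ _ _ _ hmn hn h => dd_mono hmn hn h⟩

theorem apx_CE {B : MM sq → Prop} (hB : CE (SS gr) B) : ∃ R, Apx B R := by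
  obtain ⟨g, d, hg⟩ := hB
  refine ⟨fun n k z => ∃ y, y < xs k n ∧ g.holds natS (psh y (psh z (fun i => rep (d i) k))),
    fun x => ?_, ?_⟩
  · rw [hg]
    constructor
    · rintro ⟨y, hy⟩
      rw [los2] at hy
      obtain ⟨n, hn⟩ := bd_stage (rep_bd y)
      refine ⟨n, ?_⟩
      filter_upwards [hy, hn n le_rfl] with k h1 h2
      exact ⟨_, h2, h1⟩
    · rintro ⟨n, hn⟩
      have h1 : ∀ᶠ k in Uf, ∃ y, y ≤ xs k n ∧
          g.holds natS (psh y (psh (rep x k) (fun i => rep (d i) k))) := by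
        filter_upwards [hn] with k hk
        obtain ⟨y, h1, h2⟩ := hk
        exact ⟨y, h1.le, h2⟩
      obtain ⟨y, hy⟩ := choose_fn (bd_xs n) h1
      exact ⟨y, by rw [los2]; exact hy.mono fun _ h => h.2⟩
  · rintro m n k z hmn - ⟨y, hy, h⟩
    exact ⟨y, lt_of_lt_of_le hy (xs_le hmn), h⟩

theorem Apx.pos {B : MM sq → Prop} {R : ℕ → ℕ → ℕ → Prop} (hA : Apx B R) {p : MM sq}
    (hp : Pos (SS gr) p B) :
    ∃ n₁, ∀ n, n₁ ≤ n → ∀ᶠ k in Uf, ∀ z, Bt (rep p k) z → R n k z := by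
  by_contra hc
  have h1 : ∀ n, ∀ᶠ k in Uf, ∃ z, Bt (rep p k) z ∧ ¬ R n k z := by
    intro n
    by_contra h2
    apply hc
    refine ⟨n, fun n' hn' => ?_⟩
    have h3 := ev_not.2 h2
    filter_upwards [h3, ev_ge n'] with k h4 h5 z hz
    by_contra h6
    exact h4 ⟨z, hz, fun h7 => h6 (hA.2 n n' k z hn' h5 h7)⟩
  obtain ⟨ν, hν1, hν2, hν3⟩ := overspill _ h1
  have h4 : ∀ᶠ k in Uf, ∃ z, z ≤ rep p k ∧ (Bt (rep p k) z ∧ ¬ R (ν k) k z) := by
    filter_upwards [hν3] with k hk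
    obtain ⟨z, h5, h6⟩ := hk (ν k) le_rfl
    exact ⟨z, h5.lt.le, h5, h6⟩
  obtain ⟨x, hx⟩ := choose_fn (rep_bd p) h4
  obtain ⟨n, hn⟩ := (hA.1 x).1 (hp x ((elt_iff gr x p).2 (hx.mono fun _ h => h.2.1)))
  obtain ⟨k, ⟨h5, h6⟩, h7⟩ := ev_exists ((hx.and hn).and (hν1 n))
  exact h5.2.2 (hA.2 n (ν k) k _ h7 (hν2 k) h6)

theorem Apx.neg {B : MM sq → Prop} {R : ℕ → ℕ → ℕ → Prop} (hA : Apx B R) {q : MM sq} :
    Neg (SS gr) q B ↔ ∀ n, ∀ᶠ k in Uf, ∀ z, Bt (rep q k) z → ¬ R n k z := by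
  constructor
  · intro hq n
    by_contra h2
    have h3 := ev_not.2 h2
    have h4 : ∀ᶠ k in Uf, ∃ z, z ≤ rep q k ∧ (Bt (rep q k) z ∧ R n k z) := by
      filter_upwards [h3] with k hk
      push Not at hk
      obtain ⟨z, h5, h6⟩ := hk
      exact ⟨z, h5.lt.le, h5, h6⟩
    obtain ⟨x, hx⟩ := choose_fn (rep_bd q) h4
    exact hq x ((elt_iff gr x q).2 (hx.mono fun _ h => h.2.1))
      ((hA.1 x).2 ⟨n, hx.mono fun _ h => h.2.2⟩)
  · intro h x hx hB
    rw [elt_iff] at hx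
    obtain ⟨n, hn⟩ := (hA.1 x).1 hB
    obtain ⟨k, ⟨h1, h2⟩, h3⟩ := ev_exists ((hx.and hn).and (h n))
    exact h3 _ h1 h2

theorem Neg.sub {B : MM sq → Prop} {K K' : MM sq}
    (h : ∀ᶠ k in Uf, ∀ z, Bt (rep K k) z → Bt (rep K' k) z) (hK : Neg (SS gr) K' B) :
    Neg (SS gr) K B := by
  intro x hx
  refine hK x ?_
  rw [elt_iff] at hx ⊢
  filter_upwards [h, hx] with k h1 h2
  exact h1 _ h2

theorem Pos.sub {B : MM sq → Prop} {K K' : MM sq}
    (h : ∀ᶠ k in Uf, ∀ z, Bt (rep K k) z → Bt (rep K' k) z) (hK : Pos (SS gr) K' B) :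
    Pos (SS gr) K B := by
  intro x hx
  refine hK x ?_
  rw [elt_iff] at hx ⊢
  filter_upwards [h, hx] with k h1 h2
  exact h1 _ h2

/-- Truth of a quadruple in the model, at the level of representatives. -/
theorem ce4_iff (f : Fm) (c : ℕ → MM sq) (K p q : MM sq) :
    (∃ y, f.holds (SS gr) (psh y (psh K (psh (SS gr).zero (psh p (psh q c)))))) ↔
      ∃ y : MM sq, ∀ᶠ k in Uf, f.holds natS
        (asg5 (rep y k) (rep K k) (rep p k) (rep q k) (fun i => rep (c i) k)) := by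
  refine exists_congr fun y => ?_
  rw [los5]
  constructor
  · intro h
    filter_upwards [h, rep_zero gr] with k h1 h2
    rw [h2] at h1
    exact h1
  · intro h
    filter_upwards [h, rep_zero gr] with k h1 h2
    rw [h2]
    exact h1

/-- Step (i), validity: coverings at one standard snapshot by all later alive sets are true. -/
theorem step_i_valid {B : MM sq → Prop} {F : MM sq → MM sq → MM sq → MM sq → Prop} {f : Fm}
    {c : ℕ → MM sq} {e : MM sq} {n : ℕ}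
    (hF : ∀ k i p n, F k i p n ↔ ∃ y, f.holds (SS gr) (psh y (psh k (psh i (psh p (psh n c))))))
    (hred : ∀ K, (∃ p q, F K (SS gr).zero p q ∧ Pos (SS gr) p AA ∧ Neg (SS gr) q AA) →
      Neg (SS gr) K B)
    (he : ∀ᶠ k in Uf, ∀ K p q, TS k n (rep e k) K p q ↔
      (K < xs k n ∧ p < xs k n ∧ q < xs k n ∧
        ∃ y, y < xs k n ∧ f.holds natS (asg5 y K p q (fun i => rep (c i) k))))
    {K : MM sq} (hK : ∀ m, n + 1 ≤ m → ∀ᶠ k in Uf, Cn k n (rep e k) (Gh k n (n + 1) m) (rep K k)) :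
    Neg (SS gr) K B := by
  obtain ⟨ν, hν1, hν2, hν3⟩ := overspill
    (fun j k => Cn k n (rep e k) (Gh k n (n + 1) (n + 1 + j)) (rep K k))
    (fun j => hK (n + 1 + j) (by omega))
  let M : ℕ → ℕ := fun k => n + 1 + min (ν k) (k - (n + 1))
  have hM1 : ∀ j, ∀ᶠ k in Uf, j ≤ M k := by
    intro j
    filter_upwards [hν1 j, ev_ge (n + 1 + j)] with k h1 h2
    have : j ≤ min (ν k) (k - (n + 1)) := le_min h1 (by omega)
    change j ≤ n + 1 + min (ν k) (k - (n + 1))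
    omega
  have hM2 : ∀ᶠ k in Uf, M k ≤ k := by
    filter_upwards [ev_ge (n + 1)] with k h1
    have : min (ν k) (k - (n + 1)) ≤ k - (n + 1) := min_le_right _ _
    change n + 1 + min (ν k) (k - (n + 1)) ≤ k
    omega
  have hM3 : ∀ k, n + 1 ≤ M k := fun k => Nat.le_add_right _ _
  have h1 : ∀ᶠ k in Uf, ∃ K', K' ≤ xs k n ∧ ∃ p, p ≤ xs k n ∧ ∃ q, q ≤ xs k n ∧ ∃ y, y ≤ xs k n ∧
      ((∀ z, Bt (rep K k) z → Bt K' z) ∧ (∀ z, Bt p z → Dd (xs k (n + 1)) z) ∧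
        (∀ z, Bt q z → Gh k n (n + 1) (M k) z) ∧
        f.holds natS (asg5 y K' p q (fun i => rep (c i) k))) := by
    filter_upwards [hν3, he] with k h1 h2
    obtain ⟨K', p, q, h3, h4, h5, h6⟩ := h1 (min (ν k) (k - (n + 1))) (min_le_left _ _)
    obtain ⟨h7, h8, h9, y, hy, h10⟩ := (h2 K' p q).1 h6
    exact ⟨K', h7.le, p, h8.le, q, h9.le, y, hy.le, h3, h4, h5, h10⟩
  obtain ⟨K', hK'⟩ := choose_fn (bd_xs n) h1
  obtain ⟨p, hp⟩ := choose_fn (bd_xs n) (hK'.mono fun _ h => h.2)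
  obtain ⟨q, hq⟩ := choose_fn (bd_xs n) (hp.mono fun _ h => h.2)
  obtain ⟨y, hy⟩ := choose_fn (bd_xs n) (hq.mono fun _ h => h.2)
  have hNeg : Neg (SS gr) K' B := by
    refine hred K' ⟨p, q, ?_, ?_, ?_⟩
    · rw [hF, ce4_iff]
      exact ⟨y, hy.mono fun _ h => h.2.2.2.2⟩
    · intro x hx
      rw [elt_iff] at hx
      refine ⟨n + 1, ?_⟩
      filter_upwards [hx, hy] with k h3 h4
      exact h4.2.2.1 _ h3
    · intro x hx hA
      rw [elt_iff] at hx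
      obtain ⟨n', hn'⟩ := hA
      obtain ⟨k, ⟨⟨h3, h4⟩, h5, h6⟩, h7⟩ :=
        ev_exists (((hx.and hy).and (hn'.and (hM1 n'))).and hM2)
      have h8 := h4.2.2.2.1 _ h3
      rw [Gh_top (hM3 k) h7] at h8
      have h9 := dd_mono h6 h7 h5
      rw [dd_eq h7] at h9
      exact h9.1 h8.2
  refine Neg.sub ?_ hNeg
  exact hy.mono fun _ h => h.2.1

/-- Step (i), completeness: one standard snapshot serves all sets below a row boundary. -/
theorem step_i_complete {B : MM sq → Prop} {R : ℕ → ℕ → ℕ → Prop} (hB : Apx B R)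
    {F : MM sq → MM sq → MM sq → MM sq → Prop} {f : Fm} {c : ℕ → MM sq} {e : MM sq} {n₁ : ℕ}
    (hF : ∀ k i p n, F k i p n ↔ ∃ y, f.holds (SS gr) (psh y (psh k (psh i (psh p (psh n c))))))
    (hred : ∀ K, Neg (SS gr) K B → ∃ p q, F K (SS gr).zero p q ∧ Pos (SS gr) p AA ∧
      Neg (SS gr) q AA)
    (he : ∀ n, n₁ ≤ n → ∀ᶠ k in Uf, ∀ K p q, TS k n (rep e k) K p q ↔
      (K < xs k n ∧ p < xs k n ∧ q < xs k n ∧
        ∃ y, y < xs k n ∧ f.holds natS (asg5 y K p q (fun i => rep (c i) k)))) (r : ℕ) :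
    ∃ n₀, ∀ n, n₀ ≤ n → ∀ K : MM sq, (∀ᶠ k in Uf, rep K k < 2 ^ V k r) → Neg (SS gr) K B →
      ∀ m, n + 1 ≤ m → ∀ᶠ k in Uf, Cn k n (rep e k) (Gh k n (n + 1) m) (rep K k) := by
  classical
  -- the complement of the approximation at stage `j`
  have hcode : ∀ k j, ∃ w, w < 2 ^ V k r ∧ ∀ z, Bt w z ↔ (z < V k r ∧ ¬ R j k z) := fun k j =>
    mk_code (V k r) (fun z => ¬ R j k z)
  choose Kc hKc1 hKc2 using hcode
  have hbK : ∀ ν : ℕ → ℕ, Bd sq (fun k => Kc k (ν k)) := fun ν =>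
    ((bd_V r).pow gr).mono (Eventually.of_forall fun k => (hKc1 k (ν k)).le)
  let P : ℕ → (ℕ → ℕ) → Prop := fun n ν => ∀ m, n + 1 ≤ m →
    ∀ᶠ k in Uf, Cn k n (rep e k) (Gh k n (n + 1) m) (Kc k (ν k))
  have key1 : ∀ ν : ℕ → ℕ, (∀ j, ∀ᶠ k in Uf, j ≤ ν k) → (∀ᶠ k in Uf, ν k ≤ k) →
      ∃ n₀, ∀ n, n₀ ≤ n → P n ν := by
    intro ν hν1 hν2
    have hN : Neg (SS gr) (mk _ (hbK ν)) B := by
      intro x hx hBx
      rw [elt_iff] at hx
      obtain ⟨n', hn'⟩ := (hB.1 x).1 hBx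
      obtain ⟨k, ⟨⟨h3, h4⟩, h5, h6⟩, h7⟩ :=
        ev_exists (((hx.and (rep_mk _ (hbK ν))).and (hn'.and (hν1 n'))).and hν2)
      rw [h4] at h3
      exact ((hKc2 k (ν k) _).1 h3).2 (hB.2 _ _ _ _ h6 h7 h5)
    obtain ⟨p, q, hFK, hp, hq⟩ := hred _ hN
    rw [hF, ce4_iff] at hFK
    obtain ⟨y, hy⟩ := hFK
    obtain ⟨a1, ha1⟩ := bd_stage (rep_bd y)
    obtain ⟨a2, ha2⟩ := bd_stage (hbK ν)
    obtain ⟨a3, ha3⟩ := bd_stage (rep_bd p)
    obtain ⟨a4, ha4⟩ := bd_stage (rep_bd q)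
    obtain ⟨a5, ha5⟩ := apx_AA.pos hp
    have hq' := apx_AA.neg.1 hq
    refine ⟨a1 + a2 + a3 + a4 + a5 + n₁, fun n hn m hm => ?_⟩
    filter_upwards [hy, ha1 n (by omega), ha2 n (by omega), ha3 n (by omega), ha4 n (by omega),
      ha5 (n + 1) (by omega), hq' m, rep_mk _ (hbK ν), he n (by omega), ev_ge m]
      with k b1 b2 b3 b4 b5 b6 b7 b8 b9 b10
    rw [b8] at b1
    refine ⟨Kc k (ν k), rep p k, rep q k, fun z hz => hz, b6, fun z hz => ?_,
      (b9 _ _ _).2 ⟨b3, b4, b5, rep y k, b2, b1⟩⟩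
    rw [Gh_top hm b10]
    have h1 : z < V k (n + 1) := by
      have := hz.lt
      have := xs_lt_V (k := k) (n := n) (by omega)
      omega
    refine ⟨h1, ?_⟩
    have h2 : z < V k m := lt_of_lt_of_le h1 (V_mono hm b10)
    exact (ndd b10 h2).1 (b7 z hz)
  have key2 : ∃ n₀, ∀ n, n₀ ≤ n → ∀ ν : ℕ → ℕ, (∀ j, ∀ᶠ k in Uf, j ≤ ν k) →
      (∀ᶠ k in Uf, ν k ≤ k) → P n ν := by
    by_contra hc
    push Not at hc
    choose g hg1 ν hν1 hν2 hν3 using hc
    obtain ⟨μ, hμ1, hμ2, hμ3⟩ := diag ν hν1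
    obtain ⟨n₀, hn₀⟩ := key1 μ hμ1 (Eventually.of_forall hμ2)
    have h1 := hn₀ (g n₀) (hg1 n₀)
    apply hν3 n₀
    intro m hm
    filter_upwards [h1 m hm, hμ3 n₀, hν2 n₀] with k h2 h3 h4
    refine Cn.down (fun z hz => ?_) h2
    rw [hKc2] at hz ⊢
    exact ⟨hz.1, fun h5 => hz.2 (hB.2 _ _ _ _ h3 h4 h5)⟩
  obtain ⟨n₀, hn₀⟩ := key2
  refine ⟨n₀, fun n hn K hKb hK m hm => ?_⟩
  obtain ⟨ν, hν1, hν2, hν3⟩ := overspill _ (hB.neg.1 hK)
  filter_upwards [hn₀ n hn ν hν1 (Eventually.of_forall hν2) m hm, hν3, hKb] with k h1 h2 h3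
  refine Cn.down (fun z hz => ?_) h1
  rw [hKc2]
  exact ⟨hz.lt_of_lt h3, h2 (ν k) le_rfl z hz⟩

/-- Step (i): the snapshots of a reduction of a c.e. set to `A`. -/
theorem step_i {B : MM sq → Prop} (hB : CE (SS gr) B) (hR : Red (SS gr) B AA) :
    ∃ (e : MM sq) (n₁ : ℕ),
      (∀ r, ∃ n₀, ∀ n, n₀ ≤ n → ∀ K : MM sq, (∀ᶠ k in Uf, rep K k < 2 ^ V k r) →
        Neg (SS gr) K B → ∀ m, n + 1 ≤ m →
          ∀ᶠ k in Uf, Cn k n (rep e k) (Gh k n (n + 1) m) (rep K k)) ∧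
      ∀ n, n₁ ≤ n → ∀ K : MM sq, (∀ m, n + 1 ≤ m →
        ∀ᶠ k in Uf, Cn k n (rep e k) (Gh k n (n + 1) m) (rep K k)) → Neg (SS gr) K B := by
  obtain ⟨F, ⟨f, c, hF⟩, hred⟩ := hR
  obtain ⟨e, n₁, he⟩ := ex_index f c
  obtain ⟨R, hR⟩ := apx_CE hB
  refine ⟨e, n₁, fun r => ?_, fun n hn K hK => ?_⟩
  · exact step_i_complete hR hF (fun K => (hred K).2.1) he r
  · exact step_i_valid hF (fun K => (hred K).2.2) (he n hn) hK

end Pool.Agent.BSig
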