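import Pool.Agent.Work.MP_510745_lc.PI

/-!
Step (iv): the constructed set is not reducible to the cut.
-/

namespace Pool.Agent.BSig

open Filter

/-- A number bounded by a standard one is standard. -/
theorem std_of_le {f : ℕ → ℕ} {n : ℕ} (h : ∀ᶠ k in Uf, f k ≤ n) : ∃ m, ∀ᶠ k in Uf, f k = m := by
  induction n with
  | zero => exact ⟨0, h.mono fun k hk => Nat.le_zero.1 hk⟩
  | succ n ih =>
    have h1 : ∀ᶠ k in Uf, f k ≤ n ∨ f k = n + 1 := by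
      filter_upwards [h] with k hk
      omega
    rcases ev_or.1 h1 with h2 | h2
    · exact ih h2
    · exact ⟨n + 1, h2⟩

theorem II_iff {x : MM sq} : II x ↔ ∃ n, ∀ᶠ k in Uf, rep x k ≤ n :=
  ⟨fun ⟨n, hn⟩ => ⟨n, hn.mono fun _ h => h.le⟩, fun ⟨_, hn⟩ => std_of_le hn⟩

theorem not_II_iff {x : MM sq} : ¬ II x ↔ ∀ n, ∀ᶠ k in Uf, n ≤ rep x k := by
  rw [II_iff]
  push Not
  constructor
  · intro h n
    have h1 : ¬ ∀ᶠ k in Uf, rep x k ≤ n := by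
      intro h2
      obtain ⟨k, h3, h4⟩ := ev_exists ((h n).and h2)
      omega
    exact (ev_not.2 h1).mono fun k hk => by omega
  · intro h n
    exact (h (n + 1)).mono fun k hk => hk

theorem apx_II : Apx II (fun n _ z => z ≤ n) :=
  ⟨fun _ => II_iff, fun _ _ _ _ hmn _ h => le_trans h hmn⟩

/-- An element of row `h` that never dies and is never reserved. -/
theorem ex_free (h : ℕ) : ∃ z : MM sq, ∀ᶠ k in Uf, ∀ j, h < j → j ≤ k →
    ∃ i, cU (xs k j) (V k h) 0 i (rep z k) := by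
  have h1 : ∀ᶠ k in Uf, ∃ z, z ≤ xs k (h + 1) ∧ ∀ j, h < j → j ≤ k →
      ∃ i, cU (xs k j) (V k h) 0 i z := by
    filter_upwards [ev_ge (h + 1)] with k hk
    obtain ⟨i, z, hz⟩ := ex_unit (k := k) (n := k) (h := h) (c := 0) le_rfl (by omega) (Or.inl rfl)
    obtain ⟨z', -, -, h3⟩ := free_elt (k := k) (h := h) k (by omega) le_rfl i ⟨z, hz⟩
    obtain ⟨i', hi'⟩ := h3 (h + 1) (by omega) hk
    exact ⟨z', (cU_lt hi').2.2.2.le, h3⟩
  obtain ⟨z, hz⟩ := choose_fn (bd_xs (h + 1)) h1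
  exact ⟨z, hz.mono fun _ h => h.2⟩

theorem not_AA_of_free {h : ℕ} {z : MM sq} (hz : ∀ᶠ k in Uf, ∀ j, h < j → j ≤ k →
    ∃ i, cU (xs k j) (V k h) 0 i (rep z k)) : ¬ AA z := by
  rintro ⟨n, hn⟩
  obtain ⟨k, ⟨h1, h2⟩, h3⟩ := ev_exists ((hz.and hn).and (ev_ge (n + h + 1)))
  obtain ⟨i, hi⟩ := h1 (n + h + 1) (by omega) h3
  have h4 := dd_mono (by omega : n ≤ n + h + 1) h3 h2
  rw [dd_eq h3] at h4
  exact h4.1 (cls_lt h3 hi).1

theorem bt_pow {z w : ℕ} : Bt (2 ^ z) w ↔ w = z := by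
  rw [bt_iff, Nat.testBit_two_pow, decide_eq_true_iff]
  exact eq_comm

theorem elt_pow {x z : MM sq} : Elt (SS gr) x ((SS gr).pow z) ↔ x = z := by
  rw [elt_iff, rep_inj]
  constructor
  · intro h
    filter_upwards [h, rep_pow gr z] with k h1 h2
    rw [h2, bt_pow] at h1
    exact h1
  · intro h
    filter_upwards [h, rep_pow gr z] with k h1 h2
    rw [h2, bt_pow]
    exact h1

/-- Step (iv): `A` is not reducible to the cut. -/
theorem step_iv : ¬ Red (SS gr) AA II := by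
  rintro ⟨F, ⟨f, c, hF⟩, hred⟩
  obtain ⟨e, n₁, he⟩ := ex_index f c
  obtain ⟨h0, hh0⟩ := bd_stage (rep_bd e)
  obtain ⟨z, hz⟩ := ex_free (h0 + 1)
  have hNeg : Neg (SS gr) ((SS gr).pow z) AA := by
    intro x hx
    rw [elt_pow] at hx
    subst hx
    exact not_AA_of_free hz
  obtain ⟨p, q, hFK, hp, hq⟩ := (hred _).2.1 hNeg
  rw [hF, ce4_iff] at hFK
  obtain ⟨y, hy⟩ := hFK
  obtain ⟨a1, ha1⟩ := bd_stage (rep_bd y)
  obtain ⟨a2, ha2⟩ := bd_stage (rep_bd ((SS gr).pow z))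
  obtain ⟨a3, ha3⟩ := bd_stage (rep_bd p)
  obtain ⟨a4, ha4⟩ := bd_stage (rep_bd q)
  obtain ⟨a5, ha5⟩ := apx_II.pos hp
  have hq' := apx_II.neg.1 hq
  set n := a1 + a2 + a3 + a4 + a5 + n₁ + h0 + 2 with hn
  -- the killed element
  have h1 : ∀ᶠ k in Uf, ∃ z₁, z₁ ≤ xs k n ∧ ∃ p₁, p₁ ≤ xs k n ∧ ∃ q₁, q₁ ≤ xs k n ∧
      ∃ y₁, y₁ ≤ xs k n ∧ (Dd (xs k (n + 1)) z₁ ∧ (∀ j, Bt p₁ j → j ≤ n) ∧
        (∀ m, m ≤ xs k n → (∀ j, Bt (rep q k) j → m ≤ j) → ∀ j, Bt q₁ j → m ≤ j) ∧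
        f.holds natS (asg5 y₁ (2 ^ z₁) p₁ q₁ (fun i => rep (c i) k))) := by
    filter_upwards [hy, ha1 n (by omega), ha2 n (by omega), ha3 n (by omega), ha4 n (by omega),
      ha5 n (by omega), he n (by omega), hh0 h0 le_rfl, hz, ev_ge (n + 1), rep_pow gr z]
      with k b1 b2 b3 b4 b5 b6 b7 b8 b9 b10 b11
    obtain ⟨i, hi⟩ := b9 n (by omega) (by omega)
    have hrow := row_V (k := k) (n := n) (h := h0 + 1) (by omega) (by omega)
    have hrow' := rw_iff.1 hrow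
    have heV : rep e k < V k (h0 + 1) := lt_trans b8 (xs_lt_V (by omega))
    have hzx : rep z k < xs k n := (cU_lt hi).2.2.2
    have hT : Test (xs k n) (tow k (xs k n)) (rep e k) (2 ^ rep z k) (rep p k) (rep q k) := by
      have h2 : TS k n (rep e k) (rep ((SS gr).pow z) k) (rep p k) (rep q k) :=
        (b7 _ _ _).2 ⟨b3, b4, b5, rep y k, b2, b1⟩
      rw [b11] at h2
      exact h2
    have hCm : Cm n (xs k n) (tow k (xs k n)) (rep e k) (V k (h0 + 1)) (rep z k) (rep p k)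
        (rep q k) := by
      refine ⟨⟨0, (cU_lt hi).2.1, i, (cU_lt hi).2.2.1, hi⟩, hT, fun j _ hj => ?_⟩
      exact Nat.lt_succ_of_le (b6 j hj)
    obtain ⟨z₁, hz₁, p₁, hp₁, q₁, hq₁, hC₁, hO₁, hm₁⟩ := (nx (by omega : n < k)).kill (V k (h0 + 1))
      (cD_lt hrow'.1) _ (cD_lt hrow'.2.1) hrow (rep e k) heV (rep z k) hzx (rep p k) b4 (rep q k) b5
      hCm
    obtain ⟨⟨c₁, _, i₁, _, hU₁⟩, hT₁, hp1⟩ := hC₁
    obtain ⟨h3, h4, h5, y₁, hy₁, h6⟩ := (b7 _ _ _).1 hT₁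
    refine ⟨z₁, hz₁.le, p₁, hp₁.le, q₁, hq₁.le, y₁, hy₁.le, ?_, fun j hj => ?_, fun m hm h7 j hj => ?_,
      h6⟩
    · rw [dd_eq (by omega)]
      exact ⟨hO₁, lt_of_lt_of_le (cls_lt (by omega) hU₁).2.2.2 (V_mono (by omega) (by omega))⟩
    · exact Nat.lt_succ_iff.1 (hp1 j hj.lt hj)
    · by_contra h8
      refine hm₁ m (by omega) (fun j' hj' h9 => ?_) j (by omega) hj
      have := h7 j' h9
      omega
  obtain ⟨z₁, hz₁⟩ := choose_fn (bd_xs n) h1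
  obtain ⟨p₁, hp₁⟩ := choose_fn (bd_xs n) (hz₁.mono fun _ h => h.2)
  obtain ⟨q₁, hq₁⟩ := choose_fn (bd_xs n) (hp₁.mono fun _ h => h.2)
  obtain ⟨y₁, hy₁⟩ := choose_fn (bd_xs n) (hq₁.mono fun _ h => h.2)
  have hNeg₁ : Neg (SS gr) ((SS gr).pow z₁) AA := by
    refine (hred _).2.2 ⟨p₁, q₁, ?_, ?_, ?_⟩
    · rw [hF, ce4_iff]
      refine ⟨y₁, ?_⟩
      filter_upwards [hy₁, rep_pow gr z₁] with k h2 h3
      rw [h3]
      exact h2.2.2.2.2
    · intro x hx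
      rw [elt_iff] at hx
      rw [II_iff]
      refine ⟨n, ?_⟩
      filter_upwards [hx, hy₁] with k h3 h4
      exact h4.2.2.1 _ h3
    · intro x hx
      rw [elt_iff] at hx
      rw [not_II_iff]
      intro m
      have hmx : ∀ᶠ k in Uf, m ≤ xs k n := by
        obtain ⟨a, ha⟩ := bd_stage (Bd.const gr m)
        filter_upwards [ev_ge m] with k hk
        have h3 := V_lt_xs (k := k) (n := 0) (by omega)
        rw [V_zero] at h3
        have h4 : xs k 0 ≤ xs k n := xs_le (Nat.zero_le n)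
        omega
      filter_upwards [hx, hy₁, hq' m, hmx] with k h3 h4 h5 h6
      refine h4.2.2.2.1 m h6 (fun j hj => ?_) _ h3
      have := h5 j hj
      omega
  exact hNeg₁ z₁ (elt_pow.2 rfl) ⟨n + 1, hy₁.mono fun _ h => h.2.1⟩

end Pool.Agent.BSig
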