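import Pool.Agent.Work.MP_510745_lc.Exist2

/-!
The sequence of states.
-/

namespace Pool.Agent.BSig

theorem inv_next {a n x x' v : ℕ} (hI : Inv a n x v) (h : TT a n x x') :
    ∃ v', Inv a (n + 1) x' v' ∧ x < v' ∧ x < x' := by
  obtain ⟨hn, v0, _, v', _, D, _, hTp, hPD, h1, h2, h3, h4, h5, h6, h7, h8, h9, h10, h11, h12,
    h14, hDi⟩ := h
  have hv0 : v0 = v := by
    rw [tp_iff] at hTp
    have := hI.tp
    rw [tp_iff] at this
    exact le_antisymm (this.2 v0 hTp.1) (hTp.2 v this.1)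
  subst hv0
  obtain ⟨h2a, h2b, h2c⟩ := h2
  have hvx : v0 < x := cD_lt hI.tp.1
  have hTp' := tp_iff.1 h2b
  have hv'x' : v' < x' := cD_lt hTp'.1
  have hbd : ∀ d, cD x' d ↔ (cD x d ∨ d = v') := by
    intro d
    by_cases hd : d < x'
    · exact h2c d hd
    · constructor
      · intro h; exact absurd (cD_lt h) hd
      · rintro (h | rfl)
        · have := (tp_iff.1 hI.tp).2 d h; omega
        · omega
  have hvmax := (tp_iff.1 hI.tp).2
  have hrow : ∀ b b', Rw x' b b' → (Rw x b b' ∧ b < v0) ∨ (b = v0 ∧ b' = v') := by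
    intro b b' hr
    rw [rw_iff] at hr
    obtain ⟨e1, e2, e3, e4⟩ := hr
    rw [hbd] at e1 e2
    by_cases hb : b < v0
    · left
      refine ⟨?_, hb⟩
      have f1 : cD x b := by
        rcases e1 with h | h
        · exact h
        · omega
      have f2 : cD x b' := by
        rcases e2 with h | h
        · exact h
        · have := e4 v0 ((hbd v0).2 (Or.inl hI.tp.1)); omega
      exact rw_iff.2 ⟨f1, f2, e3, fun d hd => e4 d ((hbd d).2 (Or.inl hd))⟩
    · right
      have f1 : b ≤ v0 ∨ b = v' := e1.imp (hvmax b) id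
      have f2 : b' ≤ v0 ∨ b' = v' := e2.imp (hvmax b') id
      omega
  refine ⟨v', ?_, h2a, by omega⟩
  have hlb : LbOK x' := by
    intro z w h
    obtain ⟨b, _, b', _, e1, e2, e3, e4⟩ := h5.1 z (cL_lt h).1 w (cL_lt h).2 h
    exact ⟨b, b', e1, by omega, e3, e4⟩
  constructor
  · exact h2b
  · omega
  · have := hI.av; omega
  · exact (hbd _).2 (Or.inl hI.bd0)
  · intro d hd
    rcases (hbd d).1 hd with h | rfl
    · exact hI.bd d h
    · have := hI.av; omega
  · obtain ⟨S, hS, hS'⟩ := hI.card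
    refine ⟨insert v' S, le_trans (Finset.card_insert_le _ _) (by omega), fun d hd => ?_⟩
    rcases (hbd d).1 hd with h | rfl
    · exact Finset.mem_insert_of_mem (hS' d h)
    · exact Finset.mem_insert_self _ _
  · intro z hz
    rw [h3 z (by omega)]
    omega
  · intro z hz
    exact (h4 z (cO_lt hz) hz).1
  · exact hlb
  · intro z w e1 e2
    exact h5.2.1 z (cL_lt e2).1 w (cL_lt e2).2 e1 e2
  · intro z hz
    exact h6.1 z (cR_lt hz) hz
  · exact h7
  · exact h8
  · exact h9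
  · exact h10
  · intro b b' hr
    obtain ⟨t, _, ht⟩ := h14.1 b (cD_lt (rw_iff.1 hr).1) b' (cD_lt (rw_iff.1 hr).2.1) hr
    exact ⟨t, ht⟩
  · intro b t t₁ e1 e2
    exact h14.2.1 b (cT_lt e1).1 t (cT_lt e1).2 t₁ (cT_lt e2).2 e1 e2
  · intro b b' t hr hT
    rcases hrow b b' hr with ⟨hr', hb⟩ | ⟨rfl, rfl⟩
    · have e1 := h14.2.2.1 b hb t (cT_lt hT).2 hT
      obtain ⟨y, hy, e2⟩ := hI.tw b b' _ hr' e1
      refine ⟨y, hy, ?_⟩
      have e3 : tow (3 * (a - n) + 3) y = 2 ^ 2 ^ 2 ^ tow (3 * (a - n)) y := rfl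
      rw [e3] at e2
      have e4 : t = tow (3 * (a - n)) y := by
        have f : ∀ p q : ℕ, 2 ^ p = 2 ^ q → p = q := fun p q h =>
          Nat.pow_right_injective (le_refl 2) h
        exact f _ _ (f _ _ (f _ _ e2))
      rw [e4]
      congr 1
      omega
    · obtain ⟨i, _, e1, e2⟩ := h14.2.2.2 t (cT_lt hT).2 hT
      have e3 : ∀ j, j ≤ 3 * a + 4 → cP x' j (tow j x) := by
        intro j
        induction j with
        | zero => intro _; exact h1.1
        | succ j ih =>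
          intro hj
          have := ih (by omega)
          exact h1.2.1 j (by omega) _ (cP_lt this).2 this
      have e4 := e3 i (by omega)
      have e5 := h1.2.2 i (cP_lt e2).1 t (cP_lt e2).2 _ (cP_lt e4).2 e2 e4
      refine ⟨x, hvx, ?_⟩
      rw [e5]
      congr 1
      omega

theorem ex_init (a : ℕ) : ∃ x, Inv a 0 x (a + 1) := by
  obtain ⟨x, hO, hL, hR, hU, hD, hT, hP⟩ := code_state (a + 1) (fun z => z ≤ a) (fun _ => False)
    (fun z => z = a + 1) (fun _ _ => False) (fun _ _ => False) (fun _ _ => False)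
    (fun _ _ _ _ => False) (fun z hz => by omega) (fun z hz => hz.elim) (fun z hz => by omega)
    (fun z w h => h.elim) (fun z w h => h.elim) (fun z w h => h.elim) (fun b c i z h => h.elim)
  have hTp : Tp x (a + 1) := tp_iff.2 ⟨(hD _).2 rfl, fun d hd => by rw [(hD d).1 hd]⟩
  have hrow : ∀ b b', ¬ Rw x b b' := by
    intro b b' hr
    rw [rw_iff] at hr
    have h1 := (hD b).1 hr.1
    have h2 := (hD b').1 hr.2.1
    have := hr.2.2.1
    omega
  refine ⟨x, ?_⟩
  constructor
  · exact hTp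
  · omega
  · omega
  · exact (hD _).2 rfl
  · intro d hd; rw [(hD d).1 hd]
  · exact ⟨{a + 1}, by simp, fun d hd => by simp [(hD d).1 hd]⟩
  · intro z hz; rw [hO]; omega
  · intro z hz; have := (hO z).1 hz; omega
  · intro z w h; exact ((hL z w).1 h).elim
  · intro z w _ h; exact ((hL z w).1 h).elim
  · intro z h; exact ((hR z).1 h).elim
  · intro b _ c _ i _ z _ h; exact ((hU b c i z).1 h).elim
  · intro z _ h h'; have := (hO z).1 h; omega
  · intro b _ c _ i _ c₁ _ i₁ _ z _ h _; exact ((hU b c i z).1 h).elim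
  · intro b _ b' _ hr; exact (hrow b b' hr).elim
  · intro b b' hr; exact (hrow b b' hr).elim
  · intro b t t₁ h _; exact ((hT b t).1 h).elim
  · intro b b' t hr; exact (hrow b b' hr).elim

/-- The initial state. -/
noncomputable def x0 (a : ℕ) : ℕ := (ex_init a).choose

open Classical in
/-- The sequence of states with horizon `k`. -/
noncomputable def xs (k : ℕ) : ℕ → ℕ
  | 0 => x0 k
  | (n + 1) => if h : ∃ x', TT k n (xs k n) x' then Nat.find h else xs k n

/-- The last boundaries. -/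
theorem xs_inv (k n : ℕ) (hn : n ≤ k) : ∃ v, Inv k n (xs k n) v := by
  classical
  induction n with
  | zero => exact ⟨k + 1, (ex_init k).choose_spec⟩
  | succ n ih =>
    obtain ⟨v, hv⟩ := ih (by omega)
    have h := exists_next hv (by omega)
    have h1 : xs k (n + 1) = Nat.find h := by
      simp only [xs, dif_pos h]
    obtain ⟨v', h2, _⟩ := inv_next hv (h1 ▸ Nat.find_spec h : TT k n (xs k n) (xs k (n + 1)))
    exact ⟨v', h2⟩

theorem xs_TL (k n : ℕ) (hn : n < k) : TL k n (xs k n) (xs k (n + 1)) := by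
  classical
  obtain ⟨v, hv⟩ := xs_inv k n (by omega)
  have h := exists_next hv hn
  have h1 : xs k (n + 1) = Nat.find h := by
    simp only [xs, dif_pos h]
  rw [h1]
  exact ⟨Nat.find_spec h, fun y hy => Nat.find_min h hy⟩

theorem xs_TT (k n : ℕ) (hn : n < k) : TT k n (xs k n) (xs k (n + 1)) := (xs_TL k n hn).1

theorem xs_of_TL {k n x' : ℕ} (h : TL k n (xs k n) x') : x' = xs k (n + 1) := by
  classical
  have h0 : ∃ x', TT k n (xs k n) x' := ⟨x', h.1⟩
  have h1 : xs k (n + 1) = Nat.find h0 := by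
    simp only [xs, dif_pos h0]
  rw [h1]
  refine le_antisymm ?_ (Nat.find_min' h0 h.1)
  by_contra hc
  exact h.2 _ (by omega) (Nat.find_spec h0)

theorem xs_lt (k n : ℕ) (hn : n < k) : xs k n < xs k (n + 1) := by
  obtain ⟨v, hv⟩ := xs_inv k n (by omega)
  obtain ⟨v', _, _, h⟩ := inv_next hv (xs_TT k n hn)
  exact h

theorem xs_mono (k n : ℕ) : xs k n ≤ xs k (n + 1) := by
  by_cases hn : n < k
  · exact (xs_lt k n hn).le
  · have h0 : ¬ ∃ x', TT k n (xs k n) x' := by
      rintro ⟨x', h⟩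
      exact hn h.1
    simp only [xs, dif_neg h0]
    exact le_rfl

theorem xs_le {k m n : ℕ} (h : m ≤ n) : xs k m ≤ xs k n := by
  induction h with
  | refl => exact le_rfl
  | step _ ih => exact le_trans ih (xs_mono _ _)

/-- The tower component. -/
theorem tt_tower {a n x x' : ℕ} (h : TT a n x x') : ∀ j, j ≤ 3 * a + 4 → cP x' j (tow j x) := by
  obtain ⟨_, v0, _, v', _, D, _, hTp, hPD, h1, _⟩ := h
  intro j
  induction j with
  | zero => intro _; exact h1.1
  | succ j ih =>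
    intro hj
    have := ih (by omega)
    exact h1.2.1 j (by omega) _ (cP_lt this).2 this

theorem xs_tow (k n j : ℕ) (hn : n < k) (hj : j ≤ 3 * k + 4) :
    tow j (xs k n) < xs k (n + 1) :=
  (cP_lt (tt_tower (xs_TT k n hn) j hj)).2

/-- A history determines the states. -/
theorem hist_iff (k n y : ℕ) (hn : n ≤ k) : (∃ w, Hist k (x0 k) n y w) ↔ y = xs k n := by
  constructor
  · rintro ⟨w, h0, h1, h2, h3⟩
    have key : ∀ i, i ≤ n → Bt w (pr i (xs k i)) := by
      intro i
      induction i with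
      | zero => intro _; exact h0
      | succ i ih =>
        intro hi
        have h4 := ih (by omega)
        obtain ⟨s', _, h5, h6⟩ := h1 i (by omega) (xs k i)
          (lt_of_le_of_lt (le_pr_right _ _) h4.lt) h4
        rw [← xs_of_TL h5]; exact h6
    exact h2 n (by omega) y (lt_of_le_of_lt (le_pr_right _ _) h3.lt) (xs k n)
      (lt_of_le_of_lt (le_pr_right _ _) (key n le_rfl).lt) h3 (key n le_rfl)
  · rintro rfl
    obtain ⟨w, -, hw⟩ := mk_code' (pr n (xs k n) + 1) (fun z => ∃ i, i ≤ n ∧ z = pr i (xs k i)) (by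
      rintro z ⟨i, hi, rfl⟩
      have := pr_mono hi (xs_le (k := k) hi)
      omega)
    refine ⟨w, (hw _).2 ⟨0, by omega, rfl⟩, ?_, ?_, (hw _).2 ⟨n, le_rfl, rfl⟩⟩
    · intro i hi s _ h
      obtain ⟨j, hj, h1⟩ := (hw _).1 h
      obtain ⟨rfl, rfl⟩ := pr_inj h1
      have h2 : Bt w (pr (i + 1) (xs k (i + 1))) := (hw _).2 ⟨i + 1, by omega, rfl⟩
      exact ⟨xs k (i + 1), lt_of_le_of_lt (le_pr_right _ _) h2.lt, xs_TL k i (by omega), h2⟩
    · intro i hi s _ s' _ h h'
      obtain ⟨j, hj, h1⟩ := (hw _).1 h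
      obtain ⟨rfl, rfl⟩ := pr_inj h1
      obtain ⟨j, hj, h1⟩ := (hw _).1 h'
      obtain ⟨rfl, rfl⟩ := pr_inj h1
      rfl

theorem hist_le {k n y w : ℕ} (h : Hist k (x0 k) n y w) : n ≤ k := by
  by_contra hc
  obtain ⟨h0, h1, h2, h3⟩ := h
  have key : ∀ i, i ≤ k + 1 → Bt w (pr i (xs k i)) := by
    intro i
    induction i with
    | zero => intro _; exact h0
    | succ i ih =>
      intro hi
      have h4 := ih (by omega)
      obtain ⟨s', _, h5, h6⟩ := h1 i (by omega) (xs k i)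
        (lt_of_le_of_lt (le_pr_right _ _) h4.lt) h4
      rw [← xs_of_TL h5]; exact h6
  obtain ⟨s', _, h5, _⟩ := h1 k (by omega) (xs k k)
    (lt_of_le_of_lt (le_pr_right _ _) (key k (by omega)).lt) (key k (by omega))
  exact lt_irrefl _ h5.1.1

/-- A bounded history code. -/
theorem hist_bound (k n : ℕ) (hn : n ≤ k) :
    ∃ w, w < 2 ^ (pr n (xs k n) + 1) ∧ Hist k (x0 k) n (xs k n) w := by
  obtain ⟨w, hwb, hw⟩ := mk_code' (pr n (xs k n) + 1) (fun z => ∃ i, i ≤ n ∧ z = pr i (xs k i)) (by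
    rintro z ⟨i, hi, rfl⟩
    have := pr_mono hi (xs_le (k := k) hi)
    omega)
  refine ⟨w, hwb, (hw _).2 ⟨0, by omega, rfl⟩, ?_, ?_, (hw _).2 ⟨n, le_rfl, rfl⟩⟩
  · intro i hi s _ h
    obtain ⟨j, hj, h1⟩ := (hw _).1 h
    obtain ⟨rfl, rfl⟩ := pr_inj h1
    have h2 : Bt w (pr (i + 1) (xs k (i + 1))) := (hw _).2 ⟨i + 1, by omega, rfl⟩
    exact ⟨xs k (i + 1), lt_of_le_of_lt (le_pr_right _ _) h2.lt, xs_TL k i (by omega), h2⟩
  · intro i hi s _ s' _ h h'
    obtain ⟨j, hj, h1⟩ := (hw _).1 h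
    obtain ⟨rfl, rfl⟩ := pr_inj h1
    obtain ⟨j, hj, h1⟩ := (hw _).1 h'
    obtain ⟨rfl, rfl⟩ := pr_inj h1
    rfl

end Pool.Agent.BSig
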