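import Pool.Agent.Work.MP_510745_lc.Facts

/-!
Snapshots: the finite analysis of the claims present at stage `n`.
-/

namespace Pool.Agent.BSig

/-- Claims at stage `n`. -/
def TS (k n e K p q : ℕ) : Prop := Test (xs k n) (tow k (xs k n)) e K p q

/-- Covering of `K` at the snapshot `n` by a set `W`. -/
def Cn (k n e : ℕ) (W : ℕ → Prop) (K : ℕ) : Prop := ClS (TS k n e) (Dd (xs k (n + 1))) W K

/-- The lower state at stage `m`. -/
def Xs (k h m : ℕ) : ℕ → Prop := fun z => z < V k h ∧ cO (xs k m) z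

/-- The set generated at the snapshot `n` by the lower state at stage `m`. -/
def Gh (k n h m : ℕ) : ℕ → Prop :=
  GH (cL (xs k (n + 1))) (cR (xs k (n + 1))) (V k h) (Xs k h m)

/-- The set generated with all elements of row `h` except those of a unit. -/
def G3 (k n h m c i : ℕ) : ℕ → Prop :=
  GS (cL (xs k (n + 1))) (cR (xs k (n + 1))) (V k h) (V k (h + 1)) (Xs k h m)
    (rowS (cL (xs k (n + 1))) (V k h) (V k (h + 1))
      (fun z => cO (xs k (n + 1)) z ∧ ¬ cU (xs k (n + 1)) (V k h) c i z) (Xs k h m))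

/-- The set generated with the reserved elements and a unit of row `h`. -/
def G2 (k n h m c i : ℕ) : ℕ → Prop :=
  GS (cL (xs k (n + 1))) (cR (xs k (n + 1))) (V k h) (V k (h + 1)) (Xs k h m)
    (rowS (cL (xs k (n + 1))) (V k h) (V k (h + 1))
      (fun z => cR (xs k (n + 1)) z ∨ cU (xs k (n + 1)) (V k h) c i z) (Xs k h m))

/-- Covering alternative. -/
def CovP (k n e r h m m' : ℕ) : Prop :=
  ∀ K, K < 2 ^ V k r → Cn k n e (Gh k n (h + 1) m') K → Cn k n e (Gh k n h m) K

/-- Independence alternative. -/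
def IndP (k n e r h m m' : ℕ) : Prop :=
  ∀ c i, (c = 0 ∨ ∃ N, c = N + 1 ∧ Xs k h m' N) → (∃ z, cU (xs k (n + 1)) (V k h) c i z) →
    ∃ K, K < 2 ^ V k r ∧ Cn k n e (G2 k n h m' c i) K ∧ ¬ Cn k n e (G3 k n h m c i) K

theorem Cn.mono {k n e K : ℕ} {W W' : ℕ → Prop} (h : ∀ z, W z → W' z) (hK : Cn k n e W K) :
    Cn k n e W' K := ClS.mono h hK

theorem Cn.down {k n e K K' : ℕ} {W : ℕ → Prop} (h : ∀ z, Bt K' z → Bt K z)
    (hK : Cn k n e W K) : Cn k n e W K' := by
  obtain ⟨k', p, q, h1, h2, h3, h4⟩ := hK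
  exact ⟨k', p, q, fun z hz => h1 z (h z hz), h2, h3, h4⟩

theorem Gh_alive {k n h m z : ℕ} (hnm : n + 1 ≤ m) (hm : m ≤ k)
    (hz : Gh k n h m z) : cO (xs k m) z := by
  induction hz with
  | base z hz => exact hz.2
  | high z _ h2 _ ih =>
    have h3 := (R_mono hnm hm h2 ih).1
    exact ((V_inv hm).rs z h3).1

theorem Gh_lt {k n h m z : ℕ} (hhn : h ≤ n + 1) (hnm : n + 1 ≤ m) (hm : m ≤ k)
    (hz : Gh k n h m z) : z < V k (n + 1) := by
  unfold Gh at hz
  rw [GH.iff] at hz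
  rcases hz with h1 | ⟨_, h1, _⟩
  · exact lt_of_lt_of_le h1.1 (V_mono hhn (by omega))
  · exact ov (by omega) ((V_inv (by omega : n + 1 ≤ k)).rs z h1).1

theorem Gh_step {k n h m z : ℕ} (hh : h ≤ n) (hnm : n + 1 ≤ m) (hm : m ≤ k)
    (hz : Gh k n h m z) : Gh k n (h + 1) m z := by
  have hVV : V k h ≤ V k (h + 1) := V_mono (by omega) (by omega)
  induction hz with
  | base z hz => exact GH.base z ⟨lt_of_lt_of_le hz.1 hVV, hz.2⟩
  | high z h1 h2 h3 ih =>
    by_cases h4 : z < V k (h + 1)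
    · exact GH.base z ⟨h4, Gh_alive hnm hm (GH.high z h1 h2 h3)⟩
    · exact GH.high z (by omega) h2 ih

theorem Gh_mono_h {k n h h' m z : ℕ} (hhh : h ≤ h') (hh : h' ≤ n + 1) (hnm : n + 1 ≤ m)
    (hm : m ≤ k) (hz : Gh k n h m z) : Gh k n h' m z := by
  induction hhh with
  | refl => exact hz
  | step h1 ih => exact Gh_step (by omega) hnm hm (ih (by omega))

theorem Gh_anti {k n h m m' z : ℕ} (hh : h ≤ m) (hmm : m ≤ m') (hm : m' ≤ k)
    (hz : Gh k n h m' z) : Gh k n h m z := by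
  refine GH.mono (fun z hz => ⟨hz.1, O_mono hmm hm ?_ hz.2⟩) hz
  exact lt_of_lt_of_le hz.1 (V_mono hh (by omega))

theorem Gh_top {k n m z : ℕ} (hnm : n + 1 ≤ m) (hm : m ≤ k) :
    Gh k n (n + 1) m z ↔ (z < V k (n + 1) ∧ cO (xs k m) z) := by
  constructor
  · intro hz
    exact ⟨Gh_lt le_rfl hnm hm hz, Gh_alive hnm hm hz⟩
  · intro h; exact GH.base z h

/-- The code of a lower state. -/
theorem ex_Xc (k h m : ℕ) : ∃ X, X < 2 ^ V k h ∧ ∀ z, Bt X z ↔ Xs k h m z :=
  mk_code' (V k h) (Xs k h m) (fun _ hz => hz.1)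

theorem dich {k n e r h m m' : ℕ} (hnk : n < k) (hh : h ≤ n) (he : e < V k h) (hr : r ≤ n + 1)
    (hm : n + 1 ≤ m) (hmm : m < m') (hm' : m' ≤ k) :
    CovP k n e r h m m' ∨ IndP k n e r h m m' := by
  obtain ⟨X, hX, hX1⟩ := ex_Xc k h m
  obtain ⟨X', hX', hX1'⟩ := ex_Xc k h m'
  have hrow := row_V (k := k) (n := n + 1) (h := h) (by omega) (by omega)
  have hrow' := rw_iff.1 hrow
  have hI := V_inv (k := k) (n := n + 1) (by omega)
  have hbd : cD (xs k (n + 1)) (V k r) := (bd_iff (by omega) _).2 ⟨r, hr, rfl⟩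
  have hVm : V k h ≤ V k m := V_mono (by omega) (by omega)
  have e1 : Bt X = Xs k h m := funext fun z => propext (hX1 z)
  have e2 : Bt X' = Xs k h m' := funext fun z => propext (hX1' z)
  have hsub : ∀ z, Xs k h m' z → Xs k h m z := fun z hz =>
    ⟨hz.1, O_mono hmm.le hm' (lt_of_lt_of_le hz.1 hVm) hz.2⟩
  have h1 := (nx hnk).dich (V k h) (cD_lt hrow'.1) (V k (h + 1)) (cD_lt hrow'.2.1) hrow e he
    (V k r) (cD_lt hbd) hbd X hX X' hX'
    (fun z _ hz => by
      rw [hX1] at hz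
      exact O_mono hm (by omega) (lt_of_lt_of_le hz.1 (V_mono (by omega) (by omega))) hz.2)
    (fun z _ hz => by
      rw [hX1'] at hz
      rw [hX1]
      exact hsub z hz)
    (fun hXX => by
      have hmk : m ≤ k := by omega
      have h0 : m < V k h := by
        have := V_mono (k := k) (Nat.zero_le h) (by omega)
        rw [V_zero] at this
        omega
      have h2 : Bt X m := (hX1 m).2 ⟨h0, (clock hmk hmk).2 le_rfl⟩
      rw [← hXX, hX1'] at h2
      have := (clock hm' hmk).1 h2.2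
      omega)
  rw [cov_iff hI.lb hrow, ind_iff hI.lb hrow, e1, e2] at h1
  refine h1.imp (fun h2 => ?_) (fun h2 => ?_)
  · intro K hK hc
    refine (h2 K hK (hc.mono fun z hz => ?_)).mono fun z hz => ?_
    · -- Gh (h+1) m' ⊆ GS
      unfold Gh at hz
      refine GH.mono (fun z hz => ?_) hz
      by_cases h3 : z < V k h
      · exact Or.inl ⟨h3, h3, hz.2⟩
      · refine Or.inr ⟨⟨by omega, hz.1, ?_⟩, fun w hw => ?_⟩
        · exact O_mono (by omega) hm' (lt_of_lt_of_le hz.1 (V_mono (by omega) (by omega))) hz.2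
        · have h4 : z < V k (n + 1) := lt_of_lt_of_le hz.1 (V_mono (by omega) (by omega))
          exact ⟨hI.lb.row hrow (by omega) hz.1 hw, (L_alive (by omega) hm' h4 hz.2 hw).2⟩
    · -- GS ⊆ Gh h m
      unfold GS at hz
      induction hz with
      | base z hz =>
        rcases hz with hz | ⟨⟨h3, h4, h5⟩, h6⟩
        · exact GH.base z hz.2
        · exact GH.high z h3 h5 (fun w hw => GH.base w (h6 w hw))
      | high z h3 h4 _ ih => exact GH.high z (by have := hrow'.2.2.1; omega) h4 ih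
  · intro c i hc hz
    have h3 := h2 c i hc hz
    unfold CS at h3
    push Not at h3
    exact h3

/-- In the independence case the set generated by an unharmed unit is alive. -/
theorem G2_alive {k n h m c i z : ℕ} (hnm : n + 1 ≤ m) (hm : m ≤ k)
    (hU : ∀ z, cU (xs k (n + 1)) (V k h) c i z → (∀ w, cL (xs k (n + 1)) z w → cO (xs k m) w) →
      cO (xs k m) z)
    (hz : G2 k n h m c i z) : cO (xs k m) z := by
  unfold G2 GS at hz
  induction hz with
  | base z hz =>
    rcases hz with hz | ⟨⟨_, _, h5⟩, h6⟩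
    · exact hz.2.2
    · rcases h5 with h5 | h5
      · exact ((V_inv hm).rs z (R_mono hnm hm h5 (fun w hw => (h6 w hw).2)).1).1
      · exact hU z h5 (fun w hw => (h6 w hw).2)
  | high z _ h2 _ ih =>
    exact ((V_inv hm).rs z (R_mono hnm hm h2 ih).1).1

theorem G2_lt {k n h m c i z : ℕ} (hh : h ≤ n) (hnk : n < k)
    (hz : G2 k n h m c i z) : z < V k (n + 1) := by
  have hV : V k h ≤ V k (n + 1) := V_mono (by omega) (by omega)
  have hV' : V k (h + 1) ≤ V k (n + 1) := V_mono (by omega) (by omega)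
  unfold G2 GS at hz
  rw [GH.iff] at hz
  rcases hz with (h1 | h1) | ⟨_, h1, _⟩
  · omega
  · have := h1.1.2.1; omega
  · exact ov (by omega) ((V_inv (by omega : n + 1 ≤ k)).rs z h1).1

/-- Validity: if `N` is dead then its units are not needed. -/
theorem G3_of_dead {k n h m m₁ N i z : ℕ} (hh : h ≤ n) (hnm : n + 1 ≤ m) (hmm : m ≤ m₁)
    (hm₁ : m₁ ≤ k) (hN : ¬ cO (xs k m₁) N) (hz : Gh k n (h + 1) m₁ z) :
    G3 k n h m (N + 1) i z := by
  have hI := V_inv (k := k) (n := n + 1) (by omega)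
  have hrow := row_V (k := k) (n := n + 1) (h := h) (by omega) (by omega)
  unfold Gh at hz
  refine GH.mono (fun z hz => ?_) hz
  have h4 : z < V k (n + 1) := lt_of_lt_of_le hz.1 (V_mono (by omega) (by omega))
  have hmono : ∀ w, w < V k (n + 1) → cO (xs k m₁) w → cO (xs k m) w := fun w hw h =>
    O_mono hmm hm₁ (lt_of_lt_of_le hw (V_mono hnm (by omega))) h
  by_cases h3 : z < V k h
  · exact Or.inl ⟨h3, h3, hmono z h4 hz.2⟩
  · refine Or.inr ⟨⟨by omega, hz.1, O_mono (by omega) hm₁ h4 hz.2, fun hU => ?_⟩, fun w hw => ?_⟩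
    · obtain ⟨_, _, h5, _⟩ := cls_lt (by omega) hU
      rcases h5 with h5 | ⟨N', h5, h6, h7⟩
      · omega
      · have : N = N' := by omega
        subst this
        exact hN (L_alive (by omega) hm₁ h4 hz.2 h7).2
    · have h5 := hI.lb.row hrow (by omega) hz.1 hw
      refine ⟨h5, hmono w ?_ (L_alive (by omega) hm₁ h4 hz.2 hw).2⟩
      exact lt_of_lt_of_le h5 (V_mono (by omega) (by omega))

end Pool.Agent.BSig
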