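import Pool.Agent.Work.MP_510745_lc.Univ

/-!
The transition relation of the construction. A state is a number `x`, read as a finite set of
tagged tuples: alive elements, labels, reserved elements, units, row boundaries, sizes, a tower.
-/

namespace Pool.Agent.BSig

/-- `z` is alive. -/
def cO (x z : ℕ) : Prop := Bt x (pr 1 z)
/-- `w` belongs to the label of `z`. -/
def cL (x z w : ℕ) : Prop := Bt x (pr 2 (pr z w))
/-- `z` is reserved. -/
def cR (x z : ℕ) : Prop := Bt x (pr 3 z)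
/-- `z` belongs to the unit number `i` of class `c` in the row starting at `b`. -/
def cU (x b c i z : ℕ) : Prop := Bt x (pr 4 (pr b (pr c (pr i z))))
/-- `z` is a row boundary. -/
def cD (x z : ℕ) : Prop := Bt x (pr 5 z)
/-- the row starting at `b` has `y` units in every class. -/
def cT (x b y : ℕ) : Prop := Bt x (pr 6 (pr b y))
/-- the `i`-th iterate of `2^y` at the previous state. -/
def cP (x i y : ℕ) : Prop := Bt x (pr 7 (pr i y))

/-- `[b, b')` is a row. -/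
def Rw (x b b' : ℕ) : Prop :=
  cD x b ∧ cD x b' ∧ b < b' ∧ ∀ d, d < x → (cD x d → (d < b + 1 ∨ b' < d + 1))

/-- `v` is the last boundary. -/
def Tp (x v : ℕ) : Prop := cD x v ∧ ∀ d, d < x → (cD x d → d < v + 1)

/-- `z` is dead. -/
def Dd (x z : ℕ) : Prop := ¬ cO x z ∧ ∃ d, d < x ∧ (cD x d ∧ z < d)

/-- the label of `z` is contained in `W`. -/
def Lsub (x z W : ℕ) : Prop := ∀ w, w < x → (cL x z w → Bt W w)

/-- the four kinds of admissible sets. -/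
def Adm (x j b c i z : ℕ) : Prop :=
  (j = 0 ∧ cO x z) ∨ (j = 1 ∧ cR x z) ∨ (j = 2 ∧ (cR x z ∨ cU x b c i z)) ∨
    (j = 3 ∧ cO x z ∧ ¬ cU x b c i z)

/-- `W` is generated from `X`, admissible elements of the row and reserved elements above. -/
def Gn (x j b b' c i X W : ℕ) : Prop :=
  ∀ z, z < x → (Bt W z ↔ ((z < b ∧ Bt X z) ∨
    (b < z + 1 ∧ z < b' ∧ Adm x j b c i z ∧ Lsub x z W) ∨ (b' < z + 1 ∧ cR x z ∧ Lsub x z W)))

/-- some claim of `e` covers `k` with negative part in `W`. -/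
def Cl (x B D e k W : ℕ) : Prop :=
  ∃ k', k' < B ∧ ∃ p, p < B ∧ ∃ q, q < B ∧
    ((∀ z, z < k → (Bt k z → Bt k' z)) ∧ (∀ z, z < p → (Bt p z → Dd x z)) ∧
      (∀ z, z < q → (Bt q z → Bt W z)) ∧ Test B D e k' p q)

/-- `Cl` for the generated set. -/
def CG (x B D e j b b' c i X k : ℕ) : Prop :=
  ∃ W, W < 2 ^ x ∧ (Gn x j b b' c i X W ∧ Cl x B D e k W)

/-- The covering alternative. -/
def Cov (x B D e f b b' X X' : ℕ) : Prop :=
  ∀ k, k < 2 ^ f → (CG x B D e 0 b b' 0 0 X' k → CG x B D e 1 b b' 0 0 X k)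

/-- The independence alternative. -/
def Ind (x B D e f b b' X X' : ℕ) : Prop :=
  ∀ c, c < x → ∀ i, i < x → ((c = 0 ∨ ∃ N, N < c ∧ (c = N + 1 ∧ Bt X' N)) →
    (∃ z, z < x ∧ cU x b c i z) →
    ∃ k, k < 2 ^ f ∧ (CG x B D e 2 b b' c i X' k ∧ ¬ CG x B D e 3 b b' c i X k))

/-- The dichotomy for all rows, opponents and pairs of lower states. -/
def Dich (x B D : ℕ) : Prop :=
  ∀ b, b < x → ∀ b', b' < x → (Rw x b b' → ∀ e, e < b → ∀ f, f < x → (cD x f →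
    ∀ X, X < 2 ^ b → ∀ X', X' < 2 ^ b → ((∀ z, z < b → (Bt X z → cO x z)) →
      (∀ z, z < b → (Bt X' z → Bt X z)) → ¬ X' = X →
      (Cov x B D e f b b' X X' ∨ Ind x B D e f b b' X X'))))

/-- The tower. -/
def T1 (a x x' : ℕ) : Prop :=
  cP x' 0 x ∧ (∀ i, i < 3 * a + 4 → ∀ y, y < x' → (cP x' i y → cP x' (i + 1) (2 ^ y))) ∧
    ∀ i, i < x' → ∀ y, y < x' → ∀ y', y' < x' → (cP x' i y → cP x' i y' → y = y')

/-- Boundaries. -/
def T2 (x x' v' : ℕ) : Prop :=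
  x < v' ∧ Tp x' v' ∧ ∀ d, d < x' → (cD x' d ↔ (cD x d ∨ d = v'))

/-- Clocks. -/
def T3 (a n x' : ℕ) : Prop := ∀ z, z < a + 1 → (cO x' z ↔ n < z)

/-- Alive elements. -/
def T4 (x x' v v' : ℕ) : Prop := ∀ z, z < x' → (cO x' z → (z < v' ∧ (z < v → cO x z)))

/-- Labels. -/
def T5 (x x' v : ℕ) : Prop :=
  (∀ z, z < x' → ∀ w, w < x' → (cL x' z w →
    ∃ b, b < x' ∧ ∃ b', b' < x' ∧ (Rw x' b b' ∧ b < z + 1 ∧ z < b' ∧ w < b))) ∧
  (∀ z, z < x' → ∀ w, w < x' → (cO x' z → cL x' z w → cO x' w)) ∧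
  (∀ z, z < v → ∀ w, w < x → (cO x' z → cL x z w → cL x' z w))

/-- Reserved elements. -/
def T6 (a x x' v : ℕ) : Prop :=
  (∀ z, z < x' → (cR x' z → (cO x' z ∧ a < z))) ∧
  (∀ z, z < v → (cR x z → (∀ w, w < x → (cL x z w → cO x' w)) →
    (cR x' z ∧ ∀ w, w < x' → (cL x' z w → cL x z w))))

/-- `c` is a class of the row `b`. -/
def Cls (x b c : ℕ) : Prop := c = 0 ∨ ∃ N, N < c ∧ (c = N + 1 ∧ N < b ∧ cO x N)

/-- Units. -/
def T7 (x' : ℕ) : Prop :=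
  ∀ b, b < x' → ∀ c, c < x' → ∀ i, i < x' → ∀ z, z < x' → (cU x' b c i z →
    ∃ b', b' < x' ∧ (Rw x' b b' ∧ b < z + 1 ∧ z < b' ∧ cO x' z ∧ ¬ cR x' z ∧
      (c = 0 ∨ ∃ N, N < c ∧ (c = N + 1 ∧ N < b ∧ cL x' z N)) ∧ ∃ t, t < x' ∧ (cT x' b t ∧ i < t)))

/-- Every alive non-clock element is reserved or in a unit. -/
def T8 (a x' : ℕ) : Prop :=
  ∀ z, z < x' → (cO x' z → a < z → (cR x' z ∨
    ∃ b, b < x' ∧ ∃ c, c < x' ∧ ∃ i, i < x' ∧ cU x' b c i z))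

/-- Units are disjoint. -/
def T9 (x' : ℕ) : Prop :=
  ∀ b, b < x' → ∀ c, c < x' → ∀ i, i < x' → ∀ c₁, c₁ < x' → ∀ i₁, i₁ < x' → ∀ z, z < x' →
    (cU x' b c i z → cU x' b c₁ i₁ z → (c = c₁ ∧ i = i₁))

/-- All units of all classes have an element with smallest possible label. -/
def T10 (x' : ℕ) : Prop :=
  ∀ b, b < x' → ∀ b', b' < x' → (Rw x' b b' → ∀ t, t < x' → (cT x' b t → ∀ c, c < b + 1 →
    (Cls x' b c → ∀ i, i < t → ∃ z, z < x' ∧ (cU x' b c i z ∧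
      ∀ w, w < x' → (cL x' z w → w + 1 = c)))))

/-- Every new unit contains an old unit of every class. -/
def T11 (x x' : ℕ) : Prop :=
  ∀ b, b < x → ∀ b', b' < x → (Rw x b b' → ∀ c', c' < x' → ∀ i', i' < x' →
    ((∃ z, z < x' ∧ cU x' b c' i' z) → ∀ c, c < b + 1 → (Cls x' b c → ∃ i, i < x ∧
      ((∃ z, z < x ∧ cU x b c i z) ∧ ∀ z, z < x → (cU x b c i z →
        (∀ w, w < x → (cL x z w → cO x' w)) → (cU x' b c' i' z ∧
          ∀ w, w < x' → (cL x' z w → (cL x z w ∨ w + 1 = c'))))))))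

/-- A claim of `e` on the non-reserved element `z`. -/
def Cm (n x D e b z p q : ℕ) : Prop :=
  (∃ c, c < x ∧ ∃ i, i < x ∧ cU x b c i z) ∧ Test x D e (2 ^ z) p q ∧
    ∀ j, j < p → (Bt p j → j < n + 1)

/-- Demanded kills. -/
def T12 (n x x' D : ℕ) : Prop :=
  ∀ b, b < x → ∀ b', b' < x → (Rw x b b' → ∀ e, e < b → ∀ z, z < x → ∀ p, p < x → ∀ q, q < x →
    (Cm n x D e b z p q → ∃ z₁, z₁ < x ∧ ∃ p₁, p₁ < x ∧ ∃ q₁, q₁ < x ∧
      (Cm n x D e b z₁ p₁ q₁ ∧ ¬ cO x' z₁ ∧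
        ∀ m, m < x + 1 → ((∀ j, j < m → ¬ Bt q j) → ∀ j, j < m → ¬ Bt q₁ j))))

/-- Sizes. -/
def T14 (a n x x' v : ℕ) : Prop :=
  (∀ b, b < x' → ∀ b', b' < x' → (Rw x' b b' → ∃ t, t < x' ∧ cT x' b t)) ∧
  (∀ b, b < x' → ∀ t, t < x' → ∀ t₁, t₁ < x' → (cT x' b t → cT x' b t₁ → t = t₁)) ∧
  (∀ b, b < v → ∀ t, t < x' → (cT x' b t → cT x b (2 ^ 2 ^ 2 ^ t))) ∧
  (∀ t, t < x' → (cT x' v t → ∃ i, i < 3 * a + 1 ∧ (i + 3 * n = 3 * a ∧ cP x' i t)))

/-- The transition relation from stage `n` to stage `n + 1`. -/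
def TT (a n x x' : ℕ) : Prop :=
  n < a ∧ ∃ v, v < x + 1 ∧ ∃ v', v' < x' + 1 ∧ ∃ D, D < x' + 1 ∧
    (Tp x v ∧ cP x' a D ∧ T1 a x x' ∧ T2 x x' v' ∧ T3 a n x' ∧ T4 x x' v v' ∧ T5 x x' v ∧
      T6 a x x' v ∧ T7 x' ∧ T8 a x' ∧ T9 x' ∧ T10 x' ∧ T11 x x' ∧ T12 n x x' D ∧
      T14 a n x x' v ∧ Dich x' x D)

/-- The least transition. -/
def TL (a n x x' : ℕ) : Prop := TT a n x x' ∧ ∀ y, y < x' → ¬ TT a n x y

/-- `w` is a history from `x₀` at stage `0` to `y` at stage `n`. -/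
def Hist (a x₀ n y w : ℕ) : Prop :=
  Bt w (pr 0 x₀) ∧ (∀ i, i < n → ∀ s, s < w → (Bt w (pr i s) →
    ∃ s', s' < w ∧ (TL a i s s' ∧ Bt w (pr (i + 1) s')))) ∧
  (∀ i, i < n + 1 → ∀ s, s < w → ∀ s', s' < w → (Bt w (pr i s) → Bt w (pr i s') → s = s')) ∧
  Bt w (pr n y)

set_option synthInstance.maxSize 100000

section inst
variable {g0 g1 g2 g3 g4 g5 g6 g7 g8 g9 g10 : (ℕ → ℕ) → ℕ} [h0 : DT g0] [h1 : DT g1]
  [h2 : DT g2] [h3 : DT g3] [h4 : DT g4] [h5 : DT g5] [h6 : DT g6] [h7 : DT g7] [h8 : DT g8]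
  [h9 : DT g9] [h10 : DT g10]

instance d0_cO : D0 (fun v => cO (g0 v) (g1 v)) := by apply D0.s2; unfold cO; infer_instance
instance d0_cL : D0 (fun v => cL (g0 v) (g1 v) (g2 v)) := by
  apply D0.s3; unfold cL; infer_instance
instance d0_cR : D0 (fun v => cR (g0 v) (g1 v)) := by apply D0.s2; unfold cR; infer_instance
instance d0_cU : D0 (fun v => cU (g0 v) (g1 v) (g2 v) (g3 v) (g4 v)) := by
  apply D0.s5; unfold cU; infer_instance
instance d0_cD : D0 (fun v => cD (g0 v) (g1 v)) := by apply D0.s2; unfold cD; infer_instance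
instance d0_cT : D0 (fun v => cT (g0 v) (g1 v) (g2 v)) := by
  apply D0.s3; unfold cT; infer_instance
instance d0_cP : D0 (fun v => cP (g0 v) (g1 v) (g2 v)) := by
  apply D0.s3; unfold cP; infer_instance
instance d0_Rw : D0 (fun v => Rw (g0 v) (g1 v) (g2 v)) := by
  apply D0.s3; unfold Rw; infer_instance
instance d0_Tp : D0 (fun v => Tp (g0 v) (g1 v)) := by apply D0.s2; unfold Tp; infer_instance
instance d0_Dd : D0 (fun v => Dd (g0 v) (g1 v)) := by apply D0.s2; unfold Dd; infer_instance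
instance d0_Lsub : D0 (fun v => Lsub (g0 v) (g1 v) (g2 v)) := by
  apply D0.s3; unfold Lsub; infer_instance
instance d0_Adm : D0 (fun v => Adm (g0 v) (g1 v) (g2 v) (g3 v) (g4 v) (g5 v)) := by
  apply D0.s6; unfold Adm; infer_instance
instance d0_Gn : D0 (fun v => Gn (g0 v) (g1 v) (g2 v) (g3 v) (g4 v) (g5 v) (g6 v) (g7 v)) := by
  apply D0.s8; unfold Gn; infer_instance
instance d0_Cl : D0 (fun v => Cl (g0 v) (g1 v) (g2 v) (g3 v) (g4 v) (g5 v)) := by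
  apply D0.s6; unfold Cl; infer_instance
instance d0_CG : D0 (fun v => CG (g0 v) (g1 v) (g2 v) (g3 v) (g4 v) (g5 v) (g6 v) (g7 v) (g8 v)
    (g9 v) (g10 v)) := by
  apply D0.s11; unfold CG; infer_instance
instance d0_Cov : D0 (fun v => Cov (g0 v) (g1 v) (g2 v) (g3 v) (g4 v) (g5 v) (g6 v) (g7 v)
    (g8 v)) := by
  apply D0.s9; unfold Cov; infer_instance
instance d0_Ind : D0 (fun v => Ind (g0 v) (g1 v) (g2 v) (g3 v) (g4 v) (g5 v) (g6 v) (g7 v)
    (g8 v)) := by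
  apply D0.s9; unfold Ind; infer_instance
instance d0_Dich : D0 (fun v => Dich (g0 v) (g1 v) (g2 v)) := by
  apply D0.s3; unfold Dich; infer_instance
instance d0_T1 : D0 (fun v => T1 (g0 v) (g1 v) (g2 v)) := by
  apply D0.s3; unfold T1; infer_instance
instance d0_T2 : D0 (fun v => T2 (g0 v) (g1 v) (g2 v)) := by
  apply D0.s3; unfold T2; infer_instance
instance d0_T3 : D0 (fun v => T3 (g0 v) (g1 v) (g2 v)) := by
  apply D0.s3; unfold T3; infer_instance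
instance d0_T4 : D0 (fun v => T4 (g0 v) (g1 v) (g2 v) (g3 v)) := by
  apply D0.s4; unfold T4; infer_instance
instance d0_T5 : D0 (fun v => T5 (g0 v) (g1 v) (g2 v)) := by
  apply D0.s3; unfold T5; infer_instance
instance d0_T6 : D0 (fun v => T6 (g0 v) (g1 v) (g2 v) (g3 v)) := by
  apply D0.s4; unfold T6; infer_instance
instance d0_Cls : D0 (fun v => Cls (g0 v) (g1 v) (g2 v)) := by
  apply D0.s3; unfold Cls; infer_instance
instance d0_T7 : D0 (fun v => T7 (g0 v)) := by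
  apply D0.s1; unfold T7; infer_instance
instance d0_T8 : D0 (fun v => T8 (g0 v) (g1 v)) := by
  apply D0.s2; unfold T8; infer_instance
instance d0_T9 : D0 (fun v => T9 (g0 v)) := by
  apply D0.s1; unfold T9; infer_instance
instance d0_T10 : D0 (fun v => T10 (g0 v)) := by
  apply D0.s1; unfold T10; infer_instance
instance d0_T11 : D0 (fun v => T11 (g0 v) (g1 v)) := by
  apply D0.s2; unfold T11; infer_instance
instance d0_Cm : D0 (fun v => Cm (g0 v) (g1 v) (g2 v) (g3 v) (g4 v) (g5 v) (g6 v) (g7 v)) := by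
  apply D0.s8; unfold Cm; infer_instance
instance d0_T12 : D0 (fun v => T12 (g0 v) (g1 v) (g2 v) (g3 v)) := by
  apply D0.s4; unfold T12; infer_instance
instance d0_T14 : D0 (fun v => T14 (g0 v) (g1 v) (g2 v) (g3 v) (g4 v)) := by
  apply D0.s5; unfold T14; infer_instance
instance d0_TT : D0 (fun v => TT (g0 v) (g1 v) (g2 v) (g3 v)) := by
  apply D0.s4; unfold TT; infer_instance
instance d0_TL : D0 (fun v => TL (g0 v) (g1 v) (g2 v) (g3 v)) := by
  apply D0.s4; unfold TL; infer_instance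
instance d0_Hist : D0 (fun v => Hist (g0 v) (g1 v) (g2 v) (g3 v) (g4 v)) := by
  apply D0.s5; unfold Hist; infer_instance

end inst

end Pool.Agent.BSig
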