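import Pool.Agent.Work.MP_510745_lc.D0

/-!
A bounded truth definition: the universal bounded relation `Test`.
-/

namespace Pool.Agent.BSig

/-- Bound for codes of assignments with `m` entries below `D`. -/
def aB (m D : ℕ) : ℕ := 2 ^ ((m + D) * (m + D) + m + 1)

instance dt_aB {f g : (ℕ → ℕ) → ℕ} [DT f] [DT g] : DT (fun v => aB (f v) (g v)) := by
  unfold aB; infer_instance

/-- `β` codes the assignment `y, α`. -/
def Push (D m y α β : ℕ) : Prop :=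
  ∀ x, x < D → ((Bt β (pr 0 x) ↔ x = y) ∧ ∀ i, i < m → (Bt β (pr (i + 1) x) ↔ Bt α (pr i x)))

/-- The recursion clauses of the truth table `w`. -/
def Step (D m w g α x : ℕ) : Prop :=
  (∃ i, i < g + 1 ∧ (g = pr 0 i ∧ Bt α (pr i x))) ∨
  (g = pr 1 0 ∧ x = 0) ∨ (g = pr 2 0 ∧ x = 1) ∨
  (∃ s, s < g + 1 ∧ ∃ t, t < g + 1 ∧ (g = pr 3 (pr s t) ∧ ∃ y, y < D ∧ ∃ z, z < D ∧
    (Bt w (pr s (pr α y)) ∧ Bt w (pr t (pr α z)) ∧ x = y + z))) ∨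
  (∃ s, s < g + 1 ∧ ∃ t, t < g + 1 ∧ (g = pr 4 (pr s t) ∧ ∃ y, y < D ∧ ∃ z, z < D ∧
    (Bt w (pr s (pr α y)) ∧ Bt w (pr t (pr α z)) ∧ x = y * z))) ∨
  (∃ s, s < g + 1 ∧ (g = pr 5 s ∧ ∃ y, y < D ∧ (Bt w (pr s (pr α y)) ∧ x = 2 ^ y))) ∨
  (∃ s, s < g + 1 ∧ ∃ t, t < g + 1 ∧ (g = pr 6 (pr s t) ∧ x = 0 ∧ ∃ y, y < D ∧
    (Bt w (pr s (pr α y)) ∧ Bt w (pr t (pr α y))))) ∨
  (∃ s, s < g + 1 ∧ ∃ t, t < g + 1 ∧ (g = pr 7 (pr s t) ∧ x = 0 ∧ ∃ y, y < D ∧ ∃ z, z < D ∧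
    (Bt w (pr s (pr α y)) ∧ Bt w (pr t (pr α z)) ∧ y < z))) ∨
  (∃ s, s < g + 1 ∧ (g = pr 8 s ∧ x = 0 ∧ ¬ Bt w (pr s (pr α 0)))) ∨
  (∃ s, s < g + 1 ∧ ∃ t, t < g + 1 ∧ (g = pr 9 (pr s t) ∧ x = 0 ∧
    Bt w (pr s (pr α 0)) ∧ Bt w (pr t (pr α 0)))) ∨
  (∃ s, s < g + 1 ∧ ∃ t, t < g + 1 ∧ (g = pr 10 (pr s t) ∧ x = 0 ∧
    ∀ z, z < D → Bt w (pr s (pr α z)) → ∀ y, y < z → ∀ β, β < aB m D →
      (Push D m y α β → Bt w (pr t (pr β 0)))))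

/-- `w` is a truth table for all codes below `G`. -/
def Tab (D m G w : ℕ) : Prop :=
  ∀ g, g < G → ∀ α, α < aB m D → ∀ x, x < D →
    (Bt w (pr g (pr α x)) ↔ Step D m w g α x)

/-- Bound for truth tables. -/
def wB (D m G : ℕ) : ℕ := 2 ^ (pr G (pr (aB m D) D) + 1)

/-- Truth of the coded formula `g` at the coded assignment `α`. -/
def Ev (D m g α : ℕ) : Prop :=
  ∃ w, w < wB D m (g + 1) ∧ (Tab D m (g + 1) w ∧ Bt w (pr g (pr α 0)))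

/-- The universal bounded relation: the claim `(k, 0, p, q)` is made by `e` with a witness below
`B`, evaluated in the domain `D`. -/
def Test (B D e k p q : ℕ) : Prop :=
  k < B ∧ p < B ∧ q < B ∧ ∃ g, g < e + 1 ∧ ∃ m, m < e + 1 ∧ ∃ α, α < e + 1 ∧
    (e = pr g (pr m α) ∧ ∃ y, y < B ∧ ∃ α₁, α₁ < aB m D ∧ ∃ α₂, α₂ < aB m D ∧
    ∃ α₃, α₃ < aB m D ∧ ∃ α₄, α₄ < aB m D ∧ ∃ α₅, α₅ < aB m D ∧
      (Push D m q α α₁ ∧ Push D m p α₁ α₂ ∧ Push D m 0 α₂ α₃ ∧ Push D m k α₃ α₄ ∧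
        Push D m y α₄ α₅ ∧ Ev D m g α₅))

set_option synthInstance.maxSize 100000

section inst
variable {g0 g1 g2 g3 g4 g5 : (ℕ → ℕ) → ℕ} [h0 : DT g0] [h1 : DT g1] [h2 : DT g2]
  [h3 : DT g3] [h4 : DT g4] [h5 : DT g5]

instance d0_Push : D0 (fun v => Push (g0 v) (g1 v) (g2 v) (g3 v) (g4 v)) := by
  apply D0.s5; unfold Push; infer_instance

instance d0_Step : D0 (fun v => Step (g0 v) (g1 v) (g2 v) (g3 v) (g4 v) (g5 v)) := by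
  apply D0.s6; unfold Step; infer_instance

instance d0_Tab : D0 (fun v => Tab (g0 v) (g1 v) (g2 v) (g3 v)) := by
  apply D0.s4; unfold Tab; infer_instance

instance dt_wB : DT (fun v => wB (g0 v) (g1 v) (g2 v)) := by
  unfold wB; infer_instance

instance d0_Ev : D0 (fun v => Ev (g0 v) (g1 v) (g2 v) (g3 v)) := by
  apply D0.s4; unfold Ev; infer_instance

instance d0_Test : D0 (fun v => Test (g0 v) (g1 v) (g2 v) (g3 v) (g4 v) (g5 v)) := by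
  apply D0.s6; unfold Test; infer_instance

end inst

end Pool.Agent.BSig
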