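import Pool.Agent.Work.MP_510745_lc.Snap
import Pool.Agent.Work.MP_510745_lc.Model

/-!
Verification, part 1: the model, approximations of c.e. sets, the claims of an opponent.
-/

namespace Pool.Agent.BSig

open Filter

/-- The sequence cutting off the model. -/
noncomputable def sx : ℕ → ℕ → ℕ := fun n k => xs k n

theorem gr : Gr sx where
  mono := fun n k => xs_mono k n
  exp := fun n => by
    filter_upwards [ev_ge (n + 1)] with k hk
    exact (xs_tow k n 1 (by omega) (by omega)).le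

/-- The model. -/
abbrev M : Type := MM sx

/-- The structure of the model. -/
noncomputable abbrev S : AStr M := SS gr

theorem sx_bd (n : ℕ) : Bd sx (sx n) := ⟨n, Eventually.of_forall fun _ => le_rfl⟩

theorem bd_lt {f : ℕ → ℕ} (h : Bd sx f) : ∃ n, ∀ n', n ≤ n' → ∀ᶠ k in Uf, f k < xs k n' := by
  obtain ⟨n, hn⟩ := h
  refine ⟨n + 1, fun n' hn' => ?_⟩
  filter_upwards [hn, ev_ge (n + 1)] with k h1 h2
  have h3 := xs_lt k n (by omega)
  have h4 : xs k (n + 1) ≤ xs k n' := xs_le hn'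
  have h5 : f k ≤ xs k n := h1
  omega

theorem Bd.of_le {f g : ℕ → ℕ} (hg : Bd sx g) (h : ∀ k, f k ≤ g k) : Bd sx f :=
  hg.mono (Eventually.of_forall h)

theorem Bd.pr {f g : ℕ → ℕ} (hf : Bd sx f) (hg : Bd sx g) : Bd sx (fun k => pr (f k) (g k)) := by
  unfold BSig.pr
  exact ((hf.add gr hg).mul gr (hf.add gr hg)).add gr hf

theorem bd_id : Bd sx (fun k => k) := by
  refine ⟨0, Eventually.of_forall fun k => ?_⟩
  have h1 := V_inv (k := k) (n := 0) (by omega)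
  have h2 : V k 0 < xs k 0 := cD_lt h1.tp.1
  have h3 := h1.av
  change k ≤ xs k 0
  omega

theorem bd_V (n : ℕ) : Bd sx (fun k => V k n) := by
  refine ⟨n, ?_⟩
  filter_upwards [ev_ge n] with k hk
  exact (cD_lt (V_inv (k := k) (n := n) hk).tp.1).le

theorem ev_all_lt {P : ℕ → ℕ → Prop} (m : ℕ) (h : ∀ i, i < m → ∀ᶠ k in Uf, P i k) :
    ∀ᶠ k in Uf, ∀ i, i < m → P i k := by
  have : ∀ᶠ k in Uf, ∀ i ∈ Finset.range m, P i k :=
    (Finset.eventually_all _).2 fun i hi => h i (Finset.mem_range.1 hi)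
  filter_upwards [this] with k hk i hi
  exact hk i (Finset.mem_range.2 hi)

/-- The claims of a c.e. functional. -/
theorem test_spec (f : Fm) (c : ℕ → M) : ∃ e : ℕ → ℕ, Bd sx e ∧ ∃ n₀, ∀ n, n₀ ≤ n →
    ∀ᶠ k in Uf, ∀ K p q, TS k n (e k) K p q ↔ (K < xs k n ∧ p < xs k n ∧ q < xs k n ∧
      ∃ y, y < xs k n ∧ f.holds natS (asg5 y K p q (fun i => rep (c i) k))) := by
  classical
  obtain ⟨m1, hm1⟩ := Fm.ex_vlt f
  obtain ⟨m2, hm2⟩ := Tm.ex_vlt (szF f)
  obtain ⟨m, hm, hm'⟩ : ∃ m, f.vlt m ∧ (szF f).vlt m :=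
    ⟨max m1 m2, Fm.vlt_mono (le_max_left _ _) f hm1, Tm.vlt_mono (le_max_right _ _) _ hm2⟩
  have h1 : ∃ n1, ∀ᶠ k in Uf, ∀ i, i < m → rep (c i) k < xs k n1 := by
    have h2 : ∀ i, ∃ n, ∀ n', n ≤ n' → ∀ᶠ k in Uf, rep (c i) k < xs k n' :=
      fun i => bd_lt (rep_bd (c i))
    choose N hN using h2
    refine ⟨(Finset.range m).sup N, ev_all_lt m fun i hi => ?_⟩
    exact hN i _ (Finset.le_sup (f := N) (Finset.mem_range.2 hi))
  obtain ⟨n1, hn1⟩ := h1
  let α : ℕ → ℕ := fun k => if h : ∀ i, i < m → rep (c i) k < xs k n1 then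
    (ex_cod m (fun i => rep (c i) k) (xs k n1) h).choose else 0
  have hα : ∀ᶠ k in Uf, α k < 2 ^ (pr m (xs k n1)) ∧ ∀ D, Cod D m (α k) (fun i => rep (c i) k) := by
    filter_upwards [hn1] with k hk
    simp only [α, dif_pos hk]
    exact (ex_cod m (fun i => rep (c i) k) (xs k n1) hk).choose_spec
  have hαb : Bd sx α := by
    refine (((Bd.const gr m).pr (sx_bd n1)).pow gr).mono ?_
    filter_upwards [hα] with k hk
    exact hk.1.le
  refine ⟨fun k => pr (codeF f) (pr m (α k)), (Bd.const gr _).pr ((Bd.const gr _).pr hαb), n1,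
    fun n hn => ?_⟩
  obtain ⟨j, hj⟩ := tm_bound (szF f)
  filter_upwards [hα, hn1, ev_ge (n + 1), ev_ge (j + 1)] with k h2 h3 h4 h5
  intro K p q
  unfold TS
  refine test_iff f (h2.2 _) hm ?_
  have hB : 2 ≤ xs k n := by
    have h6 := V_inv (k := k) (n := n) (by omega)
    have h7 : V k n < xs k n := cD_lt h6.tp.1
    have h8 := h6.av
    omega
  have h6 := hj (asg5 (xs k n) (xs k n) (xs k n) (xs k n) (fun i => rep (c i) k)) (xs k n) hB m hm'
    (fun i hi => by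
      match i with
      | 0 => exact le_rfl
      | 1 => exact le_rfl
      | 2 => exact Nat.zero_le _
      | 3 => exact le_rfl
      | 4 => exact le_rfl
      | (i + 5) =>
        have h7 := h3 i (by omega)
        have h8 : xs k n1 ≤ xs k n := xs_le hn
        change rep (c i) k ≤ xs k n
        omega)
  refine lt_of_le_of_lt h6 ?_
  calc tow j (xs k n) < tow (j + 1) (xs k n) := Nat.lt_two_pow_self
    _ ≤ tow k (xs k n) := tow_mono_left h5 _

/-- Approximations of a c.e. set. -/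
structure Apx (A : M → Prop) (P : ℕ → ℕ → ℕ → Prop) : Prop where
  mono : ∀ m k z, P m k z → P (m + 1) k z
  iff : ∀ x, A x ↔ ∃ m, ∀ᶠ k in Uf, P m k (rep x k)

theorem Apx.le {A : M → Prop} {P : ℕ → ℕ → ℕ → Prop} (h : Apx A P) {m n k z : ℕ} (hmn : m ≤ n)
    (hz : P m k z) : P n k z := by
  induction hmn with
  | refl => exact hz
  | step _ ih => exact h.mono _ _ _ ih

theorem Apx.neg_iff {A : M → Prop} {P : ℕ → ℕ → ℕ → Prop} (h : Apx A P) (K : M) :
    Neg S K A ↔ ∀ m, ∀ᶠ k in Uf, ∀ z, Bt (rep K k) z → ¬ P m k z := by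
  constructor
  · intro hN m
    by_contra hc
    rw [← ev_not] at hc
    have h1 : ∀ᶠ k in Uf, ∃ z, z ≤ rep K k ∧ (Bt (rep K k) z ∧ P m k z) := by
      filter_upwards [hc] with k hk
      push Not at hk
      obtain ⟨z, h2, h3⟩ := hk
      exact ⟨z, h2.lt.le, h2, h3⟩
    obtain ⟨z, hz⟩ := choose_fn (rep_bd K) h1
    exact hN z ((elt_iff gr z K).2 (hz.mono fun _ h => h.2.1))
      ((h.iff z).2 ⟨m, hz.mono fun _ h => h.2.2⟩)
  · intro h1 x hx hA
    obtain ⟨m, hm⟩ := (h.iff x).1 hA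
    obtain ⟨k, hk⟩ := ev_exists (((elt_iff gr x K).1 hx).and (hm.and (h1 m)))
    exact hk.2.2 _ hk.1 hk.2.1

theorem Apx.neg_over {A : M → Prop} {P : ℕ → ℕ → ℕ → Prop} (h : Apx A P) (K : M)
    (hK : Neg S K A) : ∃ ν : ℕ → ℕ, (∀ n, ∀ᶠ k in Uf, n ≤ ν k) ∧ (∀ k, ν k ≤ k) ∧
      ∀ᶠ k in Uf, ∀ z, Bt (rep K k) z → ¬ P (ν k) k z := by
  obtain ⟨ν, h1, h2, h3⟩ := overspill (fun m k => ∀ z, Bt (rep K k) z → ¬ P m k z)
    ((h.neg_iff K).1 hK)
  exact ⟨ν, h1, h2, h3.mono fun k hk => hk (ν k) le_rfl⟩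

theorem Apx.neg_of {A : M → Prop} {P : ℕ → ℕ → ℕ → Prop} (h : Apx A P) (K : M) (ν : ℕ → ℕ)
    (hν : ∀ n, ∀ᶠ k in Uf, n ≤ ν k)
    (hK : ∀ᶠ k in Uf, ∀ z, Bt (rep K k) z → ¬ P (ν k) k z) : Neg S K A := by
  rw [h.neg_iff]
  intro m
  filter_upwards [hν m, hK] with k h1 h2 z hz h3
  exact h2 z hz (h.le h1 h3)

theorem Apx.pos_iff {A : M → Prop} {P : ℕ → ℕ → ℕ → Prop} (h : Apx A P) (K : M) :
    Pos S K A ↔ ∃ m, ∀ᶠ k in Uf, ∀ z, Bt (rep K k) z → P m k z := by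
  constructor
  · intro hP
    by_contra hc
    push Not at hc
    have h1 : ∀ m, ∀ᶠ k in Uf, ∃ z, z ≤ rep K k ∧ (Bt (rep K k) z ∧ ¬ P m k z) := by
      intro m
      filter_upwards [hc m] with k hk
      obtain ⟨z, h2, h3⟩ := hk
      exact ⟨z, h2.lt.le, h2, h3⟩
    obtain ⟨ν, h3, h4, h5⟩ := overspill _ h1
    obtain ⟨z, hz⟩ := choose_fn (rep_bd K) (h5.mono fun k hk => hk (ν k) le_rfl)
    have h6 := hP z ((elt_iff gr z K).2 (hz.mono fun _ h => h.2.1))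
    obtain ⟨m, hm⟩ := (h.iff z).1 h6
    obtain ⟨k, hk⟩ := ev_exists ((h3 m).and (hm.and hz))
    exact hk.2.2.2.2 (h.le hk.1 hk.2.1)
  · rintro ⟨m, hm⟩ x hx
    rw [h.iff]
    refine ⟨m, ?_⟩
    filter_upwards [hm, (elt_iff gr x K).1 hx] with k h1 h2
    exact h1 _ h2

/-- The canonical approximation of a c.e. set. -/
theorem apx_ce (f : Fm) (c : ℕ → M) :
    Apx (fun x => ∃ y, f.holds S (psh y (psh x c)))
      (fun m k z => ∃ y, y < xs k m ∧ f.holds natS (psh y (psh z (fun i => rep (c i) k)))) where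
  mono := fun m k z ⟨y, hy, h⟩ => ⟨y, lt_of_lt_of_le hy (xs_mono k m), h⟩
  iff := fun x => by
    constructor
    · rintro ⟨y, hy⟩
      rw [los2] at hy
      obtain ⟨n, hn⟩ := bd_lt (rep_bd y)
      refine ⟨n, ?_⟩
      filter_upwards [hy, hn n le_rfl] with k h1 h2
      exact ⟨rep y k, h2, h1⟩
    · rintro ⟨m, hm⟩
      have h1 : ∀ᶠ k in Uf, ∃ y, y ≤ sx m k ∧
          f.holds natS (psh y (psh (rep x k) (fun i => rep (c i) k))) := by
        filter_upwards [hm] with k hk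
        obtain ⟨y, hy, h⟩ := hk
        exact ⟨y, hy.le, h⟩
      obtain ⟨y, hy⟩ := choose_fn (sx_bd m) h1
      exact ⟨y, by rw [los2]; exact hy.mono fun _ h => h.2⟩

/-- The set `A`. -/
def setA : M → Prop := fun x => ∃ n, ∀ᶠ k in Uf, Dd (xs k n) (rep x k)

/-- The cut. -/
def cutI : M → Prop := fun x => ∃ n, ∀ᶠ k in Uf, rep x k < n

/-- Approximation of `A`. -/
def PA (m k z : ℕ) : Prop := ∃ j, j ≤ m ∧ j ≤ k ∧ Dd (xs k j) z

theorem PA_iff {m k z : ℕ} (hm : m ≤ k) : PA m k z ↔ Dd (xs k m) z := by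
  constructor
  · rintro ⟨j, h1, h2, h3⟩; exact dd_mono h1 hm h3
  · intro h; exact ⟨m, le_rfl, hm, h⟩

theorem apxA : Apx setA PA where
  mono := fun m k z ⟨j, h1, h2, h3⟩ => ⟨j, by omega, h2, h3⟩
  iff := fun x => by
    constructor
    · rintro ⟨n, hn⟩
      refine ⟨n, ?_⟩
      filter_upwards [hn, ev_ge n] with k h1 h2
      exact (PA_iff h2).2 h1
    · rintro ⟨n, hn⟩
      refine ⟨n, ?_⟩
      filter_upwards [hn, ev_ge n] with k h1 h2
      exact (PA_iff h2).1 h1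

theorem apxI : Apx cutI (fun m _ z => z < m) where
  mono := fun _ _ _ h => Nat.lt_succ_of_lt h
  iff := fun _ => Iff.rfl

end Pool.Agent.BSig
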