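import Pool.Agent.Work.MP_510745_lc.Ver1

/-!
Verification, part 2: definability in the model and reductions.
-/

namespace Pool.Agent.BSig

open Filter

/-- Sets with a bounded definition over the naturals are c.e. in the model. -/
theorem ce_of (R : (ℕ → ℕ) → Prop) (hR : D0 R) (c : ℕ → M) :
    CE S (fun x => ∃ y : M, ∀ᶠ k in Uf, R (psh (rep y k) (psh (rep x k) (fun i => rep (c i) k)))) := by
  obtain ⟨f, hf⟩ := hR.ex
  refine ⟨f, c, fun x => exists_congr fun y => ?_⟩
  rw [los2]
  simp only [hf]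

theorem ce4_mk (R : (ℕ → ℕ) → Prop) (hR : D0 R) (c : ℕ → M) :
    CE4 S (fun K i p n => ∃ y : M, ∀ᶠ k in Uf, R (psh (rep y k) (psh (rep K k) (psh (rep i k)
      (psh (rep p k) (psh (rep n k) (fun i => rep (c i) k))))))) := by
  obtain ⟨f, hf⟩ := hR.ex
  refine ⟨f, c, fun K i p n => exists_congr fun y => ?_⟩
  rw [los5]
  simp only [hf]

theorem not_bt_zero (z : ℕ) : ¬ Bt 0 z := fun h => absurd h.lt (Nat.not_lt_zero z)

theorem not_elt_zero (x : M) : ¬ Elt S x S.zero := by
  rw [elt_iff]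
  intro h
  obtain ⟨k, hk⟩ := ev_exists (h.and (rep_zero gr))
  rw [hk.2] at hk
  exact not_bt_zero _ hk.1

/-- Interleaving of parameters. -/
def mixp (c c' : ℕ → M) : ℕ → M := fun i => if i % 2 = 0 then c (i / 2) else c' (i / 2)

theorem mixp_even (c c' : ℕ → M) (i : ℕ) : mixp c c' (2 * i) = c i := by
  unfold mixp
  simp

theorem mixp_odd (c c' : ℕ → M) (i : ℕ) : mixp c c' (2 * i + 1) = c' i := by
  unfold mixp
  have h1 : (2 * i + 1) % 2 = 1 := by omega
  have h2 : (2 * i + 1) / 2 = i := by omega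
  simp [h1, h2]

theorem red_of_neg {A B : M → Prop} (hA : CE S A) (R : (ℕ → ℕ) → Prop) (hR : D0 R) (c : ℕ → M)
    (h : ∀ K, Neg S K A ↔ ∃ q, Neg S q B ∧ ∃ y : M, ∀ᶠ k in Uf,
      R (psh (rep y k) (psh (rep K k) (psh (rep q k) (fun i => rep (c i) k))))) :
    Red S A B := by
  obtain ⟨f, cA, hf⟩ := hA
  -- the combined relation
  let Rc : (ℕ → ℕ) → Prop := fun v =>
    (v 2 = 1 ∧ v 3 = 0 ∧ v 4 = 0 ∧ ∀ z, z < v 1 → (Bt (v 1) z → ∃ u, u < v 0 ∧
      f.holds natS (psh u (psh z (fun i => v (5 + (2 * i + 1))))))) ∨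
    (v 2 = 0 ∧ v 3 = 0 ∧ R (psh (v 0) (psh (v 1) (psh (v 4) (fun i => v (5 + 2 * i))))))
  have hRc : D0 Rc := by
    have h0 : D0 (fun v => f.holds natS (psh (v 0) (psh (v 1)
        (fun i => v (5 + (2 * i + 1) + 1 + 1))))) := by
      have hf0 : D0 (fun v => f.holds natS v) := ⟨⟨f, fun _ => Iff.rfl⟩⟩
      have := D0.sub hf0 (g := fun i v => match i with
        | 0 => v 0
        | 1 => v 1
        | (i + 2) => v (5 + (2 * i + 1) + 1 + 1)) (fun i => by
          match i with
          | 0 => exact dt_var 0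
          | 1 => exact dt_var 1
          | (i + 2) => exact dt_var _)
      refine D0.congr this (fun v => ?_)
      have e : (fun i => (match i with
        | 0 => v 0
        | 1 => v 1
        | (i + 2) => v (5 + (2 * i + 1) + 1 + 1) : ℕ)) =
          psh (v 0) (psh (v 1) (fun i => v (5 + (2 * i + 1) + 1 + 1))) := by
        funext i
        match i with
        | 0 => rfl
        | 1 => rfl
        | (i + 2) => rfl
      simp only [e]
    have h1 : D0 (fun v => ∃ u, u < v 1 ∧ f.holds natS (psh u (psh (v 0)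
        (fun i => v (5 + (2 * i + 1) + 1))))) :=
      @d0_ex (fun v => v 1) (fun u v => f.holds natS (psh u (psh (v 0)
        (fun i => v (5 + (2 * i + 1) + 1))))) _ h0
    have h2 : D0 (fun v => ∀ z, z < v 1 → (Bt (v 1) z → ∃ u, u < v 0 ∧
        f.holds natS (psh u (psh z (fun i => v (5 + (2 * i + 1))))))) :=
      @d0_all (fun v => v 1) (fun z v => (Bt (v 1) z → ∃ u, u < v 0 ∧
        f.holds natS (psh u (psh z (fun i => v (5 + (2 * i + 1))))))) _
        (@d0_imp _ _ inferInstance h1)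
    have h3 : D0 (fun v => R (psh (v 0) (psh (v 1) (psh (v 4) (fun i => v (5 + 2 * i)))))) := by
      have := D0.sub hR (g := fun i v => match i with
        | 0 => v 0
        | 1 => v 1
        | 2 => v 4
        | (i + 3) => v (5 + 2 * i)) (fun i => by
          match i with
          | 0 => exact dt_var 0
          | 1 => exact dt_var 1
          | 2 => exact dt_var 4
          | (i + 3) => exact dt_var _)
      refine D0.congr this (fun v => ?_)
      have e : (fun i => (match i with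
        | 0 => v 0
        | 1 => v 1
        | 2 => v 4
        | (i + 3) => v (5 + 2 * i) : ℕ)) =
          psh (v 0) (psh (v 1) (psh (v 4) (fun i => v (5 + 2 * i)))) := by
        funext i
        match i with
        | 0 => rfl
        | 1 => rfl
        | 2 => rfl
        | (i + 3) => rfl
      simp only [e]
    exact @d0_or _ _ (@d0_and _ _ inferInstance (@d0_and _ _ inferInstance
      (@d0_and _ _ inferInstance h2))) (@d0_and _ _ inferInstance (@d0_and _ _ inferInstance h3))
  have hCE := ce4_mk Rc hRc (mixp c cA)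
  have happ := apx_ce f cA
  have hAeq : A = fun x => ∃ y, f.holds S (psh y (psh x cA)) := funext fun x => propext (hf x)
  have hPos : ∀ K, Pos S K A ↔ ∃ y : M, ∀ᶠ k in Uf, ∀ z, z < rep K k → (Bt (rep K k) z →
      ∃ u, u < rep y k ∧ f.holds natS (psh u (psh z (fun i => rep (cA i) k)))) := by
    intro K
    rw [hAeq, happ.pos_iff]
    constructor
    · rintro ⟨m, hm⟩
      refine ⟨mk (sx m) (sx_bd m), ?_⟩
      filter_upwards [hm, rep_mk (sx m) (sx_bd m)] with k h1 h2 z _ hz
      rw [h2]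
      exact h1 z hz
    · rintro ⟨y, hy⟩
      obtain ⟨m, hm⟩ := bd_lt (rep_bd y)
      refine ⟨m, ?_⟩
      filter_upwards [hy, hm m le_rfl] with k h1 h2 z hz
      obtain ⟨u, hu, h3⟩ := h1 z hz.lt hz
      exact ⟨u, by omega, h3⟩
  refine ⟨_, hCE, fun K => ⟨?_, ?_⟩⟩
  · rw [hPos]
    constructor
    · rintro ⟨y, hy⟩
      refine ⟨S.zero, S.zero, ⟨y, ?_⟩, fun x hx => absurd hx (not_elt_zero x),
        fun x hx => absurd hx (not_elt_zero x)⟩
      filter_upwards [hy, rep_zero gr, rep_one gr] with k h1 h2 h3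
      refine Or.inl ⟨h3, h2, h2, fun z hz hb => ?_⟩
      obtain ⟨u, hu, h4⟩ := h1 z hz hb
      refine ⟨u, hu, ?_⟩
      have e : (fun i => psh (rep y k) (psh (rep K k) (psh (rep S.one k) (psh (rep S.zero k)
          (psh (rep S.zero k) (fun i => rep (mixp c cA i) k))))) (5 + (2 * i + 1))) =
          fun i => rep (cA i) k := by
        funext i
        have : 5 + (2 * i + 1) = (2 * i + 1) + 5 := by omega
        rw [this]
        change rep (mixp c cA (2 * i + 1)) k = _
        rw [mixp_odd]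
      rw [e]; exact h4
    · rintro ⟨p, n, ⟨y, hy⟩, -, -⟩
      refine ⟨y, ?_⟩
      filter_upwards [hy, rep_one gr] with k h1 h3
      rcases h1 with ⟨_, _, _, h4⟩ | ⟨h4, _⟩
      · intro z hz hb
        obtain ⟨u, hu, h5⟩ := h4 z hz hb
        refine ⟨u, hu, ?_⟩
        have e : (fun i => psh (rep y k) (psh (rep K k) (psh (rep S.one k) (psh (rep p k)
            (psh (rep n k) (fun i => rep (mixp c cA i) k))))) (5 + (2 * i + 1))) =
            fun i => rep (cA i) k := by
          funext i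
          have : 5 + (2 * i + 1) = (2 * i + 1) + 5 := by omega
          rw [this]
          change rep (mixp c cA (2 * i + 1)) k = _
          rw [mixp_odd]
        rw [e] at h5; exact h5
      · exact absurd (h3.symm.trans h4) (by norm_num)
  · rw [h]
    have e : ∀ (y i p n : M) (k : ℕ), (fun j => psh (rep y k) (psh (rep K k) (psh (rep i k)
        (psh (rep p k) (psh (rep n k) (fun i => rep (mixp c cA i) k))))) (5 + 2 * j)) =
        fun i => rep (c i) k := by
      intro y i p n k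
      funext j
      have : 5 + 2 * j = 2 * j + 5 := by omega
      rw [this]
      change rep (mixp c cA (2 * j)) k = _
      rw [mixp_even]
    constructor
    · rintro ⟨q, hq, y, hy⟩
      refine ⟨S.zero, q, ⟨y, ?_⟩, fun x hx => absurd hx (not_elt_zero x), hq⟩
      filter_upwards [hy, rep_zero gr] with k h1 h2
      refine Or.inr ⟨h2, h2, ?_⟩
      rw [e]
      exact h1
    · rintro ⟨p, n, ⟨y, hy⟩, -, hn⟩
      refine ⟨n, hn, y, ?_⟩
      filter_upwards [hy, rep_zero gr] with k h1 h2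
      rcases h1 with ⟨h3, _⟩ | ⟨_, _, h3⟩
      · exact absurd (h2.symm.trans h3) (by norm_num)
      · rw [e] at h3
        exact h3

/-- The claims of a reduction. -/
theorem claims {A B : M → Prop} (h : Red S B A) : ∃ e : ℕ → ℕ, Bd sx e ∧ ∃ n₀,
    (∀ n, n₀ ≤ n → ∀ᶠ k in Uf, ∀ K p q, TS k n (e k) K p q → TS k (n + 1) (e k) K p q) ∧
    (∀ n, n₀ ≤ n → ∀ K p q : M, (∀ᶠ k in Uf, TS k n (e k) (rep K k) (rep p k) (rep q k)) →
      Pos S p A → Neg S q A → Neg S K B) ∧
    (∀ K, Neg S K B → ∃ p q : M, Pos S p A ∧ Neg S q A ∧ ∃ n, ∀ n', n ≤ n' →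
      ∀ᶠ k in Uf, TS k n' (e k) (rep K k) (rep p k) (rep q k)) := by
  obtain ⟨F, ⟨f, c, hF⟩, hred⟩ := h
  obtain ⟨e, he, n0, hspec⟩ := test_spec f c
  refine ⟨e, he, n0, ?_, ?_, ?_⟩
  · intro n hn
    filter_upwards [hspec n hn, hspec (n + 1) (by omega)] with k h1 h2 K p q h3
    rw [h1] at h3
    rw [h2]
    have h4 : xs k n ≤ xs k (n + 1) := xs_mono k n
    obtain ⟨a1, a2, a3, y, a4, a5⟩ := h3
    exact ⟨by omega, by omega, by omega, y, by omega, a5⟩
  · intro n hn K p q hT hp hq
    refine ((hred K).2).2 ⟨p, q, ?_, hp, hq⟩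
    rw [hF]
    have h1 : ∀ᶠ k in Uf, ∃ y, y ≤ sx n k ∧
        f.holds natS (asg5 y (rep K k) (rep p k) (rep q k) (fun i => rep (c i) k)) := by
      filter_upwards [hT, hspec n hn] with k h1 h2
      rw [h2] at h1
      obtain ⟨_, _, _, y, h3, h4⟩ := h1
      exact ⟨y, h3.le, h4⟩
    obtain ⟨y, hy⟩ := choose_fn (sx_bd n) h1
    refine ⟨y, ?_⟩
    rw [los5]
    filter_upwards [hy, rep_zero gr] with k h2 h3
    rw [h3]
    exact h2.2
  · intro K hK
    obtain ⟨p, q, hFK, hp, hq⟩ := ((hred K).2).1 hK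
    refine ⟨p, q, hp, hq, ?_⟩
    rw [hF] at hFK
    obtain ⟨y, hy⟩ := hFK
    rw [los5] at hy
    obtain ⟨n1, hn1⟩ := bd_lt (rep_bd y)
    obtain ⟨n2, hn2⟩ := bd_lt (rep_bd K)
    obtain ⟨n3, hn3⟩ := bd_lt (rep_bd p)
    obtain ⟨n4, hn4⟩ := bd_lt (rep_bd q)
    refine ⟨n0 + n1 + n2 + n3 + n4, fun n' hn' => ?_⟩
    filter_upwards [hspec n' (by omega), hy, hn1 n' (by omega), hn2 n' (by omega),
      hn3 n' (by omega), hn4 n' (by omega), rep_zero gr] with k h1 h2 h3 h4 h5 h6 h7
    rw [h1]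
    refine ⟨h4, h5, h6, rep y k, h3, ?_⟩
    rw [h7] at h2
    exact h2

end Pool.Agent.BSig
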