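import Pool.Agent.Work.MP_510745_lc.Ver2

/-!
Verification, part 3: the cut, `A` is c.e., `I ≤ A`, and `A` is not reducible to `I`.
-/

namespace Pool.Agent.BSig

open Filter

/-- The horizon. -/
noncomputable def aM : M := mk (fun k => k) bd_id

theorem x0_bd : Bd sx (fun k => x0 k) := ⟨0, Eventually.of_forall fun _ => le_rfl⟩

/-- The initial state. -/
noncomputable def x0M : M := mk (fun k => x0 k) x0_bd

theorem rep_aM : ∀ᶠ k in Uf, rep aM k = k := rep_mk _ _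
theorem rep_x0M : ∀ᶠ k in Uf, rep x0M k = x0 k := rep_mk _ _

theorem hist_read {k n y w : ℕ} (h : Hist k (x0 k) n y w) : n ≤ k ∧ y = xs k n ∧ y < w :=
  ⟨hist_le h, (hist_iff k n y (hist_le h)).1 ⟨w, h⟩, lt_of_le_of_lt (le_pr_right _ _) h.2.2.2.lt⟩

theorem hist_stage {k n y w j : ℕ} (h : Hist k (x0 k) n y w) (hw : w < xs k j) : n < j := by
  obtain ⟨h1, h2, h3⟩ := hist_read h
  by_contra hc
  have : xs k j ≤ xs k n := xs_le (by omega)
  omega

/-- Histories as elements of the model. -/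
theorem ex_hist (g : ℕ → ℕ) (m : ℕ) (hg : ∀ᶠ k in Uf, g k ≤ m) :
    ∃ w : M, ∀ᶠ k in Uf, Hist k (x0 k) (g k) (xs k (g k)) (rep w k) := by
  have hb : Bd sx (fun k => 2 ^ (pr m (xs k m) + 1)) :=
    (((Bd.const gr m).pr (sx_bd m)).add gr (Bd.const gr 1)).pow gr
  have h1 : ∀ᶠ k in Uf, ∃ w, w ≤ 2 ^ (pr m (xs k m) + 1) ∧
      Hist k (x0 k) (g k) (xs k (g k)) w := by
    filter_upwards [hg, ev_ge m] with k hk hkm
    obtain ⟨w, hw, h⟩ := hist_bound k (g k) (by omega)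
    refine ⟨w, ?_, h⟩
    refine le_trans hw.le (Nat.pow_le_pow_right (by norm_num) ?_)
    have := pr_mono hk (xs_le (k := k) hk)
    omega
  obtain ⟨w, hw⟩ := choose_fn hb h1
  exact ⟨w, hw.mono fun _ h => h.2⟩

set_option synthInstance.maxSize 100000 in
theorem ceA : CE S setA := by
  have hD : D0 (fun v => ∃ n, n < v 0 + 1 ∧ ∃ y, y < v 0 + 1 ∧
      (Hist (v 2) (v 3) n y (v 0) ∧ Dd y (v 1))) := inferInstance
  have h := ce_of _ hD (psh aM (psh x0M (fun _ => aM)))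
  have e : setA = fun x => ∃ y : M, ∀ᶠ k in Uf, (fun v : ℕ → ℕ => ∃ n, n < v 0 + 1 ∧
      ∃ y, y < v 0 + 1 ∧ (Hist (v 2) (v 3) n y (v 0) ∧ Dd y (v 1)))
        (psh (rep y k) (psh (rep x k) (fun i => rep ((psh aM (psh x0M (fun _ => aM))) i) k))) := by
    funext x
    refine propext ⟨?_, ?_⟩
    · rintro ⟨n, hn⟩
      obtain ⟨w, hw⟩ := ex_hist (fun _ => n) n (Eventually.of_forall fun _ => le_rfl)
      refine ⟨w, ?_⟩
      filter_upwards [hn, hw, rep_aM, rep_x0M] with k h1 h2 h3 h4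
      change ∃ n, n < rep w k + 1 ∧ ∃ y, y < rep w k + 1 ∧
        (Hist (rep aM k) (rep x0M k) n y (rep w k) ∧ Dd y (rep x k))
      rw [h3, h4]
      have h5 := h2.2.2.2.lt
      have h6 := le_pr_left n (xs k n)
      have h7 := le_pr_right n (xs k n)
      exact ⟨n, by omega, xs k n, by omega, h2, h1⟩
    · rintro ⟨w, hw⟩
      obtain ⟨j, hj⟩ := bd_lt (rep_bd w)
      refine ⟨j, ?_⟩
      filter_upwards [hw, hj j le_rfl, rep_aM, rep_x0M, ev_ge j] with k h1 h2 h3 h4 h5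
      change ∃ n, n < rep w k + 1 ∧ ∃ y, y < rep w k + 1 ∧
        (Hist (rep aM k) (rep x0M k) n y (rep w k) ∧ Dd y (rep x k)) at h1
      rw [h3, h4] at h1
      obtain ⟨n, _, y, _, h6, h7⟩ := h1
      have h8 := hist_stage h6 h2
      obtain ⟨_, rfl, _⟩ := hist_read h6
      exact dd_mono h8.le h5 h7
  rw [e]
  exact h

set_option synthInstance.maxSize 100000 in
theorem ceI : CE S cutI := by
  have hD : D0 (fun v => ∃ y, y < v 0 + 1 ∧ Hist (v 2) (v 3) (v 1) y (v 0)) := inferInstance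
  have h := ce_of _ hD (psh aM (psh x0M (fun _ => aM)))
  have e : cutI = fun x => ∃ y : M, ∀ᶠ k in Uf, (fun v : ℕ → ℕ =>
      ∃ y, y < v 0 + 1 ∧ Hist (v 2) (v 3) (v 1) y (v 0))
        (psh (rep y k) (psh (rep x k) (fun i => rep ((psh aM (psh x0M (fun _ => aM))) i) k))) := by
    funext x
    refine propext ⟨?_, ?_⟩
    · rintro ⟨n, hn⟩
      obtain ⟨w, hw⟩ := ex_hist (rep x) n (hn.mono fun _ h => h.le)
      refine ⟨w, ?_⟩
      filter_upwards [hw, rep_aM, rep_x0M] with k h2 h3 h4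
      change ∃ y, y < rep w k + 1 ∧ Hist (rep aM k) (rep x0M k) (rep x k) y (rep w k)
      rw [h3, h4]
      have h5 := h2.2.2.2.lt
      have h7 := le_pr_right (rep x k) (xs k (rep x k))
      exact ⟨xs k (rep x k), by omega, h2⟩
    · rintro ⟨w, hw⟩
      obtain ⟨j, hj⟩ := bd_lt (rep_bd w)
      refine ⟨j, ?_⟩
      filter_upwards [hw, hj j le_rfl, rep_aM, rep_x0M] with k h1 h2 h3 h4
      change ∃ y, y < rep w k + 1 ∧ Hist (rep aM k) (rep x0M k) (rep x k) y (rep w k) at h1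
      rw [h3, h4] at h1
      obtain ⟨y, _, h6⟩ := h1
      exact hist_stage h6 h2
  rw [e]
  exact h

theorem isCut : IsCut S cutI := by
  refine ⟨⟨S.zero, 1, ?_⟩, ⟨aM, ?_⟩, ?_, ?_⟩
  · filter_upwards [rep_zero gr] with k hk
    rw [hk]; omega
  · rintro ⟨n, hn⟩
    obtain ⟨k, hk⟩ := ev_exists (hn.and (rep_aM.and (ev_ge n)))
    omega
  · rintro x y hxy ⟨n, hn⟩
    refine ⟨n, ?_⟩
    have hxy' : ∀ᶠ k in Uf, rep x k < rep y k := hxy
    filter_upwards [hn, hxy'] with k h1 h2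
    omega
  · rintro x ⟨n, hn⟩
    refine ⟨n + 1, ?_⟩
    filter_upwards [hn, rep_add gr x S.one, rep_one gr] with k h1 h2 h3
    rw [h2, h3]; omega

theorem not_iSigma1 : ¬ ISigma1 S := by
  intro h
  obtain ⟨f, c, hf⟩ := ceI
  obtain ⟨h1, ⟨x, hx⟩, h3, h4⟩ := isCut
  apply hx
  rw [hf]
  refine h f c ((hf _).1 ?_) (fun x hx => (hf _).1 (h4 x ((hf x).2 hx))) x
  exact ⟨1, (rep_zero gr).mono fun k hk => by rw [hk]; omega⟩

theorem redIA : Red S cutI setA := by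
  have hD : D0 (fun v => ∀ z, z < v 1 → (Bt (v 1) z → z < v 3 + 1 → Bt (v 2) z)) := inferInstance
  refine red_of_neg ceI _ hD (fun _ => aM) (fun K => ⟨?_, ?_⟩)
  · intro hK
    have hb : Bd sx (fun k => 2 ^ rep K k) := (rep_bd K).pow gr
    have h1 : ∀ᶠ k in Uf, ∃ q, q ≤ 2 ^ rep K k ∧ ∀ z, Bt q z ↔ (Bt (rep K k) z ∧ z ≤ k) := by
      refine Eventually.of_forall fun k => ?_
      obtain ⟨q, hq, h⟩ := mk_code' (rep K k) (fun z => Bt (rep K k) z ∧ z ≤ k)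
        (fun z hz => hz.1.lt)
      exact ⟨q, hq.le, h⟩
    obtain ⟨q, hq⟩ := choose_fn hb h1
    refine ⟨q, ?_, S.zero, ?_⟩
    · rw [apxA.neg_iff]
      intro m
      have h2 := (apxI.neg_iff K).1 hK m
      filter_upwards [hq, h2, ev_ge m] with k h3 h4 h5 z hz hPA
      rw [h3.2] at hz
      rw [PA_iff h5, dd_eq h5, clock h5 hz.2] at hPA
      exact h4 z hz.1 (by omega)
    · filter_upwards [hq, rep_aM] with k h3 h4
      change ∀ z, z < rep K k → (Bt (rep K k) z → z < rep aM k + 1 → Bt (rep q k) z)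
      intro z _ h5 h6
      rw [h3.2]
      exact ⟨h5, by omega⟩
  · rintro ⟨q, hq, y, hy⟩
    rw [apxI.neg_iff]
    intro m
    have h2 := (apxA.neg_iff q).1 hq m
    filter_upwards [hy, h2, rep_aM, ev_ge m] with k h3 h4 h5 h6 z hz hzm
    change ∀ z, z < rep K k → (Bt (rep K k) z → z < rep aM k + 1 → Bt (rep q k) z) at h3
    have h7 := h3 z hz.lt hz (by omega)
    refine h4 z h7 ?_
    rw [PA_iff h6, dd_eq h6, clock h6 (by omega)]
    refine ⟨by omega, ?_⟩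
    have := (V_inv h6).av
    omega

theorem bt_two_pow {z j : ℕ} : Bt (2 ^ z) j ↔ j = z := by
  rw [bt_iff, Nat.testBit_two_pow, decide_eq_true_iff]
  exact eq_comm

theorem notRedAI : ¬ Red S setA cutI := by
  intro h
  obtain ⟨e, he, n0, -, hsound, hcomp⟩ := claims h
  obtain ⟨j0, hj0⟩ := bd_lt he
  set h0 := j0 + 1 with hh0
  have heV : ∀ᶠ k in Uf, e k < V k h0 := by
    filter_upwards [hj0 j0 le_rfl, ev_ge (j0 + 1)] with k h1 h2
    have := (nx (k := k) (n := j0) (by omega)).xV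
    rw [hh0]
    omega
  -- a free element
  obtain ⟨ν, hν1, hν2, hν3⟩ := overspill (fun j k => ∃ z, z ≤ V k (h0 + 1) ∧
      ∀ j', h0 < j' → j' ≤ j → ∃ i, cU (xs k j') (V k h0) 0 i z) (fun j => by
    filter_upwards [ev_ge j, ev_ge (h0 + 1)] with k hk hk'
    by_cases hj : h0 < j
    · obtain ⟨i, z, hz⟩ := ex_unit (c := 0) hk hj (Or.inl rfl)
      obtain ⟨z', h1, _, h2⟩ := free_elt j hj hk i ⟨z, hz⟩
      refine ⟨z', ?_, h2⟩
      obtain ⟨i1, h3⟩ := h2 (h0 + 1) (by omega) (by omega)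
      exact (cls_lt (by omega) h3).2.2.2.le
    · exact ⟨0, Nat.zero_le _, fun j' h1 h2 => by omega⟩)
  obtain ⟨z, hz⟩ := choose_fn (bd_V (h0 + 1)) (hν3.mono fun k hk => hk (ν k) le_rfl)
  let K : M := mk (fun k => 2 ^ rep z k) ((rep_bd z).pow gr)
  have hK : ∀ᶠ k in Uf, rep K k = 2 ^ rep z k := rep_mk _ _
  have hKA : Neg S K setA := by
    refine apxA.neg_of K ν hν1 ?_
    filter_upwards [hK, hz, hν1 (h0 + 1)] with k h1 h2 h3 z' hz' hP
    rw [h1, bt_two_pow] at hz'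
    subst hz'
    rw [PA_iff (hν2 k), dd_eq (hν2 k)] at hP
    obtain ⟨i, h4⟩ := h2.2 (ν k) (by omega) le_rfl
    exact hP.1 (cls_lt (hν2 k) h4).1
  obtain ⟨p, q, hp, hq, n1, hn1⟩ := hcomp K hKA
  obtain ⟨m1, hm1⟩ := (apxI.pos_iff p).1 hp
  set n := n0 + n1 + m1 + h0 + 1 with hn
  have hmain : ∀ᶠ k in Uf, ∃ z₁, z₁ ≤ sx n k ∧ ∃ p₁, p₁ ≤ sx n k ∧ ∃ q₁, q₁ ≤ sx n k ∧
      (TS k n (e k) (2 ^ z₁) p₁ q₁ ∧ (∀ j, Bt p₁ j → j < n + 1) ∧ z₁ < V k n ∧
        ¬ cO (xs k (n + 1)) z₁ ∧ ∀ m, m < xs k n + 1 → (∀ j, j < m → ¬ Bt (rep q k) j) →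
          ∀ j, j < m → ¬ Bt q₁ j) := by
    filter_upwards [hn1 n (by omega), hK, hz, hm1, heV, hν1 n, ev_ge (n + 1)]
      with k h1 h2 h3 h4 h5 h6 h7
    rw [h2] at h1
    obtain ⟨i, hU⟩ := h3.2 n (by omega) h6
    have hU' := cU_lt hU
    have hr := row_V (k := k) (n := n) (h := h0) (by omega) (by omega)
    have hr' := rw_iff.1 hr
    have hpq := h1
    unfold TS Test at hpq
    obtain ⟨z₁, b1, p₁, b2, q₁, b3, hC, b4, b5⟩ := (nx (k := k) (n := n) (by omega)).kill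
      (V k h0) (cD_lt hr'.1) (V k (h0 + 1)) (cD_lt hr'.2.1) hr (e k) h5 (rep z k) hU'.2.2.2
      (rep p k) hpq.2.1 (rep q k) hpq.2.2.1
      ⟨⟨0, hU'.2.1, i, hU'.2.2.1, hU⟩, h1, fun j _ hj => by
        have : j < m1 := h4 j hj
        omega⟩
    obtain ⟨⟨c, _, i', _, hU1⟩, hT1, hp1⟩ := hC
    refine ⟨z₁, b1.le, p₁, b2.le, q₁, b3.le, hT1, fun j hj => hp1 j hj.lt hj,
      (cls_lt (by omega) hU1).2.2.2, b4, b5⟩
  obtain ⟨z₁, hz₁⟩ := choose_fn (sx_bd n) hmain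
  obtain ⟨p₁, hp₁⟩ := choose_fn (sx_bd n) (hz₁.mono fun k hk => hk.2)
  obtain ⟨q₁, hq₁⟩ := choose_fn (sx_bd n) (hp₁.mono fun k hk => hk.2)
  let K₁ : M := mk (fun k => 2 ^ rep z₁ k) ((rep_bd z₁).pow gr)
  have hK₁ : ∀ᶠ k in Uf, rep K₁ k = 2 ^ rep z₁ k := rep_mk _ _
  have hneg : Neg S K₁ setA := by
    refine hsound n (by omega) K₁ p₁ q₁ ?_ ?_ ?_
    · filter_upwards [hq₁, hK₁] with k h1 h2
      rw [h2]; exact h1.2.1
    · rw [apxI.pos_iff]
      refine ⟨n + 1, ?_⟩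
      filter_upwards [hq₁] with k h1 j hj
      exact h1.2.2.1 j hj
    · rw [apxI.neg_iff]
      intro m
      have h2 := (apxI.neg_iff q).1 hq m
      filter_upwards [hq₁, h2, ev_ge (m + n + 1)] with k h1 h3 h4 j hj hjm
      have h5 : m < xs k n + 1 := by
        have h6 := V_inv (k := k) (n := n) (by omega)
        have h7 : V k n < xs k n := cD_lt h6.tp.1
        have h8 := h6.av
        omega
      exact h1.2.2.2.2.2 m h5 (fun j' hj' hb => h3 j' hb hj') j hjm hj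
  have hz₁K : Elt S z₁ K₁ := by
    rw [elt_iff]
    filter_upwards [hK₁] with k hk
    rw [hk, bt_two_pow]
  refine hneg z₁ hz₁K ⟨n + 1, ?_⟩
  filter_upwards [hq₁, ev_ge (n + 1)] with k h1 h2
  rw [dd_eq h2]
  exact ⟨h1.2.2.2.2.1, lt_trans h1.2.2.2.1 (V_lt (Nat.lt_succ_self n) h2)⟩

end Pool.Agent.BSig
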