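import Pool.Agent.Work.MP_510745_lc.Ver3

/-!
Verification, part 4: static description of the negative facts of a set `B ≤ A`.
-/

namespace Pool.Agent.BSig

open Filter

/-- The data of a reduction `B ≤ A`. -/
structure RD (B : M → Prop) (e : ℕ → ℕ) (n₀ : ℕ) : Prop where
  sound : ∀ n, n₀ ≤ n → ∀ K p q : M, (∀ᶠ k in Uf, TS k n (e k) (rep K k) (rep p k) (rep q k)) →
      Pos S p setA → Neg S q setA → Neg S K B
  comp : ∀ K, Neg S K B → ∃ p q : M, Pos S p setA ∧ Neg S q setA ∧ ∃ n, ∀ n', n ≤ n' →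
      ∀ᶠ k in Uf, TS k n' (e k) (rep K k) (rep p k) (rep q k)

theorem neg_sub {K K' : M} {B : M → Prop} (h : ∀ᶠ k in Uf, ∀ z, Bt (rep K k) z → Bt (rep K' k) z)
    (hK : Neg S K' B) : Neg S K B := by
  intro x hx
  apply hK x
  rw [elt_iff] at hx ⊢
  filter_upwards [h, hx] with k h1 h2
  exact h1 _ h2

theorem RD.sound_over {B : M → Prop} {e : ℕ → ℕ} {n₀ : ℕ} (h : RD B e n₀) {n : ℕ} (hn : n₀ ≤ n)
    (K : M) (ν : ℕ → ℕ) (hν : ∀ n, ∀ᶠ k in Uf, n ≤ ν k) (hν' : ∀ k, ν k ≤ k)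
    (hK : ∀ᶠ k in Uf, Cn k n (e k) (fun z => cO (xs k (ν k)) z) (rep K k)) : Neg S K B := by
  have h1 : ∀ᶠ k in Uf, ∃ k', k' ≤ sx n k ∧ ∃ p, p ≤ sx n k ∧ ∃ q, q ≤ sx n k ∧
      ((∀ z, Bt (rep K k) z → Bt k' z) ∧ (∀ z, Bt p z → Dd (xs k (n + 1)) z) ∧
        (∀ z, Bt q z → cO (xs k (ν k)) z) ∧ TS k n (e k) k' p q) := by
    filter_upwards [hK] with k hk
    obtain ⟨k', p, q, h1, h2, h3, h4⟩ := hk
    have h5 := h4
    unfold TS Test at h5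
    exact ⟨k', h5.1.le, p, h5.2.1.le, q, h5.2.2.1.le, h1, h2, h3, h4⟩
  obtain ⟨K', hK'⟩ := choose_fn (sx_bd n) h1
  obtain ⟨p, hp⟩ := choose_fn (sx_bd n) (hK'.mono fun _ h => h.2)
  obtain ⟨q, hq⟩ := choose_fn (sx_bd n) (hp.mono fun _ h => h.2)
  refine neg_sub (K' := K') (hq.mono fun k hk => hk.2.1) (h.sound n hn K' p q ?_ ?_ ?_)
  · exact hq.mono fun k hk => hk.2.2.2.2
  · rw [apxA.pos_iff]
    refine ⟨n + 1, ?_⟩
    filter_upwards [hq, ev_ge (n + 1)] with k hk h2 z hz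
    exact (PA_iff h2).2 (hk.2.2.1 z hz)
  · refine apxA.neg_of q ν hν ?_
    filter_upwards [hq] with k hk z hz hP
    rw [PA_iff (hν' k), dd_eq (hν' k)] at hP
    exact hP.1 (hk.2.2.2.1 z hz)

/-- `K` is covered at the snapshot `n` by the alive sets of all later stages. -/
def Cov0 (e : ℕ → ℕ) (n h : ℕ) (K : M) : Prop :=
  ∀ m, n + 1 ≤ m → ∀ᶠ k in Uf, Cn k n (e k) (Gh k n h m) (rep K k)

theorem Cov0.over {e : ℕ → ℕ} {n h : ℕ} {K : M} (hK : Cov0 e n h K) :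
    ∃ ν : ℕ → ℕ, (∀ n, ∀ᶠ k in Uf, n ≤ ν k) ∧ (∀ k, ν k ≤ k) ∧
      ∀ᶠ k in Uf, Cn k n (e k) (Gh k n h (ν k)) (rep K k) := by
  obtain ⟨ν, h1, h2, h3⟩ := overspill
    (fun m k => n + 1 ≤ m → Cn k n (e k) (Gh k n h m) (rep K k)) (fun m => by
      by_cases hm : n + 1 ≤ m
      · exact (hK m hm).mono fun k hk _ => hk
      · exact Eventually.of_forall fun k h => absurd h hm)
  refine ⟨ν, h1, h2, ?_⟩
  filter_upwards [h3, h1 (n + 1)] with k h4 h5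
  exact h4 (ν k) le_rfl h5

theorem RD.sound_snap {B : M → Prop} {e : ℕ → ℕ} {n₀ : ℕ} (h : RD B e n₀) {n h' : ℕ} (hn : n₀ ≤ n)
    (K : M) (hK : Cov0 e n h' K) : Neg S K B := by
  obtain ⟨ν, h1, h2, h3⟩ := hK.over
  refine h.sound_over hn K ν h1 h2 ?_
  filter_upwards [h3, h1 (n + 1)] with k h4 h5
  exact h4.mono fun z hz => Gh_alive h5 (h2 k) hz

theorem RD.comp_snap {B : M → Prop} {e : ℕ → ℕ} {n₀ : ℕ} (h : RD B e n₀) (K : M)
    (hK : Neg S K B) : ∃ n, ∀ n', n ≤ n' → Cov0 e n' (n' + 1) K := by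
  obtain ⟨p, q, hp, hq, n1, hn1⟩ := h.comp K hK
  obtain ⟨j, hj⟩ := (apxA.pos_iff p).1 hp
  refine ⟨n1 + j, fun n' hn' m hm => ?_⟩
  filter_upwards [hn1 n' (by omega), hj, (apxA.neg_iff q).1 hq m, ev_ge m] with k h1 h2 h3 h4
  refine ⟨rep K k, rep p k, rep q k, fun _ h => h, fun z hz => ?_, fun z hz => ?_, h1⟩
  · have h5 := (PA_iff (by omega : j ≤ k)).1 (h2 z hz)
    exact dd_mono (by omega) (by omega) h5
  · have h5 := h3 z hz
    rw [PA_iff h4] at h5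
    have h6 := h1
    unfold TS Test at h6
    have h7 := hz.lt
    have h8 := (nx (k := k) (n := n') (by omega)).xV
    have h9 : z < V k (n' + 1) := by omega
    have h10 : V k (n' + 1) ≤ V k m := V_mono hm h4
    exact (Gh_top hm h4).2 ⟨h9, (ndd h4 (by omega)).1 h5⟩

/-- The uniform snapshot for a row of `B`. -/
theorem RD.uniform {B : M → Prop} {P : ℕ → ℕ → ℕ → Prop} (hB : Apx B P) {e : ℕ → ℕ} {n₀ : ℕ}
    (h : RD B e n₀) (r : ℕ) : ∃ N, ∀ n, N ≤ n → ∀ K : M, (∀ᶠ k in Uf, rep K k < 2 ^ V k r) →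
      Neg S K B → Cov0 e n (n + 1) K := by
  by_contra hc
  push Not at hc
  choose n hn K hKb hKB hKc using hc
  have h1 : ∀ N, ∃ ν : ℕ → ℕ, (∀ n, ∀ᶠ k in Uf, n ≤ ν k) ∧ (∀ k, ν k ≤ k) ∧
      ∀ᶠ k in Uf, ∀ z, Bt (rep (K N) k) z → ¬ P (ν k) k z := fun N => hB.neg_over _ (hKB N)
  choose ν hν1 hν2 hν3 using h1
  obtain ⟨μ, hμ1, hμ2, hμ3⟩ := diag ν hν1
  have h2 : ∀ᶠ k in Uf, ∃ X, X ≤ 2 ^ V k r ∧ ∀ z, Bt X z ↔ (z < V k r ∧ ¬ P (μ k) k z) := by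
    refine Eventually.of_forall fun k => ?_
    obtain ⟨X, hX, hX'⟩ := mk_code (V k r) (fun z => ¬ P (μ k) k z)
    exact ⟨X, hX.le, hX'⟩
  obtain ⟨X, hX⟩ := choose_fn ((bd_V r).pow gr) h2
  have h3 : Neg S X B := by
    refine hB.neg_of X μ hμ1 ?_
    filter_upwards [hX] with k hk z hz
    exact ((hk.2 z).1 hz).2
  obtain ⟨n1, hn1⟩ := h.comp_snap X h3
  refine hKc n1 (fun m hm => ?_)
  filter_upwards [hn1 (n n1) (hn n1) m hm, hX, hKb n1, hν3 n1, hμ3 n1] with k e1 e2 e3 e4 e5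
  refine e1.down fun z hz => ?_
  rw [e2.2]
  exact ⟨hz.lt_of_lt e3, fun h6 => e4 z hz (hB.le e5 h6)⟩

/-- The covering case at row `h`. -/
def Rcase (e : ℕ → ℕ) (n r h : ℕ) : Prop :=
  ∀ m, n + 1 ≤ m → ∃ m', m < m' ∧ ∀ᶠ k in Uf, CovP k n (e k) r h m m'

theorem Cov0.down {e : ℕ → ℕ} {n r : ℕ} {K : M} (hb : ∀ᶠ k in Uf, rep K k < 2 ^ V k r) (d : ℕ) :
    ∀ h, h + d = n + 1 → (∀ h', h ≤ h' → h' ≤ n → Rcase e n r h') → Cov0 e n (n + 1) K →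
      Cov0 e n h K := by
  induction d with
  | zero =>
    intro h hd _ hK
    have : h = n + 1 := by omega
    rw [this]; exact hK
  | succ d ih =>
    intro h hd hR hK m hm
    have h1 := ih (h + 1) (by omega) (fun h' h1 h2 => hR h' (by omega) h2) hK
    obtain ⟨m', hm', h2⟩ := hR h le_rfl (by omega) m hm
    filter_upwards [h1 m' (by omega), h2, hb] with k e1 e2 e3
    exact e2 _ e3 e1

theorem Cov0.up {e : ℕ → ℕ} {n h h' : ℕ} {K : M} (hh : h ≤ h') (hh' : h' ≤ n + 1)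
    (hK : Cov0 e n h K) : Cov0 e n h' K := by
  intro m hm
  filter_upwards [hK m hm, ev_ge m] with k h1 h2
  exact h1.mono fun z hz => Gh_mono_h hh hh' hm h2 hz

/-- The opponent is active on all rows from `h₁` on. -/
theorem ex_active {e : ℕ → ℕ} (he : Bd sx e) : ∃ h₁, ∀ h, h₁ ≤ h → ∀ᶠ k in Uf, e k < V k h := by
  obtain ⟨j, hj⟩ := bd_lt he
  refine ⟨j + 1, fun h hh => ?_⟩
  filter_upwards [hj j le_rfl, ev_ge h] with k h1 h2
  have h3 := (nx (k := k) (n := j) (by omega)).xV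
  have h4 : V k (j + 1) ≤ V k h := V_mono hh h2
  omega

/-- Outside the covering case there is a stage from which independence holds. -/
theorem not_rcase {e : ℕ → ℕ} {n r h : ℕ} (hh : h ≤ n) (hr : r ≤ n + 1)
    (he : ∀ᶠ k in Uf, e k < V k h) (hR : ¬ Rcase e n r h) :
    ∃ m, n + 1 ≤ m ∧ ∀ m', m < m' → ∀ᶠ k in Uf, IndP k n (e k) r h m m' := by
  unfold Rcase at hR
  push Not at hR
  obtain ⟨m, hm, h1⟩ := hR
  refine ⟨m, hm, fun m' hm' => ?_⟩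
  have h2 := h1 m' hm'
  filter_upwards [h2, he, ev_ge m'] with k e1 e2 e3
  rcases dich (by omega) hh e2 hr hm hm' e3 with h4 | h4
  · exact absurd h4 e1
  · exact h4

end Pool.Agent.BSig
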