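import Pool.Agent.Work.MP_510745_lc.Ver4

/-!
Verification, part 5: the case in which `B` is reducible to the cut.
-/

namespace Pool.Agent.BSig

open Filter

theorem ev_ex_lt {P : ℕ → ℕ → Prop} (j : ℕ) (h : ∀ᶠ k in Uf, ∃ i, i < j ∧ P i k) :
    ∃ i, i < j ∧ ∀ᶠ k in Uf, P i k := by
  induction j with
  | zero =>
    obtain ⟨k, i, hi, _⟩ := ev_exists h
    omega
  | succ j ih =>
    have h1 : ∀ᶠ k in Uf, (∃ i, i < j ∧ P i k) ∨ P j k := by
      filter_upwards [h] with k hk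
      obtain ⟨i, hi, h2⟩ := hk
      by_cases hij : i < j
      · exact Or.inl ⟨i, hij, h2⟩
      · have : i = j := by omega
        exact Or.inr (this ▸ h2)
    rw [ev_or] at h1
    rcases h1 with h1 | h1
    · obtain ⟨i, hi, h2⟩ := ih h1
      exact ⟨i, by omega, h2⟩
    · exact ⟨j, by omega, h1⟩

theorem hist_at {k n y w i y' : ℕ} (h : Hist k (x0 k) n y w) (hi : i ≤ n)
    (hy : Bt w (pr i y')) : y' = xs k i := by
  obtain ⟨h0, h1, h2, h3⟩ := h
  have key : ∀ i, i ≤ n → Bt w (pr i (xs k i)) := by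
    intro i
    induction i with
    | zero => intro _; exact h0
    | succ i ih =>
      intro hi
      have h4 := ih (by omega)
      obtain ⟨s', _, h5, h6⟩ := h1 i (by omega) (xs k i)
        (lt_of_le_of_lt (le_pr_right _ _) h4.lt) h4
      rw [← xs_of_TL h5]; exact h6
  exact h2 i (by omega) y' (lt_of_le_of_lt (le_pr_right _ _) hy.lt) (xs k i)
    (lt_of_le_of_lt (le_pr_right _ _) (key i hi).lt) hy (key i hi)

theorem hist_has {k n y w i : ℕ} (h : Hist k (x0 k) n y w) (hi : i ≤ n) :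
    Bt w (pr i (xs k i)) ∧ xs k i < w := by
  obtain ⟨h0, h1, h2, h3⟩ := h
  have key : ∀ i, i ≤ n → Bt w (pr i (xs k i)) := by
    intro i
    induction i with
    | zero => intro _; exact h0
    | succ i ih =>
      intro hi
      have h4 := ih (by omega)
      obtain ⟨s', _, h5, h6⟩ := h1 i (by omega) (xs k i)
        (lt_of_le_of_lt (le_pr_right _ _) h4.lt) h4
      rw [← xs_of_TL h5]; exact h6
  exact ⟨key i hi, lt_of_le_of_lt (le_pr_right _ _) (key i hi).lt⟩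

theorem cP_D {k n D : ℕ} (hn : n < k) (h : cP (xs k (n + 1)) k D) : D = tow k (xs k n) := by
  have h' := tt_tower (xs_TT k n hn) k (by omega)
  obtain ⟨_, _, _, _, _, _, _, _, _, h1, _⟩ := xs_TT k n hn
  exact h1.2.2 k (cP_lt h).1 D (cP_lt h).2 _ (cP_lt h').2 h h'

theorem cP_has {k n : ℕ} (hn : n < k) : cP (xs k (n + 1)) k (tow k (xs k n)) :=
  tt_tower (xs_TT k n hn) k (by omega)

theorem GM1_iff {x b b' z : ℕ} {X : ℕ → Prop} (hL : LbOK x) (hr : Rw x b b') :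
    GM x 1 b b' 0 0 X z ↔ GH (cL x) (cR x) b (fun z => z < b ∧ X z) z := by
  have hbb : b < b' := hr.2.2.1
  constructor
  · intro h
    unfold GM GS at h
    rw [adm1] at h
    induction h with
    | base z hz =>
      rcases hz with hz | ⟨⟨h1, h2, h3⟩, h4⟩
      · exact GH.base z hz
      · exact GH.high z h1 h3 (fun w hw => GH.base w ⟨hL.row hr h1 h2 hw, h4 w hw⟩)
    | high z h1 h2 _ ih => exact GH.high z (by omega) h2 ih
  · intro h
    induction h with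
    | base z hz => exact GH.base z (Or.inl hz)
    | high z h1 h2 _ ih =>
      by_cases h3 : z < b'
      · refine GH.base z (Or.inr ⟨⟨h1, h3, ?_⟩, fun w hw => ?_⟩)
        · rw [adm1]; exact h2
        · exact (GM_low hbb (hL.row hr h1 h3 hw)).1 (ih w hw)
      · exact GH.high z (by omega) h2 ih

/-- The relation of the reduction to the cut. -/
def R5 (w K q a x e G Dc b b' : ℕ) : Prop :=
  ∃ ν, ν < q + 1 ∧ (Bt q ν ∧ ∃ L, L < w + 1 ∧ ∃ yL, yL < w + 1 ∧ (Hist a x L yL w ∧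
    ∃ r, r < L + 1 ∧ ∃ n, n < L ∧ (Bt G (pr r n) ∧ ∃ yr, yr < w ∧ ∃ yn, yn < w ∧
      ∃ yn', yn' < w ∧ (Bt w (pr r yr) ∧ Bt w (pr n yn) ∧ Bt w (pr (n + 1) yn') ∧
        ∃ f, f < yr ∧ ∃ D, D < yn' + 1 ∧ (Tp yr f ∧ cP yn' a D ∧ K < 2 ^ f ∧
          ∃ X, X < 2 ^ b ∧ ((∀ z, z < b → (Bt X z ↔ Bt Dc (pr ν z))) ∧
            CG yn' yn D e 1 b b' 0 0 X K))))))

set_option synthInstance.maxSize 100000 in
theorem d0_R5 : D0 (fun v => R5 (v 0) (v 1) (v 2) (v 3) (v 4) (v 5) (v 6) (v 7) (v 8) (v 9)) := by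
  unfold R5
  infer_instance

theorem redBI {B : M → Prop} (hCE : CE S B) {e : ℕ → ℕ} (he : Bd sx e) {n₀ : ℕ} (hRD : RD B e n₀)
    (h₁ : ℕ)
    (hcase : ∀ r, ∃ n, n₀ ≤ n ∧ r ≤ n + 1 ∧ h₁ ≤ n ∧
      (∀ K : M, (∀ᶠ k in Uf, rep K k < 2 ^ V k r) → Neg S K B → Cov0 e n (n + 1) K) ∧
      ∀ h, h₁ ≤ h → h ≤ n → Rcase e n r h) : Red S B cutI := by
  classical
  choose nn hn0 hrn hhn hun hR using hcase
  -- parameters
  have hG : ∃ G : M, ∀ᶠ k in Uf, ∀ z, Bt (rep G k) z ↔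
      ∃ r, r ≤ k ∧ nn r ≤ k ∧ z = pr r (nn r) := by
    have hb : Bd sx (fun k => 2 ^ (pr k k + 1)) := ((bd_id.pr bd_id).add gr (Bd.const gr 1)).pow gr
    have h1 : ∀ᶠ k in Uf, ∃ G, G ≤ 2 ^ (pr k k + 1) ∧ ∀ z, Bt G z ↔
        ∃ r, r ≤ k ∧ nn r ≤ k ∧ z = pr r (nn r) := by
      refine Eventually.of_forall fun k => ?_
      obtain ⟨G, hG, h⟩ := mk_code' (pr k k + 1) (fun z => ∃ r, r ≤ k ∧ nn r ≤ k ∧ z = pr r (nn r))
        (by
          rintro z ⟨r, h1, h2, rfl⟩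
          have := pr_mono h1 h2
          omega)
      exact ⟨G, hG.le, h⟩
    obtain ⟨G, hG⟩ := choose_fn hb h1
    exact ⟨G, hG.mono fun _ h => h.2⟩
  obtain ⟨G, hG⟩ := hG
  have hDc : ∃ Dc : M, ∀ᶠ k in Uf, ∀ z, Bt (rep Dc k) z ↔
      ∃ ν y, ν ≤ k ∧ y < V k h₁ ∧ cO (xs k ν) y ∧ z = pr ν y := by
    have hb : Bd sx (fun k => 2 ^ (pr k (V k h₁) + 1)) :=
      ((bd_id.pr (bd_V h₁)).add gr (Bd.const gr 1)).pow gr
    have h1 : ∀ᶠ k in Uf, ∃ G, G ≤ 2 ^ (pr k (V k h₁) + 1) ∧ ∀ z, Bt G z ↔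
        ∃ ν y, ν ≤ k ∧ y < V k h₁ ∧ cO (xs k ν) y ∧ z = pr ν y := by
      refine Eventually.of_forall fun k => ?_
      obtain ⟨G, hG, h⟩ := mk_code' (pr k (V k h₁) + 1)
        (fun z => ∃ ν y, ν ≤ k ∧ y < V k h₁ ∧ cO (xs k ν) y ∧ z = pr ν y) (by
          rintro z ⟨ν, y, h1, h2, -, rfl⟩
          have := pr_mono h1 h2.le
          omega)
      exact ⟨G, hG.le, h⟩
    obtain ⟨G, hG⟩ := choose_fn hb h1
    exact ⟨G, hG.mono fun _ h => h.2⟩
  obtain ⟨Dc, hDc⟩ := hDc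
  let b : M := mk (fun k => V k h₁) (bd_V h₁)
  have hb : ∀ᶠ k in Uf, rep b k = V k h₁ := rep_mk _ _
  let b' : M := mk (fun k => V k (h₁ + 1)) (bd_V (h₁ + 1))
  have hb' : ∀ᶠ k in Uf, rep b' k = V k (h₁ + 1) := rep_mk _ _
  let eM : M := mk e he
  have heM : ∀ᶠ k in Uf, rep eM k = e k := rep_mk _ _
  let c : ℕ → M := psh aM (psh x0M (psh eM (psh G (psh Dc (psh b (psh b' (fun _ => aM)))))))
  refine red_of_neg hCE _ d0_R5 c (fun K => ?_)
  have hexp : ∀ (y q : M), (∀ᶠ k in Uf, (fun v : ℕ → ℕ => R5 (v 0) (v 1) (v 2) (v 3) (v 4) (v 5)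
      (v 6) (v 7) (v 8) (v 9)) (psh (rep y k) (psh (rep K k) (psh (rep q k)
        (fun i => rep (c i) k))))) ↔ ∀ᶠ k in Uf, R5 (rep y k) (rep K k) (rep q k) k (x0 k) (e k)
          (rep G k) (rep Dc k) (V k h₁) (V k (h₁ + 1)) := by
    intro y q
    have h1 : ∀ᶠ k in Uf, (R5 (rep y k) (rep K k) (rep q k) (rep aM k) (rep x0M k) (rep eM k)
          (rep G k) (rep Dc k) (rep b k) (rep b' k) ↔ R5 (rep y k) (rep K k) (rep q k) k (x0 k)
          (e k) (rep G k) (rep Dc k) (V k h₁) (V k (h₁ + 1))) := by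
      filter_upwards [rep_aM, rep_x0M, heM, hb, hb'] with k h1 h2 h3 h4 h5
      rw [h1, h2, h3, h4, h5]
    constructor
    · intro h
      filter_upwards [h, h1] with k e1 e2
      exact e2.1 e1
    · intro h
      filter_upwards [h, h1] with k e1 e2
      exact e2.2 e1
  constructor
  · intro hK
    -- the row
    obtain ⟨j, hj⟩ := bd_lt (rep_bd K)
    set r := j + 1 with hr
    have hKb : ∀ᶠ k in Uf, rep K k < 2 ^ V k r := by
      filter_upwards [hj j le_rfl, ev_ge (j + 1)] with k h1 h2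
      have h3 := (nx (k := k) (n := j) (by omega)).xV
      have h4 : V k (j + 1) < 2 ^ V k (j + 1) := Nat.lt_two_pow_self
      rw [hr]
      omega
    have h1 := hun r K hKb hK
    have h2 := h1.down hKb (nn r + 1 - h₁) h₁ (by have := hhn r; omega) (hR r)
    obtain ⟨ν, hν1, hν2, hν3⟩ := h2.over
    have hqb : Bd sx (fun k => 2 ^ ν k) := (bd_id.of_le hν2).pow gr
    let q : M := mk (fun k => 2 ^ ν k) hqb
    have hq : ∀ᶠ k in Uf, rep q k = 2 ^ ν k := rep_mk _ _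
    refine ⟨q, ?_, ?_⟩
    · refine apxI.neg_of q ν hν1 ?_
      filter_upwards [hq] with k h3 z hz hz'
      rw [h3, bt_two_pow] at hz
      omega
    · obtain ⟨w, hw⟩ := ex_hist (fun _ => r + nn r + 1) (r + nn r + 1)
        (Eventually.of_forall fun _ => le_rfl)
      refine ⟨w, ?_⟩
      rw [hexp]
      filter_upwards [hw, hq, hν3, hG, hDc, hKb, hν1 (nn r + 1), ev_ge (r + nn r + 2)]
        with k e1 e2 e3 e4 e5 e6 e7 e8
      have hqν : Bt (rep q k) (ν k) := by rw [e2, bt_two_pow]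
      have f1 := hist_has e1 (i := r) (by omega)
      have f2 := hist_has e1 (i := nn r) (by omega)
      have f3 := hist_has e1 (i := nn r + 1) (by omega)
      have f4 := hist_has e1 (i := r + nn r + 1) le_rfl
      have f5 := le_pr_left (r + nn r + 1) (xs k (r + nn r + 1))
      have f6 := f4.1.lt
      have hI := V_inv (k := k) (n := r) (by omega)
      have hI' := V_inv (k := k) (n := nn r + 1) (by omega)
      have hhr := hhn r
      have hrow := row_V (k := k) (n := nn r + 1) (h := h₁) (by omega) (by omega)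
      have f7 := cP_has (k := k) (n := nn r) (by omega)
      obtain ⟨X, hX, hX'⟩ := mk_code (V k h₁) (fun z => cO (xs k (ν k)) z)
      have hXeq : Bt X = Xs k h₁ (ν k) := funext fun z => propext (hX' z)
      refine ⟨ν k, by have := hqν.lt; omega, hqν, r + nn r + 1, by omega, _, by omega, e1, r,
        by omega, nn r, by omega, (e4 _).2 ⟨r, by omega, by omega, rfl⟩, xs k r, f1.2,
        xs k (nn r), f2.2, xs k (nn r + 1), f3.2, f1.1, f2.1, f3.1, V k r, cD_lt hI.tp.1,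
        tow k (xs k (nn r)), by have := (cP_lt f7).2; omega, hI.tp, f7, e6, X, hX, ?_, ?_⟩
      · intro z hz
        rw [hX', e5]
        constructor
        · rintro ⟨_, g1⟩
          exact ⟨ν k, z, hν2 k, hz, g1, rfl⟩
        · rintro ⟨ν', y, _, _, g1, g2⟩
          obtain ⟨rfl, rfl⟩ := pr_inj g2
          exact ⟨hz, g1⟩
      · rw [cg_iff hI'.lb hrow, hXeq]
        refine e3.mono fun z hz => ?_
        rw [GM1_iff hI'.lb hrow]
        refine GH.mono (fun z hz => ⟨hz.1, hz⟩) hz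
  · rintro ⟨q, hq, w, hw⟩
    rw [hexp] at hw
    obtain ⟨j, hj⟩ := bd_lt (rep_bd w)
    have h1 : ∀ᶠ k in Uf, ∃ r, r < j ∧ ∃ n, n < j ∧ ∃ ν, ν ≤ rep q k ∧ (Bt (rep q k) ν ∧
        Bt (rep G k) (pr r n) ∧ r ≤ k ∧ n < k ∧ rep K k < 2 ^ V k r ∧
        ∃ X, X < 2 ^ V k h₁ ∧ ((∀ z, z < V k h₁ → (Bt X z ↔ Bt (rep Dc k) (pr ν z))) ∧
            CG (xs k (n + 1)) (xs k n) (tow k (xs k n)) (e k) 1 (V k h₁) (V k (h₁ + 1)) 0 0 X
              (rep K k))) := by
      filter_upwards [hw, hj j le_rfl] with k e1 e2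
      obtain ⟨ν, _, hν, L, _, yL, _, hH, r, hr, n, hn, hGn, yr, _, yn, _, yn', _, b1, b2, b3, f, _,
        D, _, hTp, hD, hKf, X, hX, hX1, hX2⟩ := e1
      have hL := hist_stage hH e2
      have hLk := (hist_read hH).1
      obtain rfl := hist_at hH (by omega) b1
      obtain rfl := hist_at hH (by omega) b2
      obtain rfl := hist_at hH (by omega) b3
      obtain rfl := tp_unique hTp (V_inv (k := k) (n := r) (by omega)).tp
      obtain rfl := cP_D (by omega) hD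
      exact ⟨r, by omega, n, by omega, ν, hν.lt.le, hν, hGn, by omega, by omega, hKf, X, hX, hX1,
        hX2⟩
    obtain ⟨r, _, h2⟩ := ev_ex_lt j h1
    obtain ⟨n, _, h3⟩ := ev_ex_lt j h2
    obtain ⟨ν, hν⟩ := choose_fn (rep_bd q) h3
    have hnr : n = nn r := by
      obtain ⟨k, e1, e2⟩ := ev_exists (hν.and hG)
      obtain ⟨r', _, _, h5⟩ := (e2 _).1 e1.2.2.1
      obtain ⟨rfl, h6⟩ := pr_inj h5
      exact h6
    subst hnr
    have hνI : ∀ m, ∀ᶠ k in Uf, m ≤ rep ν k := by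
      intro m
      filter_upwards [(apxI.neg_iff q).1 hq m, hν] with k e1 e2
      have := e1 _ e2.2.1
      omega
    refine hRD.sound_snap (h' := h₁) (hn0 r) K (fun m hm => ?_)
    filter_upwards [hν, hDc, hνI m, ev_ge m] with k e1 e2 e3 e4
    obtain ⟨_, _, _, _, _, _, X, hX, hX1, hX2⟩ := e1
    have hhr := hhn r
    have hI' := V_inv (k := k) (n := nn r + 1) (by omega)
    have hrow := row_V (k := k) (n := nn r + 1) (h := h₁) (by omega) (by omega)
    rw [cg_iff hI'.lb hrow] at hX2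
    refine hX2.mono fun z hz => ?_
    rw [GM1_iff hI'.lb hrow] at hz
    refine GH.mono (fun z hz => ?_) hz
    have h5 := (hX1 z hz.1).1 hz.2
    obtain ⟨ν', y, g1, g2, g3, g4⟩ := (e2 _).1 h5
    obtain ⟨rfl, rfl⟩ := pr_inj g4
    refine ⟨hz.1, O_mono e3 g1 ?_ g3⟩
    exact lt_of_lt_of_le hz.1 (V_mono (by omega) e4)

end Pool.Agent.BSig
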