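import Pool.Agent.Work.MP_510745_lc.Ver5

/-!
Verification, part 6: the case in which `A` is reducible to `B`, and the main theorem.
-/

namespace Pool.Agent.BSig

open Filter

/-- The relation of the reduction of `A` to `B`. -/
def R6 (w K q a x e G : ℕ) : Prop :=
  ∃ L, L < w + 1 ∧ ∃ yL, yL < w + 1 ∧ (Hist a x L yL w ∧
    ∃ r, r < L + 1 ∧ ∃ n, n < L ∧ ∃ h, h < L ∧ ∃ m, m < L + 1 ∧
      (Bt G (pr r (pr n (pr h m))) ∧ ∃ yr, yr < w ∧ ∃ yn, yn < w ∧
      ∃ yn', yn' < w ∧ ∃ yh, yh < w ∧ ∃ yh', yh' < w ∧ ∃ ym, ym < w ∧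
        (Bt w (pr r yr) ∧ Bt w (pr n yn) ∧ Bt w (pr (n + 1) yn') ∧ Bt w (pr h yh) ∧
          Bt w (pr (h + 1) yh') ∧ Bt w (pr m ym) ∧
        ∃ f, f < yr ∧ ∃ b, b < yh ∧ ∃ b', b' < yh' ∧ ∃ D, D < yn' + 1 ∧
          (Tp yr f ∧ Tp yh b ∧ Tp yh' b' ∧ cP yn' a D ∧ q < 2 ^ f ∧
          ∃ X, X < 2 ^ b ∧ ((∀ z, z < b → (Bt X z ↔ cO ym z)) ∧
            ∀ N, N < K → (Bt K N → N < b ∧ ∃ i, i < yn' ∧
              ((∃ z, z < yn' ∧ cU yn' b (N + 1) i z) ∧
              ¬ CG yn' yn D e 3 b b' (N + 1) i X q)))))))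

set_option synthInstance.maxSize 100000 in
theorem d0_R6 : D0 (fun v => R6 (v 0) (v 1) (v 2) (v 3) (v 4) (v 5) (v 6)) := by
  unfold R6
  infer_instance

/-- The data of an independent row. -/
structure IR (B : M → Prop) (e : ℕ → ℕ) (n₀ r n h m : ℕ) : Prop where
  n0 : n₀ ≤ n
  rn : r ≤ n + 1
  hn : h ≤ n
  un : ∀ K : M, (∀ᶠ k in Uf, rep K k < 2 ^ V k r) → Neg S K B → Cov0 e n (n + 1) K
  R : ∀ h', h + 1 ≤ h' → h' ≤ n → Rcase e n r h'
  nm : n + 1 ≤ m
  ind : ∀ m', m < m' → ∀ᶠ k in Uf, IndP k n (e k) r h m m'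

theorem cg3_iff {k n h m c i X K ek : ℕ} (hn : n < k) (hh : h ≤ n)
    (hX : X < 2 ^ V k h) (hX1 : ∀ z, z < V k h → (Bt X z ↔ cO (xs k m) z)) :
    CG (xs k (n + 1)) (xs k n) (tow k (xs k n)) ek 3 (V k h) (V k (h + 1)) c i X K ↔
      Cn k n ek (G3 k n h m c i) K := by
  have hI' := V_inv (k := k) (n := n + 1) (by omega)
  have hrow := row_V (k := k) (n := n + 1) (h := h) (by omega) (by omega)
  have hXeq : Bt X = Xs k h m := by
    funext z
    refine propext ⟨fun hz => ?_, fun hz => (hX1 z hz.1).2 hz.2⟩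
    have h1 := hz.lt_of_lt hX
    exact ⟨h1, (hX1 z h1).1 hz⟩
  rw [cg_iff hI'.lb hrow, hXeq]
  unfold GM
  rw [adm3]
  exact Iff.rfl

theorem redAB {B : M → Prop} {e : ℕ → ℕ} (he : Bd sx e) {n₀ : ℕ} (hRD : RD B e n₀)
    (hcase : ∀ j, ∃ r n h m, j ≤ h ∧ IR B e n₀ r n h m) : Red S setA B := by
  classical
  choose rr nn hh mm hjh hIR using hcase
  have hG : ∃ G : M, ∀ᶠ k in Uf, ∀ z, Bt (rep G k) z ↔
      ∃ j, j ≤ k ∧ rr j ≤ k ∧ nn j ≤ k ∧ hh j ≤ k ∧ mm j ≤ k ∧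
        z = pr (rr j) (pr (nn j) (pr (hh j) (mm j))) := by
    have hb : Bd sx (fun k => 2 ^ (pr k (pr k (pr k k)) + 1)) :=
      ((bd_id.pr (bd_id.pr (bd_id.pr bd_id))).add gr (Bd.const gr 1)).pow gr
    have h1 : ∀ᶠ k in Uf, ∃ G, G ≤ 2 ^ (pr k (pr k (pr k k)) + 1) ∧ ∀ z, Bt G z ↔
        ∃ j, j ≤ k ∧ rr j ≤ k ∧ nn j ≤ k ∧ hh j ≤ k ∧ mm j ≤ k ∧
        z = pr (rr j) (pr (nn j) (pr (hh j) (mm j))) := by
      refine Eventually.of_forall fun k => ?_
      obtain ⟨G, hG, h⟩ := mk_code' (pr k (pr k (pr k k)) + 1)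
        (fun z => ∃ j, j ≤ k ∧ rr j ≤ k ∧ nn j ≤ k ∧ hh j ≤ k ∧ mm j ≤ k ∧
        z = pr (rr j) (pr (nn j) (pr (hh j) (mm j)))) (by
          rintro z ⟨j, h1, h2, h3, h4, h5, rfl⟩
          have := pr_mono h2 (pr_mono h3 (pr_mono h4 h5))
          omega)
      exact ⟨G, hG.le, h⟩
    obtain ⟨G, hG⟩ := choose_fn hb h1
    exact ⟨G, hG.mono fun _ h => h.2⟩
  obtain ⟨G, hG⟩ := hG
  let eM : M := mk e he
  have heM : ∀ᶠ k in Uf, rep eM k = e k := rep_mk _ _
  let c : ℕ → M := psh aM (psh x0M (psh eM (psh G (fun _ => aM))))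
  refine red_of_neg ceA _ d0_R6 c (fun K => ?_)
  have hexp : ∀ (y q : M), (∀ᶠ k in Uf, (fun v : ℕ → ℕ => R6 (v 0) (v 1) (v 2) (v 3) (v 4) (v 5)
      (v 6)) (psh (rep y k) (psh (rep K k) (psh (rep q k)
        (fun i => rep (c i) k))))) ↔ ∀ᶠ k in Uf, R6 (rep y k) (rep K k) (rep q k) k (x0 k) (e k)
          (rep G k) := by
    intro y q
    have h1 : ∀ᶠ k in Uf, (R6 (rep y k) (rep K k) (rep q k) (rep aM k) (rep x0M k) (rep eM k)
          (rep G k) ↔ R6 (rep y k) (rep K k) (rep q k) k (x0 k)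
          (e k) (rep G k)) := by
      filter_upwards [rep_aM, rep_x0M, heM] with k h1 h2 h3
      rw [h1, h2, h3]
    constructor
    · intro h
      filter_upwards [h, h1] with k e1 e2
      exact e2.1 e1
    · intro h
      filter_upwards [h, h1] with k e1 e2
      exact e2.2 e1
  constructor
  · intro hK
    obtain ⟨j, hj⟩ := bd_lt (rep_bd K)
    set r := rr (j + 1) with hr
    set n := nn (j + 1) with hn
    set h := hh (j + 1) with hh'
    set m := mm (j + 1) with hm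
    have hI := hIR (j + 1)
    rw [← hr, ← hn, ← hh', ← hm] at hI
    have hjh' : j + 1 ≤ h := hjh (j + 1)
    have hrn := hI.rn
    have hhn := hI.hn
    have hnm := hI.nm
    -- all elements of `K` are in lower rows
    have hKlow : ∀ᶠ k in Uf, ∀ N, Bt (rep K k) N → N < V k h := by
      filter_upwards [hj j le_rfl, ev_ge (h + 1)] with k h1 h2 N hN
      have h3 := (nx (k := k) (n := j) (by omega)).xV
      have h4 : V k (j + 1) ≤ V k h := V_mono hjh' (by omega)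
      have h5 := hN.lt
      omega
    -- a nonstandard stage
    obtain ⟨ν, hν1, hν2, hν3⟩ := overspill
      (fun μ k => (m < μ → IndP k n (e k) r h m μ) ∧ ∀ N, Bt (rep K k) N → ¬ PA μ k N)
      (fun μ => by
        by_cases hμ : m < μ
        · filter_upwards [hI.ind μ hμ, (apxA.neg_iff K).1 hK μ] with k h1 h2
          exact ⟨fun _ => h1, h2⟩
        · filter_upwards [(apxA.neg_iff K).1 hK μ] with k h2
          exact ⟨fun h => absurd h hμ, h2⟩)
    have hfin : ∀ᶠ k in Uf, ∀ N, Bt (rep K k) N → ∃ i KN, (∃ z, cU (xs k (n + 1)) (V k h) (N + 1) i z)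
        ∧ KN < 2 ^ V k r ∧ Cn k n (e k) (fun z => cO (xs k (ν k)) z) KN ∧
        ¬ Cn k n (e k) (G3 k n h m (N + 1) i) KN := by
      filter_upwards [hν3, hν1 (m + n + 2), hKlow] with k h1 h2 h3 N hN
      obtain ⟨h4, h5⟩ := h1 (ν k) le_rfl
      have h6 := h4 (by omega)
      have h7 := h5 N hN
      have hνk := hν2 k
      rw [PA_iff hνk] at h7
      have hNV : N < V k (ν k) := lt_of_lt_of_le (h3 N hN) (V_mono (by omega) hνk)
      have h8 : cO (xs k (ν k)) N := (ndd hνk hNV).1 h7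
      have hcl : ClsS (cO (xs k (ν k))) (V k h) (N + 1) := Or.inr ⟨N, rfl, h3 N hN, h8⟩
      obtain ⟨i', z', hz'⟩ := ex_unit (k := k) (n := ν k) (h := h) (c := 0) hνk (by omega)
        (Or.inl rfl)
      obtain ⟨i, hex, hal, _⟩ := unit_chain (k := k) (n := n + 1) (h := h) (c := N + 1) (by omega)
        (by omega) (ν k) (by omega) hνk hcl i' ⟨z', hz'⟩
      obtain ⟨KN, hKN, h9, h10⟩ := h6 (N + 1) i (Or.inr ⟨N, rfl, h3 N hN, h8⟩) hex
      refine ⟨i, KN, hex, hKN, h9.mono fun z hz => ?_, h10⟩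
      exact G2_alive (by omega) hνk (hal (ν k) (by omega) le_rfl) hz
    -- choose the codes
    let κ : ℕ → ℕ → ℕ := fun k N => if hx : ∃ KN i, (∃ z, cU (xs k (n + 1)) (V k h) (N + 1) i z)
        ∧ KN < 2 ^ V k r ∧ Cn k n (e k) (fun z => cO (xs k (ν k)) z) KN ∧
        ¬ Cn k n (e k) (G3 k n h m (N + 1) i) KN then hx.choose else 0
    have hκ : ∀ᶠ k in Uf, ∀ N, Bt (rep K k) N → ∃ i,
        (∃ z, cU (xs k (n + 1)) (V k h) (N + 1) i z)
        ∧ κ k N < 2 ^ V k r ∧ Cn k n (e k) (fun z => cO (xs k (ν k)) z) (κ k N) ∧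
        ¬ Cn k n (e k) (G3 k n h m (N + 1) i) (κ k N) := by
      filter_upwards [hfin] with k hk N hN
      obtain ⟨i, KN, h1⟩ := hk N hN
      have hx : ∃ KN i, (∃ z, cU (xs k (n + 1)) (V k h) (N + 1) i z)
        ∧ KN < 2 ^ V k r ∧ Cn k n (e k) (fun z => cO (xs k (ν k)) z) KN ∧
        ¬ Cn k n (e k) (G3 k n h m (N + 1) i) KN := ⟨KN, i, h1⟩
      simp only [κ, dif_pos hx]
      exact hx.choose_spec
    have hq : ∀ᶠ k in Uf, ∃ q, q ≤ 2 ^ V k r ∧ (q < 2 ^ V k r ∧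
        ∀ z, Bt q z ↔ (z < V k r ∧ ∃ N, Bt (rep K k) N ∧ Bt (κ k N) z)) := by
      refine Eventually.of_forall fun k => ?_
      obtain ⟨q, h1, h2⟩ := mk_code (V k r) (fun z => ∃ N, Bt (rep K k) N ∧ Bt (κ k N) z)
      exact ⟨q, h1.le, h1, h2⟩
    obtain ⟨q, hq⟩ := choose_fn ((bd_V r).pow gr) hq
    refine ⟨q, ?_, ?_⟩
    · -- `q` is disjoint from `B`
      intro x hx hBx
      have hx' := (elt_iff gr x q).1 hx
      have h1 : ∀ᶠ k in Uf, ∃ N, N ≤ rep K k ∧ (Bt (rep K k) N ∧ Bt (κ k N) (rep x k)) := by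
        filter_upwards [hx', hq] with k h1 h2
        obtain ⟨_, N, h3, h4⟩ := (h2.2.2 _).1 h1
        exact ⟨N, h3.lt.le, h3, h4⟩
      obtain ⟨N, hN⟩ := choose_fn (rep_bd K) h1
      have hb1 : Bd sx (fun k => κ k (rep N k)) := by
        refine ((bd_V r).pow gr).mono ?_
        filter_upwards [hκ, hN] with k h1 h2
        obtain ⟨i, _, h3, _⟩ := h1 _ h2.2.1
        exact h3.le
      let K1 : M := mk _ hb1
      have hK1 : ∀ᶠ k in Uf, rep K1 k = κ k (rep N k) := rep_mk _ _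
      have h2 : Neg S K1 B := by
        refine hRD.sound_over hI.n0 K1 ν hν1 hν2 ?_
        filter_upwards [hK1, hκ, hN] with k h1 h2 h3
        obtain ⟨i, _, _, h4, _⟩ := h2 _ h3.2.1
        rw [h1]; exact h4
      refine h2 x ?_ hBx
      rw [elt_iff]
      filter_upwards [hK1, hN] with k h1 h2
      rw [h1]; exact h2.2.2
    · obtain ⟨w, hw⟩ := ex_hist (fun _ => r + n + h + m + 1) (r + n + h + m + 1)
        (Eventually.of_forall fun _ => le_rfl)
      refine ⟨w, ?_⟩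
      rw [hexp]
      filter_upwards [hw, hκ, hq, hG, hKlow, ev_ge (r + n + h + m + j + 2)]
        with k e1 e2 e3 e4 e5 e6
      have f1 := hist_has e1 (i := r) (by omega)
      have f2 := hist_has e1 (i := n) (by omega)
      have f3 := hist_has e1 (i := n + 1) (by omega)
      have f4 := hist_has e1 (i := h) (by omega)
      have f5 := hist_has e1 (i := h + 1) (by omega)
      have f6 := hist_has e1 (i := m) (by omega)
      have f7 := hist_has e1 (i := r + n + h + m + 1) le_rfl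
      have f8 := le_pr_left (r + n + h + m + 1) (xs k (r + n + h + m + 1))
      have f9 := f7.1.lt
      have g1 := V_inv (k := k) (n := r) (by omega)
      have g2 := V_inv (k := k) (n := h) (by omega)
      have g3 := V_inv (k := k) (n := h + 1) (by omega)
      have g4 := cP_has (k := k) (n := n) (by omega)
      obtain ⟨X, hX, hX'⟩ := mk_code (V k h) (fun z => cO (xs k m) z)
      have hX1 : ∀ z, z < V k h → (Bt X z ↔ cO (xs k m) z) := by
        intro z hz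
        rw [hX']
        exact ⟨fun h => h.2, fun h => ⟨hz, h⟩⟩
      refine ⟨r + n + h + m + 1, by omega, _, by omega, e1, r, by omega, n, by omega, h, by omega,
        m, by omega, (e4 _).2 ⟨j + 1, by omega, by omega, by omega, by omega, by omega, rfl⟩,
        xs k r, f1.2, xs k n, f2.2, xs k (n + 1), f3.2, xs k h, f4.2, xs k (h + 1), f5.2,
        xs k m, f6.2, f1.1, f2.1, f3.1, f4.1, f5.1, f6.1, V k r, cD_lt g1.tp.1, V k h,
        cD_lt g2.tp.1, V k (h + 1), cD_lt g3.tp.1, tow k (xs k n),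
        by have := (cP_lt g4).2; omega, g1.tp, g2.tp, g3.tp, g4, e3.2.1, X, hX, hX1, ?_⟩
      intro N _ hN
      obtain ⟨i, ⟨z, hz⟩, h1, _, h2⟩ := e2 N hN
      obtain ⟨_, _, u1, u2⟩ := cU_lt hz
      refine ⟨e5 N hN, i, u1, ⟨z, u2, hz⟩, fun h3 => h2 ?_⟩
      rw [cg3_iff (by omega) hhn hX hX1] at h3
      refine h3.down fun z' hz' => ?_
      rw [e3.2.2]
      exact ⟨hz'.lt_of_lt h1, N, hN, hz'⟩
  · rintro ⟨q, hq, w, hw⟩
    rw [hexp] at hw
    obtain ⟨j, hj⟩ := bd_lt (rep_bd w)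
    have h1 : ∀ᶠ k in Uf, ∃ r, r < j ∧ ∃ n, n < j ∧ ∃ h, h < j ∧ ∃ m, m < j ∧
        (Bt (rep G k) (pr r (pr n (pr h m))) ∧ n < k ∧ h ≤ k ∧ r ≤ k ∧ m ≤ k ∧
        rep q k < 2 ^ V k r ∧ ∃ X, X < 2 ^ V k h ∧ ((∀ z, z < V k h → (Bt X z ↔ cO (xs k m) z)) ∧
          ∀ N, Bt (rep K k) N → N < V k h ∧ ∃ i,
            ¬ CG (xs k (n + 1)) (xs k n) (tow k (xs k n)) (e k) 3 (V k h) (V k (h + 1)) (N + 1) i
              X (rep q k))) := by
      filter_upwards [hw, hj j le_rfl] with k e1 e2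
      obtain ⟨L, _, yL, _, hH, r, hr, n, hn, h, hh, m, hm, hGn, yr, _, yn, _, yn', _, yh, _, yh', _,
        ym, _, b1, b2, b3, b4, b5, b6, f, _, b, _, b', _, D, _, t1, t2, t3, hD, hqf, X, hX, hX1,
        hX2⟩ := e1
      have hL := hist_stage hH e2
      have hLk := (hist_read hH).1
      obtain rfl := hist_at hH (by omega) b1
      obtain rfl := hist_at hH (by omega) b2
      obtain rfl := hist_at hH (by omega) b3
      obtain rfl := hist_at hH (by omega) b4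
      obtain rfl := hist_at hH (by omega) b5
      obtain rfl := hist_at hH (by omega) b6
      obtain rfl := tp_unique t1 (V_inv (k := k) (n := r) (by omega)).tp
      obtain rfl := tp_unique t2 (V_inv (k := k) (n := h) (by omega)).tp
      obtain rfl := tp_unique t3 (V_inv (k := k) (n := h + 1) (by omega)).tp
      obtain rfl := cP_D (by omega) hD
      refine ⟨r, by omega, n, by omega, h, by omega, m, by omega, hGn, by omega, by omega,
        by omega, by omega, hqf, X, hX, hX1, fun N hN => ?_⟩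
      obtain ⟨c1, i, _, _, c2⟩ := hX2 N hN.lt hN
      exact ⟨c1, i, c2⟩
    obtain ⟨r, _, h2⟩ := ev_ex_lt j h1
    obtain ⟨n, _, h3⟩ := ev_ex_lt j h2
    obtain ⟨h, _, h4⟩ := ev_ex_lt j h3
    obtain ⟨m, _, h5⟩ := ev_ex_lt j h4
    have hIRj : IR B e n₀ r n h m := by
      obtain ⟨k, e1, e2⟩ := ev_exists (h5.and hG)
      obtain ⟨j', _, _, _, _, _, h6⟩ := (e2 _).1 e1.1
      obtain ⟨rfl, h7⟩ := pr_inj h6
      obtain ⟨rfl, h8⟩ := pr_inj h7
      obtain ⟨rfl, rfl⟩ := pr_inj h8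
      exact hIR j'
    have hhn := hIRj.hn
    have hnm := hIRj.nm
    have hqb : ∀ᶠ k in Uf, rep q k < 2 ^ V k r := h5.mono fun k hk => hk.2.2.2.2.2.1
    have hcov := (hIRj.un q hqb hq).down hqb (n - h) (h + 1) (by omega) hIRj.R
    rw [apxA.neg_iff]
    intro m₁
    -- it suffices to treat large `m₁`
    filter_upwards [h5, hcov (m + m₁) (by omega), ev_ge (m + m₁)] with k e1 e2 e3 N hN hP
    obtain ⟨_, b1, b2, b3, b4, _, X, hX, hX1, hX2⟩ := e1
    obtain ⟨c1, i, c2⟩ := hX2 N hN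
    apply c2
    rw [cg3_iff b1 hhn hX hX1]
    have hdead : ¬ cO (xs k (m + m₁)) N := by
      rw [PA_iff (by omega)] at hP
      have := dd_mono (by omega : m₁ ≤ m + m₁) e3 hP
      rw [dd_eq e3] at this
      exact this.1
    exact e2.mono fun z hz => G3_of_dead hhn hnm (by omega) e3 hdead hz

/-- `deg A` is a minimal cover of `deg I`. -/
theorem minCover : IsMinCover S cutI setA := by
  refine ⟨ceA, redIA, notRedAI, ?_⟩
  rintro B hCE ⟨-, hBI, hBA, hAB⟩
  obtain ⟨f, c, hf⟩ := id hCE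
  have hBeq : B = fun x => ∃ y, f.holds S (psh y (psh x c)) := funext fun x => propext (hf x)
  have hApx : Apx B (fun m k z => ∃ y, y < xs k m ∧
      f.holds natS (psh y (psh z (fun i => rep (c i) k)))) := by
    rw [hBeq]; exact apx_ce f c
  obtain ⟨e, he, n0, -, hsound, hcomp⟩ := claims hBA
  have hRD : RD B e n0 := ⟨hsound, hcomp⟩
  obtain ⟨ha, hact⟩ := ex_active he
  by_cases hcase : ∃ h₁, ∀ r, ∃ n, n0 ≤ n ∧ r ≤ n + 1 ∧ h₁ ≤ n ∧
      (∀ K : M, (∀ᶠ k in Uf, rep K k < 2 ^ V k r) → Neg S K B → Cov0 e n (n + 1) K) ∧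
      ∀ h, h₁ ≤ h → h ≤ n → Rcase e n r h
  · obtain ⟨h₁, h1⟩ := hcase
    exact hBI (redBI hCE he hRD h₁ h1)
  · push Not at hcase
    refine hAB (redAB he hRD (fun j => ?_))
    obtain ⟨r, hr⟩ := hcase (j + ha)
    obtain ⟨N, hN⟩ := hRD.uniform hApx r
    have h1 := hr (n0 + r + j + ha + N) (by omega) (by omega) (by omega)
      (hN _ (by omega))
    set n := n0 + r + j + ha + N with hn
    obtain ⟨h, h2, h3, h4⟩ := h1
    classical
    -- the topmost independent row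
    let P : ℕ → Prop := fun h => ¬ Rcase e n r h
    have hP : P (Nat.findGreatest P n) := Nat.findGreatest_spec h3 h4
    have hge : h ≤ Nat.findGreatest P n := Nat.le_findGreatest h3 h4
    have hle : Nat.findGreatest P n ≤ n := Nat.findGreatest_le n
    obtain ⟨m, hm, h5⟩ := not_rcase hle (by omega) (hact _ (by omega)) hP
    refine ⟨r, n, Nat.findGreatest P n, m, by omega, by omega, by omega, hle, hN n (by omega), ?_,
      hm, h5⟩
    intro h' h6 h7
    by_contra hc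
    exact Nat.findGreatest_is_greatest (P := P) (by omega) h7 hc

end Pool.Agent.BSig
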